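import Pool.Agent.Lib_MP_b9fedf_ag.Fermat

/-! Entire curves in varieties cut out by few-term equations are contained in torus orbit
closures. -/

set_option autoImplicit false

namespace Pool.Agent.GGL
open Filter Metric Real Set Function MeromorphicOn ValueDistribution

/-- `Λ` is saturated in the group of characters of the diagonal torus. -/
def Saturated {σ : Type} (Λ : AddSubgroup (σ → ℤ)) : Prop :=
  ∀ (k : ℕ) (v : σ → ℤ), k ≠ 0 → k • v ∈ Λ → v ∈ Λ

/-- The subgroup of the diagonal torus on which the characters of `Λ` are trivial (a subtorus when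
`Λ` is saturated). -/
def torus {σ : Type} [Fintype σ] (Λ : AddSubgroup (σ → ℤ)) : Set (σ → ℂ) :=
  {t | (∀ i, t i ≠ 0) ∧ ∀ v ∈ Λ, ∏ i, t i ^ v i = 1}

/-- a linear functional with prescribed integral kernel -/
lemma exists_functional {σ : Type} [Fintype σ] (Λ : AddSubgroup (σ → ℤ)) (hΛ : Saturated Λ) :
    ∃ α : σ → ℂ, ∀ v : σ → ℤ, ∑ i, (v i : ℂ) * α i = 0 ↔ v ∈ Λ := by
  classical
  let Λ' : Submodule ℤ (σ → ℤ) := AddSubgroup.toIntSubmodule Λ
  have htf : Module.IsTorsionFree ℤ ((σ → ℤ) ⧸ Λ') := by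
    rw [Module.isTorsionFree_iff_smul_eq_zero]
    intro n m hm
    obtain ⟨v, rfl⟩ := Submodule.Quotient.mk_surjective Λ' m
    rw [← Submodule.Quotient.mk_smul, Submodule.Quotient.mk_eq_zero] at hm
    by_cases hn : n = 0
    · left; exact hn
    · right
      rw [Submodule.Quotient.mk_eq_zero]
      have h1 : n.natAbs • v ∈ Λ := by
        have h2 : n • v ∈ Λ := hm
        rcases Int.natAbs_eq n with h | h
        · rw [h] at h2
          simpa using h2
        · rw [h] at h2
          rw [neg_smul] at h2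
          have := Λ.neg_mem h2
          simpa using this
      exact hΛ n.natAbs v (by simpa using hn) h1
  let b := Module.Free.chooseBasis ℤ ((σ → ℤ) ⧸ Λ')
  -- rationally independent real numbers
  let B := Module.Basis.ofVectorSpace ℚ ℝ
  have hinf : Infinite (Module.Basis.ofVectorSpaceIndex ℚ ℝ) := by
    by_contra hfin
    rw [not_infinite_iff_finite] at hfin
    have h1 : Module.rank ℚ ℝ < Cardinal.aleph0 := by
      rw [← B.mk_eq_rank'']
      exact Cardinal.lt_aleph0_of_finite _
    rw [Real.rank_rat_real] at h1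
    exact absurd h1 (not_lt.mpr Cardinal.aleph0_lt_continuum.le)
  obtain ⟨e⟩ : Nonempty (Module.Free.ChooseBasisIndex ℤ ((σ → ℤ) ⧸ Λ') ↪
      Module.Basis.ofVectorSpaceIndex ℚ ℝ) := by
    exact ⟨(Fintype.equivFin _).toEmbedding.trans
      (Fin.valEmbedding.trans (Infinite.natEmbedding _))⟩
  have hli : LinearIndependent ℤ (fun j => B (e j)) :=
    (B.linearIndependent.comp e e.injective).restrict_scalars (by
      intro x y hxy
      simpa using hxy)
  let ψ : ((σ → ℤ) ⧸ Λ') →ₗ[ℤ] ℝ := b.constr ℤ (fun j => B (e j))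
  have hψ : ∀ m, ψ m = 0 → m = 0 := by
    intro m hm
    have h1 : ψ m = ∑ j, b.equivFun m j • B (e j) :=
      Module.Basis.constr_apply_fintype (S := ℤ) b (fun j => B (e j)) m
    rw [h1] at hm
    have h2 := Fintype.linearIndependent_iff.mp hli _ hm
    apply b.equivFun.injective
    ext j
    rw [map_zero]
    exact h2 j
  refine ⟨fun i => (ψ (Submodule.Quotient.mk (Pi.single i 1)) : ℝ), fun v => ?_⟩
  have h3 : ∑ i, (v i : ℂ) * ((ψ (Submodule.Quotient.mk (Pi.single i 1)) : ℝ) : ℂ) =
      ((ψ (Submodule.Quotient.mk v) : ℝ) : ℂ) := by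
    have h4 : v = ∑ i, v i • (Pi.single i 1 : σ → ℤ) := by
      ext j
      simp [Finset.sum_apply, Pi.single_apply]
    have h5 : ψ (Submodule.Quotient.mk v) = ∑ i, (v i : ℝ) *
        ψ (Submodule.Quotient.mk (Pi.single i 1)) := by
      conv_lhs => rw [h4]
      have h6 : (Submodule.Quotient.mk (∑ i, v i • (Pi.single i 1 : σ → ℤ)) : (σ → ℤ) ⧸ Λ') =
          ∑ i, v i • Submodule.Quotient.mk (Pi.single i 1) := by
        rw [← Submodule.mkQ_apply, map_sum]
        simp only [map_smul, Submodule.mkQ_apply]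
      rw [h6, map_sum]
      simp only [map_smul, zsmul_eq_mul]
    rw [h5]
    push_cast
    rfl
  rw [h3]
  constructor
  · intro h
    have h7 : ψ (Submodule.Quotient.mk v) = 0 := by exact_mod_cast h
    have h8 := hψ _ h7
    rw [Submodule.Quotient.mk_eq_zero] at h8
    exact h8
  · intro h
    have h8 : (Submodule.Quotient.mk v : (σ → ℤ) ⧸ Λ') = 0 :=
      (Submodule.Quotient.mk_eq_zero Λ').mpr h
    rw [h8, map_zero]; rfl

/-- the points where all coordinates in `I` are non-zero -/
def good {σ : Type} (f : ℂ → σ → ℂ) (I : Finset σ) : Set ℂ := {z | ∀ i ∈ I, f z i ≠ 0}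

lemma prod_zpow_add {σ : Type} [Fintype σ] {x : σ → ℂ} {I : Finset σ} (hx : ∀ i ∈ I, x i ≠ 0)
    {v w : σ → ℤ} (hv : ∀ i, v i ≠ 0 → i ∈ I) (hw : ∀ i, w i ≠ 0 → i ∈ I) :
    ∏ i, x i ^ (v i + w i) = (∏ i, x i ^ v i) * ∏ i, x i ^ w i := by
  rw [← Finset.prod_mul_distrib]
  apply Finset.prod_congr rfl
  intro i _
  by_cases hi : i ∈ I
  · exact zpow_add₀ (hx i hi) _ _
  · have h1 : v i = 0 := by by_contra h; exact hi (hv i h)
    have h2 : w i = 0 := by by_contra h; exact hi (hw i h)
    rw [h1, h2]; simp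

/-- the multiplicative relations between the coordinates of a curve -/
def relLat {σ : Type} [Fintype σ] (f : ℂ → σ → ℂ) (I : Finset σ) : AddSubgroup (σ → ℤ) where
  carrier := {v | (∀ i, v i ≠ 0 → i ∈ I) ∧
    ∀ z ∈ good f I, ∀ w ∈ good f I, ∏ i, f z i ^ v i = ∏ i, f w i ^ v i}
  zero_mem' := by simp
  add_mem' := by
    rintro v w ⟨hv1, hv2⟩ ⟨hw1, hw2⟩
    refine ⟨fun i hi => ?_, fun z hz z' hz' => ?_⟩
    · by_cases h : v i = 0
      · apply hw1
        intro h'
        apply hi
        rw [Pi.add_apply, h, h', add_zero]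
      · exact hv1 i h
    · simp only [Pi.add_apply]
      rw [prod_zpow_add hz hv1 hw1, prod_zpow_add hz' hv1 hw1, hv2 z hz z' hz', hw2 z hz z' hz']
  neg_mem' := by
    rintro v ⟨hv1, hv2⟩
    refine ⟨fun i hi => hv1 i (by simpa using hi), fun z hz z' hz' => ?_⟩
    simp only [Pi.neg_apply, zpow_neg]
    rw [Finset.prod_inv_distrib, Finset.prod_inv_distrib, hv2 z hz z' hz']

lemma countable_zeros {g : ℂ → ℂ} (hg : Differentiable ℂ g) (hne : ∃ z, g z ≠ 0) :
    (g ⁻¹' {0}).Countable := by
  have han : AnalyticOnNhd ℂ g univ := hg.differentiableOn.analyticOnNhd isOpen_univ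
  obtain ⟨x, hx⟩ := hne
  have h := han.preimage_zero_mem_codiscrete (x := x) hx
  have hd : IsDiscrete (g ⁻¹' {0}) := by
    have := (mem_codiscrete'.mp h).2
    simpa using this
  have : DiscreteTopology (g ⁻¹' {0}) := hd.to_subtype
  have hc : Countable (g ⁻¹' {0}) := countable_of_Lindelof_of_discrete
  exact hc

lemma good_compl_countable {σ : Type} [Fintype σ] {f : ℂ → σ → ℂ} (hf : Differentiable ℂ f)
    (I : Finset σ) (hI : ∀ i ∈ I, ∃ z, f z i ≠ 0) : (good f I)ᶜ.Countable := by
  have h1 : (good f I)ᶜ ⊆ ⋃ i ∈ I, (fun z => f z i) ⁻¹' {0} := by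
    intro z hz
    simp only [good, Set.mem_compl_iff, Set.mem_ofPred_eq, not_forall, not_not] at hz
    obtain ⟨i, hi, hz⟩ := hz
    simp only [Set.mem_iUnion]
    exact ⟨i, hi, hz⟩
  apply Set.Countable.mono h1
  apply Set.Countable.biUnion I.countable_toSet
  intro i hi
  exact countable_zeros ((differentiable_pi.mp hf) i) (hI i hi)

lemma good_isConnected {σ : Type} [Fintype σ] {f : ℂ → σ → ℂ} (hf : Differentiable ℂ f)
    (I : Finset σ) (hI : ∀ i ∈ I, ∃ z, f z i ≠ 0) : IsConnected (good f I) := by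
  have h1 := (good_compl_countable hf I hI).isConnected_compl_of_one_lt_rank (by simp)
  rwa [compl_compl] at h1

lemma good_dense {σ : Type} [Fintype σ] {f : ℂ → σ → ℂ} (hf : Differentiable ℂ f)
    (I : Finset σ) (hI : ∀ i ∈ I, ∃ z, f z i ≠ 0) : Dense (good f I) := by
  have h1 := (good_compl_countable hf I hI).dense_compl ℝ
  rwa [compl_compl] at h1

lemma relLat_saturated {σ : Type} [Fintype σ] {f : ℂ → σ → ℂ} (hf : Differentiable ℂ f)
    (I : Finset σ) (hI : ∀ i ∈ I, ∃ z, f z i ≠ 0) : Saturated (relLat f I) := by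
  rintro k v hk ⟨h1, h2⟩
  have hv : ∀ i, v i ≠ 0 → i ∈ I := by
    intro i hi
    apply h1
    rw [Pi.smul_apply, nsmul_eq_mul]
    exact mul_ne_zero (by exact_mod_cast hk) hi
  refine ⟨hv, fun z hz w hw => ?_⟩
  set h : ℂ → ℂ := fun z => ∏ i, f z i ^ v i with hh
  have hpow : ∀ z, h z ^ k = ∏ i, f z i ^ (k • v) i := by
    intro z
    rw [hh, ← Finset.prod_pow]
    apply Finset.prod_congr rfl
    intro i _
    rw [Pi.smul_apply, nsmul_eq_mul, mul_comm, zpow_mul, zpow_natCast]
  have hcont : ContinuousOn h (good f I) := by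
    rw [hh]
    apply continuousOn_finsetProd
    intro i _
    by_cases hi : v i = 0
    · simp only [hi, zpow_zero]
      exact continuousOn_const
    · apply ContinuousOn.zpow₀
      · exact ((differentiable_pi.mp hf) i).continuous.continuousOn
      · intro z hz
        left
        exact hz i (hv i hi)
  have hfin : ({y : ℂ | y ^ k = h z ^ k}).Finite := by
    have h3 : {y : ℂ | y ^ k = h z ^ k} = {y : ℂ | (Polynomial.X ^ k - Polynomial.C (h z ^ k)).IsRoot y} := by
      ext y
      simp [sub_eq_zero]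
    rw [h3]
    apply Polynomial.finite_setOfPred_isRoot
    exact Polynomial.X_pow_sub_C_ne_zero (Nat.pos_of_ne_zero hk) _
  apply (good_isConnected hf I hI).isPreconnected.constant_of_mapsTo hfin.isDiscrete hcont _ hz hw
  intro y hy
  rw [Set.mem_ofPred_eq, hpow, hpow]
  exact h2 y hy z hz

/-- **The orbit of an entire curve under its relation torus stays in the variety.** -/
theorem torus_orbit {σ : Type} [Fintype σ] {f : ℂ → σ → ℂ} (hf : Differentiable ℂ f)
    (I : Finset σ) (hI : ∀ i, i ∈ I ↔ ∃ z, f z i ≠ 0) (p : MvPolynomial σ ℂ) (d : ℕ)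
    (hN : p.support.card * (p.support.card - 2) < d)
    (hd : ∀ a ∈ p.support, ∀ b ∈ p.support, ∀ i, (d : ℤ) ∣ (a i : ℤ) - b i)
    (hp : ∀ z, MvPolynomial.eval (f z) p = 0) (t : σ → ℂ) (ht : t ∈ torus (relLat f I)) (z : ℂ) :
    MvPolynomial.eval (fun i => t i * f z i) p = 0 := by
  classical
  have h1 := poly_weighted hf I hI p d hN hd hp (fun a => ∏ i, t i ^ a i) (by
    intro a _ b _ haI hbI hab
    obtain ⟨c, hc⟩ := hab
    have hprod : ∀ w ∈ good f I, ∏ i, f w i ^ ((a i : ℤ) - b i) = c := by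
      intro w hw
      have h2 : (∏ i, f w i ^ ((a i : ℤ) - b i)) * ∏ i, f w i ^ b i = ∏ i, f w i ^ a i := by
        rw [← Finset.prod_mul_distrib]
        apply Finset.prod_congr rfl
        intro i _
        by_cases hi : i ∈ I
        · rw [zpow_sub₀ (hw i hi), zpow_natCast, zpow_natCast,
            div_mul_cancel₀ _ (pow_ne_zero _ (hw i hi))]
        · have e1 : a i = 0 := by by_contra h; exact hi (haI i h)
          have e2 : b i = 0 := by by_contra h; exact hi (hbI i h)
          rw [e1, e2]; simp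
      have h3 : ∏ i, f w i ^ b i ≠ 0 := by
        apply Finset.prod_ne_zero_iff.mpr
        intro i _
        by_cases h0 : b i = 0
        · rw [h0, pow_zero]; exact one_ne_zero
        · exact pow_ne_zero _ (hw i (hbI i h0))
      rw [hc w] at h2
      exact mul_right_cancel₀ h3 h2
    have hv : (fun i => (a i : ℤ) - b i) ∈ relLat f I := by
      refine ⟨fun i hi => ?_, fun z hz w hw => ?_⟩
      · by_contra hiI
        have e1 : a i = 0 := by by_contra h; exact hiI (haI i h)
        have e2 : b i = 0 := by by_contra h; exact hiI (hbI i h)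
        apply hi
        change (a i : ℤ) - b i = 0
        rw [e1, e2]; simp
      · rw [hprod z hz, hprod w hw]
    have h4 := ht.2 _ hv
    have h5 : (∏ i, t i ^ ((a i : ℤ) - b i)) * ∏ i, t i ^ b i = ∏ i, t i ^ a i := by
      rw [← Finset.prod_mul_distrib]
      apply Finset.prod_congr rfl
      intro i _
      rw [zpow_sub₀ (ht.1 i), zpow_natCast, zpow_natCast,
        div_mul_cancel₀ _ (pow_ne_zero _ (ht.1 i))]
    rw [h4, one_mul] at h5
    exact h5.symm) z
  rw [MvPolynomial.eval_eq', ← h1]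
  symm
  rw [Finset.sum_filter]
  apply Finset.sum_congr rfl
  intro a _
  split_ifs with haI
  · simp only [mul_pow, Finset.prod_mul_distrib]
    ring
  · push Not at haI
    obtain ⟨k, hk, hkI⟩ := haI
    have h2 : f z k = 0 := by
      by_contra h3
      exact hkI ((hI k).mpr ⟨z, h3⟩)
    rw [Finset.prod_eq_zero (Finset.mem_univ k) (by rw [h2]; simp [hk]), mul_zero]

/-- two general points of an entire curve lie in the same orbit -/
lemma exists_torus {σ : Type} [Fintype σ] {f : ℂ → σ → ℂ} (I : Finset σ)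
    (hI : ∀ i, i ∈ I ↔ ∃ z, f z i ≠ 0) {z w : ℂ} (hz : z ∈ good f I) (hw : w ∈ good f I) :
    ∃ t ∈ torus (relLat f I), f w = fun i => t i * f z i := by
  classical
  refine ⟨fun i => if i ∈ I then f w i / f z i else 1, ⟨fun i => ?_, fun v hv => ?_⟩, ?_⟩
  · dsimp only
    split_ifs with hi
    · exact div_ne_zero (hw i hi) (hz i hi)
    · exact one_ne_zero
  · have h1 : (∏ i, (if i ∈ I then f w i / f z i else 1) ^ v i) * ∏ i, f z i ^ v i =
        ∏ i, f w i ^ v i := by
      rw [← Finset.prod_mul_distrib]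
      apply Finset.prod_congr rfl
      intro i _
      split_ifs with hi
      · rw [← mul_zpow, div_mul_cancel₀ _ (hz i hi)]
      · have h2 : v i = 0 := by by_contra h; exact hi (hv.1 i h)
        rw [h2]; simp
    have h3 : ∏ i, f z i ^ v i ≠ 0 := by
      apply Finset.prod_ne_zero_iff.mpr
      intro i _
      by_cases h0 : v i = 0
      · rw [h0, zpow_zero]; exact one_ne_zero
      · exact zpow_ne_zero _ (hz i (hv.1 i h0))
    rw [hv.2 w hw z hz] at h1
    have h4 : (∏ i, (if i ∈ I then f w i / f z i else 1) ^ v i) * ∏ i, f z i ^ v i =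
        1 * ∏ i, f z i ^ v i := by rw [h1, one_mul]
    exact mul_right_cancel₀ h3 h4
  · ext i
    dsimp only
    split_ifs with hi
    · rw [div_mul_cancel₀ _ (hz i hi)]
    · have h1 : ∀ w, f w i = 0 := by
        intro w
        by_contra h
        exact hi ((hI i).mpr ⟨w, h⟩)
      rw [h1, h1, mul_zero]

/-- linear independence of exponentials -/
lemma exp_coeff_zero {ι : Type} [DecidableEq ι] (s : Finset ι) (α : ι → ℂ) (c : ι → ℂ)
    (h : ∀ z, ∑ i ∈ s, c i * Complex.exp (α i * z) = 0) (v : ℂ) :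
    ∑ i ∈ s with α i = v, c i = 0 := by
  classical
  by_cases hv : v ∈ s.image α
  swap
  · rw [Finset.sum_eq_zero]
    intro i hi
    rw [Finset.mem_filter] at hi
    exact absurd (Finset.mem_image.mpr ⟨i, hi.1, hi.2⟩) hv
  let χ : ℂ → (Multiplicative ℂ →* ℂ) := fun v =>
    { toFun := fun z => Complex.exp (v * Multiplicative.toAdd z)
      map_one' := by simp
      map_mul' := fun x y => by rw [toAdd_mul, mul_add, Complex.exp_add] }
  have hχ : Function.Injective χ := by
    intro v w hvw
    have h1 : (fun z : ℂ => Complex.exp (v * z)) = fun z => Complex.exp (w * z) := by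
      ext z
      exact DFunLike.congr_fun hvw (Multiplicative.ofAdd z)
    have h2 : HasDerivAt (fun z : ℂ => Complex.exp (v * z)) v 0 := by
      have := ((hasDerivAt_id (0 : ℂ)).const_mul v).cexp
      simpa using this
    have h3 : HasDerivAt (fun z : ℂ => Complex.exp (w * z)) w 0 := by
      have := ((hasDerivAt_id (0 : ℂ)).const_mul w).cexp
      simpa using this
    rw [h1] at h2
    exact h2.unique h3
  have hli := (linearIndependent_monoidHom (Multiplicative ℂ) ℂ).comp χ hχ
  rw [linearIndependent_iff'] at hli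
  refine hli (s.image α) (fun v => ∑ i ∈ s with α i = v, c i) ?_ v hv
  ext z
  rw [Finset.sum_apply, Pi.zero_apply, ← h (Multiplicative.toAdd z)]
  symm
  rw [← Finset.sum_fiberwise_of_maps_to (g := α) (t := s.image α)
    (fun i hi => Finset.mem_image_of_mem _ hi)]
  apply Finset.sum_congr rfl
  intro v _
  simp only [Pi.smul_apply, smul_eq_mul, Function.comp]
  rw [Finset.sum_mul]
  apply Finset.sum_congr rfl
  intro i hi
  rw [(Finset.mem_filter.mp hi).2]
  rfl

/-- the orbit closure of a subtorus contains a dense entire curve -/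
lemma orbit_dense {σ : Type} [Fintype σ] (Λ : AddSubgroup (σ → ℤ)) (α : σ → ℂ)
    (hα : ∀ v : σ → ℤ, ∑ i, (v i : ℂ) * α i = 0 ↔ v ∈ Λ) (x : σ → ℂ) (q : MvPolynomial σ ℂ)
    (h : ∀ z, MvPolynomial.eval (fun i => Complex.exp (α i * z) * x i) q = 0) (t : σ → ℂ)
    (ht : t ∈ torus Λ) : MvPolynomial.eval (fun i => t i * x i) q = 0 := by
  classical
  set A : (σ →₀ ℕ) → ℂ := fun a => ∑ i, (a i : ℂ) * α i with hA
  have h1 : ∀ z, ∑ a ∈ q.support, (MvPolynomial.coeff a q * ∏ i, x i ^ a i) *
      Complex.exp (A a * z) = 0 := by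
    intro z
    rw [← h z, MvPolynomial.eval_eq']
    apply Finset.sum_congr rfl
    intro a _
    have h2 : Complex.exp (A a * z) = ∏ i, Complex.exp (α i * z) ^ a i := by
      rw [hA, Finset.sum_mul, Complex.exp_sum]
      apply Finset.prod_congr rfl
      intro i _
      rw [← Complex.exp_nat_mul]
      congr 1
      ring
    rw [h2]
    simp only [mul_pow, Finset.prod_mul_distrib]
    ring
  have h3 : ∀ a b : σ →₀ ℕ, A a = A b → ∏ i, t i ^ a i = ∏ i, t i ^ b i := by
    intro a b hab
    have h4 : (fun i => (a i : ℤ) - b i) ∈ Λ := by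
      rw [← hα]
      push_cast
      simp only [sub_mul, Finset.sum_sub_distrib]
      exact sub_eq_zero.mpr hab
    have h5 := ht.2 _ h4
    have h6 : (∏ i, t i ^ ((a i : ℤ) - b i)) * ∏ i, t i ^ b i = ∏ i, t i ^ a i := by
      rw [← Finset.prod_mul_distrib]
      apply Finset.prod_congr rfl
      intro i _
      rw [zpow_sub₀ (ht.1 i), zpow_natCast, zpow_natCast,
        div_mul_cancel₀ _ (pow_ne_zero _ (ht.1 i))]
    rw [h5, one_mul] at h6
    exact h6.symm
  rw [MvPolynomial.eval_eq', ← Finset.sum_fiberwise_of_maps_to (g := A) (t := q.support.image A)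
    (fun i hi => Finset.mem_image_of_mem _ hi)]
  apply Finset.sum_eq_zero
  intro v hv
  obtain ⟨b, hb, hbv⟩ := Finset.mem_image.mp hv
  have h7 := exp_coeff_zero q.support A (fun a => MvPolynomial.coeff a q * ∏ i, x i ^ a i) h1 v
  calc ∑ a ∈ q.support with A a = v, MvPolynomial.coeff a q * ∏ i, (t i * x i) ^ a i
      = ∑ a ∈ q.support with A a = v, (MvPolynomial.coeff a q * ∏ i, x i ^ a i) *
          ∏ i, t i ^ b i := by
        apply Finset.sum_congr rfl
        intro a ha
        rw [← h3 a b ((Finset.mem_filter.mp ha).2.trans hbv.symm)]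
        simp only [mul_pow, Finset.prod_mul_distrib]
        ring
    _ = 0 := by rw [← Finset.sum_mul, h7, zero_mul]

end Pool.Agent.GGL
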