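import Pool.Agent.Lib_MP_b9fedf_ag.Contr

/-! A theorem of Borel-Green-Toda type: entire functions with vanishing sum and zeros of
multiplicities congruent modulo `d`. -/

set_option autoImplicit false

namespace Pool.Agent.GGL
open Filter Metric Real Set Function MeromorphicOn ValueDistribution

lemma div_mero {g h : ℂ → ℂ} (hg : Differentiable ℂ g) (hh : Differentiable ℂ h) :
    Meromorphic (fun z => g z / h z) := fun z => (mero_of_diff hg z).fun_div (mero_of_diff hh z)

lemma div_order_ne_top {g h : ℂ → ℂ} (hg : Differentiable ℂ g) (hh : Differentiable ℂ h)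
    (hg0 : ∃ z, g z ≠ 0) (hh0 : ∃ z, h z ≠ 0) (z : ℂ) :
    meromorphicOrderAt (fun z => g z / h z) z ≠ ⊤ := by
  have h1 : (fun z => g z / h z) = (fun z => g z * (h⁻¹) z) := by
    ext z; rw [Pi.inv_apply, div_eq_mul_inv]
  rw [h1, fun_meromorphicOrderAt_mul (mero_of_diff hg z) (mero_of_diff hh z).inv,
    meromorphicOrderAt_inv]
  have h2 := mOrder_ne_top hg hg0 z
  have h3 := mOrder_ne_top hh hh0 z
  cases h4 : meromorphicOrderAt h z with
  | top => exact absurd h4 h3
  | coe n =>
    cases h5 : meromorphicOrderAt g z with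
    | top => exact absurd h5 h2
    | coe k => 
      rw [← WithTop.LinearOrderedAddCommGroup.coe_neg, ← WithTop.coe_add]
      exact WithTop.coe_ne_top

/-- the periodic case -/
theorem green_periodic {m : ℕ} (hm : 2 ≤ m) (g : Fin (m + 1) → ℂ → ℂ)
    (hg : ∀ k, Differentiable ℂ (g k)) (hne : ∀ k, ∃ z, g k z ≠ 0) (hsum : ∀ z, ∑ k, g k z = 0)
    (hli : LinearIndependent ℂ (fun i : Fin m => g i.succ))
    (hper : ∀ k z, g k (z + 2 * Real.pi * Complex.I) = g k z)
    (d : ℕ) (hd : (m + 1) * (m - 1) < d)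
    (hdvd : ∀ k l a, (d : ℤ) ∣ Dv (g k) a - Dv (g l) a) : False := by
  classical
  set Dc := minDv (fun k => Dv (g k)) with hDc
  have hm1 : 1 ≤ m := by omega
  set E : locallyFinsupp ℂ ℤ := (m - 1) • ∑ k, (Dv (g k) - Dc) with hE
  have hEle : ∀ a, (d : ℤ) * ∑ k, min (Dv (g k) a - Dc a) ((m : ℤ) - 1) ≤ E a := by
    intro a
    rw [hE, locallyFinsuppWithin.coe_nsmul, Pi.smul_apply, locallyFinsuppWithin.coe_sum,
      Finset.sum_apply, nsmul_eq_mul, Finset.mul_sum, Finset.mul_sum]
    apply Finset.sum_le_sum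
    intro k _
    rw [locallyFinsuppWithin.coe_sub, Pi.sub_apply]
    obtain ⟨l, hl⟩ := exists_minDv (fun k => Dv (g k)) a
    have h1 : (d : ℤ) ∣ Dv (g k) a - Dc a := by rw [hDc, hl]; exact hdvd k l a
    have h2 : 0 ≤ Dv (g k) a - Dc a := by
      have := minDv_le (fun k => Dv (g k)) k a
      rw [hDc]; linarith
    obtain ⟨c, hc⟩ := h1
    rw [hc] at h2 ⊢
    have hd0 : (0 : ℤ) < d := by
      have : 0 < d := lt_of_le_of_lt (Nat.zero_le _) hd
      exact_mod_cast this
    have hcast : ((m - 1 : ℕ) : ℤ) = (m : ℤ) - 1 := by push_cast [Nat.cast_sub hm1]; ring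
    rw [hcast]
    have hm0 : (0 : ℤ) ≤ (m : ℤ) - 1 := by omega
    rcases le_or_gt c 0 with hc0 | hc0
    · have hc1 : c = 0 := by
        by_contra hne
        have : c ≤ -1 := by omega
        nlinarith
      rw [hc1, mul_zero, mul_zero, min_eq_left hm0, mul_zero]
    · calc (d : ℤ) * min ((d : ℤ) * c) ((m : ℤ) - 1) ≤ d * ((m : ℤ) - 1) :=
            mul_le_mul_of_nonneg_left (min_le_right _ _) hd0.le
        _ ≤ ((m : ℤ) - 1) * (d * c) := by nlinarith [mul_nonneg hm0 hd0.le]
  obtain ⟨C, hC⟩ := cartan' hm1 g hg hne hsum hli d E hEle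
  -- the quotient functions
  set G : Fin (m + 1) → ℂ → ℂ := fun k z => g k z / g 0 z with hG
  have hGm : ∀ k, Meromorphic (G k) := fun k => div_mero (hg k) (hg 0)
  obtain ⟨C1, hC11, hC1⟩ := ldl G hGm (fun k z => div_order_ne_top (hg k) (hg 0) (hne k) (hne 0) z)
  set τ : ℝ → ℝ := fun r => ∑ k, characteristic (G k) ⊤ r with hτ
  have hτmono : MonotoneOn τ (Set.Ici 1) := by
    intro a ha b hb hab
    apply Finset.sum_le_sum
    intro k _
    exact characteristic_monotoneOn (hGm k) (show (0 : ℝ) < a from lt_of_lt_of_le one_pos ha)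
      (show (0 : ℝ) < b from lt_of_lt_of_le one_pos hb) hab
  have hτ0 : ∀ r, 1 ≤ r → 0 ≤ τ r := fun r hr =>
    Finset.sum_nonneg fun k _ => characteristic_nonneg hr
  set c0 : ℝ := |Real.log ‖meromorphicTrailingCoeffAt (g 0) 0‖| with hc0
  set cs : ℝ := ∑ k, |Real.log ‖meromorphicTrailingCoeffAt (g k) 0‖| with hcs
  have hτT : ∀ r, 1 ≤ r → τ r ≤ (m + 1) * (TC g r + c0) := by
    intro r hr
    have : ∀ k ∈ (Finset.univ : Finset (Fin (m + 1))), characteristic (G k) ⊤ r ≤
        TC g r + c0 := by
      intro k _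
      have h1 := characteristic_div_le_TC hg hne hr k 0
      have h2 := neg_abs_le (Real.log ‖meromorphicTrailingCoeffAt (g 0) 0‖)
      linarith
    refine (Finset.sum_le_sum this).trans (le_of_eq ?_)
    rw [Finset.sum_const, Finset.card_univ, Fintype.card_fin, nsmul_eq_mul]
    push_cast
    ring
  -- upper bound for `N(E)`
  have hNE : ∀ r, 1 ≤ r → Function.locallyFinsuppWithin.logCounting E r ≤
      (m - 1) * ((m + 1) * TC g r + cs) := by
    intro r hr
    rw [hE, map_nsmul, Pi.smul_apply, map_sum, Finset.sum_apply, nsmul_eq_mul]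
    have hcast : ((m - 1 : ℕ) : ℝ) = (m : ℝ) - 1 := by push_cast [Nat.cast_sub hm1]; ring
    rw [hcast]
    have hm0 : (0 : ℝ) ≤ (m : ℝ) - 1 := by
      have : (1 : ℝ) ≤ m := by exact_mod_cast hm1
      linarith
    apply mul_le_mul_of_nonneg_left _ hm0
    have : ∀ k ∈ (Finset.univ : Finset (Fin (m + 1))),
        Function.locallyFinsuppWithin.logCounting (Dv (g k) - Dc) r ≤
        TC g r + |Real.log ‖meromorphicTrailingCoeffAt (g k) 0‖| := by
      intro k _
      have h1 := N_le_TC hg hne hr k
      have h2 := neg_abs_le (Real.log ‖meromorphicTrailingCoeffAt (g k) 0‖)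
      linarith
    refine (Finset.sum_le_sum this).trans (le_of_eq ?_)
    rw [Finset.sum_add_distrib, Finset.sum_const, Finset.card_univ, Fintype.card_fin, nsmul_eq_mul]
    push_cast
    ring
  have hdm : (1 : ℝ) ≤ d - (m - 1) * (m + 1) := by
    have h1 : (m + 1) * (m - 1) + 1 ≤ d := hd
    have h2 : (((m + 1) * (m - 1) + 1 : ℕ) : ℝ) ≤ d := by exact_mod_cast h1
    rw [Nat.cast_add, Nat.cast_mul, Nat.cast_sub hm1] at h2
    push_cast at h2
    linarith
  -- a non-proportional pair
  have hnp : ∀ c : ℂ, ∃ z, g (Fin.succ ⟨0, by omega⟩) z ≠ c * g 0 z := by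
    intro c
    by_contra hcon
    push Not at hcon
    -- `g 1 = c g 0`, `g 0 = - ∑ g (succ i)`
    have h0 : ∀ z, g 0 z = - ∑ i : Fin m, g i.succ z := by
      intro z
      have := hsum z
      rw [Fin.sum_univ_succ] at this
      linear_combination this
    rw [Fintype.linearIndependent_iff] at hli
    set i0 : Fin m := ⟨0, by omega⟩ with hi0
    set i1 : Fin m := ⟨1, by omega⟩ with hi1
    have h2 := hli (fun i => if i = i0 then 1 + c else c) (by
      ext z
      simp only [Finset.sum_apply, Pi.smul_apply, smul_eq_mul, Pi.zero_apply]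
      have h3 : ∑ i : Fin m, (if i = i0 then 1 + c else c) * g i.succ z =
          g i0.succ z + c * ∑ i : Fin m, g i.succ z := by
        have h4 : ∀ i : Fin m, (if i = i0 then 1 + c else c) * g i.succ z =
            (if i = i0 then g i.succ z else 0) + c * g i.succ z := by
          intro i; split_ifs <;> ring
        simp_rw [h4]
        rw [Finset.sum_add_distrib, Finset.sum_ite_eq' Finset.univ i0, ← Finset.mul_sum]
        simp
      rw [h3, hcon z, h0 z]
      ring)
    have h3 := h2 i0
    have h4 := h2 i1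
    have h5 : i1 ≠ i0 := by simp [hi0, hi1]
    rw [if_neg h5] at h4
    rw [if_pos rfl, h4] at h3
    simp at h3
  refine growth_contradiction τ hτmono hτ0
    ((m + 1) * ((m - 1) * cs + d * (|C| + m ^ 2 * (Real.log C1 + 4)) + c0)) ?_ ?_
  · intro r δ hr hδ0 hδ1
    obtain ⟨r', hr', B, hB1, hBle, hder⟩ := hC1 r δ hr hδ0 hδ1
    refine ⟨r', hr', ?_⟩
    have hr'1 : 1 ≤ r' := hr.trans hr'.1
    have h1 := hC r' B hr'1 hB1 (fun k z hz han i => hder k z hz han i)
    have h2 := hNE r' hr'1
    have h3 := hτT r' hr'1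
    set X : ℝ := (1 + τ (r + 2 * δ)) * (r + 2) / δ with hX
    have hX1 : 1 ≤ X := by
      rw [hX, le_div_iff₀ hδ0]
      have := hτ0 (r + 2 * δ) (by linarith)
      nlinarith
    have hlogX : 0 ≤ Real.log X := Real.log_nonneg hX1
    have hlogB : Real.log B ≤ Real.log C1 + 4 * Real.log X := by
      have h4 := Real.log_le_log (by linarith) hBle
      rw [Real.log_mul (by linarith) (by positivity), Real.log_pow] at h4
      push_cast at h4
      exact h4
    have hlogC1 : 0 ≤ Real.log C1 := Real.log_nonneg hC11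
    have h5 : TC g r' ≤ (m - 1) * cs + d * (|C| + m ^ 2 * (Real.log C1 + 4 * Real.log X)) := by
      have h6 : (d - (m - 1) * (m + 1)) * TC g r' ≤
          (m - 1) * cs + d * (|C| + m ^ 2 * (Real.log C1 + 4 * Real.log X)) := by
        have h7 : (d : ℝ) * (C + m ^ 2 * Real.log B) ≤
            d * (|C| + m ^ 2 * (Real.log C1 + 4 * Real.log X)) := by
          apply mul_le_mul_of_nonneg_left _ (Nat.cast_nonneg d)
          apply add_le_add (le_abs_self C)
          exact mul_le_mul_of_nonneg_left hlogB (by positivity)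
        linarith
      have hR0 : 0 ≤ (m - 1) * cs + d * (|C| + m ^ 2 * (Real.log C1 + 4 * Real.log X)) := by
        have hm0 : (0 : ℝ) ≤ (m : ℝ) - 1 := by
          have : (1 : ℝ) ≤ m := by exact_mod_cast hm1
          linarith
        have hcs0 : 0 ≤ cs := Finset.sum_nonneg fun _ _ => abs_nonneg _
        positivity
      rcases le_or_gt (TC g r') 0 with h8 | h8
      · exact h8.trans hR0
      · nlinarith
    have hm1' : (0 : ℝ) < (m : ℝ) + 1 := by positivity
    calc τ r' ≤ (m + 1) * (TC g r' + c0) := h3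
      _ ≤ (m + 1) * ((m - 1) * cs + d * (|C| + m ^ 2 * (Real.log C1 + 4 * Real.log X)) + c0) := by
          apply mul_le_mul_of_nonneg_left _ hm1'.le
          linarith
      _ ≤ (m + 1) * ((m - 1) * cs + d * (|C| + m ^ 2 * (Real.log C1 + 4)) + c0) *
          (1 + Real.log X) := by
          rw [mul_assoc]
          apply mul_le_mul_of_nonneg_left _ hm1'.le
          have hm0 : (0 : ℝ) ≤ (m : ℝ) - 1 := by
            have : (1 : ℝ) ≤ m := by exact_mod_cast hm1
            linarith
          have hcs0 : 0 ≤ cs := Finset.sum_nonneg fun _ _ => abs_nonneg _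
          have hc00 : 0 ≤ c0 := abs_nonneg _
          have hd0 : (0 : ℝ) ≤ d := Nat.cast_nonneg d
          have hCa : 0 ≤ |C| := abs_nonneg C
          have e1 : 0 ≤ (m - 1) * cs * Real.log X := by positivity
          have e2 : 0 ≤ c0 * Real.log X := by positivity
          have e3 : 0 ≤ d * |C| * Real.log X := by positivity
          have e4 : 0 ≤ (d : ℝ) * m ^ 2 * 4 := by positivity
          have e5 : 0 ≤ (d : ℝ) * m ^ 2 * Real.log C1 * Real.log X := by positivity
          nlinarith
  · intro A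
    obtain ⟨r₀, hr₀⟩ := characteristic_div_ge_log (hg (Fin.succ ⟨0, by omega⟩)) (hg 0) (hne 0)
      (hper _) (hper 0) hnp A
    refine ⟨max r₀ 1, fun r hr => ?_⟩
    have h1 := hr₀ r ((le_max_left _ _).trans hr)
    refine h1.trans ?_
    exact Finset.single_le_sum (f := fun k => characteristic (G k) ⊤ r)
      (fun k _ => characteristic_nonneg ((le_max_right _ _).trans hr))
      (Finset.mem_univ (Fin.succ ⟨0, by omega⟩))

lemma Dv_comp_exp {g : ℂ → ℂ} (hg : Differentiable ℂ g) (a : ℂ) :
    Dv (fun z => g (Complex.exp z)) a = Dv g (Complex.exp a) := by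
  have h1 : Differentiable ℂ (fun z => g (Complex.exp z)) := hg.comp Complex.differentiable_exp
  rw [MeromorphicOn.divisor_apply (mero_of_diff h1).meromorphicOn (Set.mem_univ _),
    MeromorphicOn.divisor_apply (mero_of_diff hg).meromorphicOn (Set.mem_univ _)]
  have h2 := meromorphicOrderAt_comp_of_deriv_ne_zero (f := g) (g := Complex.exp) (x := a)
    (Complex.differentiable_exp.analyticAt a) (by rw [Complex.deriv_exp]; exact Complex.exp_ne_zero a)
  have h3 : (g ∘ Complex.exp) = (fun z => g (Complex.exp z)) := rfl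
  rw [h3] at h2
  rw [h2]

/-- entire functions agreeing after composition with `exp` agree -/
lemma eq_of_comp_exp {g h : ℂ → ℂ} (hg : Continuous g) (hh : Continuous h)
    (H : ∀ z, g (Complex.exp z) = h (Complex.exp z)) : g = h := by
  have h1 : ∀ w, w ≠ 0 → g w = h w := by
    intro w hw
    have := H (Complex.log w)
    rwa [Complex.exp_log hw] at this
  have hd : Dense {w : ℂ | w ≠ 0} := dense_compl_singleton 0
  exact hg.ext_on hd hh (fun w hw => h1 w hw)

/-- **Borel-Green-Toda with truncation**: if `m + 1 ≥ 3` entire functions have vanishing sum, `m`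
of them are linearly independent and all orders of vanishing are congruent mod `d`, then
`d ≤ (m + 1) (m - 1)`. -/
theorem green {m : ℕ} (hm : 2 ≤ m) (g : Fin (m + 1) → ℂ → ℂ)
    (hg : ∀ k, Differentiable ℂ (g k)) (hne : ∀ k, ∃ z, g k z ≠ 0) (hsum : ∀ z, ∑ k, g k z = 0)
    (hli : LinearIndependent ℂ (fun i : Fin m => g i.succ))
    (d : ℕ) (hd : (m + 1) * (m - 1) < d)
    (hdvd : ∀ k l a, (d : ℤ) ∣ Dv (g k) a - Dv (g l) a) : False := by
  refine green_periodic hm (fun k z => g k (Complex.exp z))
    (fun k => (hg k).comp Complex.differentiable_exp) ?_ (fun z => hsum _) ?_ ?_ d hd ?_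
  · intro k
    by_contra hcon
    push Not at hcon
    have h1 := eq_of_comp_exp (g := g k) (h := fun _ => 0) (hg k).continuous continuous_const
      (fun z => hcon z)
    obtain ⟨z, hz⟩ := hne k
    exact hz (by rw [h1])
  · rw [Fintype.linearIndependent_iff] at hli ⊢
    intro c hc
    apply hli c
    have h1 : Continuous (fun w => ∑ i : Fin m, c i * g i.succ w) :=
      continuous_finsetSum _ fun i _ => continuous_const.mul (hg i.succ).continuous
    have h2 := eq_of_comp_exp (g := fun w => ∑ i : Fin m, c i * g i.succ w) (h := fun _ => 0) h1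
      continuous_const (fun z => by
        have := congrFun hc z
        simpa [Finset.sum_apply] using this)
    ext w
    have h3 := congrFun h2 w
    simpa [Finset.sum_apply] using h3
  · intro k z
    show g k (Complex.exp (z + 2 * Real.pi * Complex.I)) = g k (Complex.exp z)
    rw [Complex.exp_add, Complex.exp_two_pi_mul_I, mul_one]
  · intro k l a
    have h1 := Dv_comp_exp (hg k) a
    have h2 := Dv_comp_exp (hg l) a
    show (d : ℤ) ∣ Dv (fun z => g k (Complex.exp z)) a - Dv (fun z => g l (Complex.exp z)) a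
    rw [h1, h2]
    exact hdvd k l _

/-- minimal representation of an element of a span -/
lemma exists_min_span {V ι : Type} [AddCommGroup V] [Module ℂ V] [DecidableEq ι] (v : ι → V) (x : V)
    (s : Finset ι) (hx : x ∈ Submodule.span ℂ (v '' (s : Set ι))) :
    ∃ t ⊆ s, ∃ c : ι → ℂ, (∀ i ∈ t, c i ≠ 0) ∧ x = ∑ i ∈ t, c i • v i ∧
      ∀ a : ι → ℂ, ∑ i ∈ t, a i • v i = 0 → ∀ i ∈ t, a i = 0 := by
  classical
  -- choose `t` of minimal cardinality
  set P : ℕ → Prop := fun n => ∃ t ⊆ s, t.card = n ∧ ∃ c : ι → ℂ, x = ∑ i ∈ t, c i • v i with hP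
  have hex : ∃ n, P n := by
    refine ⟨s.card, s, Finset.Subset.refl _, rfl, ?_⟩
    rw [Submodule.mem_span_image_finset_iff_exists_fun'] at hx
    obtain ⟨c, hc⟩ := hx
    exact ⟨c, hc.symm⟩
  obtain ⟨t, hts, hcard, c, hc⟩ := Nat.find_spec hex
  have hmin : ∀ t' ⊆ s, (∃ c : ι → ℂ, x = ∑ i ∈ t', c i • v i) → t.card ≤ t'.card := by
    intro t' ht' h
    rw [hcard]
    exact Nat.find_min' hex ⟨t', ht', rfl, h⟩
  refine ⟨t, hts, c, ?_, hc, ?_⟩
  · intro i hi h0
    have h1 := hmin (t.erase i) ((Finset.erase_subset _ _).trans hts) ⟨c, by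
      rw [hc, ← Finset.add_sum_erase t _ hi, h0, zero_smul, zero_add]⟩
    rw [Finset.card_erase_of_mem hi] at h1
    have := Finset.card_pos.mpr ⟨i, hi⟩
    omega
  · intro a ha j hj
    by_contra haj
    have h1 := hmin (t.erase j) ((Finset.erase_subset _ _).trans hts)
      ⟨fun i => c i - c j / a j * a i, by
        have h2 : ∑ i ∈ t.erase j, (c i - c j / a j * a i) • v i =
            ∑ i ∈ t, (c i - c j / a j * a i) • v i := by
          rw [← Finset.add_sum_erase t _ hj]
          have : c j - c j / a j * a j = 0 := by field_simp; ring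
          rw [this, zero_smul, zero_add]
        rw [h2]
        simp_rw [sub_smul, mul_smul]
        rw [Finset.sum_sub_distrib, ← Finset.smul_sum, ha, smul_zero, sub_zero]
        exact hc⟩
    rw [Finset.card_erase_of_mem hj] at h1
    have := Finset.card_pos.mpr ⟨j, hj⟩
    omega

lemma Dv_const_mul {g : ℂ → ℂ} (hg : Differentiable ℂ g) {c : ℂ} (hc : c ≠ 0) (a : ℂ) :
    Dv (fun z => c * g z) a = Dv g a := by
  have h1 : Differentiable ℂ (fun z => c * g z) := hg.const_mul c
  rw [MeromorphicOn.divisor_apply (mero_of_diff h1).meromorphicOn (Set.mem_univ _),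
    MeromorphicOn.divisor_apply (mero_of_diff hg).meromorphicOn (Set.mem_univ _),
    fun_meromorphicOrderAt_mul (MeromorphicAt.const c a) (mero_of_diff hg a),
    meromorphicOrderAt_const]
  simp [hc]

/-- **Vanishing block sums.**  If finitely many entire functions, none of them identically zero,
have vanishing sum and all orders of vanishing at each point are congruent mod `d`,
`d > N (N - 2)`, then the sum over each class of proportional functions vanishes. -/
theorem block_sum {ι : Type} [Fintype ι] (g : ι → ℂ → ℂ)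
    (hg : ∀ k, Differentiable ℂ (g k)) (hne : ∀ k, ∃ z, g k z ≠ 0) (hsum : ∀ z, ∑ k, g k z = 0)
    (d : ℕ) (hd : Fintype.card ι * (Fintype.card ι - 2) < d)
    (hdvd : ∀ k l a, (d : ℤ) ∣ Dv (g k) a - Dv (g l) a) (i₀ : ι) (s : Finset ι)
    (hs : ∀ i, i ∈ s ↔ ∃ c : ℂ, ∀ z, g i z = c * g i₀ z) (z : ℂ) : ∑ i ∈ s, g i z = 0 := by
  classical
  -- the equivalence relation
  let S : Setoid ι :=
    { r := fun i j => ∃ c : ℂ, ∀ z, g i z = c * g j z
      iseqv :=
        { refl := fun i => ⟨1, fun z => by rw [one_mul]⟩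
          symm := by
            rintro i j ⟨c, hc⟩
            have hc0 : c ≠ 0 := by
              rintro rfl
              obtain ⟨z, hz⟩ := hne i
              exact hz (by rw [hc z, zero_mul])
            exact ⟨c⁻¹, fun z => by rw [hc z]; field_simp⟩
          trans := by
            rintro i j k ⟨c, hc⟩ ⟨c', hc'⟩
            exact ⟨c * c', fun z => by rw [hc z, hc' z]; ring⟩ } }
  let Q := Quotient S
  have : Fintype Q := Quotient.fintype S
  let h : Q → ℂ → ℂ := fun q z => ∑ i with (⟦i⟧ : Q) = q, g i z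
  have hrep : ∀ q : Q, ∃ C : ℂ, ∀ z, h q z = C * g q.out z := by
    intro q
    have h1 : ∀ i, (⟦i⟧ : Q) = q → ∃ c : ℂ, ∀ z, g i z = c * g q.out z := by
      intro i hi
      have h2 : (⟦i⟧ : Q) = ⟦q.out⟧ := by rw [hi, Quotient.out_eq]
      exact Quotient.exact h2
    choose! c hc using h1
    refine ⟨∑ i with (⟦i⟧ : Q) = q, c i, fun z => ?_⟩
    rw [Finset.sum_mul]
    apply Finset.sum_congr rfl
    intro i hi
    exact hc i (Finset.mem_filter.mp hi).2 z
  choose C hC using hrep
  have hhsum : ∀ z, ∑ q, h q z = 0 := by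
    intro z
    rw [← hsum z]
    exact Finset.sum_fiberwise Finset.univ (fun i => (⟦i⟧ : Q)) (fun i => g i z)
  have hsq : s = Finset.univ.filter (fun i => (⟦i⟧ : Q) = ⟦i₀⟧) := by
    ext i
    rw [hs, Finset.mem_filter]
    constructor
    · intro hi; exact ⟨Finset.mem_univ _, Quotient.sound hi⟩
    · intro hi; exact Quotient.exact hi.2
  have hgoal : ∑ i ∈ s, g i z = h ⟦i₀⟧ z := by rw [hsq]
  rw [hgoal]
  by_contra hcon
  set q0 : Q := ⟦i₀⟧ with hq0
  have hq0ne : h q0 ≠ 0 := fun h1 => hcon (by rw [h1]; rfl)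
  have hnonprop : ∀ q q' : Q, q ≠ q' → h q ≠ 0 → h q' ≠ 0 → ∀ c : ℂ, h q ≠ c • h q' := by
    intro q q' hqq hq hq' c hcq
    have hCq : C q ≠ 0 := by
      intro h1; apply hq; ext w; rw [hC, h1, zero_mul]; rfl
    apply hqq
    rw [← Quotient.out_eq q, ← Quotient.out_eq q']
    apply Quotient.sound
    refine ⟨(C q)⁻¹ * (c * C q'), fun w => ?_⟩
    have h1 := congrFun hcq w
    rw [Pi.smul_apply, smul_eq_mul, hC, hC] at h1
    calc g q.out w = (C q)⁻¹ * (C q * g q.out w) := by field_simp
      _ = (C q)⁻¹ * (c * (C q' * g q'.out w)) := by rw [h1]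
      _ = _ := by ring
  -- `h q0` is in the span of the other non-zero ones
  set T : Finset Q := Finset.univ.filter (fun q => q ≠ q0 ∧ h q ≠ 0) with hT
  have hspan : h q0 ∈ Submodule.span ℂ (h '' (T : Set Q)) := by
    rw [Submodule.mem_span_image_finset_iff_exists_fun']
    refine ⟨fun _ => -1, ?_⟩
    ext w
    rw [Finset.sum_apply]
    simp only [Pi.smul_apply, smul_eq_mul, neg_mul, one_mul, Finset.sum_neg_distrib]
    have h1 := hhsum w
    rw [← Finset.add_sum_erase _ _ (Finset.mem_univ q0)] at h1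
    have h2 : ∑ q ∈ T, h q w = ∑ q ∈ Finset.univ.erase q0, h q w := by
      apply Finset.sum_subset_zero_on_sdiff
      · intro q hq
        rw [hT, Finset.mem_filter] at hq
        exact Finset.mem_erase.mpr ⟨hq.2.1, Finset.mem_univ _⟩
      · intro q hq
        rw [Finset.mem_sdiff, Finset.mem_erase, hT, Finset.mem_filter] at hq
        by_contra h3
        exact hq.2 ⟨Finset.mem_univ _, hq.1.1, fun h4 => h3 (by rw [h4]; rfl)⟩
      · intro q _; rfl
    rw [h2]
    linear_combination -h1
  obtain ⟨t, htT, c, hc0, hcsum, hcind⟩ := exists_min_span h (h q0) T hspan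
  have htne : ∀ q ∈ t, q ≠ q0 ∧ h q ≠ 0 := by
    intro q hq
    have := htT hq
    rw [hT, Finset.mem_filter] at this
    exact this.2
  have hcard : 2 ≤ t.card := by
    by_contra hlt
    have h1 : t.card = 0 ∨ t.card = 1 := by omega
    rcases h1 with h1 | h1
    · rw [Finset.card_eq_zero] at h1
      rw [h1, Finset.sum_empty] at hcsum
      exact hq0ne hcsum
    · obtain ⟨q, hq⟩ := Finset.card_eq_one.mp h1
      rw [hq, Finset.sum_singleton] at hcsum
      have h2 := htne q (by rw [hq]; exact Finset.mem_singleton_self q)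
      exact hnonprop q0 q h2.1.symm hq0ne h2.2 (c q) hcsum
  set m := t.card with hm
  have hhd : ∀ q, Differentiable ℂ (h q) := fun q =>
    Differentiable.fun_sum fun i _ => hg i
  let e : Fin m ≃ t := (Finset.equivFin t).symm
  let G : Fin (m + 1) → ℂ → ℂ := Fin.cons (fun z => -1 * h q0 z) (fun i z => c (e i) * h (e i) z)
  have hG0 : G 0 = fun z => -1 * h q0 z := rfl
  have hGs : ∀ i : Fin m, G i.succ = fun z => c (e i) * h (e i) z := fun i => rfl
  have hDq : ∀ q, h q ≠ 0 → ∀ a, Dv (h q) a = Dv (g q.out) a := by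
    intro q hq a
    have hCq : C q ≠ 0 := by
      intro h1; apply hq; ext w; rw [hC, h1, zero_mul]; rfl
    have h1 : h q = fun z => C q * g q.out z := by ext w; exact hC q w
    rw [h1]
    exact Dv_const_mul (hg _) hCq a
  have hDG : ∀ k, ∃ i : ι, ∀ a, Dv (G k) a = Dv (g i) a := by
    intro k
    refine Fin.cases ?_ ?_ k
    · refine ⟨q0.out, fun a => ?_⟩
      rw [hG0, Dv_const_mul (hhd q0) (by norm_num) a, hDq q0 hq0ne a]
    · intro i
      refine ⟨(e i : Q).out, fun a => ?_⟩
      rw [hGs, Dv_const_mul (hhd _) (hc0 _ (e i).2) a, hDq _ (htne _ (e i).2).2 a]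
  refine green (m := m) hcard G ?_ ?_ ?_ ?_ d ?_ ?_
  · intro k
    refine Fin.cases ?_ ?_ k
    · exact (hhd q0).const_mul (-1)
    · intro i; exact (hhd _).const_mul _
  · intro k
    refine Fin.cases ?_ ?_ k
    · by_contra h1
      push Not at h1
      apply hq0ne
      ext w
      have := h1 w
      rw [hG0] at this
      simpa using this
    · intro i
      by_contra h1
      push Not at h1
      apply (htne _ (e i).2).2
      ext w
      have := h1 w
      rw [hGs] at this
      simpa [hc0 _ (e i).2] using this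
  · intro w
    rw [Fin.sum_univ_succ, hG0]
    have h1 : ∑ i : Fin m, G i.succ w = h q0 w := by
      rw [hcsum, Finset.sum_apply, ← Finset.sum_coe_sort t]
      rw [← Equiv.sum_comp e]
      rfl
    rw [h1]
    ring
  · rw [Fintype.linearIndependent_iff]
    intro a ha i
    have h1 : ∑ q ∈ t, (fun q => if hq : q ∈ t then a (e.symm ⟨q, hq⟩) * c q else 0) q • h q = 0 := by
      rw [← Finset.sum_coe_sort t, ← Equiv.sum_comp e, ← ha]
      apply Finset.sum_congr rfl
      intro j _
      ext w
      simp only [Pi.smul_apply, smul_eq_mul]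
      rw [dif_pos (e j).2]
      have : e.symm ⟨(e j : Q), (e j).2⟩ = j := by
        rw [Subtype.coe_eta, Equiv.symm_apply_apply]
      rw [this, hGs]
      ring
    have h2 := hcind _ h1 (e i) (e i).2
    rw [dif_pos (e i).2] at h2
    have : e.symm ⟨(e i : Q), (e i).2⟩ = i := by
      rw [Subtype.coe_eta, Equiv.symm_apply_apply]
    rw [this] at h2
    rcases mul_eq_zero.mp h2 with h3 | h3
    · exact h3
    · exact absurd h3 (hc0 _ (e i).2)
  · have h1 : m + 1 ≤ Fintype.card ι := by
      have h2 : t ⊆ Finset.univ.erase q0 := by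
        intro q hq
        exact Finset.mem_erase.mpr ⟨(htne q hq).1, Finset.mem_univ _⟩
      have h3 := Finset.card_le_card h2
      rw [Finset.card_erase_of_mem (Finset.mem_univ _), Finset.card_univ] at h3
      have h4 : Fintype.card Q ≤ Fintype.card ι :=
        Fintype.card_le_of_surjective (fun i => (⟦i⟧ : Q)) (fun q => ⟨q.out, Quotient.out_eq q⟩)
      have h5 : 0 < Fintype.card Q := Fintype.card_pos_iff.mpr ⟨q0⟩
      omega
    refine lt_of_le_of_lt ?_ hd
    exact Nat.mul_le_mul h1 (by omega)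
  · intro k l a
    obtain ⟨i, hi⟩ := hDG k
    obtain ⟨j, hj⟩ := hDG l
    rw [hi a, hj a]
    exact hdvd i j a

end Pool.Agent.GGL
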