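import Pool.Agent.Lib_MP_b9fedf_ag.Defs2

/-! The characteristic of a curve and the characteristics of quotients. -/

set_option autoImplicit false

namespace Pool.Agent.GGL
open Filter Metric Real Set Function MeromorphicOn ValueDistribution

namespace CharTF

lemma exists_coord {σ : Type} [Fintype σ] {f : σ → ℂ → ℂ} (h0 : ∀ z, ∃ k, f k z ≠ 0) (z : ℂ) :
    0 < ‖fun k => f k z‖ := by
  obtain ⟨k, hk⟩ := h0 z
  rw [norm_pos_iff]
  intro h
  exact hk (congrFun h k)

lemma avg_bound {σ : Type} [Fintype σ] {f : σ → ℂ → ℂ} (hf : ∀ k, Differentiable ℂ (f k))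
    (D : ℕ) (K : ℝ) (r : ℝ) :
    circleAverage (fun z => Real.log K + D * Real.log ‖fun k => f k z‖) 0 r =
      Real.log K + D * TF f r ∧
    CircleIntegrable (fun z => Real.log K + D * Real.log ‖fun k => f k z‖) 0 r := by
  have h1 := vec_integrable hf r
  have h2 : CircleIntegrable (fun z => (D : ℝ) * Real.log ‖fun k => f k z‖) 0 r := by
    have := h1.const_smul (a := (D : ℝ))
    exact this
  refine ⟨?_, (circleIntegrable_const _ _ _).add h2⟩
  rw [circleAverage_fun_add (circleIntegrable_const _ _ _) h2, circleAverage_const]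
  congr 1
  have := circleAverage_fun_smul (a := (D : ℝ)) (f := fun z => Real.log ‖fun k => f k z‖)
    (c := 0) (R := r)
  simpa [smul_eq_mul, TF] using this

lemma K_pos {σ : Type} [Fintype σ] {f : σ → ℂ → ℂ} {u : ℂ → ℂ} (hu0 : ∃ z, u z ≠ 0)
    {D : ℕ} {K : ℝ} (hK : ∀ z, ‖u z‖ ≤ K * ‖fun k => f k z‖ ^ D) : 0 < K := by
  obtain ⟨z, hz⟩ := hu0
  have h1 : 0 < ‖u z‖ := norm_pos_iff.2 hz
  have h2 := hK z
  have h3 : 0 ≤ ‖fun k => f k z‖ ^ D := by positivity
  by_contra h
  have : K * ‖fun k => f k z‖ ^ D ≤ 0 := mul_nonpos_of_nonpos_of_nonneg (not_lt.1 h) h3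
  linarith

lemma log_bound {σ : Type} [Fintype σ] {f : σ → ℂ → ℂ} (h0 : ∀ z, ∃ k, f k z ≠ 0)
    {D : ℕ} {K : ℝ} (hK0 : 0 < K) {x : ℝ} (hx : 0 < x) {z : ℂ}
    (hK : x ≤ K * ‖fun k => f k z‖ ^ D) :
    Real.log x ≤ Real.log K + D * Real.log ‖fun k => f k z‖ := by
  have hz := exists_coord h0 z
  have h1 := Real.log_le_log hx hK
  rwa [Real.log_mul hK0.ne' (by positivity), Real.log_pow] at h1

end CharTF

open CharTF

theorem N_le_TF {σ : Type} [Fintype σ] {f : σ → ℂ → ℂ} (hf : ∀ k, Differentiable ℂ (f k))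
    (h0 : ∀ z, ∃ k, f k z ≠ 0) {u : ℂ → ℂ} (hu : Differentiable ℂ u) (hu0 : ∃ z, u z ≠ 0)
    (D : ℕ) (K : ℝ) (hK : ∀ z, ‖u z‖ ≤ K * ‖fun k => f k z‖ ^ D) :
    ∃ C : ℝ, ∀ r, 1 ≤ r →
      Function.locallyFinsuppWithin.logCounting (Dv u) r ≤ D * TF f r + C := by
  refine ⟨Real.log K - Real.log ‖meromorphicTrailingCoeffAt u 0‖, fun r hr => ?_⟩
  have hK0 := K_pos hu0 hK
  have h1 := jensen (mero_of_diff hu) hr
  obtain ⟨h2, h3⟩ := avg_bound hf D K r
  have h4 : circleAverage (fun z => Real.log ‖u z‖) 0 r ≤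
      circleAverage (fun z => Real.log K + D * Real.log ‖fun k => f k z‖) 0 r := by
    apply circleAverage_mono_codiscrete (by linarith) (log_integrable (mero_of_diff hu) r) h3
    filter_upwards [nonzero_codiscrete hu hu0 r] with z hz
    exact log_bound h0 hK0 (norm_pos_iff.2 hz) (hK z)
  linarith

theorem char_div_le_TF {σ : Type} [Fintype σ] {f : σ → ℂ → ℂ} (hf : ∀ k, Differentiable ℂ (f k))
    (h0 : ∀ z, ∃ k, f k z ≠ 0) {u v : ℂ → ℂ} (hu : Differentiable ℂ u) (hv : Differentiable ℂ v)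
    (hv0 : ∃ z, v z ≠ 0) (D : ℕ) (K : ℝ) (hKu : ∀ z, ‖u z‖ ≤ K * ‖fun k => f k z‖ ^ D)
    (hKv : ∀ z, ‖v z‖ ≤ K * ‖fun k => f k z‖ ^ D) :
    ∃ C : ℝ, ∀ r, 1 ≤ r →
      characteristic (fun z => u z / v z) ⊤ r ≤ D * TF f r + C := by
  have hK0 := K_pos hv0 hKv
  by_cases hu0 : ∃ z, u z ≠ 0
  · refine ⟨Real.log K - Real.log ‖meromorphicTrailingCoeffAt v 0‖, fun r hr => ?_⟩
    have hd : ∀ k : Fin 2, Differentiable ℂ ((![u, v] : Fin 2 → ℂ → ℂ) k) := by
      intro k; fin_cases k
      · exact hu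
      · exact hv
    have hne : ∀ k : Fin 2, ∃ z, (![u, v] : Fin 2 → ℂ → ℂ) k z ≠ 0 := by
      intro k; fin_cases k
      · exact hu0
      · exact hv0
    have h1 := characteristic_div_le_TC hd hne hr 0 1
    obtain ⟨h2, h3⟩ := avg_bound hf D K r
    have h4 : circleAverage (fun z => Real.log ‖fun k => (![u, v] : Fin 2 → ℂ → ℂ) k z‖) 0 r ≤
        circleAverage (fun z => Real.log K + D * Real.log ‖fun k => f k z‖) 0 r := by
      apply circleAverage_mono_codiscrete (by linarith) (vec_integrable hd r) h3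
      filter_upwards [nonzero_codiscrete hv hv0 r] with z hz
      have hpos : 0 < ‖fun k => (![u, v] : Fin 2 → ℂ → ℂ) k z‖ :=
        lt_of_lt_of_le (norm_pos_iff.2 hz)
          (norm_le_pi_norm (fun k => (![u, v] : Fin 2 → ℂ → ℂ) k z) 1)
      refine log_bound h0 hK0 hpos ?_
      refine (pi_norm_le_iff_of_nonneg (by positivity)).2 fun k => ?_
      fin_cases k
      · exact hKu z
      · exact hKv z
    have h5 : 0 ≤ Function.locallyFinsuppWithin.logCounting
        (minDv (fun k => Dv ((![u, v] : Fin 2 → ℂ → ℂ) k))) r := by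
      apply Function.locallyFinsuppWithin.logCounting_nonneg _ hr
      intro a
      obtain ⟨k, hk⟩ := exists_minDv (fun k => Dv ((![u, v] : Fin 2 → ℂ → ℂ) k)) a
      rw [hk]
      exact Dv_nonneg (hd k) a
    rw [TC] at h1
    have h6 : (fun z => (![u, v] : Fin 2 → ℂ → ℂ) 0 z / (![u, v] : Fin 2 → ℂ → ℂ) 1 z) =
        fun z => u z / v z := rfl
    rw [h6] at h1
    have h7 : (![u, v] : Fin 2 → ℂ → ℂ) 1 = v := rfl
    rw [h7] at h1
    linarith
  · push Not at hu0
    obtain ⟨C, hC⟩ := N_le_TF hf h0 hv hv0 D K hKv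
    refine ⟨C, fun r hr => ?_⟩
    have h1 := hC r hr
    have h2 : 0 ≤ Function.locallyFinsuppWithin.logCounting (Dv v) r :=
      Function.locallyFinsuppWithin.logCounting_nonneg (Dv_nonneg hv) hr
    have h3 : (fun z => u z / v z) = fun _ => (0 : ℂ) := by
      ext z; rw [hu0 z, zero_div]
    have h4 : characteristic (fun z => u z / v z) ⊤ r = 0 := by
      rw [h3, characteristic, Pi.add_apply, proximity_const]
      simp
    linarith

namespace CharTF

lemma divisor_div {f g : ℂ → ℂ} (hf : Differentiable ℂ f) (hg : Differentiable ℂ g)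
    (hf0 : ∃ z, f z ≠ 0) (hg0 : ∃ z, g z ≠ 0) :
    divisor (fun z => f z / g z) univ = Dv f - Dv g := by
  have hmi := mero_of_diff hf
  have hmj := mero_of_diff hg
  have h1 : (fun z => f z / g z) = f * g⁻¹ := by
    ext z; rw [Pi.mul_apply, Pi.inv_apply, div_eq_mul_inv]
  rw [h1, divisor_mul hmi.meromorphicOn hmj.inv.meromorphicOn
    (fun z _ => mOrder_ne_top hf hf0 z) ?_, divisor_inv, sub_eq_add_neg]
  intro z _
  rw [meromorphicOrderAt_inv]
  have h3 := mOrder_ne_top hg hg0 z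
  cases h4 : meromorphicOrderAt g z with
  | top => exact absurd h4 h3
  | coe n => simp

lemma Dv_eq_zero {f : ℂ → ℂ} (hf : Differentiable ℂ f) {a : ℂ} (ha : f a ≠ 0) : Dv f a = 0 := by
  rw [Dv_apply hf, (hf.analyticAt a).analyticOrderAt_eq_zero.2 ha]
  simp

end CharTF

theorem TF_le_sum {σ : Type} [Fintype σ] {f : σ → ℂ → ℂ} (hf : ∀ k, Differentiable ℂ (f k))
    (h0 : ∀ z, ∃ k, f k z ≠ 0) (k : σ) (hk : ∃ z, f k z ≠ 0) :
    ∃ C : ℝ, ∀ r, 1 ≤ r →
      TF f r ≤ ∑ l, characteristic (fun z => f l z / f k z) ⊤ r + C := by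
  classical
  refine ⟨Real.log ‖meromorphicTrailingCoeffAt (f k) 0‖, fun r hr => ?_⟩
  have hr0 : 0 < r := by linarith
  have hmk := mero_of_diff (hf k)
  have hG : ∀ l, Meromorphic (fun z => f l z / f k z) := fun l z =>
    (mero_of_diff (hf l) z).fun_div (hmk z)
  have hPI : ∀ l, CircleIntegrable (fun z => Real.posLog ‖f l z / f k z‖) 0 r := fun l =>
    (hG l).meromorphicOn.circleIntegrable_posLog_norm
  have hsI : CircleIntegrable (fun z => ∑ l, Real.posLog ‖f l z / f k z‖) 0 r := by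
    have := CircleIntegrable.sum Finset.univ (f := fun l z => Real.posLog ‖f l z / f k z‖)
      (c := 0) (R := r) (fun l _ => hPI l)
    convert! this using 1
    ext z
    simp
  have hkI := log_integrable hmk r
  have h1 : TF f r ≤ circleAverage (fun z => Real.log ‖f k z‖ +
      ∑ l, Real.posLog ‖f l z / f k z‖) 0 r := by
    unfold TF
    apply circleAverage_mono_codiscrete hr0 (vec_integrable hf r) (hkI.add hsI)
    filter_upwards [nonzero_codiscrete (hf k) hk r] with z hz
    have hz0 : 0 < ‖f k z‖ := norm_pos_iff.2 hz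
    have : Nonempty σ := ⟨k⟩
    obtain ⟨j, hj⟩ := exists_norm_eq (fun k => f k z)
    have hpos := exists_coord h0 z
    rw [hj] at hpos ⊢
    have h2 : Real.log ‖f j z‖ - Real.log ‖f k z‖ ≤ Real.posLog ‖f j z / f k z‖ := by
      rw [← Real.log_div hpos.ne' hz0.ne', ← norm_div]
      exact le_max_right _ _
    have h3 : Real.posLog ‖f j z / f k z‖ ≤ ∑ l, Real.posLog ‖f l z / f k z‖ :=
      Finset.single_le_sum (f := fun l => Real.posLog ‖f l z / f k z‖)
        (fun l _ => Real.posLog_nonneg) (Finset.mem_univ j)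
    show Real.log ‖f j z‖ ≤ Real.log ‖f k z‖ + ∑ l, Real.posLog ‖f l z / f k z‖
    linarith
  rw [circleAverage_fun_add hkI hsI, circleAverage_fun_sum (fun l _ => hPI l), jensen hmk hr] at h1
  have h2 : Function.locallyFinsuppWithin.logCounting (Dv (f k)) r ≤
      Function.locallyFinsuppWithin.logCounting
        (∑ l, (divisor (fun z => f l z / f k z) univ)⁻) r := by
    apply Function.locallyFinsuppWithin.logCounting_le _ hr
    intro a
    rw [locallyFinsuppWithin.coe_sum, Finset.sum_apply]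
    obtain ⟨l, hl⟩ := h0 a
    have h3 : Dv (f k) a ≤ (divisor (fun z => f l z / f k z) univ)⁻ a := by
      rw [divisor_div (hf l) (hf k) ⟨a, hl⟩ hk, locallyFinsuppWithin.negPart_apply,
        locallyFinsuppWithin.coe_sub, Pi.sub_apply, Dv_eq_zero (hf l) hl, zero_sub, negPart_def,
        neg_neg]
      exact le_sup_left
    refine h3.trans ?_
    exact Finset.single_le_sum (f := fun l => (divisor (fun z => f l z / f k z) univ)⁻ a)
      (fun l _ => by
        rw [locallyFinsuppWithin.negPart_apply]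
        exact negPart_nonneg _) (Finset.mem_univ l)
  rw [map_sum, Finset.sum_apply] at h2
  have h3 : ∑ l, characteristic (fun z => f l z / f k z) ⊤ r =
      ∑ l, circleAverage (fun z => Real.posLog ‖f l z / f k z‖) 0 r +
      ∑ l, Function.locallyFinsuppWithin.logCounting
        (divisor (fun z => f l z / f k z) univ)⁻ r := by
    rw [← Finset.sum_add_distrib]
    refine Finset.sum_congr rfl fun l _ => ?_
    rw [characteristic, Pi.add_apply, ValueDistribution.logCounting_top,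
      ValueDistribution.proximity_top]
  rw [h3]
  linarith

end Pool.Agent.GGL
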