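import Mathlib

/-! Elementary estimates for the Nevanlinna characteristic. -/

set_option autoImplicit false

namespace Pool.Agent.GGL
open Filter Metric Real Set Function MeromorphicOn ValueDistribution

lemma char_zero (r : ℝ) : characteristic (fun _ : ℂ => (0 : ℂ)) ⊤ r = 0 := by
  simp [characteristic, proximity_top, circleAverage_const, logCounting_const]

lemma char_const (c : ℂ) (r : ℝ) : characteristic (fun _ : ℂ => c) ⊤ r = posLog ‖c‖ := by
  simp [characteristic, proximity_top, circleAverage_const, logCounting_const]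

lemma eq_zero_codiscrete_of_order_top {f : ℂ → ℂ} (hf : Meromorphic f) {z : ℂ}
    (hz : meromorphicOrderAt f z = ⊤) : f =ᶠ[codiscrete ℂ] fun _ => 0 := by
  have hall : ∀ w, meromorphicOrderAt f w = ⊤ := by
    by_contra hcon
    push Not at hcon
    obtain ⟨w, hw⟩ := hcon
    have := (MeromorphicOn.exists_meromorphicOrderAt_ne_top_iff_forall
      (hf.meromorphicOn (s := Set.univ)) isConnected_univ).1 ⟨⟨w, Set.mem_univ w⟩, hw⟩
    exact this ⟨z, Set.mem_univ z⟩ hz
  rw [Filter.EventuallyEq, Filter.Eventually, mem_codiscrete]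
  intro w
  rw [disjoint_principal_right, compl_compl]
  have := meromorphicOrderAt_eq_top_iff.1 (hall w)
  exact this

/-- PIECE CH1 (Char.lean, only Mathlib), four statements. -/
theorem char_mul_le {f g : ℂ → ℂ} (hf : Meromorphic f) (hg : Meromorphic g) {r : ℝ}
    (hr : 1 ≤ r) :
    characteristic (fun z => f z * g z) ⊤ r ≤ characteristic f ⊤ r + characteristic g ⊤ r := by
  have hr0 : r ≠ 0 := by linarith
  by_cases h1 : ∀ z, meromorphicOrderAt f z ≠ ⊤
  · by_cases h2 : ∀ z, meromorphicOrderAt g z ≠ ⊤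
    · exact characteristic_mul_top_le hr hf h1 hg h2
    · push Not at h2
      obtain ⟨z, hz⟩ := h2
      have h3 := eq_zero_codiscrete_of_order_top hg hz
      have h4 : (fun z => f z * g z) =ᶠ[codiscrete ℂ] fun _ => 0 := by
        filter_upwards [h3] with w hw
        rw [hw, mul_zero]
      rw [characteristic_congr_codiscrete h4 hr0, char_zero]
      exact add_nonneg (characteristic_nonneg hr) (characteristic_nonneg hr)
  · push Not at h1
    obtain ⟨z, hz⟩ := h1
    have h3 := eq_zero_codiscrete_of_order_top hf hz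
    have h4 : (fun z => f z * g z) =ᶠ[codiscrete ℂ] fun _ => 0 := by
      filter_upwards [h3] with w hw
      rw [hw, zero_mul]
    rw [characteristic_congr_codiscrete h4 hr0, char_zero]
    exact add_nonneg (characteristic_nonneg hr) (characteristic_nonneg hr)

theorem char_const_mul_le {f : ℂ → ℂ} (hf : Meromorphic f) (c : ℂ) :
    ∃ C : ℝ, ∀ r, 1 ≤ r → characteristic (fun z => c * f z) ⊤ r ≤ characteristic f ⊤ r + C := by
  refine ⟨posLog ‖c‖, fun r hr => ?_⟩
  have h := char_mul_le (f := fun _ : ℂ => c) (fun z => MeromorphicAt.const c z) hf hr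
  rw [char_const] at h
  linarith

theorem char_inv_le {f : ℂ → ℂ} (hf : Meromorphic f) :
    ∃ C : ℝ, ∀ r, 1 ≤ r → characteristic (fun z => (f z)⁻¹) ⊤ r ≤ characteristic f ⊤ r + C := by
  refine ⟨max |log ‖f 0‖| |log ‖meromorphicTrailingCoeffAt f 0‖|, fun r hr => ?_⟩
  have h := characteristic_sub_characteristic_inv_le (R := r) hf
  have h2 := (abs_le.1 h).1
  change -_ ≤ characteristic f ⊤ r - characteristic (fun z => (f z)⁻¹) ⊤ r at h2
  linarith

lemma char_prod_le {ι : Type} (s : Finset ι) (F : ι → ℂ → ℂ) (hF : ∀ i, Meromorphic (F i))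
    {r : ℝ} (hr : 1 ≤ r) :
    characteristic (fun z => ∏ i ∈ s, F i z) ⊤ r ≤ ∑ i ∈ s, characteristic (F i) ⊤ r := by
  classical
  induction s using Finset.induction_on with
  | empty => simp [char_const]
  | insert a s ha ih =>
    simp only [Finset.prod_insert ha, Finset.sum_insert ha]
    have hm : Meromorphic (fun z => ∏ i ∈ s, F i z) := by
      intro z
      exact MeromorphicAt.fun_prod (fun i _ => hF i z)
    have := char_mul_le (hF a) hm hr
    linarith

theorem char_det_le {ι : Type} [Fintype ι] [DecidableEq ι] (B : ι → ι → ℂ → ℂ)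
    (hB : ∀ i j, Meromorphic (B i j)) (t : ι → ℝ → ℝ) (K : ℝ)
    (ht : ∀ i j r, 1 ≤ r → characteristic (B i j) ⊤ r ≤ t i r + K) :
    ∃ C : ℝ, ∀ r, 1 ≤ r → characteristic (fun z => (Matrix.of fun i j => B i j z).det) ⊤ r ≤
      (Fintype.card ι).factorial * ∑ i, t i r + C := by
  refine ⟨(Fintype.card ι).factorial * (Fintype.card ι * K) +
    log (Finset.univ : Finset (Equiv.Perm ι)).card, fun r hr => ?_⟩
  set G : Equiv.Perm ι → ℂ → ℂ := fun σ z =>
    ((Equiv.Perm.sign σ : ℤ) : ℂ) * ∏ i, B (σ i) i z with hG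
  have hmG : ∀ σ, Meromorphic (G σ) := by
    intro σ z
    exact (MeromorphicAt.const _ z).mul (MeromorphicAt.fun_prod (fun i _ => hB (σ i) i z))
  have heq : (fun z => (Matrix.of fun i j => B i j z).det) = ∑ σ, G σ := by
    funext z
    rw [Matrix.det_apply', Finset.sum_apply]
    rfl
  rw [heq]
  refine (characteristic_sum_top_le Finset.univ G (fun σ _ => hmG σ) hr).trans ?_
  have hσ : ∀ σ : Equiv.Perm ι, characteristic (G σ) ⊤ r ≤ ∑ i, t i r + Fintype.card ι * K := by
    intro σ
    have h1 : characteristic (G σ) ⊤ r ≤ characteristic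
        (fun _ : ℂ => (((Equiv.Perm.sign σ : ℤ) : ℂ))) ⊤ r +
        characteristic (fun z => ∏ i, B (σ i) i z) ⊤ r :=
      char_mul_le (fun z => MeromorphicAt.const _ z)
        (fun z => MeromorphicAt.fun_prod (fun i _ => hB (σ i) i z)) hr
    have h2 : characteristic (fun _ : ℂ => (((Equiv.Perm.sign σ : ℤ) : ℂ))) ⊤ r = 0 := by
      rw [char_const]
      rcases Int.units_eq_one_or (Equiv.Perm.sign σ) with h | h <;> simp [h]
    have h3 := char_prod_le Finset.univ (fun i => B (σ i) i) (fun i => hB (σ i) i) hr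
    have h4 : ∑ i, characteristic (B (σ i) i) ⊤ r ≤ ∑ i, (t (σ i) r + K) :=
      Finset.sum_le_sum fun i _ => ht (σ i) i r hr
    have h5 : ∑ i, (t (σ i) r + K) = ∑ i, t i r + Fintype.card ι * K := by
      rw [Finset.sum_add_distrib, Equiv.sum_comp σ (fun i => t i r)]
      simp
    linarith
  have hsum : (∑ σ, characteristic (G σ) ⊤) r ≤
      (Fintype.card ι).factorial * (∑ i, t i r + Fintype.card ι * K) := by
    rw [Finset.sum_apply]
    refine (Finset.sum_le_sum fun σ _ => hσ σ).trans ?_
    rw [Finset.sum_const, Finset.card_univ, Fintype.card_perm, nsmul_eq_mul]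
  linarith

end Pool.Agent.GGL
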