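import Mathlib

/-!
Two entire functions without common zeros with the same automorphy factors for the lattice `ℤ + ℤ i`.
-/

set_option autoImplicit false

open Complex Real Set Filter Topology

namespace Pool.Agent.GGL

noncomputable section

/-- the theta function of the square lattice -/
def th (z : ℂ) : ℂ := jacobiTheta₂ z I

theorem differentiable_th : Differentiable ℂ th := fun z =>
  differentiableAt_jacobiTheta₂_fst z (by simp)

theorem th_add_one (z : ℂ) : th (z + 1) = th z := jacobiTheta₂_add_left z I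

theorem th_add_I (z : ℂ) : th (z + I) = cexp (-π * I * (I + 2 * z)) * th z :=
  jacobiTheta₂_add_left' z I

theorem th_neg (z : ℂ) : th (-z) = th z := jacobiTheta₂_neg_left z I

theorem th_zero_eq : th ((1 + I) / 2) = 0 := by
  have h1 : th (-((1 + I) / 2) + I) = th ((1 + I) / 2) := by
    rw [← th_add_one (-((1 + I) / 2) + I)]
    congr 1; ring
  have h2 := th_add_I (-((1 + I) / 2))
  rw [h1, th_neg] at h2
  have h3 : cexp (-π * I * (I + 2 * -((1 + I) / 2))) = -1 := by
    rw [show (-π * I * (I + 2 * -((1 + I) / 2)) : ℂ) = π * I by ring, Complex.exp_pi_mul_I]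
  rw [h3] at h2
  have h4 : (2 : ℂ) * th ((1 + I) / 2) = 0 := by linear_combination h2
  simpa using h4

theorem th_ne_zero : th 0 ≠ 0 := by
  have hs := hasSum_jacobiTheta₂_term (z := 0) (τ := I) (by simp)
  have e : ∀ n : ℤ, jacobiTheta₂_term n 0 I = ((Real.exp (-(π * n ^ 2)) : ℝ) : ℂ) := by
    intro n
    rw [jacobiTheta₂_term, Complex.ofReal_exp]
    congr 1
    push_cast
    linear_combination (π : ℂ) * n ^ 2 * I_mul_I
  have hre := Complex.hasSum_re hs
  simp only [e, Complex.ofReal_re] at hre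
  have hpos : 0 < (jacobiTheta₂ 0 I).re := by
    rw [← hre.tsum_eq]
    exact hre.summable.tsum_pos (fun n => (Real.exp_pos _).le) 0 (Real.exp_pos _)
  intro h
  rw [th] at h
  rw [h] at hpos
  simp at hpos

theorem countable_th_zeros : (th ⁻¹' {0}).Countable := by
  have han : AnalyticOnNhd ℂ th univ := differentiable_th.differentiableOn.analyticOnNhd isOpen_univ
  have h := han.preimage_zero_mem_codiscrete (x := 0) th_ne_zero
  have hd : IsDiscrete (th ⁻¹' {0}) := by
    have := (mem_codiscrete'.mp h).2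
    simpa using this
  have : DiscreteTopology (th ⁻¹' {0}) := hd.to_subtype
  have hc : Countable (th ⁻¹' {0}) := countable_of_Lindelof_of_discrete
  exact hc

theorem exists_shift : ∃ b : ℂ, ∀ z, th z = 0 → th (z + b) ≠ 0 ∧ th (z - b) ≠ 0 := by
  have h1 : (Set.image2 (fun x y : ℂ => x - y) (th ⁻¹' {0}) (th ⁻¹' {0})).Countable :=
    countable_th_zeros.image2 countable_th_zeros _
  obtain ⟨b, hb⟩ : ∃ b : ℂ, b ∉ Set.image2 (fun x y : ℂ => x - y) (th ⁻¹' {0}) (th ⁻¹' {0}) := by
    by_contra hcon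
    push Not at hcon
    have : (univ : Set ℂ).Countable := h1.mono fun z _ => hcon z
    exact not_countable_complex this
  refine ⟨b, fun z hz => ⟨fun h => hb ⟨z + b, h, z, hz, by ring⟩,
    fun h => hb ⟨z, hz, z - b, h, by ring⟩⟩⟩

theorem exists_theta : ∃ (L : AddSubgroup (Fin 1 → ℂ)) (s t : (Fin 1 → ℂ) → ℂ),
    DiscreteTopology L ∧ Submodule.span ℝ (L : Set (Fin 1 → ℂ)) = ⊤ ∧
    Differentiable ℂ s ∧ Differentiable ℂ t ∧ (∀ z, s z ≠ 0 ∨ t z ≠ 0) ∧
    (∃ z, s z = 0) ∧ (∃ z, s z ≠ 0) ∧
    ∀ l ∈ L, ∀ z, ∃ c : ℂ, s (z + l) = c * s z ∧ t (z + l) = c * t z := by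
  obtain ⟨b, hb⟩ := exists_shift
  let e : (Fin 1 → ℂ) ≃ₗ[ℝ] ℂ := LinearEquiv.funUnique (Fin 1) ℝ ℂ
  let B : Module.Basis (Fin 2) ℝ (Fin 1 → ℂ) := Complex.basisOneI.map e.symm
  let s : (Fin 1 → ℂ) → ℂ := fun z => th (z 0) ^ 2
  let t : (Fin 1 → ℂ) → ℂ := fun z => th (z 0 + b) * th (z 0 - b)
  have hst : ∀ z, s z ≠ 0 ∨ t z ≠ 0 := by
    intro z
    by_cases h : th (z 0) = 0
    · exact Or.inr (mul_ne_zero (hb _ h).1 (hb _ h).2)
    · exact Or.inl (pow_ne_zero 2 h)
  let P : AddSubgroup (Fin 1 → ℂ) :=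
    { carrier := {l | ∀ z, ∃ c : ℂ, s (z + l) = c * s z ∧ t (z + l) = c * t z}
      zero_mem' := fun z => ⟨1, by simp, by simp⟩
      add_mem' := by
        intro l l' hl hl' z
        obtain ⟨c, h1, h2⟩ := hl z
        obtain ⟨c', h3, h4⟩ := hl' (z + l)
        refine ⟨c' * c, ?_, ?_⟩
        · rw [← add_assoc, h3, h1, mul_assoc]
        · rw [← add_assoc, h4, h2, mul_assoc]
      neg_mem' := by
        intro l hl z
        obtain ⟨c, h1, h2⟩ := hl (z + -l)
        rw [neg_add_cancel_right] at h1 h2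
        have hc : c ≠ 0 := by
          rintro rfl
          rw [zero_mul] at h1 h2
          rcases hst z with h | h
          · exact h h1
          · exact h h2
        refine ⟨c⁻¹, ?_, ?_⟩
        · rw [h1, inv_mul_cancel_left₀ hc]
        · rw [h2, inv_mul_cancel_left₀ hc] }
  have hP1 : B 0 ∈ P := by
    intro z
    have h0 : (B 0) 0 = 1 := by
      simp [B, e, LinearEquiv.funUnique]
    refine ⟨1, ?_, ?_⟩
    · simp only [s, Pi.add_apply, h0, th_add_one, one_mul]
    · simp only [t, Pi.add_apply, h0, one_mul]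
      rw [show z 0 + 1 + b = (z 0 + b) + 1 by ring, show z 0 + 1 - b = (z 0 - b) + 1 by ring,
        th_add_one, th_add_one]
  have hP2 : B 1 ∈ P := by
    intro z
    have h0 : (B 1) 0 = I := by
      simp [B, e, LinearEquiv.funUnique]
    refine ⟨cexp (-π * I * (I + 2 * z 0)) ^ 2, ?_, ?_⟩
    · simp only [s, Pi.add_apply, h0, th_add_I]
      ring
    · simp only [t, Pi.add_apply, h0]
      rw [show z 0 + I + b = (z 0 + b) + I by ring, show z 0 + I - b = (z 0 - b) + I by ring,
        th_add_I, th_add_I]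
      have : cexp (-π * I * (I + 2 * (z 0 + b))) * cexp (-π * I * (I + 2 * (z 0 - b))) =
          cexp (-π * I * (I + 2 * z 0)) ^ 2 := by
        rw [← Complex.exp_add, ← Complex.exp_nat_mul]
        congr 1
        push_cast
        ring
      rw [← this]
      ring
  refine ⟨(Submodule.span ℤ (Set.range B)).toAddSubgroup, s, t, inferInstance, ?_, ?_, ?_, hst,
    ?_, ?_, ?_⟩
  · exact ZSpan.span_top B
  · intro z
    exact ((differentiable_th _).comp z (differentiableAt_apply 0 z)).pow 2
  · intro z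
    exact ((differentiable_th _).comp z ((differentiableAt_apply 0 z).add_const b)).mul
      ((differentiable_th _).comp z ((differentiableAt_apply 0 z).sub_const b))
  · exact ⟨fun _ => (1 + I) / 2, by simp only [s, th_zero_eq]; simp⟩
  · exact ⟨fun _ => 0, pow_ne_zero 2 th_ne_zero⟩
  · intro l hl
    have hle : Submodule.span ℤ (Set.range B) ≤ AddSubgroup.toIntSubmodule P := by
      rw [Submodule.span_le]
      rintro _ ⟨i, rfl⟩
      fin_cases i
      · exact hP1
      · exact hP2
    exact hle hl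

end

end Pool.Agent.GGL
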