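import Pool.Agent.Lib_MP_b9fedf_ag.Green
import Pool.Agent.Lib_MP_b9fedf_ag.Theta

/-! Entire curves in varieties cut out by few-term equations with congruent exponents. -/

set_option autoImplicit false

namespace Pool.Agent.GGL
open Filter Metric Real Set Function MeromorphicOn ValueDistribution

lemma block_sum_weighted {ι : Type} [Fintype ι] (g : ι → ℂ → ℂ)
    (hg : ∀ k, Differentiable ℂ (g k)) (hne : ∀ k, ∃ z, g k z ≠ 0) (hsum : ∀ z, ∑ k, g k z = 0)
    (d : ℕ) (hd : Fintype.card ι * (Fintype.card ι - 2) < d)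
    (hdvd : ∀ k l a, (d : ℤ) ∣ Dv (g k) a - Dv (g l) a) (u : ι → ℂ)
    (hu : ∀ i j, (∃ c : ℂ, ∀ z, g i z = c * g j z) → u i = u j) (z : ℂ) :
    ∑ i, g i z * u i = 0 := by
  classical
  -- induction on the set of remaining indices, closed under proportionality
  have key : ∀ n : ℕ, ∀ s : Finset ι, s.card = n →
      (∀ i ∈ s, ∀ j, (∃ c : ℂ, ∀ z, g j z = c * g i z) → j ∈ s) → ∑ i ∈ s, g i z * u i = 0 := by
    intro n
    induction n using Nat.strong_induction_on with
    | _ n ih =>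
      intro s hsn hcl
      rcases s.eq_empty_or_nonempty with h0 | ⟨i₀, hi₀⟩
      · rw [h0, Finset.sum_empty]
      set t : Finset ι := Finset.univ.filter (fun i => ∃ c : ℂ, ∀ z, g i z = c * g i₀ z) with ht
      have hts : t ⊆ s := by
        intro i hi
        exact hcl i₀ hi₀ i (Finset.mem_filter.mp hi).2
      have hi₀t : i₀ ∈ t := Finset.mem_filter.mpr ⟨Finset.mem_univ _, 1, fun z => by rw [one_mul]⟩
      have h1 : ∑ i ∈ t, g i z * u i = 0 := by
        have h2 : ∑ i ∈ t, g i z * u i = (∑ i ∈ t, g i z) * u i₀ := by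
          rw [Finset.sum_mul]
          apply Finset.sum_congr rfl
          intro i hi
          rw [hu i i₀ (Finset.mem_filter.mp hi).2]
        rw [h2, block_sum g hg hne hsum d hd hdvd i₀ t (fun i => by
          rw [ht, Finset.mem_filter]; simp), zero_mul]
      have h3 := ih (s \ t).card (by
        rw [← hsn]
        apply Finset.card_lt_card
        refine Finset.ssubset_iff_subset_ne.mpr ⟨Finset.sdiff_subset, fun h => ?_⟩
        have : i₀ ∈ s \ t := by rw [h]; exact hi₀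
        exact (Finset.mem_sdiff.mp this).2 hi₀t) (s \ t) rfl (by
        intro i hi j hij
        rw [Finset.mem_sdiff] at hi ⊢
        refine ⟨hcl i hi.1 j hij, fun hjt => hi.2 ?_⟩
        obtain ⟨c, hc⟩ := hij
        obtain ⟨c', hc'⟩ := (Finset.mem_filter.mp hjt).2
        have hc0 : c ≠ 0 := by
          rintro rfl
          obtain ⟨w, hw⟩ := hne j
          exact hw (by rw [hc w, zero_mul])
        refine Finset.mem_filter.mpr ⟨Finset.mem_univ _, c⁻¹ * c', fun w => ?_⟩
        have e1 := hc w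
        have e2 := hc' w
        calc g i w = c⁻¹ * (c * g i w) := by field_simp
          _ = c⁻¹ * (c' * g i₀ w) := by rw [← e1, e2]
          _ = _ := by ring)
      rw [← Finset.sum_sdiff hts, h1, h3, add_zero]
  exact key _ Finset.univ rfl (fun _ _ _ _ => Finset.mem_univ _)

/-- products of powers of coordinate functions -/
lemma mono_diff {σ : Type} [Fintype σ] {f : ℂ → σ → ℂ} (hf : Differentiable ℂ f) (a : σ → ℕ) :
    Differentiable ℂ (fun z => ∏ i, f z i ^ a i) :=
  Differentiable.fun_finsetProd fun i _ => ((differentiable_pi.mp hf) i).pow (a i)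

lemma exists_all_ne {σ : Type} [Fintype σ] {f : ℂ → σ → ℂ} (hf : Differentiable ℂ f) (I : Finset σ)
    (hI : ∀ i ∈ I, ∃ z, f z i ≠ 0) : ∃ z, ∀ i ∈ I, f z i ≠ 0 := by
  classical
  have h1 : ∀ᶠ z in codiscreteWithin (sphere (0 : ℂ) 1), ∀ i ∈ I, f z i ≠ 0 :=
    (Filter.eventually_all_finset I).mpr fun i hi =>
      nonzero_codiscrete (g := fun z => f z i) ((differentiable_pi.mp hf) i) (hI i hi) 1
  by_contra hcon
  push Not at hcon
  have h2 : (∅ : Set ℂ) ∈ codiscreteWithin (sphere (0 : ℂ) 1) := by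
    have : {z : ℂ | ∀ i ∈ I, f z i ≠ 0} = ∅ := by
      ext z
      simp only [Set.mem_ofPred_eq, Set.mem_empty_iff_false, iff_false]
      intro h
      obtain ⟨i, hi, hz⟩ := hcon z
      exact h i hi hz
    rw [← this]; exact h1
  rw [mem_codiscreteWithin_accPt] at h2
  have h3 := h2 1 (by simp)
  apply h3
  rw [Set.sdiff_empty]
  have hpre : IsPreconnected (sphere (0 : ℂ) 1) := (isConnected_sphere (by simp) 0 (by norm_num)).isPreconnected
  have hnt : (sphere (0 : ℂ) 1).Nontrivial := by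
    refine ⟨1, by simp, -1, by simp, ?_⟩
    norm_num
  exact hpre.preperfect_of_nontrivial hnt 1 (by simp)

lemma Dv_prod {σ : Type} [Fintype σ] {f : ℂ → σ → ℂ} (hf : Differentiable ℂ f) (a : σ → ℕ)
    (ha : ∀ i, a i ≠ 0 → ∃ z, f z i ≠ 0) (z : ℂ) :
    Dv (fun z => ∏ i, f z i ^ a i) z = ∑ i, (a i : ℤ) * Dv (fun z => f z i) z := by
  classical
  have hfi : ∀ i, Differentiable ℂ (fun z => f z i) := differentiable_pi.mp hf
  have h1 : Dv (fun z => ∏ i, f z i ^ a i) = ∑ i, divisor (fun z => f z i ^ a i) univ := by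
    apply divisor_fun_prod
    · intro i _
      exact (mero_of_diff ((hfi i).pow (a i))).meromorphicOn
    · intro i _ w _
      by_cases h0 : a i = 0
      · have : (fun z => f z i ^ a i) = fun _ => (1 : ℂ) := by ext z; rw [h0, pow_zero]
        rw [this, meromorphicOrderAt_const]
        simp
      · apply mOrder_ne_top ((hfi i).pow (a i))
        obtain ⟨z, hz⟩ := ha i h0
        exact ⟨z, pow_ne_zero _ hz⟩
  rw [h1, locallyFinsuppWithin.coe_sum, Finset.sum_apply]
  apply Finset.sum_congr rfl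
  intro i _
  rw [divisor_fun_pow (mero_of_diff (hfi i)).meromorphicOn, locallyFinsuppWithin.coe_nsmul,
    Pi.smul_apply, nsmul_eq_mul]

/-- Integer weights orthogonal to all multiplicative relations between the coordinates. -/
theorem exists_weights {σ : Type} [Fintype σ] {f : ℂ → σ → ℂ} (hf : Differentiable ℂ f)
    (I : Finset σ) (hI : ∀ i ∈ I, ∃ z, f z i ≠ 0) {i j : σ} (hi : i ∈ I) (hj : j ∈ I)
    (hij : ∀ c : ℂ, ∃ z, f z i ≠ c * f z j) :
    ∃ w : σ → ℤ, w i ≠ w j ∧ ∀ a b : σ → ℕ, (∀ k, a k ≠ 0 → k ∈ I) → (∀ k, b k ≠ 0 → k ∈ I) →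
      (∃ c : ℂ, ∀ z, ∏ k, f z k ^ a k = c * ∏ k, f z k ^ b k) →
      ∑ k, (a k : ℤ) * w k = ∑ k, (b k : ℤ) * w k := by
  classical
  have hfi : ∀ i, Differentiable ℂ (fun z => f z i) := differentiable_pi.mp hf
  let Z : Type := {z : ℂ // ∀ k ∈ I, f z k ≠ 0}
  let l : σ → Z → ℂ := fun k z => logDeriv (fun z => f z k) z.1
  obtain ⟨z0, hz0⟩ := exists_all_ne hf I hI
  have hlij : l i ≠ l j := by
    intro h
    -- the quotient is locally constant
    have hopen : ∀ᶠ w in nhds z0, ∀ k ∈ I, f w k ≠ 0 := by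
      rw [Filter.eventually_all_finset]
      intro k hk
      exact (hfi k).continuous.continuousAt.eventually_ne (hz0 k hk)
    obtain ⟨ε, hε, hball⟩ := Metric.eventually_nhds_iff_ball.mp hopen
    have hq : ∀ w ∈ ball z0 ε, HasDerivAt (fun w => f w i / f w j) 0 w := by
      intro w hw
      have hwi := hball w hw i hi
      have hwj := hball w hw j hj
      have h1 : logDeriv (fun z => f z i) w = logDeriv (fun z => f z j) w :=
        congrFun h ⟨w, hball w hw⟩
      rw [logDeriv_apply, logDeriv_apply, div_eq_div_iff hwi hwj] at h1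
      have h2 := ((hfi i) w).hasDerivAt.div ((hfi j) w).hasDerivAt hwj
      have h3 : (deriv (fun z => f z i) w * f w j - f w i * deriv (fun z => f z j) w) /
          f w j ^ 2 = 0 := by
        rw [h1]; ring
      rw [h3] at h2
      exact h2
    have hconst : ∀ w ∈ ball z0 ε, f w i / f w j = f z0 i / f z0 j := by
      intro w hw
      exact isOpen_ball.is_const_of_deriv_eq_zero (convex_ball z0 ε).isPreconnected
        (fun x hx => (hq x hx).differentiableAt.differentiableWithinAt)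
        (fun x hx => (hq x hx).deriv) hw (mem_ball_self hε)
    set c := f z0 i / f z0 j with hc
    obtain ⟨z, hz⟩ := hij c
    apply hz
    have h4 : (fun z => f z i) = (fun z => c * f z j) := by
      apply AnalyticOnNhd.eq_of_eventuallyEq (z₀ := z0)
        (fun z _ => (hfi i).analyticAt z) (fun z _ => ((hfi j).const_mul c).analyticAt z)
      filter_upwards [ball_mem_nhds z0 hε] with w hw
      rw [← hconst w hw]
      field_simp [hball w hw j hj]
    exact congrFun h4 z
  -- a rational functional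
  obtain ⟨ψ, hψ⟩ : ∃ ψ : (Z → ℂ) →ₗ[ℚ] ℚ, ψ (l i - l j) ≠ 0 := by
    by_contra hcon
    push Not at hcon
    have := (Module.forall_dual_apply_eq_zero_iff ℚ (l i - l j)).mp hcon
    exact hlij (sub_eq_zero.mp this)
  set M : ℕ := ∏ k, (ψ (l k)).den with hM
  have hM0 : (M : ℚ) ≠ 0 := by
    rw [hM]; push_cast
    exact Finset.prod_ne_zero_iff.mpr fun k _ => by exact_mod_cast (ψ (l k)).den_nz
  have hint : ∀ k, ∃ n : ℤ, (n : ℚ) = M * ψ (l k) := by
    intro k
    have h1 : (ψ (l k)).den ∣ M := Finset.dvd_prod_of_mem _ (Finset.mem_univ k)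
    obtain ⟨c, hc⟩ := h1
    refine ⟨(ψ (l k)).num * c, ?_⟩
    have h2 := Rat.mul_den_eq_num (ψ (l k))
    rw [hc]; push_cast
    rw [← h2]; ring
  choose w hw using hint
  refine ⟨w, ?_, ?_⟩
  · intro h
    apply hψ
    have h1 : (M : ℚ) * ψ (l i - l j) = 0 := by
      rw [map_sub, mul_sub, ← hw, ← hw, h, sub_self]
    exact (mul_eq_zero.mp h1).resolve_left hM0
  · intro a b ha hb hab
    obtain ⟨c, hc⟩ := hab
    have hlog : ∀ a : σ → ℕ, (∀ k, a k ≠ 0 → k ∈ I) → ∀ z : Z,
        logDeriv (fun z => ∏ k, f z k ^ a k) z.1 = ∑ k, (a k : ℂ) * l k z := by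
      intro a ha z
      have hz : ∀ k, f z.1 k ^ a k ≠ 0 := by
        intro k
        by_cases h0 : a k = 0
        · rw [h0, pow_zero]; exact one_ne_zero
        · exact pow_ne_zero _ (z.2 k (ha k h0))
      rw [logDeriv_prod (f := fun k z => f z k ^ a k) (fun k _ => hz k)
        (fun k _ => ((hfi k).pow (a k)) _)]
      apply Finset.sum_congr rfl
      intro k _
      exact logDeriv_fun_pow ((hfi k) _) (a k)
    have hc0 : c ≠ 0 := by
      rintro rfl
      have h1 := hc z0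
      rw [zero_mul] at h1
      have h2 : ∏ k, f z0 k ^ a k ≠ 0 := by
        apply Finset.prod_ne_zero_iff.mpr
        intro k _
        by_cases h0 : a k = 0
        · rw [h0, pow_zero]; exact one_ne_zero
        · exact pow_ne_zero _ (hz0 k (ha k h0))
      exact h2 h1
    have hfun : ∑ k, (a k : ℚ) • l k = ∑ k, (b k : ℚ) • l k := by
      ext z
      rw [Finset.sum_apply, Finset.sum_apply]
      have h1 := hlog a ha z
      have h2 := hlog b hb z
      have h3 : logDeriv (fun z => ∏ k, f z k ^ a k) z.1 =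
          logDeriv (fun z => ∏ k, f z k ^ b k) z.1 := by
        have : (fun z => ∏ k, f z k ^ a k) = (fun z => c * ∏ k, f z k ^ b k) := by
          ext z; exact hc z
        rw [this]
        exact logDeriv_const_mul _ c hc0
      rw [h1, h2] at h3
      simp only [Pi.smul_apply, Rat.smul_def, Rat.cast_natCast]
      exact h3
    have h4 := congrArg ψ hfun
    rw [map_sum, map_sum] at h4
    simp only [map_smul, smul_eq_mul] at h4
    have h5 : (M : ℚ) * ∑ k, (a k : ℚ) * ψ (l k) = M * ∑ k, (b k : ℚ) * ψ (l k) := by rw [h4]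
    rw [Finset.mul_sum, Finset.mul_sum] at h5
    have h6 : ∀ e : σ → ℕ, ∑ k, (M : ℚ) * ((e k : ℚ) * ψ (l k)) =
        ((∑ k, (e k : ℤ) * w k : ℤ) : ℚ) := by
      intro e
      push_cast
      apply Finset.sum_congr rfl
      intro k _
      rw [hw]; ring
    rw [h6, h6] at h5
    exact_mod_cast h5

open Classical in
lemma poly_weighted {σ : Type} [Fintype σ] {f : ℂ → σ → ℂ} (hf : Differentiable ℂ f)
    (I : Finset σ) (hI : ∀ i, i ∈ I ↔ ∃ z, f z i ≠ 0) (p : MvPolynomial σ ℂ) (d : ℕ)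
    (hN : p.support.card * (p.support.card - 2) < d)
    (hd : ∀ a ∈ p.support, ∀ b ∈ p.support, ∀ i, (d : ℤ) ∣ (a i : ℤ) - b i)
    (hp : ∀ z, MvPolynomial.eval (f z) p = 0) (u : (σ →₀ ℕ) → ℂ)
    (hu : ∀ a ∈ p.support, ∀ b ∈ p.support, (∀ k, a k ≠ 0 → k ∈ I) → (∀ k, b k ≠ 0 → k ∈ I) →
      (∃ c : ℂ, ∀ z, ∏ k, f z k ^ a k = c * ∏ k, f z k ^ b k) → u a = u b) (z : ℂ) :
    ∑ a ∈ p.support with (∀ k, a k ≠ 0 → k ∈ I),
      MvPolynomial.coeff a p * (∏ k, f z k ^ a k) * u a = 0 := by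
  classical
  set T : Finset (σ →₀ ℕ) := p.support.filter (fun a => ∀ k, a k ≠ 0 → k ∈ I) with hT
  have hTm : ∀ a : T, (a : σ →₀ ℕ) ∈ p.support ∧ ∀ k, (a : σ →₀ ℕ) k ≠ 0 → k ∈ I := fun a =>
    Finset.mem_filter.mp a.2
  obtain ⟨z0, hz0⟩ := exists_all_ne hf I (fun i hi => (hI i).mp hi)
  have hprod0 : ∀ a : σ →₀ ℕ, (∀ k, a k ≠ 0 → k ∈ I) → ∏ k, f z0 k ^ a k ≠ 0 := by
    intro a ha
    apply Finset.prod_ne_zero_iff.mpr
    intro k _
    by_cases h0 : a k = 0
    · rw [h0, pow_zero]; exact one_ne_zero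
    · exact pow_ne_zero _ (hz0 k (ha k h0))
  have hcoef : ∀ a : T, MvPolynomial.coeff (a : σ →₀ ℕ) p ≠ 0 := fun a =>
    MvPolynomial.mem_support_iff.mp (hTm a).1
  let g : T → ℂ → ℂ := fun a z => MvPolynomial.coeff (a : σ →₀ ℕ) p * ∏ k, f z k ^ (a : σ →₀ ℕ) k
  have hsumT : ∀ z, ∑ a : T, g a z = 0 := by
    intro z
    rw [← hp z, MvPolynomial.eval_eq', Finset.sum_coe_sort T
      (fun a => MvPolynomial.coeff a p * ∏ k, f z k ^ a k), hT]
    apply Finset.sum_subset_zero_on_sdiff (Finset.filter_subset _ _) _ (fun _ _ => rfl)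
    intro a ha
    rw [Finset.mem_sdiff, Finset.mem_filter] at ha
    have h1 : ¬ ∀ k, a k ≠ 0 → k ∈ I := fun h => ha.2 ⟨ha.1, h⟩
    push Not at h1
    obtain ⟨k, hk, hkI⟩ := h1
    have h2 : f z k = 0 := by
      by_contra h3
      exact hkI ((hI k).mpr ⟨z, h3⟩)
    rw [Finset.prod_eq_zero (Finset.mem_univ k) (by rw [h2]; exact zero_pow hk), mul_zero]
  have hcard : Fintype.card T ≤ p.support.card := by
    rw [Fintype.card_coe]
    exact Finset.card_le_card (Finset.filter_subset _ _)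
  have hmain := block_sum_weighted g
    (fun a => (mono_diff hf (a : σ →₀ ℕ)).const_mul _)
    (fun a => ⟨z0, mul_ne_zero (hcoef a) (hprod0 _ (hTm a).2)⟩) hsumT d
    (lt_of_le_of_lt (Nat.mul_le_mul hcard (by omega)) hN) ?_ (fun a => u a) ?_ z
  · rw [Finset.sum_coe_sort T
      (fun a => MvPolynomial.coeff a p * (∏ k, f z k ^ a k) * u a)] at hmain
    exact hmain
  · intro a b w
    have h1 : ∀ a : T, Dv (g a) w = ∑ i, ((a : σ →₀ ℕ) i : ℤ) * Dv (fun z => f z i) w := by
      intro a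
      rw [Dv_const_mul (mono_diff hf (a : σ →₀ ℕ)) (hcoef a) w,
        Dv_prod hf (a : σ →₀ ℕ) (fun i hi => (hI i).mp ((hTm a).2 i hi)) w]
    rw [h1, h1, ← Finset.sum_sub_distrib]
    apply Finset.dvd_sum
    intro i _
    rw [← sub_mul]
    exact Dvd.dvd.mul_right (hd _ (hTm a).1 _ (hTm b).1 i) _
  · intro a b hab
    obtain ⟨c, hc⟩ := hab
    apply hu _ (hTm a).1 _ (hTm b).1 (hTm a).2 (hTm b).2
    refine ⟨(MvPolynomial.coeff (a : σ →₀ ℕ) p)⁻¹ * (c * MvPolynomial.coeff (b : σ →₀ ℕ) p),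
      fun z => ?_⟩
    have h1 := hc z
    simp only [g] at h1
    calc ∏ k, f z k ^ (a : σ →₀ ℕ) k = (MvPolynomial.coeff (a : σ →₀ ℕ) p)⁻¹ *
          (MvPolynomial.coeff (a : σ →₀ ℕ) p * ∏ k, f z k ^ (a : σ →₀ ℕ) k) := by
            field_simp [hcoef a]
      _ = _ := by rw [h1]; ring

/-- **Entire curves are swept out by one-parameter groups.** -/
theorem one_parameter {σ : Type} [Fintype σ] (S : Set (MvPolynomial σ ℂ))
    (hS : ∀ p ∈ S, ∃ D : ℕ, p.IsHomogeneous D)
    (hd : ∀ p ∈ S, ∃ d : ℕ, p.support.card * (p.support.card - 2) < d ∧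
      ∀ a ∈ p.support, ∀ b ∈ p.support, ∀ i, (d : ℤ) ∣ (a i : ℤ) - b i)
    (f : ℂ → σ → ℂ) (hf : Differentiable ℂ f) (hf0 : ∀ z, f z ≠ 0)
    (hfX : ∀ z, ∀ p ∈ S, MvPolynomial.eval (f z) p = 0)
    (hnc : ¬ ∀ z w, ∃ c : ℂ, f w = c • f z) :
    ∃ (w : σ → ℕ) (N : ℕ), 0 < N ∧ (∀ i, w i ≤ N) ∧ (∃ i, w i = 0 ∧ ∃ z, f z i ≠ 0) ∧
      (∃ i, w i = N ∧ ∃ z, f z i ≠ 0) ∧
      ∀ p ∈ S, ∀ z s t : ℂ,
        MvPolynomial.eval (fun i => f z i * s ^ (w i) * t ^ (N - w i)) p = 0 := by
  classical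
  have hfi : ∀ i, Differentiable ℂ (fun z => f z i) := differentiable_pi.mp hf
  set I : Finset σ := Finset.univ.filter (fun i => ∃ z, f z i ≠ 0) with hIdef
  have hI : ∀ i, i ∈ I ↔ ∃ z, f z i ≠ 0 := by
    intro i; rw [hIdef, Finset.mem_filter]; simp
  -- two non-proportional coordinates
  obtain ⟨i, hi, j, hj, hij⟩ : ∃ i ∈ I, ∃ j ∈ I, ∀ c : ℂ, ∃ z, f z i ≠ c * f z j := by
    by_contra hcon
    push Not at hcon
    apply hnc
    obtain ⟨j, hj⟩ : ∃ j, f 0 j ≠ 0 := by
      by_contra h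
      push Not at h
      exact hf0 0 (funext h)
    have hjI : j ∈ I := (hI j).mpr ⟨0, hj⟩
    have h1 : ∀ i, ∃ c : ℂ, ∀ z, f z i = c * f z j := by
      intro i
      by_cases hi : i ∈ I
      · exact hcon i hi j hjI
      · refine ⟨0, fun z => ?_⟩
        rw [zero_mul]
        by_contra h2
        exact hi ((hI i).mpr ⟨z, h2⟩)
    choose c hc using h1
    have h2 : ∀ z, f z j ≠ 0 := by
      intro z h
      apply hf0 z
      ext i
      rw [hc i z, h, mul_zero]; rfl
    intro z w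
    refine ⟨f w j / f z j, ?_⟩
    ext i
    rw [Pi.smul_apply, smul_eq_mul, hc i w, hc i z]
    field_simp [h2 z]
  obtain ⟨w0, hw0ij, hw0⟩ := exists_weights hf I (fun i hi => (hI i).mp hi) hi hj hij
  have hIne : I.Nonempty := ⟨i, hi⟩
  obtain ⟨k0, hk0I, hk0⟩ := Finset.exists_min_image I w0 hIne
  obtain ⟨k1, hk1I, hk1⟩ := Finset.exists_max_image I w0 hIne
  set w : σ → ℕ := fun k => if k ∈ I then (w0 k - w0 k0).toNat else 0 with hw
  set N : ℕ := (w0 k1 - w0 k0).toNat with hN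
  have hwI : ∀ k ∈ I, (w k : ℤ) = w0 k - w0 k0 := by
    intro k hk
    have := hk0 k hk
    simp only [hw, if_pos hk]
    omega
  have hNI : (N : ℤ) = w0 k1 - w0 k0 := by
    have := hk0 k1 hk1I
    omega
  have hwN : ∀ k, w k ≤ N := by
    intro k
    by_cases hk : k ∈ I
    · have h1 := hwI k hk
      have h2 := hk1 k hk
      omega
    · simp only [hw, if_neg hk]; exact Nat.zero_le _
  refine ⟨w, N, ?_, hwN, ⟨k0, ?_, (hI k0).mp hk0I⟩, ⟨k1, ?_, (hI k1).mp hk1I⟩, ?_⟩
  · have h1 := hk0 i hi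
    have h2 := hk0 j hj
    have h3 := hk1 i hi
    have h4 := hk1 j hj
    omega
  · have := hwI k0 hk0I
    omega
  · have := hwI k1 hk1I
    omega
  · intro p hp z s t
    obtain ⟨D, hD⟩ := hS p hp
    obtain ⟨d, hdN, hdd⟩ := hd p hp
    set u : (σ →₀ ℕ) → ℂ := fun a => s ^ (∑ k, a k * w k) * t ^ (∑ k, a k * (N - w k)) with hu
    have hdeg : ∀ a ∈ p.support, ∑ k, (a k : ℤ) = D := by
      intro a ha
      have h1 := hD (MvPolynomial.mem_support_iff.mp ha)
      rw [Finsupp.weight_apply, Finsupp.sum_fintype _ _ (by simp)] at h1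
      have h2 : ∑ k, a k = D := by simpa using h1
      exact_mod_cast h2
    have hwsum : ∀ a : σ →₀ ℕ, a ∈ p.support → (∀ k, a k ≠ 0 → k ∈ I) →
        ((∑ k, a k * w k : ℕ) : ℤ) = ∑ k, (a k : ℤ) * w0 k - D * w0 k0 := by
      intro a ha haI
      push_cast
      rw [← hdeg a ha, Finset.sum_mul, ← Finset.sum_sub_distrib]
      apply Finset.sum_congr rfl
      intro k _
      by_cases hk : a k = 0
      · rw [hk]; simp
      · rw [hwI k (haI k hk)]; ring
    have hNsum : ∀ a : σ →₀ ℕ, a ∈ p.support →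
        ((∑ k, a k * (N - w k) : ℕ) : ℤ) = D * N - ((∑ k, a k * w k : ℕ) : ℤ) := by
      intro a ha
      push_cast
      rw [← hdeg a ha, Finset.sum_mul, ← Finset.sum_sub_distrib]
      apply Finset.sum_congr rfl
      intro k _
      rw [Nat.cast_sub (hwN k)]; ring
    have h1 := poly_weighted hf I hI p d hdN hdd (fun z => hfX z p hp) u (by
      intro a ha b hb haI hbI hab
      have h2 := hw0 a b haI hbI hab
      have h3 := hwsum a ha haI
      have h4 := hwsum b hb hbI
      have h5 : (∑ k, a k * w k : ℕ) = ∑ k, b k * w k := by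
        have : ((∑ k, a k * w k : ℕ) : ℤ) = ((∑ k, b k * w k : ℕ) : ℤ) := by
          rw [h3, h4, h2]
        exact_mod_cast this
      have h6 : (∑ k, a k * (N - w k) : ℕ) = ∑ k, b k * (N - w k) := by
        have : ((∑ k, a k * (N - w k) : ℕ) : ℤ) = ((∑ k, b k * (N - w k) : ℕ) : ℤ) := by
          rw [hNsum a ha, hNsum b hb, h5]
        exact_mod_cast this
      simp only [hu, h5, h6]) z
    rw [MvPolynomial.eval_eq', ← h1]
    symm
    rw [Finset.sum_filter]
    apply Finset.sum_congr rfl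
    intro a ha
    split_ifs with haI
    · have h7 : ∏ k, (f z k * s ^ w k * t ^ (N - w k)) ^ a k =
          (∏ k, f z k ^ a k) * u a := by
        simp only [hu, mul_pow, Finset.prod_mul_distrib, ← pow_mul]
        rw [Finset.prod_pow_eq_pow_sum, Finset.prod_pow_eq_pow_sum, mul_assoc]
        simp_rw [mul_comm (w _), mul_comm (N - w _)]
      rw [h7]; ring
    · push Not at haI
      obtain ⟨k, hk, hkI⟩ := haI
      have h2 : f z k = 0 := by
        by_contra h3
        exact hkI ((hI k).mpr ⟨z, h3⟩)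
      rw [Finset.prod_eq_zero (Finset.mem_univ k) (by rw [h2]; simp [hk]), mul_zero]

lemma eval_smul_hom {σ : Type} [Fintype σ] {p : MvPolynomial σ ℂ} {D : ℕ} (hD : p.IsHomogeneous D)
    (c : ℂ) (x : σ → ℂ) : MvPolynomial.eval (c • x) p = c ^ D * MvPolynomial.eval x p := by
  rw [MvPolynomial.eval_eq', MvPolynomial.eval_eq', Finset.mul_sum]
  apply Finset.sum_congr rfl
  intro a ha
  have h1 := hD (MvPolynomial.mem_support_iff.mp ha)
  rw [Finsupp.weight_apply, Finsupp.sum_fintype _ _ (by simp)] at h1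
  have h2 : ∑ k, a k = D := by simpa using h1
  simp only [Pi.smul_apply, smul_eq_mul, mul_pow, Finset.prod_mul_distrib]
  rw [Finset.prod_pow_eq_pow_sum, h2]
  ring

end Pool.Agent.GGL
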