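import Mathlib

/-! Piece S1 of theorem III: forms of one degree cutting out `X × 0`. -/

set_option autoImplicit false

namespace Pool.Agent.GGL

open MvPolynomial

/-- immersion property from the recovery property -/
theorem immersion_of_recovery {σ ι : Type} [Fintype σ] {δ : ℕ} (hδ : 1 ≤ δ)
    (p : ι → MvPolynomial σ ℂ) (hp : ∀ a, (p a).IsHomogeneous δ)
    (hrec : ∀ a k l, ∃ (c c' : ι) (A : MvPolynomial σ ℂ) (N : ℕ),
        p c * A = p a * MvPolynomial.X k ^ N ∧
        MvPolynomial.X k * p c' = MvPolynomial.X l * p c)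
    (z : σ → ℂ) (hz : z ≠ 0) (ha : ∃ a, MvPolynomial.eval z (p a) ≠ 0) (v : σ → ℂ)
    (hv : ∀ a, ∑ k, v k * MvPolynomial.eval z (MvPolynomial.pderiv k (p a)) = 0) : v = 0 := by
  classical
  obtain ⟨a, ha⟩ := ha
  obtain ⟨k, hk⟩ : ∃ k, z k ≠ 0 := by
    by_contra h
    push Not at h
    exact hz (funext h)
  have hX : ∀ (j : σ) (q : MvPolynomial σ ℂ),
      ∑ i, v i * eval z (pderiv i (X j * q))
        = v j * eval z q + z j * ∑ i, v i * eval z (pderiv i q) := by
    intro j q
    have h1 : ∀ i, v i * eval z (pderiv i (X j * q))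
        = (if i = j then v j * eval z q else 0) + z j * (v i * eval z (pderiv i q)) := by
      intro i
      rw [pderiv_mul, pderiv_X, map_add, map_mul, map_mul, eval_X]
      by_cases hij : i = j
      · subst hij
        simp only [Pi.single_eq_same, map_one, if_true]
        ring
      · rw [Pi.single_eq_of_ne (Ne.symm hij), if_neg hij]
        simp only [map_zero]
        ring
    rw [Finset.sum_congr rfl (fun i _ => h1 i), Finset.sum_add_distrib, Finset.mul_sum]
    simp
  have hpar : ∀ l, v k * z l = z k * v l := by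
    intro l
    obtain ⟨c, c', A, N, h1, h2⟩ := hrec a k l
    have hc : eval z (p c) ≠ 0 := by
      intro h0
      have h3 := congrArg (eval z) h1
      rw [map_mul, map_mul, h0, zero_mul, map_pow, eval_X] at h3
      exact mul_ne_zero ha (pow_ne_zero _ hk) h3.symm
    have h4 := congrArg (eval z) h2
    rw [map_mul, map_mul, eval_X, eval_X] at h4
    have h5 : ∑ i, v i * eval z (pderiv i (X k * p c'))
        = ∑ i, v i * eval z (pderiv i (X l * p c)) := by rw [h2]
    rw [hX, hX, hv, hv, mul_zero, mul_zero, add_zero, add_zero] at h5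
    have h6 : (v k * z l - z k * v l) * eval z (p c) = 0 := by
      linear_combination (-v k) * h4 + z k * h5
    rcases mul_eq_zero.1 h6 with h7 | h7
    · exact sub_eq_zero.1 h7
    · exact absurd h7 hc
  -- Euler
  obtain ⟨c, c', A, N, h1, h2⟩ := hrec a k k
  have hc : eval z (p c) ≠ 0 := by
    intro h0
    have h3 := congrArg (eval z) h1
    rw [map_mul, map_mul, h0, zero_mul, map_pow, eval_X] at h3
    exact mul_ne_zero ha (pow_ne_zero _ hk) h3.symm
  have hE := congrArg (eval z) (hp c).sum_X_mul_pderiv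
  rw [map_sum, nsmul_eq_mul, map_mul, map_natCast] at hE
  have hvk : v k = 0 := by
    have h3 : z k * ∑ i, v i * eval z (pderiv i (p c))
        = v k * ∑ i, eval z (X i * pderiv i (p c)) := by
      rw [Finset.mul_sum, Finset.mul_sum]
      refine Finset.sum_congr rfl (fun i _ => ?_)
      rw [map_mul, eval_X]
      linear_combination (- eval z (pderiv i (p c))) * hpar i
    rw [hv, mul_zero, hE] at h3
    have hδ' : (δ : ℂ) ≠ 0 := by
      exact_mod_cast (by omega : δ ≠ 0)
    rcases mul_eq_zero.1 h3.symm with h4 | h4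
    · exact h4
    · exact absurd h4 (mul_ne_zero hδ' hc)
  funext l
  have h3 := hpar l
  rw [hvk, zero_mul] at h3
  rcases mul_eq_zero.1 h3.symm with h4 | h4
  · exact absurd h4 hk
  · exact h4

/-- forms of one degree with the same zero set as a finite family of forms -/
theorem forms_aux {σ ι : Type} [Fintype σ] [Fintype ι] (u : ι → MvPolynomial σ ℂ) (d : ι → ℕ)
    (hu : ∀ i, (u i).IsHomogeneous (d i)) :
    ∃ (δ r : ℕ) (p : Fin r → MvPolynomial σ ℂ), 1 ≤ δ ∧ (∀ a, (p a).IsHomogeneous δ) ∧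
      (∀ z : σ → ℂ, z ≠ 0 → ((∀ a, eval z (p a) = 0) ↔ ∀ i, eval z (u i) = 0)) ∧
      (∀ a k l, ∃ (c c' : Fin r) (A : MvPolynomial σ ℂ) (N : ℕ),
        p c * A = p a * X k ^ N ∧ X k * p c' = X l * p c) := by
  classical
  set δ : ℕ := 1 + ∑ i, d i with hδ
  have hd : ∀ i, d i < δ := by
    intro i
    have := Finset.single_le_sum (f := d) (fun j _ => Nat.zero_le _) (Finset.mem_univ i)
    omega
  let K : Type := Σ i : ι, (Fin (δ - d i) → σ)
  let P : K → MvPolynomial σ ℂ := fun a => u a.1 * ∏ j, X (a.2 j)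
  let e : Fin (Fintype.card K) ≃ K := (Fintype.equivFin K).symm
  have hz : ∀ z : σ → ℂ, z ≠ 0 → ((∀ a, eval z (P a) = 0) ↔ ∀ i, eval z (u i) = 0) := by
    intro z hz0
    obtain ⟨k, hk⟩ : ∃ k, z k ≠ 0 := by
      by_contra h
      push Not at h
      exact hz0 (funext h)
    constructor
    · intro h i
      have h1 := h ⟨i, fun _ => k⟩
      simp only [P, map_mul, Finset.prod_const, map_pow, eval_X] at h1
      rcases mul_eq_zero.1 h1 with h2 | h2
      · exact h2
      · exact absurd h2 (pow_ne_zero _ hk)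
    · intro h a
      simp only [P, map_mul, h a.1, zero_mul]
  have hrec : ∀ (a : K) (k l : σ), ∃ (c c' : K) (A : MvPolynomial σ ℂ) (N : ℕ),
      P c * A = P a * X k ^ N ∧ X k * P c' = X l * P c := by
    intro a k l
    obtain ⟨i, τ⟩ := a
    have hpos : 0 < δ - d i := by have := hd i; omega
    refine ⟨⟨i, fun _ => k⟩, ⟨i, Function.update (fun _ => k) ⟨0, hpos⟩ l⟩, ∏ j, X (τ j),
      δ - d i, ?_, ?_⟩
    · simp only [P, Finset.prod_const, Finset.card_univ, Fintype.card_fin]
      ring
    · simp only [P]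
      have h1 : ∏ j, (X (Function.update (fun _ : Fin (δ - d i) => k) ⟨0, hpos⟩ l j) :
          MvPolynomial σ ℂ)
          = X l * ∏ j ∈ Finset.univ.erase (⟨0, hpos⟩ : Fin (δ - d i)), X k := by
        rw [← Finset.mul_prod_erase Finset.univ _ (Finset.mem_univ (⟨0, hpos⟩ : Fin (δ - d i)))]
        rw [Function.update_self]
        congr 1
        refine Finset.prod_congr rfl (fun j hj => ?_)
        rw [Function.update_of_ne (Finset.ne_of_mem_erase hj)]
      have h2 : ∏ _j : Fin (δ - d i), (X k : MvPolynomial σ ℂ)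
          = X k * ∏ j ∈ Finset.univ.erase (⟨0, hpos⟩ : Fin (δ - d i)), X k := by
        rw [← Finset.mul_prod_erase Finset.univ _ (Finset.mem_univ (⟨0, hpos⟩ : Fin (δ - d i)))]
      rw [h1, h2]
      ring
  refine ⟨δ, Fintype.card K, fun a => P (e a), by omega, ?_, ?_, ?_⟩
  · intro a
    have h1 : (∏ j, X ((e a).2 j) : MvPolynomial σ ℂ).IsHomogeneous (δ - d (e a).1) := by
      have := MvPolynomial.IsHomogeneous.prod (R := ℂ) (σ := σ) Finset.univ
        (fun j => X ((e a).2 j)) (fun _ => 1) (fun j _ => isHomogeneous_X ℂ _)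
      simpa using this
    have h2 := (hu (e a).1).mul h1
    have h3 : d (e a).1 + (δ - d (e a).1) = δ := by have := hd (e a).1; omega
    rw [h3] at h2
    exact h2
  · intro z hz0
    rw [← hz z hz0]
    constructor
    · intro h a
      have := h (e.symm a)
      simpa using this
    · intro h a
      exact h (e a)
  · intro a k l
    obtain ⟨c, c', A, N, h1, h2⟩ := hrec (e a) k l
    refine ⟨e.symm c, e.symm c', A, N, ?_, ?_⟩
    · simpa using h1
    · simpa using h2

/-- PIECE S1 (Ideal.lean, only Mathlib).  Forms of one degree cutting out `X × 0`, with recovery of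
coordinates and the immersion property. -/
theorem exists_forms (n : ℕ) (S : Set (MvPolynomial (Fin (n + 1)) ℂ))
    (hS : ∀ p ∈ S, ∃ d : ℕ, p.IsHomogeneous d) :
    ∃ (δ r : ℕ) (p : Fin r → MvPolynomial (Fin (n + 1) ⊕ Fin (n + 1)) ℂ),
      1 ≤ δ ∧ (∀ a, (p a).IsHomogeneous δ) ∧
      (∀ z : Fin (n + 1) ⊕ Fin (n + 1) → ℂ, z ≠ 0 →
        ((∀ a, MvPolynomial.eval z (p a) = 0) ↔
          (∀ j, z (Sum.inr j) = 0) ∧ ∀ s ∈ S, MvPolynomial.eval (fun i => z (Sum.inl i)) s = 0)) ∧
      (∀ a k l, ∃ (c c' : Fin r) (A : MvPolynomial (Fin (n + 1) ⊕ Fin (n + 1)) ℂ) (N : ℕ),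
        p c * A = p a * MvPolynomial.X k ^ N ∧
        MvPolynomial.X k * p c' = MvPolynomial.X l * p c) ∧
      (∀ z : Fin (n + 1) ⊕ Fin (n + 1) → ℂ, z ≠ 0 → (∃ a, MvPolynomial.eval z (p a) ≠ 0) →
        ∀ v : Fin (n + 1) ⊕ Fin (n + 1) → ℂ,
          (∀ a, ∑ k, v k * MvPolynomial.eval z (MvPolynomial.pderiv k (p a)) = 0) → v = 0) := by
  classical
  obtain ⟨S0, hS0, hspan⟩ := (Submodule.fg_span_iff_fg_span_finset_subset S).1
    (IsNoetherian.noetherian (Submodule.span (MvPolynomial (Fin (n + 1)) ℂ) S))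
  have hd : ∀ s : S0, ∃ d : ℕ, (s : MvPolynomial (Fin (n + 1)) ℂ).IsHomogeneous d :=
    fun s => hS s (hS0 s.2)
  choose d hd using hd
  let u : S0 ⊕ Fin (n + 1) → MvPolynomial (Fin (n + 1) ⊕ Fin (n + 1)) ℂ :=
    Sum.elim (fun s => rename Sum.inl (s : MvPolynomial (Fin (n + 1)) ℂ)) (fun j => X (Sum.inr j))
  obtain ⟨δ, r, p, hδ, hp, hz, hrec⟩ := forms_aux u (Sum.elim d (fun _ => 1)) (by
    rintro (s | j)
    · exact (hd s).rename_isHomogeneous
    · exact isHomogeneous_X ℂ _)
  refine ⟨δ, r, p, hδ, hp, ?_, hrec, ?_⟩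
  · intro z hz0
    rw [hz z hz0]
    have hu : (∀ i, eval z (u i) = 0) ↔ (∀ s : S0, eval (fun i => z (Sum.inl i))
        (s : MvPolynomial (Fin (n + 1)) ℂ) = 0) ∧ ∀ j, z (Sum.inr j) = 0 := by
      rw [Sum.forall]
      refine and_congr (forall_congr' fun s => ?_) (forall_congr' fun j => ?_)
      · simp only [u, Sum.elim_inl, eval_rename]
        rfl
      · simp only [u, Sum.elim_inr, eval_X]
    rw [hu, and_comm]
    refine and_congr_right (fun _ => ?_)
    constructor
    · intro h s hs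
      have h1 : Submodule.span (MvPolynomial (Fin (n + 1)) ℂ) S ≤
          RingHom.ker (eval (fun i => z (Sum.inl i))) := by
        rw [hspan, Submodule.span_le]
        intro t ht
        exact (RingHom.mem_ker).2 (h ⟨t, ht⟩)
      exact (RingHom.mem_ker).1 (h1 (Submodule.subset_span hs))
    · intro h s
      exact h s (hS0 s.2)
  · intro z hz0 ha v hv
    exact immersion_of_recovery hδ p hp hrec z hz0 ha v hv

end Pool.Agent.GGL
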