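import Pool.Agent.Lib_MP_b9fedf_ag.Defs2

/-! Reduction of Green-Griffiths-Lang for `S` to the hypersurface `F`. -/

set_option autoImplicit false

namespace Pool.Agent.GGL

theorem emb_smul {n : ℕ} (c : ℂ) (x : Fin (n + 1) → ℂ) : emb (c • x) = c • emb x := by
  funext i
  simp only [emb, Pi.smul_apply, smul_eq_mul]
  split_ifs <;> simp

theorem emb_zero {n : ℕ} : emb (0 : Fin (n + 1) → ℂ) = 0 := by
  funext i
  simp only [emb, Pi.zero_apply]
  split_ifs <;> rfl

/-- the projection to the first `n + 1` coordinates -/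
def proj1 {n : ℕ} (y : Fin (2 * n + 1 + 1) → ℂ) : Fin (n + 1) → ℂ := fun i =>
  y ⟨i.1, by omega⟩

theorem proj1_emb {n : ℕ} (x : Fin (n + 1) → ℂ) : proj1 (emb x) = x := by
  funext i
  have h : i.1 < n + 1 := i.2
  simp only [proj1, emb, dif_pos h]

theorem emb_injective {n : ℕ} : Function.Injective (emb (n := n)) := fun x y h => by
  rw [← proj1_emb x, h, proj1_emb]

theorem differentiable_emb {n : ℕ} {f : ℂ → (Fin (n + 1) → ℂ)} (hf : Differentiable ℂ f) :
    Differentiable ℂ fun z => emb (f z) := by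
  rw [differentiable_pi]
  intro i
  by_cases h : i.1 < n + 1
  · simpa [emb, h] using (differentiable_pi.mp hf) ⟨i.1, h⟩
  · simp [emb, h]

theorem not_both {m : ℕ} {a b u : Fin m → ℂ} (hu : u ≠ 0)
    (h : ¬ ∃ c : ℂ, b = c • a) (h1 : ∃ c : ℂ, u = c • a) (h2 : ∃ c : ℂ, u = c • b) : False := by
  obtain ⟨c, hc⟩ := h1
  obtain ⟨d, hd⟩ := h2
  have hd0 : d ≠ 0 := by
    rintro rfl
    exact hu (by rw [hd, zero_smul])
  refine h ⟨d⁻¹ * c, ?_⟩
  rw [mul_smul, ← hc, hd, smul_smul, inv_mul_cancel₀ hd0, one_smul]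

/-- PIECE E1 (Reduce.lean, imports Defs2).  Reduction of GGL for `S` to GGL for `F`. -/
theorem GGL_of_exceptional {n : ℕ} (S : Set (MvPolynomial (Fin (n + 1)) ℂ))
    (F : MvPolynomial (Fin (2 * n + 1 + 1)) ℂ) (h : Exceptional S F)
    (hF : GGL (2 * n + 1) {F}) : GGL n S := by
  intro htor f hf hf0 hfS
  have hmain : ∀ f : ℂ → (Fin (2 * n + 1 + 1) → ℂ), Differentiable ℂ f → (∀ z, f z ≠ 0) →
      (∀ z, ∀ p ∈ ({F} : Set _), MvPolynomial.eval (f z) p = 0) →
      ∀ z w, ∃ c : ℂ, f w = c • f z := by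
    refine hF ?_
    intro g L hL hspan Φ hΦ hΦ0 hΦF hΦL
    by_contra hcon
    push Not at hcon
    obtain ⟨z, w, hzw⟩ := hcon
    have hzw' : ¬ ∃ c : ℂ, Φ w = c • Φ z := by
      rintro ⟨c, hc⟩; exact hzw c hc
    -- curves along lines
    have hline : ∀ u v : Fin g → ℂ, (∃ c : ℂ, Φ v = c • Φ u) ∨
        ∃ x : Fin (n + 1) → ℂ, Φ v = emb x ∧ ∀ p ∈ S, MvPolynomial.eval x p = 0 := by
      intro u v
      have hd : Differentiable ℂ (fun t : ℂ => Φ (u + t • (v - u))) :=
        hΦ.comp ((differentiable_const u).add (differentiable_id.smul_const (v - u)))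
      rcases h.2 (fun t : ℂ => Φ (u + t • (v - u))) hd (fun t => hΦ0 _)
        (fun t => hΦF _ F rfl) with h1 | h1
      · left
        obtain ⟨c, hc⟩ := h1 0 1
        refine ⟨c, ?_⟩
        simpa using hc
      · right
        have := h1 1
        simpa using this
    have hemb : ∀ u, ∃ x : Fin (n + 1) → ℂ, Φ u = emb x ∧
        ∀ p ∈ S, MvPolynomial.eval x p = 0 := by
      intro u
      rcases hline z u with h1 | h1
      · rcases hline w u with h2 | h2
        · exact (not_both (hΦ0 u) hzw' h1 h2).elim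
        · exact h2
      · exact h1
    have hproj : ∀ u, Φ u = emb (proj1 (Φ u)) ∧
        ∀ p ∈ S, MvPolynomial.eval (proj1 (Φ u)) p = 0 := by
      intro u
      obtain ⟨x, hx, hxS⟩ := hemb u
      have : proj1 (Φ u) = x := by rw [hx, proj1_emb]
      rw [this]
      exact ⟨hx, hxS⟩
    have hΨd : Differentiable ℂ (fun u => proj1 (Φ u)) := by
      rw [differentiable_pi]
      intro i
      exact (differentiable_pi.mp hΦ) _
    obtain ⟨c, hc⟩ := htor g L hL hspan (fun u => proj1 (Φ u)) hΨd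
      (fun u hu => hΦ0 u (by
        have hu' : proj1 (Φ u) = 0 := hu
        rw [(hproj u).1, hu', emb_zero]))
      (fun u => (hproj u).2)
      (fun u l hl => by
        obtain ⟨c, hc⟩ := hΦL u l hl
        refine ⟨c, ?_⟩
        show proj1 (Φ (u + l)) = c • proj1 (Φ u)
        rw [hc]
        rfl) z w
    apply hzw'
    refine ⟨c, ?_⟩
    have hc' : proj1 (Φ w) = c • proj1 (Φ z) := hc
    rw [(hproj w).1, hc', emb_smul, ← (hproj z).1]
  intro z w
  obtain ⟨c, hc⟩ := hmain (fun z => emb (f z)) (differentiable_emb hf)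
    (fun z hz => hf0 z (by
      have : emb (f z) = emb 0 := by rw [emb_zero]; exact hz
      exact emb_injective this))
    (fun z p hp => by
      rw [Set.mem_singleton_iff] at hp
      rw [hp]
      exact h.1 (f z) (hf0 z) (hfS z)) z w
  refine ⟨c, ?_⟩
  apply emb_injective
  rw [emb_smul]
  exact hc

end Pool.Agent.GGL
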