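import Pool.Agent.Lib_MP_b9fedf_ag.Coef

/-! Piece S2: generic coefficients give a hypersurface which is smooth outside the common zeros
of the `p a`. -/

set_option autoImplicit false

namespace Pool.Agent.GGL

open MvPolynomial

section Smooth

variable {σ : Type} [Fintype σ] [DecidableEq σ]

omit [DecidableEq σ] in
theorem smooth_eval_smul {φ : MvPolynomial σ ℂ} {D : ℕ} (h : φ.IsHomogeneous D) (c : ℂ)
    (z : σ → ℂ) : eval (c • z) φ = c ^ D * eval z φ := by
  rw [eval_eq', eval_eq', Finset.mul_sum]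
  refine Finset.sum_congr rfl fun d hd => ?_
  have h1 : ∏ i, (c • z) i ^ d i = c ^ D * ∏ i, z i ^ d i := by
    have h2 : ∑ i, d i = D := by
      have h3 : Finsupp.weight (fun _ => 1) d = D := h (mem_support_iff.1 hd)
      rw [← Finsupp.degree_eq_weight_one] at h3
      rw [← h3, Finsupp.degree_eq_sum]
    simp only [Pi.smul_apply, smul_eq_mul, mul_pow]
    rw [Finset.prod_mul_distrib, Finset.prod_pow_eq_pow_sum, h2]
  rw [h1]; ring

omit [DecidableEq σ] in
theorem smooth_contDiff (φ : MvPolynomial σ ℂ) : ContDiff ℂ 1 fun z : σ → ℂ => eval z φ := by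
  have h : (fun z : σ → ℂ => eval z φ) =
      fun z => ∑ d ∈ φ.support, φ.coeff d * ∏ i, z i ^ d i := funext fun z => eval_eq' _ _
  rw [h]
  exact ContDiff.sum fun d _ => contDiff_const.mul
    (contDiff_prod fun i _ => (contDiff_apply ℂ ℂ i).pow _)

end Smooth

/-- the form `∑ y_i x_i ^ N` -/
noncomputable def smoothG (n N : ℕ) : MvPolynomial (Fin (n + 1) ⊕ Fin (n + 1)) ℂ :=
  ∑ i, X (Sum.inr i) * X (Sum.inl i) ^ N

/-- the linear combinations of the `p a` -/
noncomputable def smoothQ {n r M : ℕ} (p : Fin r → MvPolynomial (Fin (n + 1) ⊕ Fin (n + 1)) ℂ)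
    (q : Fin M → Fin r → ℂ) (m : Fin M) : MvPolynomial (Fin (n + 1) ⊕ Fin (n + 1)) ℂ :=
  ∑ a, C (q m a) * p a

theorem smoothG_hom (n N : ℕ) : (smoothG n N).IsHomogeneous (1 + N) := by
  refine IsHomogeneous.sum _ _ _ fun i _ => ?_
  refine (isHomogeneous_X ℂ _).mul ?_
  have := (isHomogeneous_X ℂ (Sum.inl i : Fin (n + 1) ⊕ Fin (n + 1))).pow N
  rwa [one_mul] at this

theorem smoothQ_hom {n r M δ : ℕ} {p : Fin r → MvPolynomial (Fin (n + 1) ⊕ Fin (n + 1)) ℂ}
    (hp : ∀ a, (p a).IsHomogeneous δ) (q : Fin M → Fin r → ℂ) (m : Fin M) :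
    (smoothQ p q m).IsHomogeneous δ := by
  refine IsHomogeneous.sum _ _ _ fun a _ => ?_
  have := (isHomogeneous_C (Fin (n + 1) ⊕ Fin (n + 1)) (q m a)).mul (hp a)
  rwa [zero_add] at this

theorem smoothQ_eval {n r M : ℕ} (p : Fin r → MvPolynomial (Fin (n + 1) ⊕ Fin (n + 1)) ℂ)
    (q : Fin M → Fin r → ℂ) (m : Fin M) (z : Fin (n + 1) ⊕ Fin (n + 1) → ℂ) :
    eval z (smoothQ p q m) = ∑ a, q m a * eval z (p a) := by
  simp [smoothQ, map_sum]

theorem smoothQ_pderiv {n r M : ℕ} (p : Fin r → MvPolynomial (Fin (n + 1) ⊕ Fin (n + 1)) ℂ)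
    (q : Fin M → Fin r → ℂ) (m : Fin M) (z : Fin (n + 1) ⊕ Fin (n + 1) → ℂ)
    (k : Fin (n + 1) ⊕ Fin (n + 1)) :
    eval z (pderiv k (smoothQ p q m)) = ∑ a, q m a * eval z (pderiv k (p a)) := by
  simp [smoothQ, map_sum]

theorem smooth_pderiv_pow {σ : Type} (Q : MvPolynomial σ ℂ) (e : ℕ) (k : σ) (z : σ → ℂ) :
    eval z (pderiv k (Q ^ e)) = e * eval z Q ^ (e - 1) * eval z (pderiv k Q) := by
  rw [pderiv_pow]
  simp

/-- PIECE S2 (Smooth.lean, imports Coef).  Generic coefficients give a hypersurface which is smooth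
outside the common zeros of the `p a`. -/
theorem exists_smooth {n δ r M e : ℕ} (hδ : 1 ≤ δ) (he : 2 ≤ e) (hM : 2 * r ≤ M)
    (p : Fin r → MvPolynomial (Fin (n + 1) ⊕ Fin (n + 1)) ℂ) (hp : ∀ a, (p a).IsHomogeneous δ)
    (himm : ∀ z : Fin (n + 1) ⊕ Fin (n + 1) → ℂ, z ≠ 0 →
      (∃ a, MvPolynomial.eval z (p a) ≠ 0) →
        ∀ v : Fin (n + 1) ⊕ Fin (n + 1) → ℂ,
          (∀ a, ∑ k, v k * MvPolynomial.eval z (MvPolynomial.pderiv k (p a)) = 0) → v = 0)
    (q : Fin M → Fin r → ℂ)
    (hq : ∀ ι : Fin r ↪ Fin M, (Matrix.of fun i a : Fin r => q (ι i) a).det ≠ 0) :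
    ∃ b : Fin M → ℂ, (∀ m, b m ≠ 0) ∧
      ∀ F : MvPolynomial (Fin (n + 1) ⊕ Fin (n + 1)) ℂ,
        F = ∑ i, MvPolynomial.X (Sum.inr i) * MvPolynomial.X (Sum.inl i) ^ (δ * e - 1) +
          ∑ m, MvPolynomial.C (b m) * (∑ a, MvPolynomial.C (q m a) * p a) ^ e →
        F.IsHomogeneous (δ * e) ∧
        (∀ z : Fin (n + 1) ⊕ Fin (n + 1) → ℂ, z ≠ 0 → (∃ a, MvPolynomial.eval z (p a) ≠ 0) →
          ∃ k, MvPolynomial.eval z (MvPolynomial.pderiv k F) ≠ 0) ∧
        (∀ z : Fin (n + 1) ⊕ Fin (n + 1) → ℂ, z ≠ 0 → (∀ a, MvPolynomial.eval z (p a) = 0) →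
          (∀ j, z (Sum.inr j) = 0) →
          MvPolynomial.eval z F = 0 ∧ ∃ k, MvPolynomial.eval z (MvPolynomial.pderiv k F) ≠ 0) := by
  classical
  have hδe : 1 ≤ δ * e := Nat.one_le_iff_ne_zero.2 (by positivity)
  have hGhom : (smoothG n (δ * e - 1)).IsHomogeneous (δ * e) := by
    have := smoothG_hom n (δ * e - 1)
    rwa [show 1 + (δ * e - 1) = δ * e by omega] at this
  have hQhom : ∀ m, (smoothQ p q m ^ e).IsHomogeneous (δ * e) := fun m =>
    (smoothQ_hom hp q m).pow e
  obtain ⟨b, hb, hb'⟩ := exists_generic_coeff (ι := Fin (n + 1) ⊕ Fin (n + 1)) (κ := Fin M)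
    (fun z k => eval z (pderiv k (smoothG n (δ * e - 1))))
    (fun m z k => eval z (pderiv k (smoothQ p q m ^ e)))
    (contDiff_pi.2 fun k => smooth_contDiff _) (fun m => contDiff_pi.2 fun k => smooth_contDiff _)
    (δ * e - 1)
    (fun c z => by
      funext k
      rw [smooth_eval_smul hGhom.pderiv]
      rfl)
    (fun m c z => by
      funext k
      rw [smooth_eval_smul (hQhom m).pderiv]
      rfl)
    {z | ∃ a, eval z (p a) ≠ 0}
    (fun c hc z hz => by
      obtain ⟨a, ha⟩ := hz
      refine ⟨a, ?_⟩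
      rw [smooth_eval_smul (hp a)]
      exact mul_ne_zero (pow_ne_zero _ hc) ha)
    (by
      intro z hz hz0
      by_contra hne
      obtain ⟨f, hf0, hf⟩ := Submodule.exists_le_ker_of_lt_top _ (lt_top_iff_ne_top.2 hne)
      have hfv : ∀ w : Fin (n + 1) ⊕ Fin (n + 1) → ℂ, f w = ∑ k, f (Pi.single k 1) * w k := by
        intro w
        conv_lhs => rw [pi_eq_sum_univ' w]
        rw [map_sum]
        refine Finset.sum_congr rfl fun k _ => ?_
        rw [map_smul, smul_eq_mul, mul_comm]
      have hker : ∀ m, ∑ k, f (Pi.single k 1) * eval z (pderiv k (smoothQ p q m ^ e)) = 0 := by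
        intro m
        have h1 : (fun k => eval z (pderiv k (smoothQ p q m ^ e))) ∈ LinearMap.ker f :=
          hf (Submodule.subset_span ⟨m, rfl⟩)
        rw [LinearMap.mem_ker, hfv] at h1
        exact h1
      -- few of the `Q m` vanish at `z`
      have hcard : (Finset.univ.filter fun m : Fin M => eval z (smoothQ p q m) = 0).card < r := by
        by_contra hcon
        have hcon' := not_lt.1 hcon
        have h2 : Fintype.card (Fin r) ≤
            Fintype.card {m : Fin M // eval z (smoothQ p q m) = 0} := by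
          rw [Fintype.card_fin, Fintype.card_subtype]
          exact hcon'
        obtain ⟨ι⟩ := Function.Embedding.nonempty_of_card_le h2
        have h3 := hq (ι.trans (Function.Embedding.subtype _))
        have h4 := Matrix.eq_zero_of_mulVec_eq_zero h3 (v := fun a => eval z (p a)) (by
          funext i
          have h5 := (ι i).2
          rw [smoothQ_eval] at h5
          simpa [Matrix.mulVec, dotProduct] using h5)
        obtain ⟨a, ha⟩ := hz
        exact ha (congrFun h4 a)
      have hcard' : r ≤ (Finset.univ.filter fun m : Fin M => ¬ eval z (smoothQ p q m) = 0).card := by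
        have h2 := Finset.card_filter_add_card_filter_not (s := (Finset.univ : Finset (Fin M)))
          (fun m : Fin M => eval z (smoothQ p q m) = 0)
        rw [Finset.card_univ, Fintype.card_fin] at h2
        omega
      have h2 : Fintype.card (Fin r) ≤
          Fintype.card {m : Fin M // ¬ eval z (smoothQ p q m) = 0} := by
        rw [Fintype.card_fin, Fintype.card_subtype]
        exact hcard'
      obtain ⟨ι⟩ := Function.Embedding.nonempty_of_card_le h2
      have h3 := hq (ι.trans (Function.Embedding.subtype _))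
      have h4 := Matrix.eq_zero_of_mulVec_eq_zero h3
        (v := fun a => ∑ k, f (Pi.single k 1) * eval z (pderiv k (p a))) (by
          funext i
          have h5 := hker (ι i)
          simp only [smooth_pderiv_pow, smoothQ_pderiv] at h5
          have h6 : ((e : ℂ) * eval z (smoothQ p q (ι i)) ^ (e - 1)) ≠ 0 :=
            mul_ne_zero (Nat.cast_ne_zero.2 (by omega)) (pow_ne_zero _ (ι i).2)
          have h7 : ((e : ℂ) * eval z (smoothQ p q (ι i)) ^ (e - 1)) *
              ∑ k, f (Pi.single k 1) * ∑ a, q (ι i) a * eval z (pderiv k (p a)) = 0 := by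
            refine Eq.trans ?_ h5
            rw [Finset.mul_sum]
            refine Finset.sum_congr rfl fun k _ => ?_
            ring
          have h8 := (mul_eq_zero.1 h7).resolve_left h6
          simp only [Matrix.mulVec, dotProduct, Matrix.of_apply, Function.Embedding.trans_apply,
            Function.Embedding.subtype_apply, Pi.zero_apply]
          refine Eq.trans ?_ h8
          simp only [Finset.mul_sum]
          rw [Finset.sum_comm]
          refine Finset.sum_congr rfl fun k _ => Finset.sum_congr rfl fun a _ => ?_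
          ring)
      have h5 := himm z hz0 hz (fun k => f (Pi.single k 1)) (fun a => congrFun h4 a)
      apply hf0
      apply LinearMap.ext
      intro w
      rw [hfv]
      simp only [LinearMap.zero_apply]
      refine Finset.sum_eq_zero fun k _ => ?_
      have h6 : f (Pi.single k 1) = 0 := congrFun h5 k
      rw [h6, zero_mul])
  refine ⟨b, hb, ?_⟩
  intro F hF
  have hF' : F = smoothG n (δ * e - 1) + ∑ m, C (b m) * smoothQ p q m ^ e := hF
  have hpd : ∀ z k, eval z (pderiv k F) = eval z (pderiv k (smoothG n (δ * e - 1))) +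
      ∑ m, b m * eval z (pderiv k (smoothQ p q m ^ e)) := by
    intro z k
    rw [hF', map_add, map_add, map_sum, map_sum]
    congr 1
    refine Finset.sum_congr rfl fun m _ => ?_
    rw [pderiv_C_mul, map_mul, eval_C]
  refine ⟨?_, ?_, ?_⟩
  · rw [hF']
    refine hGhom.add (IsHomogeneous.sum _ _ _ fun m _ => ?_)
    have := (isHomogeneous_C (Fin (n + 1) ⊕ Fin (n + 1)) (b m)).mul (hQhom m)
    rwa [zero_add] at this
  · intro z hz0 hz
    have h1 := hb' z hz hz0
    by_contra hcon
    push Not at hcon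
    apply h1
    funext k
    have h2 := hcon k
    rw [hpd] at h2
    simpa using h2
  · intro z hz0 hpz hinr
    have hQz : ∀ m, eval z (smoothQ p q m) = 0 := by
      intro m
      rw [smoothQ_eval]
      simp [hpz]
    constructor
    · rw [hF', map_add, map_sum]
      have h1 : eval z (smoothG n (δ * e - 1)) = 0 := by
        simp [smoothG, map_sum, hinr]
      rw [h1, zero_add]
      refine Finset.sum_eq_zero fun m _ => ?_
      rw [map_mul, map_pow, hQz, zero_pow (by omega), mul_zero]
    · obtain ⟨i, hi⟩ : ∃ i, z (Sum.inl i) ≠ 0 := by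
        by_contra hcon
        push Not at hcon
        apply hz0
        funext k
        rcases k with i | j
        · exact hcon i
        · exact hinr j
      refine ⟨Sum.inr i, ?_⟩
      rw [hpd]
      have h1 : ∀ m, eval z (pderiv (Sum.inr i) (smoothQ p q m ^ e)) = 0 := by
        intro m
        rw [smooth_pderiv_pow, hQz, zero_pow (by omega)]
        simp
      simp only [h1, mul_zero, Finset.sum_const_zero, add_zero]
      have h2 : eval z (pderiv (Sum.inr i) (smoothG n (δ * e - 1))) =
          z (Sum.inl i) ^ (δ * e - 1) := by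
        rw [smoothG, map_sum, map_sum, Finset.sum_eq_single i]
        · rw [pderiv_mul, pderiv_X_self, pderiv_pow, pderiv_X_of_ne (by simp)]
          simp
        · intro j _ hj
          have hj' : (Sum.inr j : Fin (n + 1) ⊕ Fin (n + 1)) ≠ Sum.inr i := fun h => hj (Sum.inr.inj h)
          rw [pderiv_mul, pderiv_pow, pderiv_X_of_ne hj', pderiv_X_of_ne (by simp)]
          simp
        · simp
      rw [h2]
      exact pow_ne_zero _ hi

end Pool.Agent.GGL
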