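import Pool.Agent.Lib_MP_b9fedf_ag.Defs2

/-! Piece E2: transport of the construction from `Fin (n+1) ⊕ Fin (n+1)`. -/

set_option autoImplicit false

namespace Pool.Agent.GGL
open Filter Metric Real Set Function MeromorphicOn ValueDistribution

/-- The reindexing of coordinates. -/
def trE (n : ℕ) : Fin (n + 1) ⊕ Fin (n + 1) ≃ Fin (2 * n + 1 + 1) :=
  finSumFinEquiv.trans (finCongr (by omega))

lemma trE_inl {n : ℕ} (i : Fin (n + 1)) : (trE n (Sum.inl i)).1 = i.1 := by
  simp [trE]

lemma trE_inr {n : ℕ} (i : Fin (n + 1)) : (trE n (Sum.inr i)).1 = n + 1 + i.1 := by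
  simp [trE, add_comm]

lemma emb_inl {n : ℕ} (x : Fin (n + 1) → ℂ) (i : Fin (n + 1)) :
    emb x (trE n (Sum.inl i)) = x i := by
  unfold emb
  have h := trE_inl i
  rw [dif_pos (by rw [h]; exact i.2)]
  exact congrArg x (Fin.ext h)

lemma emb_inr {n : ℕ} (x : Fin (n + 1) → ℂ) (i : Fin (n + 1)) :
    emb x (trE n (Sum.inr i)) = 0 := by
  unfold emb
  have h := trE_inr i
  rw [dif_neg (by rw [h]; omega)]

theorem transport {n D : ℕ} (S : Set (MvPolynomial (Fin (n + 1)) ℂ))
    (F : MvPolynomial (Fin (n + 1) ⊕ Fin (n + 1)) ℂ) (hF : F.IsHomogeneous D)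
    (hsm : ∀ z : Fin (n + 1) ⊕ Fin (n + 1) → ℂ, z ≠ 0 → MvPolynomial.eval z F = 0 →
      ∃ k, MvPolynomial.eval z (MvPolynomial.pderiv k F) ≠ 0)
    (hX : ∀ z : Fin (n + 1) ⊕ Fin (n + 1) → ℂ, z ≠ 0 → (∀ j, z (Sum.inr j) = 0) →
      (∀ s ∈ S, MvPolynomial.eval (fun i => z (Sum.inl i)) s = 0) → MvPolynomial.eval z F = 0)
    (hent : ∀ f : ℂ → (Fin (n + 1) ⊕ Fin (n + 1) → ℂ), Differentiable ℂ f → (∀ z, f z ≠ 0) →
      (∀ z, MvPolynomial.eval (f z) F = 0) →
      (∀ z w, ∃ c : ℂ, f w = c • f z) ∨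
        ∀ z, (∀ j, f z (Sum.inr j) = 0) ∧
          ∀ s ∈ S, MvPolynomial.eval (fun i => f z (Sum.inl i)) s = 0) :
    ∃ F' : MvPolynomial (Fin (2 * n + 1 + 1)) ℂ, F'.IsHomogeneous D ∧ SmoothForm F' ∧
      Exceptional S F' := by
  have hne : ∀ z : Fin (2 * n + 1 + 1) → ℂ, z ≠ 0 → z ∘ trE n ≠ 0 := by
    intro z hz h
    apply hz
    ext i
    obtain ⟨k, rfl⟩ := (trE n).surjective i
    exact congrFun h k
  refine ⟨MvPolynomial.rename (trE n) F, hF.rename_isHomogeneous, ?_, ?_, ?_⟩
  · intro z hz h0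
    rw [MvPolynomial.eval_rename] at h0
    obtain ⟨k, hk⟩ := hsm _ (hne z hz) h0
    refine ⟨trE n k, ?_⟩
    rw [MvPolynomial.pderiv_rename (trE n).injective, MvPolynomial.eval_rename]
    exact hk
  · intro x hx hS
    rw [MvPolynomial.eval_rename]
    refine hX _ ?_ ?_ ?_
    · intro h
      apply hx
      ext i
      have := congrFun h (Sum.inl i)
      rw [comp_apply, emb_inl] at this
      exact this
    · intro j
      exact emb_inr x j
    · intro s hs
      have : (fun i => (emb x ∘ trE n) (Sum.inl i)) = x := by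
        ext i
        exact emb_inl x i
      rw [this]
      exact hS s hs
  · intro f hf hf0 hfF
    rcases hent (fun z => f z ∘ trE n) (by
        rw [differentiable_pi]
        intro i
        exact (differentiable_pi.1 hf) (trE n i)) (fun z => hne _ (hf0 z)) (by
        intro z
        have := hfF z
        rwa [MvPolynomial.eval_rename] at this) with h | h
    · left
      intro z w
      obtain ⟨c, hc⟩ := h z w
      refine ⟨c, ?_⟩
      ext i
      obtain ⟨k, rfl⟩ := (trE n).surjective i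
      exact congrFun hc k
    · right
      intro z
      obtain ⟨h1, h2⟩ := h z
      refine ⟨fun i => f z (trE n (Sum.inl i)), ?_, h2⟩
      ext i
      obtain ⟨k, rfl⟩ := (trE n).surjective i
      rcases k with k | k
      · rw [emb_inl]
      · rw [emb_inr]
        exact h1 k

end Pool.Agent.GGL
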