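import Pool.Agent.Lib_MP_b9fedf_ag.Periodic
import Pool.Agent.Lib_MP_b9fedf_ag.Ideal
import Pool.Agent.Lib_MP_b9fedf_ag.Smooth
import Pool.Agent.Lib_MP_b9fedf_ag.Reduce
import Pool.Agent.Lib_MP_b9fedf_ag.Transport
import Pool.Agent.Lib_MP_b9fedf_ag.Fermat

/-! Smooth hypersurfaces with prescribed exceptional set. -/

set_option autoImplicit false

namespace Pool.Agent.GGL
open Filter Metric Real Set Function MeromorphicOn ValueDistribution

/-- homogeneous polynomials grow like a power of the norm -/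
lemma norm_eval_le {σ : Type} [Fintype σ] {p : MvPolynomial σ ℂ} {D : ℕ} (hD : p.IsHomogeneous D)
    (x : σ → ℂ) : ‖MvPolynomial.eval x p‖ ≤
      (∑ a ∈ p.support, ‖MvPolynomial.coeff a p‖) * ‖x‖ ^ D := by
  rw [MvPolynomial.eval_eq', Finset.sum_mul]
  refine (norm_sum_le _ _).trans ?_
  apply Finset.sum_le_sum
  intro a ha
  have h1 := hD (MvPolynomial.mem_support_iff.mp ha)
  rw [Finsupp.weight_apply, Finsupp.sum_fintype _ _ (by simp)] at h1
  have h2 : ∑ k, a k = D := by simpa using h1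
  rw [norm_mul, norm_prod, ← h2, ← Finset.prod_pow_eq_pow_sum]
  apply mul_le_mul_of_nonneg_left _ (norm_nonneg _)
  apply Finset.prod_le_prod (fun i _ => norm_nonneg _)
  intro i _
  rw [norm_pow]
  exact pow_le_pow_left₀ (norm_nonneg _) (norm_le_pi_norm x i) _

/-- polynomials of entire functions are entire -/
lemma diff_eval {σ : Type} [Fintype σ] {f : ℂ → σ → ℂ} (hf : Differentiable ℂ f)
    (p : MvPolynomial σ ℂ) : Differentiable ℂ (fun z => MvPolynomial.eval (f z) p) := by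
  simp_rw [MvPolynomial.eval_eq']
  exact Differentiable.fun_sum fun a _ => (mono_diff hf a).const_mul _

/-- the product of two entire functions which are not identically zero -/
lemma exists_ne_mul {u v : ℂ → ℂ} (hu : Differentiable ℂ u) (hv : Differentiable ℂ v)
    (hu0 : ∃ z, u z ≠ 0) (hv0 : ∃ z, v z ≠ 0) : ∃ z, u z ≠ 0 ∧ v z ≠ 0 := by
  obtain ⟨z, hz⟩ := exists_all_ne (f := fun z (i : Fin 2) => if i = 0 then u z else v z)
    (differentiable_pi.mpr fun i => by fin_cases i <;> simpa) Finset.univ (by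
      intro i _
      fin_cases i
      · simpa using hu0
      · simpa using hv0)
  exact ⟨z, by simpa using hz 0 (Finset.mem_univ _), by simpa using hz 1 (Finset.mem_univ _)⟩

/-- **The exceptional set.** -/
theorem curve_alternative {n δ r M e : ℕ} (S : Set (MvPolynomial (Fin (n + 1)) ℂ))
    (hδ : 1 ≤ δ) (he : 2 ≤ e)
    (p : Fin r → MvPolynomial (Fin (n + 1) ⊕ Fin (n + 1)) ℂ) (hp : ∀ a, (p a).IsHomogeneous δ)
    (hzero : ∀ z : Fin (n + 1) ⊕ Fin (n + 1) → ℂ, z ≠ 0 →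
        ((∀ a, MvPolynomial.eval z (p a) = 0) ↔
          (∀ j, z (Sum.inr j) = 0) ∧ ∀ s ∈ S, MvPolynomial.eval (fun i => z (Sum.inl i)) s = 0))
    (hrec : ∀ a k l, ∃ (c c' : Fin r) (A : MvPolynomial (Fin (n + 1) ⊕ Fin (n + 1)) ℂ) (N : ℕ),
        p c * A = p a * MvPolynomial.X k ^ N ∧
        MvPolynomial.X k * p c' = MvPolynomial.X l * p c)
    (q : Fin M → Fin r → ℂ)
    (hq1 : ∀ ι : (Fin r × Fin r) × Fin 2 ↪ Fin M,
      (Matrix.of fun k ab : Fin r × Fin r => q (ι (k, 0)) ab.1 * q (ι (k, 1)) ab.2).det ≠ 0)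
    (hq : ∀ ι : Fin r ↪ Fin M, (Matrix.of fun i a : Fin r => q (ι i) a).det ≠ 0)
    (hM : 4 * r ^ 2 + r + 2 * (n + 1) ≤ M)
    (hbig : 8 * (2 * (n + 1)) * r.factorial * r ^ 2 *
      ((n + 1) * (1 + ((n + 1) + M)) + M * (((n + 1) + M) * δ)) ≤ e)
    (b : Fin M → ℂ) (hb : ∀ m, b m ≠ 0)
    (f : ℂ → (Fin (n + 1) ⊕ Fin (n + 1) → ℂ)) (hf : Differentiable ℂ f) (hf0 : ∀ z, f z ≠ 0)
    (hfF : ∀ z, MvPolynomial.eval (f z)
        (∑ i, MvPolynomial.X (Sum.inr i) * MvPolynomial.X (Sum.inl i) ^ (δ * e - 1) +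
          ∑ m, MvPolynomial.C (b m) * (∑ a, MvPolynomial.C (q m a) * p a) ^ e) = 0) :
    (∀ z w, ∃ c : ℂ, f w = c • f z) ∨
      ∀ z, (∀ j, f z (Sum.inr j) = 0) ∧
        ∀ s ∈ S, MvPolynomial.eval (fun i => f z (Sum.inl i)) s = 0 := by
  classical
  have hfi : ∀ k, Differentiable ℂ (fun z => f z k) := differentiable_pi.mp hf
  by_cases hφ0 : ∃ a z, MvPolynomial.eval (f z) (p a) ≠ 0
  swap
  · right
    push Not at hφ0
    intro z
    exact (hzero (f z) (hf0 z)).mp fun a => hφ0 a z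
  left
  obtain ⟨a0, ha0⟩ := hφ0
  -- compose with the exponential
  set g : ℂ → (Fin (n + 1) ⊕ Fin (n + 1) → ℂ) := fun z => f (Complex.exp z) with hg
  have hgd : Differentiable ℂ g := hf.comp Complex.differentiable_exp
  have hgi : ∀ k, Differentiable ℂ (fun z => g z k) := differentiable_pi.mp hgd
  have hne_exp : ∀ {u : ℂ → ℂ}, Differentiable ℂ u → (∃ z, u z ≠ 0) →
      ∃ z, u (Complex.exp z) ≠ 0 := by
    intro u hu h0
    by_contra hcon
    push Not at hcon
    have h1 := eq_of_comp_exp (g := u) (h := fun _ => 0) hu.continuous continuous_const hcon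
    obtain ⟨z, hz⟩ := h0
    exact hz (congrFun h1 z)
  set φ : Fin r → ℂ → ℂ := fun a z => MvPolynomial.eval (g z) (p a) with hφdef
  have hφd : ∀ a, Differentiable ℂ (φ a) := fun a => diff_eval hgd (p a)
  set K : ℝ := ∑ a, ∑ m ∈ (p a).support, ‖MvPolynomial.coeff m (p a)‖ with hK
  have hφK : ∀ a z, ‖φ a z‖ ≤ K * ‖fun k => g z k‖ ^ δ := by
    intro a z
    refine (norm_eval_le (hp a) (g z)).trans ?_
    apply mul_le_mul_of_nonneg_right _ (by positivity)
    exact Finset.single_le_sum (f := fun a => ∑ m ∈ (p a).support, ‖MvPolynomial.coeff m (p a)‖)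
      (fun a _ => Finset.sum_nonneg fun m _ => norm_nonneg _) (Finset.mem_univ a)
  have h0 : ∀ z, ∃ k, g z k ≠ 0 := by
    intro z
    by_contra hcon
    push Not at hcon
    exact hf0 _ (funext hcon)
  have hφ0' : ∃ z, φ a0 z ≠ 0 := hne_exp (diff_eval hf (p a0)) ha0
  have hrec' : ∀ a k l, (∃ z, φ a z ≠ 0) → (∃ z, g z k ≠ 0) →
      ∃ c c', (∃ z, φ c z ≠ 0) ∧ ∀ z, g z k * φ c' z = g z l * φ c z := by
    intro a k l ha hk
    obtain ⟨c, c', A, N, h1, h2⟩ := hrec a k l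
    refine ⟨c, c', ?_, fun z => ?_⟩
    · obtain ⟨z, hz1, hz2⟩ := exists_ne_mul (hφd a) (hgi k) ha hk
      refine ⟨z, fun hz => ?_⟩
      have h3 := congrArg (MvPolynomial.eval (g z)) h1
      rw [map_mul, map_mul, map_pow, MvPolynomial.eval_X] at h3
      have h4 : MvPolynomial.eval (g z) (p c) = 0 := hz
      rw [h4, zero_mul] at h3
      exact mul_ne_zero hz1 (pow_ne_zero _ hz2) h3.symm
    · have h3 := congrArg (MvPolynomial.eval (g z)) h2
      rw [map_mul, map_mul, MvPolynomial.eval_X, MvPolynomial.eval_X] at h3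
      exact h3
  have hper : ∀ k z, g (z + 2 * Real.pi * Complex.I) k = g z k := by
    intro k z
    simp only [hg]
    rw [Complex.exp_periodic z]
  have hδe : 2 ≤ δ * e := by nlinarith
  have hrel : ∀ z, ∑ i : Fin (n + 1), g z (Sum.inr i) * g z (Sum.inl i) ^ (δ * e - 1) +
      ∑ m, b m * (∑ c, q m c * φ c z) ^ e = 0 := by
    intro z
    have h1 := hfF (Complex.exp z)
    simp only [map_add, map_sum, map_mul, map_pow, MvPolynomial.eval_X, MvPolynomial.eval_C] at h1
    exact h1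
  -- conclusion for `g`
  have hprop : ∀ k, (∃ z, f z k ≠ 0) → ∀ l, ∃ c : ℂ, ∀ z, f z l = c * f z k := by
    intro k hk l
    obtain ⟨c, hc⟩ := main_periodic (κ := Fin (n + 1)) (fun k z => g z k) hgi h0 hper δ K φ hφd hφK
      ⟨a0, hφ0'⟩ hrec' (fun i z => g z (Sum.inr i)) (fun i z => g z (Sum.inl i))
      (fun i => hgi _) (fun i => hgi _) (fun i z => norm_le_pi_norm (g z) _)
      (fun i z => norm_le_pi_norm (g z) _) (δ * e - 1) e (by omega) (by omega) (by omega) b hb q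
      hq1 hq (by rw [Fintype.card_fin]; exact hM) (by
        rw [Fintype.card_sum, Fintype.card_fin, ← two_mul]; exact hbig) hrel k l
      (hne_exp (hfi k) hk)
    refine ⟨c, fun z => ?_⟩
    have h1 := eq_of_comp_exp (g := fun z => f z l) (h := fun z => c * f z k)
      (hfi l).continuous ((hfi k).const_mul c).continuous hc
    exact congrFun h1 z
  -- conclusion for `f`
  obtain ⟨k, hk⟩ : ∃ k, f 0 k ≠ 0 := by
    by_contra hcon
    push Not at hcon
    exact hf0 0 (funext hcon)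
  choose c hc using hprop k ⟨0, hk⟩
  have h2 : ∀ z, f z k ≠ 0 := by
    intro z h
    apply hf0 z
    ext l
    rw [hc l z, h, mul_zero]; rfl
  intro z w
  refine ⟨f w k / f z k, ?_⟩
  ext l
  rw [Pi.smul_apply, smul_eq_mul, hc l w, hc l z]
  field_simp [h2 z]

/-- **Every projective variety is the exceptional set of a smooth hypersurface.** -/
theorem exists_hypersurface (n : ℕ) (S : Set (MvPolynomial (Fin (n + 1)) ℂ))
    (hS : ∀ p ∈ S, ∃ d : ℕ, p.IsHomogeneous d) (B : ℕ) :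
    ∃ (D : ℕ) (F : MvPolynomial (Fin (2 * n + 1 + 1)) ℂ), B ≤ D ∧ F.IsHomogeneous D ∧
      SmoothForm F ∧ Exceptional S F := by
  classical
  obtain ⟨δ, r, p, hδ, hp, hzero, hrec, himm⟩ := exists_forms n S hS
  set M : ℕ := 4 * r ^ 2 + 2 * r + 2 * (n + 1) with hM
  obtain ⟨q, hq1, hq⟩ := exists_generic r M
  set e : ℕ := 8 * (2 * (n + 1)) * r.factorial * r ^ 2 *
      ((n + 1) * (1 + ((n + 1) + M)) + M * (((n + 1) + M) * δ)) + B + 2 with he
  obtain ⟨b, hb, hF⟩ := exists_smooth (e := e) hδ (by omega) (by omega : 2 * r ≤ M) p hp himm q hq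
  obtain ⟨hFh, hF1, hF2⟩ := hF _ rfl
  obtain ⟨F', h1, h2, h3⟩ := transport S _ hFh (by
    intro z hz _
    by_cases h : ∃ a, MvPolynomial.eval z (p a) ≠ 0
    · exact hF1 z hz h
    · push Not at h
      exact (hF2 z hz h ((hzero z hz).mp h).1).2) (by
    intro z hz hy hs
    exact (hF2 z hz ((hzero z hz).mpr ⟨hy, hs⟩) hy).1) (by
    intro f hf hf0 hfF
    exact curve_alternative S hδ (by omega) p hp hzero hrec q hq1 hq (by omega) (by omega) b hb f
      hf hf0 hfF)
  refine ⟨δ * e, F', ?_, h1, h2, h3⟩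
  have h4 : B ≤ e := by omega
  calc B ≤ 1 * e := by omega
    _ ≤ δ * e := Nat.mul_le_mul_right e hδ

end Pool.Agent.GGL
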