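import Pool.Agent.Lib_MP_b9fedf_ag.Defs2

/-! Definitions used in the statement on varieties over projective space which are multiple along
many hyperplanes. -/

set_option autoImplicit false

namespace Pool.Agent.GGL

/-- The hyperplane `a` of `ℙⁿ` is multiple on `X = V(S)` under the rational map
`φ = [φ_0 : … : φ_n]`: every holomorphic arc `γ` of `X`, not contained in the base locus of `φ`,
meets the divisor `a · φ = 0` with multiplicity different from one (the multiplicity is computed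
after division by the common zeros of the `φ_i` along the arc, the order of which is `c`). -/
def Multiple {m n : ℕ} (S : Set (MvPolynomial (Fin (m + 1)) ℂ))
    (φ : Fin (n + 1) → MvPolynomial (Fin (m + 1)) ℂ) (a : Fin (n + 1) → ℂ) : Prop :=
  ∀ γ : ℂ → (Fin (m + 1) → ℂ), AnalyticAt ℂ γ 0 → γ 0 ≠ 0 →
    (∀ᶠ z in nhds 0, ∀ p ∈ S, MvPolynomial.eval (γ z) p = 0) →
    ∀ c : ℕ, (∀ i, (c : ℕ∞) ≤ analyticOrderAt (fun z => MvPolynomial.eval (γ z) (φ i)) 0) →
      (∃ i, analyticOrderAt (fun z => MvPolynomial.eval (γ z) (φ i)) 0 = (c : ℕ∞)) →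
      analyticOrderAt (fun z => ∑ i, a i * MvPolynomial.eval (γ z) (φ i)) 0 ≠ ((c + 1 : ℕ) : ℕ∞)

/-- equations of the fibre of `φ : V(S) ⇢ ℙⁿ` over `t` (together with the base locus) -/
def Fibre {m n : ℕ} (S : Set (MvPolynomial (Fin (m + 1)) ℂ))
    (φ : Fin (n + 1) → MvPolynomial (Fin (m + 1)) ℂ) (t : Fin (n + 1) → ℂ) :
    Set (MvPolynomial (Fin (m + 1)) ℂ) :=
  S ∪ {p | ∃ i j, p = MvPolynomial.C (t i) * φ j - MvPolynomial.C (t j) * φ i}

end Pool.Agent.GGL
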