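import Mathlib

/-! Definitions for the theorem on entire curves tangent to many hyperplanes. -/

set_option autoImplicit false

namespace Pool.Agent.GGL

/-- exponent vectors of total degree `d` in `m + 1` variables -/
abbrev Mon (m d : ℕ) : Type :=
  ↥(Finset.finsuppAntidiag (Finset.univ : Finset (Fin (m + 1))) d)

/-- The points `q i` are unisolvent for forms of degree `d`. -/
def Uni {m d : ℕ} (q : Mon m d → Fin (m + 1) → ℂ) : Prop :=
  ∀ P : MvPolynomial (Fin (m + 1)) ℂ, P.IsHomogeneous d →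
    (∀ i, MvPolynomial.eval (q i) P = 0) → P = 0

/-- `(p·h')(y·h) - (p·h)(y·h')` -/
def wd {m : ℕ} (h h' y p : Fin (m + 1) → ℂ) : ℂ :=
  (∑ a, p a * h' a) * (∑ a, y a * h a) - (∑ a, p a * h a) * (∑ a, y a * h' a)

end Pool.Agent.GGL
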