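import Mathlib
import Pool.Agent.Lib_MP_b9fedf_ag.TanDefs

set_option autoImplicit false

namespace Pool.Agent.GGL

/-- PIECE TEXT -/
theorem exists_points {X κ : Type} [Fintype κ] [DecidableEq κ] (v : X → κ → ℂ)
    (hv : ∀ c : κ → ℂ, (∀ x, ∑ k, c k * v x k = 0) → c = 0) :
    ∃ y : κ → X, (Matrix.of fun k l => v (y k) l).det ≠ 0 := by
  have htop : Submodule.span ℂ (Set.range v) = ⊤ := by
    by_contra hne
    obtain ⟨f, hf0, hf⟩ := Submodule.exists_le_ker_of_lt_top _ (lt_top_iff_ne_top.mpr hne)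
    apply hf0
    have hfv : ∀ w : κ → ℂ, f w = ∑ k, f (Pi.single k 1) * w k := by
      intro w
      have h1 : w = ∑ k, w k • (Pi.single k (1 : ℂ) : κ → ℂ) := by
        ext j
        simp [Finset.sum_apply, Pi.single_apply]
      conv_lhs => rw [h1]
      rw [map_sum]
      refine Finset.sum_congr rfl fun k _ => ?_
      rw [map_smul, smul_eq_mul, mul_comm]
    have hc := hv (fun k => f (Pi.single k 1)) (fun x => by
      rw [← hfv]
      exact hf (Submodule.subset_span ⟨x, rfl⟩))
    ext w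
    simp only [LinearMap.coe_comp, LinearMap.coe_single, Function.comp_apply, LinearMap.zero_apply]
    exact congrFun hc w
  obtain ⟨b, hbs, hspan, hli⟩ := exists_linearIndependent ℂ (Set.range v)
  rw [htop] at hspan
  have hsp : ⊤ ≤ Submodule.span ℂ (Set.range ((↑) : b → (κ → ℂ))) := by
    rw [Subtype.range_coe, hspan]
  let B := Module.Basis.mk hli hsp
  let e : κ ≃ b := (Pi.basisFun ℂ κ).indexEquiv B
  have hx : ∀ k : κ, ∃ x, v x = (e k : κ → ℂ) := fun k => hbs (e k).2
  choose y hy using hx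
  refine ⟨y, ?_⟩
  have hrows : LinearIndependent ℂ (Matrix.of fun k l => v (y k) l).row := by
    have h1 : (Matrix.of fun k l => v (y k) l).row = fun k => ((e k : b) : κ → ℂ) := by
      funext k
      rw [← hy k]
      rfl
    rw [h1]
    exact hli.comp e e.injective
  rw [Matrix.linearIndependent_rows_iff_isUnit, Matrix.isUnit_iff_isUnit_det] at hrows
  exact hrows.ne_zero

private theorem text_mem {m d : ℕ} (β : Fin (m + 1) →₀ ℕ) :
    β ∈ Finset.finsuppAntidiag (Finset.univ : Finset (Fin (m + 1))) d ↔ β.degree = d := by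
  rw [Finset.mem_finsuppAntidiag, Finsupp.degree_eq_sum]
  simp

/-- PIECE TEXT -/
theorem exists_uni {m d : ℕ} (A : Set (Fin (m + 1) → ℂ))
    (hA : ∀ P : MvPolynomial (Fin (m + 1)) ℂ, P.IsHomogeneous d →
      (∀ a ∈ A, MvPolynomial.eval a P = 0) → P = 0) :
    ∃ q : Mon m d → Fin (m + 1) → ℂ, (∀ i, q i ∈ A) ∧ Uni q := by
  classical
  obtain ⟨y, hy⟩ := exists_points (X := A) (κ := Mon m d)
    (fun a β => ∏ k, ((a : Fin (m + 1) → ℂ) k) ^ ((β : Fin (m + 1) →₀ ℕ) k)) (by
    intro c hc
    have hP := hA (∑ β : Mon m d, MvPolynomial.monomial (β : Fin (m + 1) →₀ ℕ) (c β)) (by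
        apply MvPolynomial.IsHomogeneous.sum
        intro β _
        exact MvPolynomial.isHomogeneous_monomial _ ((text_mem _).mp β.2)) (by
        intro a ha
        rw [map_sum]
        rw [← hc ⟨a, ha⟩]
        refine Finset.sum_congr rfl fun β _ => ?_
        rw [MvPolynomial.eval_monomial, Finsupp.prod_fintype _ _ (fun i => pow_zero _)])
    funext β
    have h2 := congrArg (MvPolynomial.coeff (β : Fin (m + 1) →₀ ℕ)) hP
    rw [MvPolynomial.coeff_sum, Finset.sum_eq_single β] at h2
    · simpa using h2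
    · intro γ _ hγ
      rw [MvPolynomial.coeff_monomial, if_neg]
      exact fun h => hγ (Subtype.ext h)
    · intro h
      exact absurd (Finset.mem_univ β) h)
  refine ⟨fun i => (y i : Fin (m + 1) → ℂ), fun i => (y i).2, ?_⟩
  intro P hP hz
  have hc : (fun β : Mon m d => P.coeff (β : Fin (m + 1) →₀ ℕ)) = 0 := by
    refine Matrix.eq_zero_of_mulVec_eq_zero hy ?_
    funext i
    rw [Pi.zero_apply, ← hz i, MvPolynomial.eval_eq']
    have h1 : ∑ x ∈ P.support, P.coeff x * ∏ k, ((y i : Fin (m + 1) → ℂ) k) ^ x k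
        = ∑ x ∈ Finset.finsuppAntidiag (Finset.univ : Finset (Fin (m + 1))) d,
          P.coeff x * ∏ k, ((y i : Fin (m + 1) → ℂ) k) ^ x k := by
      refine Finset.sum_subset ?_ ?_
      · intro x hx
        rw [text_mem]
        by_contra h
        exact (MvPolynomial.mem_support_iff.mp hx) (hP.coeff_eq_zero h)
      · intro x _ hx
        rw [MvPolynomial.notMem_support_iff.mp hx, zero_mul]
    rw [h1, ← Finset.sum_coe_sort]
    simp only [Matrix.mulVec, dotProduct, Matrix.of_apply]
    refine Finset.sum_congr rfl fun β _ => ?_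
    rw [mul_comm]
  ext β
  rw [MvPolynomial.coeff_zero]
  by_cases h : β.degree = d
  · exact congrFun hc ⟨β, (text_mem β).mpr h⟩
  · exact hP.coeff_eq_zero h

end Pool.Agent.GGL
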