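import Pool.Agent.Lib_MP_b9fedf_ag.Defs

/-! The Wronskian of linearly independent entire functions is not identically zero. -/

set_option autoImplicit false

open Filter Topology

namespace Pool.Agent.GGL

theorem differentiable_iterDeriv {f : ℂ → ℂ} (hf : Differentiable ℂ f) (n : ℕ) :
    Differentiable ℂ (iteratedDeriv n f) :=
  (hf.contDiff (n := n + 1)).differentiable_iteratedDeriv' n

theorem differentiable_det {m : ℕ} {A : ℂ → Matrix (Fin m) (Fin m) ℂ}
    (hA : ∀ i j, Differentiable ℂ fun z => A z i j) : Differentiable ℂ fun z => (A z).det := by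
  simp only [Matrix.det_apply]
  refine Differentiable.fun_sum fun σ _ => ?_
  refine Differentiable.const_smul ?_ _
  exact Differentiable.fun_finsetProd fun i _ => hA _ _

theorem exists_Wr_ne_zero {m : ℕ} (g : Fin m → ℂ → ℂ) (hg : ∀ j, Differentiable ℂ (g j))
    (hli : LinearIndependent ℂ g) : ∃ z, Wr g z ≠ 0 := by
  induction m with
  | zero => exact ⟨0, by simp [Wr]⟩
  | succ m ih =>
    by_contra hcon
    push Not at hcon
    obtain ⟨z0, hz0⟩ := ih (fun j => g (Fin.castSucc j)) (fun j => hg _)
      (hli.comp _ (Fin.castSucc_injective m))
    -- notation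
    set A : ℂ → Matrix (Fin m) (Fin m) ℂ := fun z =>
      Matrix.of fun i j : Fin m => iteratedDeriv (i : ℕ) (g (Fin.castSucc j)) z with hA
    set b : ℂ → Fin m → ℂ := fun z i => iteratedDeriv (i : ℕ) (g (Fin.last m)) z with hb
    have hAd : ∀ i j, Differentiable ℂ fun z => A z i j := fun i j =>
      differentiable_iterDeriv (hg _) _
    have hbd : ∀ i, Differentiable ℂ fun z => b z i := fun i => differentiable_iterDeriv (hg _) _
    have hdet : Differentiable ℂ fun z => (A z).det := differentiable_det hAd
    have hz0' : (A z0).det ≠ 0 := hz0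
    obtain ⟨r, hr, hball⟩ : ∃ r > 0, ∀ z ∈ Metric.ball z0 r, (A z).det ≠ 0 := by
      have h1 : ∀ᶠ z in 𝓝 z0, (A z).det ≠ 0 := hdet.continuous.continuousAt.eventually_ne hz0'
      obtain ⟨r, hr, h2⟩ := Metric.eventually_nhds_iff_ball.mp h1
      exact ⟨r, hr, h2⟩
    set a : ℂ → Fin m → ℂ := fun z j => Matrix.cramer (A z) (b z) j / (A z).det with ha
    have had : ∀ j, DifferentiableOn ℂ (fun z => a z j) (Metric.ball z0 r) := by
      intro j
      refine DifferentiableOn.fun_div ?_ hdet.differentiableOn hball
      refine Differentiable.differentiableOn ?_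
      simp only [Matrix.cramer_apply]
      refine differentiable_det fun i k => ?_
      simp only [Matrix.updateCol_apply]
      split_ifs
      · exact hbd i
      · exact hAd i k
    -- the linear relations
    have hrel : ∀ z ∈ Metric.ball z0 r, ∀ i : ℕ, i ≤ m →
        ∑ j, a z j * iteratedDeriv i (g (Fin.castSucc j)) z = iteratedDeriv i (g (Fin.last m)) z := by
      intro z hz
      have hd := hball z hz
      have hlt : ∀ i : Fin m,
          ∑ j, a z j * iteratedDeriv (i : ℕ) (g (Fin.castSucc j)) z = b z i := by
        intro i
        have h := congrFun (Matrix.mulVec_cramer (A z) (b z)) i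
        simp only [Matrix.mulVec, dotProduct, Pi.smul_apply, smul_eq_mul] at h
        have h2 : ∑ j, a z j * iteratedDeriv (i : ℕ) (g (Fin.castSucc j)) z =
            (∑ j, A z i j * Matrix.cramer (A z) (b z) j) / (A z).det := by
          rw [Finset.sum_div]
          refine Finset.sum_congr rfl fun j _ => ?_
          simp only [ha, hA, Matrix.of_apply]
          ring
        rw [h2, h, mul_div_cancel_left₀ _ hd]
      -- kernel vector of the big matrix
      obtain ⟨v, hv, hv0⟩ := Matrix.exists_mulVec_eq_zero_iff.mpr (hcon z)
      have hrow : ∀ i : Fin (m + 1), ∑ j : Fin m, iteratedDeriv (i : ℕ) (g (Fin.castSucc j)) z *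
          v (Fin.castSucc j) + iteratedDeriv (i : ℕ) (g (Fin.last m)) z * v (Fin.last m) = 0 := by
        intro i
        have h := congrFun hv0 i
        simp only [Matrix.mulVec, dotProduct, Matrix.of_apply, Pi.zero_apply] at h
        rwa [Fin.sum_univ_castSucc] at h
      have hinj : ∀ u : Fin m → ℂ, (∀ i : Fin m, ∑ j, A z i j * u j = 0) → u = 0 := by
        intro u hu
        by_contra hne
        exact hd (Matrix.exists_mulVec_eq_zero_iff.mp ⟨u, hne, funext fun i => hu i⟩)
      have hlast : v (Fin.last m) ≠ 0 := by
        intro h0
        refine hv ?_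
        have h1 : (fun j => v (Fin.castSucc j)) = 0 := by
          refine hinj _ fun i => ?_
          have := hrow (Fin.castSucc i)
          rw [h0, mul_zero, add_zero] at this
          simpa [hA] using this
        funext k
        refine Fin.lastCases ?_ (fun j => ?_) k
        · exact h0
        · exact congrFun h1 j
      have hav : a z = fun j => -(v (Fin.castSucc j) / v (Fin.last m)) := by
        have h1 : (fun j => a z j + v (Fin.castSucc j) / v (Fin.last m)) = 0 := by
          refine hinj _ fun i => ?_
          have h2 := hlt i
          have h3 := hrow (Fin.castSucc i)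
          simp only [Fin.val_castSucc] at h3
          have h4 : ∑ j, A z i j * (a z j + v (Fin.castSucc j) / v (Fin.last m)) =
              ∑ j, a z j * iteratedDeriv (i : ℕ) (g (Fin.castSucc j)) z +
              (∑ j, iteratedDeriv (i : ℕ) (g (Fin.castSucc j)) z * v (Fin.castSucc j)) /
                v (Fin.last m) := by
            rw [Finset.sum_div, ← Finset.sum_add_distrib]
            refine Finset.sum_congr rfl fun j _ => ?_
            simp only [hA, Matrix.of_apply]
            ring
          rw [h4, h2, eq_neg_of_add_eq_zero_left h3]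
          simp only [hb]
          field_simp
          ring
        funext j
        have := congrFun h1 j
        simp only [Pi.zero_apply] at this
        exact eq_neg_of_add_eq_zero_left this
      intro i hi
      have h3 := hrow ⟨i, Nat.lt_succ_of_le hi⟩
      simp only at h3
      have h4 : ∑ j, a z j * iteratedDeriv i (g (Fin.castSucc j)) z =
          -((∑ j, iteratedDeriv i (g (Fin.castSucc j)) z * v (Fin.castSucc j)) /
            v (Fin.last m)) := by
        rw [hav, Finset.sum_div, ← Finset.sum_neg_distrib]
        refine Finset.sum_congr rfl fun j _ => ?_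
        ring
      rw [h4, eq_neg_of_add_eq_zero_left h3]
      field_simp
    -- the coefficients are constant
    have hderiv : ∀ z ∈ Metric.ball z0 r, ∀ j, deriv (fun z => a z j) z = 0 := by
      intro z hz
      have hnhds : Metric.ball z0 r ∈ 𝓝 z := Metric.isOpen_ball.mem_nhds hz
      have hda : ∀ j, DifferentiableAt ℂ (fun z => a z j) z := fun j =>
        (had j).differentiableAt hnhds
      have hzero : (fun j => deriv (fun z => a z j) z) = 0 := by
        by_contra hne
        refine hball z hz (Matrix.exists_mulVec_eq_zero_iff.mp ⟨_, hne, funext fun i => ?_⟩)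
        simp only [Matrix.mulVec, dotProduct, Pi.zero_apply]
        have h1 : (fun w => ∑ j, a w j * iteratedDeriv (i : ℕ) (g (Fin.castSucc j)) w) =ᶠ[𝓝 z]
            iteratedDeriv (i : ℕ) (g (Fin.last m)) := by
          filter_upwards [hnhds] with w hw
          exact hrel w hw i i.2.le
        have h2 := h1.deriv_eq
        rw [deriv_fun_sum fun j _ => (hda j).fun_mul (differentiable_iterDeriv (hg _) _ z)] at h2
        have h3 : ∀ j, deriv (fun w => a w j * iteratedDeriv (i : ℕ) (g (Fin.castSucc j)) w) z =
            deriv (fun w => a w j) z * iteratedDeriv (i : ℕ) (g (Fin.castSucc j)) z +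
            a z j * iteratedDeriv (i + 1 : ℕ) (g (Fin.castSucc j)) z := by
          intro j
          rw [deriv_fun_mul (hda j) (differentiable_iterDeriv (hg _) _ z), iteratedDeriv_succ]
        simp only [h3, Finset.sum_add_distrib] at h2
        rw [hrel z hz (i + 1) i.2, ← iteratedDeriv_succ] at h2
        have h5 := add_eq_right.mp h2
        rw [← h5]
        refine Finset.sum_congr rfl fun j _ => ?_
        simp only [hA, Matrix.of_apply]
        ring
      exact fun j => congrFun hzero j
    have hconst : ∀ z ∈ Metric.ball z0 r, ∀ j, a z j = a z0 j := by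
      intro z hz j
      exact Metric.isOpen_ball.is_const_of_deriv_eq_zero
        (convex_ball z0 r).isPreconnected (had j) (fun w hw => hderiv w hw j) hz
        (Metric.mem_ball_self hr)
    -- hence a linear relation
    have heq : (fun z => ∑ j, a z0 j * g (Fin.castSucc j) z) = g (Fin.last m) := by
      have hd1 : Differentiable ℂ fun z => ∑ j, a z0 j * g (Fin.castSucc j) z :=
        Differentiable.fun_sum fun j _ => (hg _).const_mul _
      refine AnalyticOnNhd.eq_of_eventuallyEq (𝕜 := ℂ) (z₀ := z0)
        (fun z _ => hd1.analyticAt z) (fun z _ => (hg _).analyticAt z) ?_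
      filter_upwards [Metric.ball_mem_nhds z0 hr] with z hz
      have h := hrel z hz 0 (Nat.zero_le m)
      simp only [iteratedDeriv_zero] at h
      rw [← h]
      exact Finset.sum_congr rfl fun j _ => by rw [hconst z hz j]
    rw [Fintype.linearIndependent_iff] at hli
    have h1 := hli (Fin.snoc (fun j => a z0 j) (-1)) (by
      funext z
      rw [Fin.sum_univ_castSucc]
      simp only [Fin.snoc_castSucc, Fin.snoc_last, Pi.add_apply, Finset.sum_apply, Pi.smul_apply,
        smul_eq_mul, Pi.zero_apply]
      rw [← congrFun heq z]
      ring) (Fin.last m)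
    rw [Fin.snoc_last] at h1
    norm_num at h1

end Pool.Agent.GGL
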