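import Mathlib

/-! Common definitions for the two theorems on MP_b9fedf_ag (Green-Griffiths-Lang). -/

set_option autoImplicit false

namespace Pool.Agent.GGL

/-- The Wronskian determinant of `m` functions. -/
noncomputable def Wr {m : ℕ} (g : Fin m → ℂ → ℂ) (z : ℂ) : ℂ :=
  (Matrix.of fun i j : Fin m => iteratedDeriv (i : ℕ) (g j) z).det

end Pool.Agent.GGL
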