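import Mathlib
import Pool.Agent.Lib_MP_b9fedf_ag.Defs

/-! Wronskians: multiplicativity, equality of the maximal minors, order of vanishing. -/

set_option autoImplicit false

namespace Pool.Agent.GGL

open scoped Topology

theorem Wr_mul {m : ℕ} (φ : ℂ → ℂ) (g : Fin m → ℂ → ℂ) (z : ℂ) (hφ : AnalyticAt ℂ φ z)
    (hg : ∀ j, AnalyticAt ℂ (g j) z) :
    Wr (fun j z => φ z * g j z) z = φ z ^ m * Wr g z := by
  classical
  set L : Matrix (Fin m) (Fin m) ℂ := Matrix.of fun i l : Fin m =>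
    if (l : ℕ) ≤ (i : ℕ) then ((i : ℕ).choose (l : ℕ) : ℂ) * iteratedDeriv ((i : ℕ) - (l : ℕ)) φ z
    else 0 with hL
  have hmul : (Matrix.of fun i j : Fin m => iteratedDeriv (i : ℕ) (fun z => φ z * g j z) z) =
      L * (Matrix.of fun i j : Fin m => iteratedDeriv (i : ℕ) (g j) z) := by
    ext i j
    rw [Matrix.mul_apply]
    simp only [Matrix.of_apply]
    have h1 : iteratedDeriv (i : ℕ) (fun z => g j z * φ z) z =
        ∑ l ∈ Finset.range ((i : ℕ) + 1), (((i : ℕ).choose l : ℕ) : ℂ) *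
          iteratedDeriv l (g j) z * iteratedDeriv ((i : ℕ) - l) φ z :=
      iteratedDeriv_fun_mul (hg j).contDiffAt hφ.contDiffAt
    have h2 : (fun z => φ z * g j z) = (fun z => g j z * φ z) := by
      funext w
      ring
    rw [h2, h1]
    have h3 : ∑ l : Fin m, L i l * iteratedDeriv (l : ℕ) (g j) z =
        ∑ l ∈ Finset.range m, (if l ≤ (i : ℕ) then (((i : ℕ).choose l : ℕ) : ℂ) *
          iteratedDeriv ((i : ℕ) - l) φ z else 0) * iteratedDeriv l (g j) z := by
      rw [Finset.sum_range]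
      rfl
    rw [h3]
    have h4 : Finset.range ((i : ℕ) + 1) ⊆ Finset.range m := by
      intro x hx
      rw [Finset.mem_range] at *
      have := i.2
      omega
    rw [← Finset.sum_subset h4]
    · refine Finset.sum_congr rfl ?_
      intro l hl
      rw [Finset.mem_range] at hl
      rw [if_pos (by omega)]
      ring
    · intro l _ hl2
      rw [Finset.mem_range] at hl2
      rw [if_neg (by omega), zero_mul]
  unfold Wr
  rw [hmul, Matrix.det_mul]
  congr 1
  rw [Matrix.det_of_isLowerTriangular]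
  · have : ∀ i : Fin m, L i i = φ z := by
      intro i
      simp [hL]
    simp [this]
  · intro i j hij
    have hij' : (i : ℕ) < (j : ℕ) := by
      have : i < j := hij
      exact this
    simp only [hL, Matrix.of_apply]
    rw [if_neg (by omega)]

/-- All maximal minors of the Wronskian matrix agree up to a sign depending on the column only. -/
theorem Wr_succAbove_eq {m : ℕ} (j : Fin (m + 1)) : ∃ u : ℤˣ, ∀ (g : Fin (m + 1) → ℂ → ℂ) (z : ℂ),
    (∀ k, AnalyticAt ℂ (g k) z) → (∀ᶠ w in 𝓝 z, ∑ k, g k w = 0) →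
    Wr (fun i => g (Fin.succ i)) z = u • Wr (fun i => g (j.succAbove i)) z := by
  classical
  refine ⟨Int.negOnePow ((((0 : Fin (m + 1)) : ℕ) : ℤ) - ((j : ℕ) : ℤ)), ?_⟩
  intro g z hg hsum
  have h := Matrix.submatrix_succAbove_det_eq_negOnePow_submatrix_succAbove_det'
    (M := Matrix.of fun (i : Fin m) (k : Fin (m + 1)) => iteratedDeriv (i : ℕ) (g k) z)
    (by
      intro i
      have h1 : iteratedDeriv (i : ℕ) (fun w => ∑ k, g k w) z =
          ∑ k, iteratedDeriv (i : ℕ) (g k) z :=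
        iteratedDeriv_fun_sum (fun k _ => (hg k).contDiffAt)
      have h2 : iteratedDeriv (i : ℕ) (fun w => ∑ k, g k w) z = 0 := by
        have h3 : (fun w => ∑ k, g k w) =ᶠ[𝓝 z] (fun _ => (0 : ℂ)) := hsum
        rw [h3.iteratedDeriv_eq]
        simp
      simp only [Matrix.of_apply]
      rw [← h1, h2]) 0 j
  unfold Wr
  have e1 : (Matrix.of fun i k : Fin m => iteratedDeriv (i : ℕ) (g (Fin.succ k)) z) =
      (Matrix.of fun (i : Fin m) (k : Fin (m + 1)) =>
        iteratedDeriv (i : ℕ) (g k) z).submatrix id (Fin.succAbove 0) := by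
    ext i k
    simp
  have e2 : (Matrix.of fun i k : Fin m => iteratedDeriv (i : ℕ) (g (j.succAbove k)) z) =
      (Matrix.of fun (i : Fin m) (k : Fin (m + 1)) =>
        iteratedDeriv (i : ℕ) (g k) z).submatrix id (Fin.succAbove j) := by
    ext i k
    simp
  rw [e1, e2]
  exact h

theorem norm_units_smul (u : ℤˣ) (x : ℂ) : ‖u • x‖ = ‖x‖ := by
  rcases Int.units_eq_one_or u with h | h
  · simp [h]
  · simp [h]

theorem norm_Wr_succAbove {m : ℕ} (g : Fin (m + 1) → ℂ → ℂ) (z : ℂ)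
    (hg : ∀ k, AnalyticAt ℂ (g k) z) (hsum : ∀ᶠ w in nhds z, ∑ k, g k w = 0)
    (j : Fin (m + 1)) :
    ‖Wr (fun i => g (j.succAbove i)) z‖ = ‖Wr (fun i => g (Fin.succ i)) z‖ := by
  obtain ⟨u, hu⟩ := Wr_succAbove_eq (m := m) j
  rw [hu g z hg hsum, norm_units_smul]

theorem iteratedDeriv_iteratedDeriv (i j : ℕ) (f : ℂ → ℂ) :
    iteratedDeriv j (iteratedDeriv i f) = iteratedDeriv (j + i) f := by
  rw [iteratedDeriv_eq_iterate, iteratedDeriv_eq_iterate, iteratedDeriv_eq_iterate,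
    Function.iterate_add_apply]

theorem analyticAt_iteratedDeriv {f : ℂ → ℂ} {a : ℂ} (hf : AnalyticAt ℂ f a) (i : ℕ) :
    AnalyticAt ℂ (iteratedDeriv i f) a := by
  rw [iteratedDeriv_eq_iterate]
  exact hf.iterated_deriv i

theorem natCast_le_order_iteratedDeriv {f : ℂ → ℂ} {a : ℂ} (hf : AnalyticAt ℂ f a) (n i : ℕ)
    (hn : (n : ℕ∞) ≤ analyticOrderAt f a) :
    ((n - i : ℕ) : ℕ∞) ≤ analyticOrderAt (iteratedDeriv i f) a := by
  rw [natCast_le_analyticOrderAt_iff_iteratedDeriv_eq_zero (analyticAt_iteratedDeriv hf i)]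
  rw [natCast_le_analyticOrderAt_iff_iteratedDeriv_eq_zero hf] at hn
  intro j hj
  rw [iteratedDeriv_iteratedDeriv]
  exact hn _ (by omega)

theorem analyticAt_det {m : ℕ} (h : Fin m → Fin m → ℂ → ℂ) (a : ℂ)
    (hh : ∀ i j, AnalyticAt ℂ (h i j) a) :
    AnalyticAt ℂ (fun z => (Matrix.of fun i j : Fin m => h i j z).det) a := by
  simp only [Matrix.det_apply', Matrix.of_apply]
  refine Finset.analyticAt_fun_sum _ ?_
  intro σ _
  refine AnalyticAt.mul analyticAt_const ?_
  exact Finset.analyticAt_fun_prod _ (fun i _ => hh _ _)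

theorem analyticAt_Wr {m : ℕ} (g : Fin m → ℂ → ℂ) (a : ℂ) (hg : ∀ k, AnalyticAt ℂ (g k) a) :
    AnalyticAt ℂ (Wr g) a := by
  unfold Wr
  exact analyticAt_det (fun i j => iteratedDeriv (i : ℕ) (g j)) a
    (fun i j => analyticAt_iteratedDeriv (hg j) _)

/-- If the `k`-th function vanishes to order at least `n k` at `a` then the Wronskian is
`(z - a) ^ (∑ k, (n k - (m - 1)))` times an analytic function. -/
theorem exists_Wr_factor {m : ℕ} (g : Fin m → ℂ → ℂ) (a : ℂ) (hg : ∀ k, AnalyticAt ℂ (g k) a)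
    (n : Fin m → ℕ) (hn : ∀ k, (n k : ℕ∞) ≤ analyticOrderAt (g k) a) :
    ∃ H : ℂ → ℂ, AnalyticAt ℂ H a ∧
      ∀ᶠ w in 𝓝 a, Wr g w = (w - a) ^ (∑ k, (n k - (m - 1))) * H w := by
  classical
  have h1 : ∀ i k : Fin m, ∃ h : ℂ → ℂ, AnalyticAt ℂ h a ∧
      ∀ᶠ w in 𝓝 a, iteratedDeriv (i : ℕ) (g k) w = (w - a) ^ (n k - (m - 1)) • h w := by
    intro i k
    have h2 := natCast_le_order_iteratedDeriv (hg k) (n k) i (hn k)
    have h3 : ((n k - (m - 1) : ℕ) : ℕ∞) ≤ ((n k - (i : ℕ) : ℕ) : ℕ∞) := by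
      have := i.2
      exact_mod_cast (by omega : n k - (m - 1) ≤ n k - (i : ℕ))
    exact (natCast_le_analyticOrderAt (analyticAt_iteratedDeriv (hg k) _)).1 (h3.trans h2)
  choose h hh hh' using h1
  refine ⟨fun z => (Matrix.of fun i j : Fin m => h i j z).det, analyticAt_det _ a hh, ?_⟩
  have h4 : ∀ᶠ w in 𝓝 a, ∀ i k : Fin m,
      iteratedDeriv (i : ℕ) (g k) w = (w - a) ^ (n k - (m - 1)) • h i k w :=
    Filter.eventually_all.2 fun i => Filter.eventually_all.2 fun k => hh' i k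
  filter_upwards [h4] with w hw
  unfold Wr
  have h5 : (Matrix.of fun i j : Fin m => iteratedDeriv (i : ℕ) (g j) w) =
      Matrix.of fun i j : Fin m => (w - a) ^ (n j - (m - 1)) *
        (Matrix.of fun i j : Fin m => h i j w) i j := by
    ext i j
    simp only [Matrix.of_apply]
    rw [hw i j, smul_eq_mul]
  rw [h5, Matrix.det_mul_row, Finset.prod_pow_eq_pow_sum]

/-- Order of vanishing of the Wronskian at a point, including common zeros. -/
theorem order_Wr {m : ℕ} (g : Fin (m + 1) → ℂ → ℂ) (a : ℂ) (hg : ∀ k, AnalyticAt ℂ (g k) a)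
    (hsum : ∀ᶠ w in nhds a, ∑ k, g k w = 0) (o : Fin (m + 1) → ℕ)
    (ho : ∀ k, analyticOrderAt (g k) a = o k) (c : ℕ) (hc : ∀ k, c ≤ o k)
    (hc' : ∃ k, o k = c) :
    ((m * c + ∑ k, (o k - c - (m - 1)) : ℕ) : ℕ∞) ≤
      analyticOrderAt (Wr (fun i => g (Fin.succ i))) a := by
  classical
  obtain ⟨k0, hk0⟩ := hc'
  -- divide by the common zero
  have h1 : ∀ k, ∃ ψ : ℂ → ℂ, AnalyticAt ℂ ψ a ∧ ∀ᶠ w in 𝓝 a, g k w = (w - a) ^ c • ψ w := by
    intro k
    refine (natCast_le_analyticOrderAt (hg k)).1 ?_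
    rw [ho k]
    exact_mod_cast hc k
  choose ψ hψ hψ' using h1
  have hpow : AnalyticAt ℂ (fun w : ℂ => (w - a) ^ c) a := by fun_prop
  -- orders of the quotients
  have hord : ∀ k, ((o k - c : ℕ) : ℕ∞) ≤ analyticOrderAt (ψ k) a := by
    intro k
    obtain ⟨G, hG, hG0⟩ := (natCast_le_analyticOrderAt (hg k)).1 (le_of_eq (ho k).symm)
    refine (natCast_le_analyticOrderAt (hψ k)).2 ⟨G, hG, ?_⟩
    have hF : AnalyticAt ℂ (fun w => ψ k w - (w - a) ^ (o k - c) • G w) a := by
      refine (hψ k).sub ?_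
      exact (by fun_prop : AnalyticAt ℂ (fun w : ℂ => (w - a) ^ (o k - c)) a).smul hG
    rcases hF.eventually_eq_zero_or_eventually_ne_zero with h | h
    · filter_upwards [h] with w hw
      exact sub_eq_zero.1 hw
    · exfalso
      have h2 : ∀ᶠ w in 𝓝[≠] a, False := by
        filter_upwards [h, (hψ' k).filter_mono nhdsWithin_le_nhds,
          hG0.filter_mono nhdsWithin_le_nhds, self_mem_nhdsWithin] with w hw1 hw2 hw3 hw4
        apply hw1
        have hne : (w - a) ^ c ≠ 0 := pow_ne_zero _ (sub_ne_zero.2 hw4)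
        apply mul_left_cancel₀ hne
        rw [mul_zero, mul_sub]
        rw [hw2] at hw3
        simp only [smul_eq_mul] at hw3 ⊢
        rw [hw3, ← mul_assoc, ← pow_add, Nat.add_sub_cancel' (hc k), sub_self]
      exact absurd (Filter.eventually_false_iff_eq_bot.1 h2)
        (inferInstance : (𝓝[≠] a).NeBot).ne
  -- sum of the quotients
  have hsumψ : ∀ᶠ w in 𝓝 a, ∑ k, ψ k w = 0 := by
    have hF : AnalyticAt ℂ (fun w => ∑ k, ψ k w) a :=
      Finset.analyticAt_fun_sum _ (fun k _ => hψ k)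
    rcases hF.eventually_eq_zero_or_eventually_ne_zero with h | h
    · exact h
    · exfalso
      have hall : ∀ᶠ w in 𝓝 a, ∀ k, g k w = (w - a) ^ c • ψ k w :=
        Filter.eventually_all.2 hψ'
      have h2 : ∀ᶠ w in 𝓝[≠] a, False := by
        filter_upwards [h, hall.filter_mono nhdsWithin_le_nhds,
          hsum.filter_mono nhdsWithin_le_nhds, self_mem_nhdsWithin] with w hw1 hw2 hw3 hw4
        apply hw1
        have hne : (w - a) ^ c ≠ 0 := pow_ne_zero _ (sub_ne_zero.2 hw4)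
        apply mul_left_cancel₀ hne
        rw [mul_zero, Finset.mul_sum, ← hw3]
        refine Finset.sum_congr rfl fun k _ => ?_
        rw [hw2 k, smul_eq_mul]
      exact absurd (Filter.eventually_false_iff_eq_bot.1 h2)
        (inferInstance : (𝓝[≠] a).NeBot).ne
  obtain ⟨u, hu⟩ := Wr_succAbove_eq (m := m) k0
  obtain ⟨H, hH, hH'⟩ := exists_Wr_factor (fun i : Fin m => ψ (k0.succAbove i)) a
    (fun i => hψ _) (fun i => o (k0.succAbove i) - c) (fun i => hord _)
  have hsumo : ∑ k, (o k - c - (m - 1)) = ∑ i : Fin m, (o (k0.succAbove i) - c - (m - 1)) := by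
    rw [Fin.sum_univ_succAbove _ k0, hk0]
    simp
  rw [natCast_le_analyticOrderAt (analyticAt_Wr _ a (fun i => hg _))]
  refine ⟨fun w => u • H w, ?_, ?_⟩
  · rcases Int.units_eq_one_or u with h | h
    · simpa [h] using hH
    · have h' : (fun w => u • H w) = -H := by
        funext w
        simp [h]
      rw [h']
      exact hH.neg
  · have e1 : ∀ᶠ w in 𝓝 a, ∀ k, g k =ᶠ[𝓝 w] fun w => (w - a) ^ c * ψ k w := by
      refine Filter.eventually_all.2 fun k => ?_
      exact (hψ' k).eventually_nhds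
    have e2 : ∀ᶠ w in 𝓝 a, ∀ k, AnalyticAt ℂ (ψ k) w :=
      Filter.eventually_all.2 fun k => (hψ k).eventually_analyticAt
    have e3 : ∀ᶠ w in 𝓝 a, ∀ᶠ v in 𝓝 w, ∑ k, ψ k v = 0 := hsumψ.eventually_nhds
    filter_upwards [e1, e2, e3, hH'] with w hw1 hw2 hw3 hw4
    have s1 : Wr (fun i => g (Fin.succ i)) w =
        Wr (fun (i : Fin m) v => (v - a) ^ c * ψ (Fin.succ i) v) w := by
      unfold Wr
      congr 1
      ext i j
      simp only [Matrix.of_apply]
      exact (hw1 _).iteratedDeriv_eq _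
    have s2 : Wr (fun (i : Fin m) v => (v - a) ^ c * ψ (Fin.succ i) v) w =
        ((w - a) ^ c) ^ m * Wr (fun i : Fin m => ψ (Fin.succ i)) w :=
      Wr_mul (fun v => (v - a) ^ c) (fun i : Fin m => ψ (Fin.succ i)) w (by fun_prop)
        (fun i => hw2 _)
    rw [s1, s2, hu ψ w hw2 hw3, hw4, hsumo, pow_add, ← pow_mul, mul_comm c m]
    simp only [smul_eq_mul]
    rw [mul_smul_comm, mul_smul_comm, mul_assoc]

end Pool.Agent.GGL
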