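import Pool.Agent.Lib_MP_b9fedf_ag.Wr1
import Pool.Agent.Lib_MP_b9fedf_ag.Wr2

/-! Cartan's second main theorem with truncated counting functions. -/

set_option autoImplicit false

namespace Pool.Agent.GGL
open Filter Metric Real Set Function MeromorphicOn ValueDistribution

/-- the divisor of a function on the whole plane -/
noncomputable abbrev Dv (g : ℂ → ℂ) : locallyFinsupp ℂ ℤ := MeromorphicOn.divisor g Set.univ

/-- pointwise minimum of finitely many divisors -/
noncomputable def minDv {ι : Type} [Fintype ι] [Nonempty ι] (D : ι → locallyFinsupp ℂ ℤ) :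
    locallyFinsupp ℂ ℤ :=
  Finset.univ.inf' Finset.univ_nonempty D

lemma minDv_apply {ι : Type} [Fintype ι] [Nonempty ι] (D : ι → locallyFinsupp ℂ ℤ) (a : ℂ) :
    minDv D a = Finset.univ.inf' Finset.univ_nonempty (fun k => D k a) := by
  unfold minDv
  exact Finset.apply_inf'_eq_inf'_comp (f := D) Finset.univ_nonempty
    (fun D : locallyFinsupp ℂ ℤ => D a) (fun D₁ D₂ => rfl)

lemma minDv_le {ι : Type} [Fintype ι] [Nonempty ι] (D : ι → locallyFinsupp ℂ ℤ) (k : ι) (a : ℂ) :
    minDv D a ≤ D k a := by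
  rw [minDv_apply]
  exact Finset.inf'_le _ (Finset.mem_univ k)

lemma exists_minDv {ι : Type} [Fintype ι] [Nonempty ι] (D : ι → locallyFinsupp ℂ ℤ) (a : ℂ) :
    ∃ k, minDv D a = D k a := by
  rw [minDv_apply]
  obtain ⟨k, _, hk⟩ := Finset.exists_mem_eq_inf' Finset.univ_nonempty (fun k => D k a)
  exact ⟨k, hk⟩

/-- Cartan's characteristic of a curve `[g_0 : … : g_m]` -/
noncomputable def TC {ι : Type} [Fintype ι] [Nonempty ι] (g : ι → ℂ → ℂ) (r : ℝ) : ℝ :=
  circleAverage (fun z => Real.log ‖fun k => g k z‖) 0 r -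
    Function.locallyFinsuppWithin.logCounting (minDv (fun k => Dv (g k))) r

lemma mero_of_diff {g : ℂ → ℂ} (hg : Differentiable ℂ g) : Meromorphic g := fun z =>
  (hg.analyticAt z).meromorphicAt

lemma order_ne_top {g : ℂ → ℂ} (hg : Differentiable ℂ g) (hne : ∃ z, g z ≠ 0) (z : ℂ) :
    analyticOrderAt g z ≠ ⊤ := by
  intro h
  rw [AnalyticOnNhd.analyticOrderAt_eq_top_iff_eq_zero z (fun z => hg.analyticAt z)] at h
  obtain ⟨w, hw⟩ := hne
  exact hw (by rw [h]; rfl)

lemma mOrder_ne_top {g : ℂ → ℂ} (hg : Differentiable ℂ g) (hne : ∃ z, g z ≠ 0) (z : ℂ) :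
    meromorphicOrderAt g z ≠ ⊤ := by
  rw [(hg.analyticAt z).meromorphicOrderAt_eq]
  have := order_ne_top hg hne z
  intro h
  apply this
  cases h1 : analyticOrderAt g z with
  | top => rfl
  | coe n => rw [h1] at h; simp at h

lemma Dv_apply {g : ℂ → ℂ} (hg : Differentiable ℂ g) (z : ℂ) :
    Dv g z = ((analyticOrderAt g z).toNat : ℤ) := by
  rw [Dv, AnalyticOnNhd.divisor_apply (fun z _ => hg.analyticAt z) (Set.mem_univ z)]
  cases h1 : analyticOrderAt g z with
  | top => simp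
  | coe n => simp

lemma Dv_nonneg {g : ℂ → ℂ} (hg : Differentiable ℂ g) : 0 ≤ Dv g :=
  AnalyticOnNhd.divisor_nonneg (fun z _ => hg.analyticAt z)

lemma jensen {g : ℂ → ℂ} (hg : Meromorphic g) {r : ℝ} (hr : 1 ≤ r) :
    circleAverage (fun z => Real.log ‖g z‖) 0 r =
      Function.locallyFinsuppWithin.logCounting (Dv g) r +
        Real.log ‖meromorphicTrailingCoeffAt g 0‖ := by
  rw [Function.locallyFinsuppWithin.logCounting_divisor_eq_circleAverage_sub_const hg
    (by linarith)]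
  ring

lemma nonzero_codiscrete {g : ℂ → ℂ} (hg : Differentiable ℂ g) (hne : ∃ z, g z ≠ 0) (r : ℝ) :
    {z | g z ≠ 0} ∈ codiscreteWithin (sphere (0 : ℂ) r) := by
  obtain ⟨x, hx⟩ := hne
  have h1 := AnalyticOnNhd.preimage_zero_mem_codiscrete (f := g) (x := x)
    (fun z _ => hg.analyticAt z) hx
  exact codiscreteWithin_mono (Set.subset_univ _) h1

/-- monotonicity of circle averages, up to a discrete set -/
lemma circleAverage_mono_codiscrete {F₁ F₂ : ℂ → ℝ} {r : ℝ} (hr : 0 < r)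
    (h1 : CircleIntegrable F₁ 0 r) (h2 : CircleIntegrable F₂ 0 r)
    (h : {z | F₁ z ≤ F₂ z} ∈ codiscreteWithin (sphere (0 : ℂ) r)) :
    circleAverage F₁ 0 r ≤ circleAverage F₂ 0 r := by
  have habs : |r| = r := abs_of_pos hr
  have h3 : F₁ =ᶠ[codiscreteWithin (sphere (0 : ℂ) |r|)] (fun z => min (F₁ z) (F₂ z)) := by
    rw [habs]
    filter_upwards [h] with z hz
    exact (min_eq_left hz).symm
  rw [circleAverage_congr_codiscreteWithin h3 hr.ne']
  apply circleAverage_mono _ h2
  · intro z _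
    exact min_le_right _ _
  · exact h1.congr_codiscreteWithin h3

lemma vec_mero {ι : Type} [Fintype ι] {g : ι → ℂ → ℂ} (hg : ∀ k, Differentiable ℂ (g k)) :
    Meromorphic (fun z => (fun k => g k z : ι → ℂ)) := fun z =>
  (Differentiable.analyticAt (differentiable_pi.mpr hg) z).meromorphicAt

lemma vec_integrable {ι : Type} [Fintype ι] {g : ι → ℂ → ℂ} (hg : ∀ k, Differentiable ℂ (g k))
    (r : ℝ) : CircleIntegrable (fun z => Real.log ‖(fun k => g k z : ι → ℂ)‖) 0 r :=
  (vec_mero hg).meromorphicOn.circleIntegrable_log_norm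

lemma log_integrable {g : ℂ → ℂ} (hg : Meromorphic g) (r : ℝ) :
    CircleIntegrable (fun z => Real.log ‖g z‖) 0 r :=
  hg.meromorphicOn.circleIntegrable_log_norm

lemma exists_norm_eq {ι : Type} [Fintype ι] [Nonempty ι] (v : ι → ℂ) : ∃ j, ‖v‖ = ‖v j‖ := by
  obtain ⟨j, -, hj⟩ := Finset.exists_max_image Finset.univ (fun k => ‖v k‖) Finset.univ_nonempty
  refine ⟨j, le_antisymm ?_ (norm_le_pi_norm v j)⟩
  exact (pi_norm_le_iff_of_nonneg (norm_nonneg _)).mpr fun k => hj k (Finset.mem_univ k)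

/-- `N(r, D_k) - N(r, D_c) ≤ T + O(1)` -/
lemma N_le_TC {ι : Type} [Fintype ι] [Nonempty ι] {g : ι → ℂ → ℂ}
    (hg : ∀ k, Differentiable ℂ (g k)) (hne : ∀ k, ∃ z, g k z ≠ 0) {r : ℝ} (hr : 1 ≤ r) (k : ι) :
    Function.locallyFinsuppWithin.logCounting (Dv (g k) - minDv (fun k => Dv (g k))) r ≤
      TC g r - Real.log ‖meromorphicTrailingCoeffAt (g k) 0‖ := by
  rw [map_sub, Pi.sub_apply, TC]
  have h1 := jensen (mero_of_diff (hg k)) hr
  have h2 : circleAverage (fun z => Real.log ‖g k z‖) 0 r ≤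
      circleAverage (fun z => Real.log ‖fun k => g k z‖) 0 r := by
    apply circleAverage_mono_codiscrete (by linarith) (log_integrable (mero_of_diff (hg k)) r)
      (vec_integrable hg r)
    filter_upwards [nonzero_codiscrete (hg k) (hne k) r] with z hz
    exact Real.log_le_log (norm_pos_iff.mpr hz) (norm_le_pi_norm (fun k => g k z) k)
  linarith

/-- `T(r, g_i/g_j) ≤ T + O(1)` -/
lemma characteristic_div_le_TC {ι : Type} [Fintype ι] [Nonempty ι] {g : ι → ℂ → ℂ}
    (hg : ∀ k, Differentiable ℂ (g k)) (hne : ∀ k, ∃ z, g k z ≠ 0) {r : ℝ} (hr : 1 ≤ r)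
    (i j : ι) :
    characteristic (fun z => g i z / g j z) ⊤ r ≤
      TC g r - Real.log ‖meromorphicTrailingCoeffAt (g j) 0‖ := by
  have hr0 : 0 < r := by linarith
  have hmi := mero_of_diff (hg i)
  have hmj := mero_of_diff (hg j)
  have hG : Meromorphic (fun z => g i z / g j z) := fun z => (hmi z).fun_div (hmj z)
  have hdiv : divisor (fun z => g i z / g j z) univ = Dv (g i) - Dv (g j) := by
    have h1 : (fun z => g i z / g j z) = g i * (g j)⁻¹ := by
      ext z; rw [Pi.mul_apply, Pi.inv_apply, div_eq_mul_inv]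
    rw [h1, divisor_mul hmi.meromorphicOn hmj.inv.meromorphicOn
      (fun z _ => mOrder_ne_top (hg i) (hne i) z) ?_, divisor_inv, sub_eq_add_neg]
    intro z _
    rw [meromorphicOrderAt_inv]
    have h3 := mOrder_ne_top (hg j) (hne j) z
    cases h4 : meromorphicOrderAt (g j) z with
    | top => exact absurd h4 h3
    | coe n => simp
  rw [characteristic, Pi.add_apply, ValueDistribution.logCounting_top, hdiv,
    ValueDistribution.proximity_top]
  have h1 := jensen hmj hr
  have h2 : circleAverage (fun z => Real.posLog ‖g i z / g j z‖) 0 r ≤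
      circleAverage (fun z => Real.log ‖fun k => g k z‖ - Real.log ‖g j z‖) 0 r := by
    apply circleAverage_mono_codiscrete hr0 hG.meromorphicOn.circleIntegrable_posLog_norm
      ((vec_integrable hg r).sub (log_integrable hmj r))
    filter_upwards [nonzero_codiscrete (hg j) (hne j) r] with z hz
    have hz0 : 0 < ‖g j z‖ := norm_pos_iff.mpr hz
    have h3 : ‖g j z‖ ≤ ‖fun k => g k z‖ := norm_le_pi_norm (fun k => g k z) j
    have h4 : ‖g i z‖ ≤ ‖fun k => g k z‖ := norm_le_pi_norm (fun k => g k z) i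
    show Real.posLog ‖g i z / g j z‖ ≤ Real.log ‖fun k => g k z‖ - Real.log ‖g j z‖
    rw [← Real.log_div (lt_of_lt_of_le hz0 h3).ne' hz0.ne',
      Real.posLog_eq_log_max_one (norm_nonneg _)]
    apply Real.log_le_log (by positivity)
    apply max_le
    · rw [le_div_iff₀ hz0, one_mul]; exact h3
    · rw [norm_div]
      exact div_le_div_of_nonneg_right h4 hz0.le
  rw [circleAverage_fun_sub (vec_integrable hg r) (log_integrable hmj r)] at h2
  have h3 : Function.locallyFinsuppWithin.logCounting (Dv (g i) - Dv (g j))⁻ r ≤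
      Function.locallyFinsuppWithin.logCounting (Dv (g j) - minDv (fun k => Dv (g k))) r := by
    apply Function.locallyFinsuppWithin.logCounting_le _ hr
    intro a
    rw [locallyFinsuppWithin.negPart_apply, locallyFinsuppWithin.coe_sub,
      locallyFinsuppWithin.coe_sub, Pi.sub_apply, Pi.sub_apply, negPart_def]
    have h4 := minDv_le (fun k => Dv (g k)) i a
    have h5 := minDv_le (fun k => Dv (g k)) j a
    apply sup_le
    · linarith
    · linarith
  rw [map_sub, Pi.sub_apply] at h3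
  rw [TC]
  linarith

lemma Wr_congr {m : ℕ} {g h : Fin m → ℂ → ℂ} {z : ℂ} (hgh : ∀ j, g j =ᶠ[nhds z] h j) :
    Wr g z = Wr h z := by
  unfold Wr
  congr 1
  ext i j
  simp only [Matrix.of_apply]
  exact (hgh j).iteratedDeriv_eq i

lemma norm_Wr_le {m : ℕ} {G : Fin m → ℂ → ℂ} {z : ℂ} {B : ℝ} (hB : 1 ≤ B)
    (hG : ∀ k, ∀ i : ℕ, ‖iteratedDeriv i (G k) z‖ ≤
      Real.exp 1 * i.factorial * B ^ i * ‖G k z‖) :
    ‖Wr G z‖ ≤ m.factorial * ((Real.exp 1 * m.factorial * B ^ m) ^ m * ∏ k, ‖G k z‖) := by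
  unfold Wr
  rw [Matrix.det_apply]
  refine (norm_sum_le _ _).trans ?_
  have h1 : ∀ σ ∈ (Finset.univ : Finset (Equiv.Perm (Fin m))),
      ‖Equiv.Perm.sign σ • ∏ i, (Matrix.of fun i j : Fin m => iteratedDeriv (i : ℕ) (G j) z)
        (σ i) i‖ ≤ (Real.exp 1 * m.factorial * B ^ m) ^ m * ∏ k, ‖G k z‖ := by
    intro σ _
    have h2 : ‖Equiv.Perm.sign σ • ∏ i, (Matrix.of fun i j : Fin m =>
        iteratedDeriv (i : ℕ) (G j) z) (σ i) i‖ = ∏ i : Fin m, ‖iteratedDeriv (σ i : ℕ) (G i) z‖ := by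
      rw [Units.smul_def, zsmul_eq_mul, norm_mul, norm_prod]
      have : ‖((Equiv.Perm.sign σ : ℤ) : ℂ)‖ = 1 := by
        rcases Int.units_eq_one_or (Equiv.Perm.sign σ) with h | h <;> rw [h] <;> simp
      rw [this, one_mul]
      simp only [Matrix.of_apply]
    rw [h2]
    calc ∏ i : Fin m, ‖iteratedDeriv (σ i : ℕ) (G i) z‖
        ≤ ∏ i : Fin m, (Real.exp 1 * m.factorial * B ^ m * ‖G i z‖) := by
          apply Finset.prod_le_prod (fun i _ => norm_nonneg _)
          intro i _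
          refine (hG i (σ i)).trans ?_
          apply mul_le_mul_of_nonneg_right _ (norm_nonneg _)
          have hi : (σ i : ℕ) ≤ m := (σ i).2.le
          have h3 : ((σ i : ℕ).factorial : ℝ) ≤ m.factorial := by
            exact_mod_cast Nat.factorial_le hi
          have h4 : B ^ (σ i : ℕ) ≤ B ^ m := pow_le_pow_right₀ hB hi
          have h5 : 0 < Real.exp 1 := Real.exp_pos 1
          exact mul_le_mul (mul_le_mul_of_nonneg_left h3 h5.le) h4 (by positivity) (by positivity)
      _ = (Real.exp 1 * m.factorial * B ^ m) ^ m * ∏ k, ‖G k z‖ := by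
          rw [Finset.prod_mul_distrib, Finset.prod_const, Finset.card_univ, Fintype.card_fin]
  refine (Finset.sum_le_sum h1).trans (le_of_eq ?_)
  rw [Finset.sum_const, Finset.card_univ, Fintype.card_perm, Fintype.card_fin, nsmul_eq_mul]

lemma Wr_differentiable {m : ℕ} {g : Fin m → ℂ → ℂ} (hg : ∀ j, Differentiable ℂ (g j)) :
    Differentiable ℂ (Wr g) := by
  have h1 : Wr g = fun z => ∑ σ : Equiv.Perm (Fin m), Equiv.Perm.sign σ •
      ∏ i, iteratedDeriv (σ i : ℕ) (g i) z := by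
    ext z
    unfold Wr
    rw [Matrix.det_apply]
    simp only [Matrix.of_apply]
  rw [h1]
  apply Differentiable.fun_sum
  intro σ _
  apply Differentiable.const_smul
  apply Differentiable.fun_finsetProd
  intro i _
  have h2 : ContDiff ℂ ⊤ (g i) := (hg i).contDiff
  exact h2.differentiable_iteratedDeriv _ (WithTop.coe_lt_top _)

/-- the pointwise form of Cartan's argument -/
lemma pointwise {m : ℕ} {g : Fin (m + 1) → ℂ → ℂ} (hg : ∀ k, Differentiable ℂ (g k))
    (hsum : ∀ z, ∑ k, g k z = 0) {z : ℂ} (hz : ∀ k, g k z ≠ 0)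
    (hW : Wr (fun i => g (Fin.succ i)) z ≠ 0) {B : ℝ} (hB : 1 ≤ B)
    (hG : ∀ k, AnalyticAt ℂ (fun z => g k z / g 0 z) z → ∀ i : ℕ,
      ‖iteratedDeriv i (fun z => g k z / g 0 z) z‖ ≤
      Real.exp 1 * i.factorial * B ^ i * ‖g k z / g 0 z‖) :
    Real.log ‖fun k => g k z‖ ≤ ∑ k, Real.log ‖g k z‖ -
      Real.log ‖Wr (fun i => g (Fin.succ i)) z‖ +
      (Real.log m.factorial + m * (1 + Real.log m.factorial) + m ^ 2 * Real.log B) := by
  obtain ⟨j, hj⟩ := exists_norm_eq (fun k => g k z)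
  have han : ∀ k, AnalyticAt ℂ (g k) z := fun k => (hg k).analyticAt z
  have hGan : ∀ k, AnalyticAt ℂ (fun z => g k z / g 0 z) z := fun k =>
    (han k).fun_div (han 0) (hz 0)
  -- factor out `g 0`
  have h1 : Wr (fun i => g (j.succAbove i)) z =
      g 0 z ^ m * Wr (fun i z => g (j.succAbove i) z / g 0 z) z := by
    rw [← Wr_mul (g 0) (fun i z => g (j.succAbove i) z / g 0 z) z (han 0) (fun i => hGan _)]
    apply Wr_congr
    intro i
    have h2 : ∀ᶠ w in nhds z, g 0 w ≠ 0 := (han 0).continuousAt.eventually_ne (hz 0)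
    filter_upwards [h2] with w hw
    field_simp
  have h2 := norm_Wr_le hB (fun k i => hG (j.succAbove k) (hGan _) i)
  have h3 := norm_Wr_succAbove g z han (Filter.Eventually.of_forall hsum) j
  have hW0 : 0 < ‖Wr (fun i => g (Fin.succ i)) z‖ := norm_pos_iff.mpr hW
  have hgz : ∀ k, 0 < ‖g k z‖ := fun k => norm_pos_iff.mpr (hz k)
  have h4 : ‖Wr (fun i => g (Fin.succ i)) z‖ ≤
      m.factorial * (Real.exp 1 * m.factorial * B ^ m) ^ m * ∏ i, ‖g (j.succAbove i) z‖ := by
    rw [← h3, h1, norm_mul, norm_pow]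
    calc ‖g 0 z‖ ^ m * ‖Wr (fun i z => g (j.succAbove i) z / g 0 z) z‖
        ≤ ‖g 0 z‖ ^ m * (m.factorial * ((Real.exp 1 * m.factorial * B ^ m) ^ m *
            ∏ k, ‖g (j.succAbove k) z / g 0 z‖)) :=
          mul_le_mul_of_nonneg_left h2 (by positivity)
      _ = m.factorial * (Real.exp 1 * m.factorial * B ^ m) ^ m *
            (‖g 0 z‖ ^ m * ∏ k, ‖g (j.succAbove k) z / g 0 z‖) := by ring
      _ = _ := by
          congr 1
          have h5 : ∏ k, ‖g (j.succAbove k) z / g 0 z‖ =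
              (∏ k, ‖g (j.succAbove k) z‖) / ‖g 0 z‖ ^ m := by
            simp_rw [norm_div]
            rw [Finset.prod_div_distrib, Finset.prod_const, Finset.card_univ, Fintype.card_fin]
          rw [h5]
          field_simp [(hgz 0).ne']
  have h6 := Real.log_le_log hW0 h4
  have hBm : 0 < B ^ m := by positivity
  have he : 0 < Real.exp 1 := Real.exp_pos 1
  have hf : (0 : ℝ) < m.factorial := by exact_mod_cast Nat.factorial_pos m
  have hprod : 0 < ∏ i, ‖g (j.succAbove i) z‖ := Finset.prod_pos fun i _ => hgz _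
  rw [Real.log_mul (by positivity) hprod.ne', Real.log_mul hf.ne' (by positivity), Real.log_pow,
    Real.log_mul (by positivity) hBm.ne', Real.log_mul he.ne' hf.ne', Real.log_exp, Real.log_pow,
    Real.log_prod (fun i _ => (hgz _).ne')] at h6
  have h7 : ∑ k, Real.log ‖g k z‖ = Real.log ‖g j z‖ + ∑ i, Real.log ‖g (j.succAbove i) z‖ :=
    Fin.sum_univ_succAbove _ j
  rw [hj, h7]
  nlinarith

/-- **Cartan's second main theorem** (one linear relation, common zeros allowed). -/
theorem cartan {m : ℕ} (g : Fin (m + 1) → ℂ → ℂ) (hg : ∀ k, Differentiable ℂ (g k))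
    (hne : ∀ k, ∃ z, g k z ≠ 0) (hsum : ∀ z, ∑ k, g k z = 0)
    (hli : LinearIndependent ℂ (fun i : Fin m => g i.succ)) :
    ∃ C : ℝ, ∀ r B : ℝ, 1 ≤ r → 1 ≤ B →
      (∀ k, ∀ z ∈ sphere (0 : ℂ) r, AnalyticAt ℂ (fun z => g k z / g 0 z) z → ∀ i : ℕ,
        ‖iteratedDeriv i (fun z => g k z / g 0 z) z‖ ≤
        Real.exp 1 * i.factorial * B ^ i * ‖g k z / g 0 z‖) →
      TC g r ≤ Function.locallyFinsuppWithin.logCounting
        (∑ k, Dv (g k) - Dv (Wr (fun i => g (Fin.succ i))) - minDv (fun k => Dv (g k))) r +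
        C + m ^ 2 * Real.log B := by
  have hWd : Differentiable ℂ (Wr (fun i => g (Fin.succ i))) := Wr_differentiable fun j => hg _
  have hWne := exists_Wr_ne_zero (fun i => g (Fin.succ i)) (fun j => hg _) hli
  refine ⟨∑ k, Real.log ‖meromorphicTrailingCoeffAt (g k) 0‖ -
    Real.log ‖meromorphicTrailingCoeffAt (Wr (fun i => g (Fin.succ i))) 0‖ +
    (Real.log m.factorial + m * (1 + Real.log m.factorial)), ?_⟩
  intro r B hr hB hG
  have hr0 : 0 < r := by linarith
  have hkI : ∀ k, CircleIntegrable (fun z => Real.log ‖g k z‖) 0 r := fun k =>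
    log_integrable (mero_of_diff (hg k)) r
  have hsI : CircleIntegrable (fun z => ∑ k, Real.log ‖g k z‖) 0 r := by
    have := CircleIntegrable.sum Finset.univ (f := fun k z => Real.log ‖g k z‖)
      (c := 0) (R := r) (fun k _ => hkI k)
    convert! this using 1
    ext z
    simp
  have hWI := log_integrable (mero_of_diff hWd) r
  have h1 : circleAverage (fun z => Real.log ‖fun k => g k z‖) 0 r ≤
      circleAverage (fun z => (∑ k, Real.log ‖g k z‖ -
        Real.log ‖Wr (fun i => g (Fin.succ i)) z‖) +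
        (Real.log m.factorial + m * (1 + Real.log m.factorial) + m ^ 2 * Real.log B)) 0 r := by
    apply circleAverage_mono_codiscrete hr0 (vec_integrable hg r)
      ((hsI.sub hWI).add (circleIntegrable_const _ _ _))
    have h2 : ∀ᶠ z in codiscreteWithin (sphere (0 : ℂ) r), ∀ k, g k z ≠ 0 :=
      Filter.eventually_all.mpr fun k => nonzero_codiscrete (hg k) (hne k) r
    filter_upwards [h2, nonzero_codiscrete hWd hWne r, self_mem_codiscreteWithin _] with z hz hWz hzs
    exact pointwise hg hsum hz hWz hB (fun k => hG k z hzs)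
  have hsWI : CircleIntegrable (fun z => ∑ k, Real.log ‖g k z‖ -
        Real.log ‖Wr (fun i => g (Fin.succ i)) z‖) 0 r := hsI.sub hWI
  rw [circleAverage_fun_add hsWI (circleIntegrable_const _ _ _), circleAverage_const,
    circleAverage_fun_sub hsI hWI, circleAverage_fun_sum (fun k _ => hkI k)] at h1
  have h3 : ∑ k, circleAverage (fun z => Real.log ‖g k z‖) 0 r =
      Function.locallyFinsuppWithin.logCounting (∑ k, Dv (g k)) r +
        ∑ k, Real.log ‖meromorphicTrailingCoeffAt (g k) 0‖ := by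
    rw [map_sum, Finset.sum_apply, ← Finset.sum_add_distrib]
    exact Finset.sum_congr rfl fun k _ => jensen (mero_of_diff (hg k)) hr
  rw [h3, jensen (mero_of_diff hWd) hr] at h1
  rw [TC, map_sub, map_sub, Pi.sub_apply, Pi.sub_apply]
  linarith

/-- the divisor inequality: truncation -/
lemma divisor_le {m : ℕ} (hm : 1 ≤ m) (g : Fin (m + 1) → ℂ → ℂ) (hg : ∀ k, Differentiable ℂ (g k))
    (hne : ∀ k, ∃ z, g k z ≠ 0) (hsum : ∀ z, ∑ k, g k z = 0)
    (hli : LinearIndependent ℂ (fun i : Fin m => g i.succ)) (a : ℂ) :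
    (∑ k, Dv (g k) - Dv (Wr (fun i => g (Fin.succ i))) - minDv (fun k => Dv (g k))) a ≤
      ∑ k, min (Dv (g k) a - minDv (fun k => Dv (g k)) a) ((m : ℤ) - 1) := by
  have hWd : Differentiable ℂ (Wr (fun i => g (Fin.succ i))) := Wr_differentiable fun j => hg _
  have hWne := exists_Wr_ne_zero (fun i => g (Fin.succ i)) (fun j => hg _) hli
  set o : Fin (m + 1) → ℕ := fun k => (analyticOrderAt (g k) a).toNat with ho
  have ho1 : ∀ k, analyticOrderAt (g k) a = o k := fun k =>
    (ENat.natCast_toNat (order_ne_top (hg k) (hne k) a)).symm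
  have hD : ∀ k, Dv (g k) a = (o k : ℤ) := fun k => Dv_apply (hg k) a
  obtain ⟨k0, hk0⟩ := exists_minDv (fun k => Dv (g k)) a
  have hc : minDv (fun k => Dv (g k)) a = (o k0 : ℤ) := by rw [hk0, hD]
  have hcle : ∀ k, o k0 ≤ o k := by
    intro k
    have := minDv_le (fun k => Dv (g k)) k a
    rw [hc, hD] at this
    exact_mod_cast this
  have h1 := order_Wr g a (fun k => (hg k).analyticAt a) (Filter.Eventually.of_forall hsum) o ho1
    (o k0) hcle ⟨k0, rfl⟩
  have h2 := ENat.natCast_toNat (order_ne_top hWd hWne a)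
  rw [← h2] at h1
  have h3 : m * o k0 + ∑ k, (o k - o k0 - (m - 1)) ≤
      (analyticOrderAt (Wr (fun i => g (Fin.succ i))) a).toNat := by exact_mod_cast h1
  have h4 : Dv (Wr (fun i => g (Fin.succ i))) a =
      ((analyticOrderAt (Wr (fun i => g (Fin.succ i))) a).toNat : ℤ) := Dv_apply hWd a
  have h5 : (m : ℤ) * o k0 + ∑ k, ((o k - o k0 - (m - 1) : ℕ) : ℤ) ≤
      Dv (Wr (fun i => g (Fin.succ i))) a := by
    rw [h4]; exact_mod_cast h3
  rw [locallyFinsuppWithin.coe_sub, locallyFinsuppWithin.coe_sub, Pi.sub_apply, Pi.sub_apply,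
    locallyFinsuppWithin.coe_sum, Finset.sum_apply, hc]
  simp_rw [hD]
  have h6 : ∀ k, min ((o k : ℤ) - o k0) ((m : ℤ) - 1) =
      (o k : ℤ) - o k0 - ((o k - o k0 - (m - 1) : ℕ) : ℤ) := by
    intro k
    have := hcle k
    omega
  simp_rw [h6]
  rw [Finset.sum_sub_distrib, Finset.sum_sub_distrib, Finset.sum_const, Finset.card_univ,
    Fintype.card_fin]
  rw [nsmul_eq_mul]
  push_cast
  linarith

/-- Cartan's theorem in the form used below. -/
theorem cartan' {m : ℕ} (hm : 1 ≤ m) (g : Fin (m + 1) → ℂ → ℂ) (hg : ∀ k, Differentiable ℂ (g k))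
    (hne : ∀ k, ∃ z, g k z ≠ 0) (hsum : ∀ z, ∑ k, g k z = 0)
    (hli : LinearIndependent ℂ (fun i : Fin m => g i.succ)) (q : ℕ) (E : locallyFinsupp ℂ ℤ)
    (hE : ∀ a, (q : ℤ) * ∑ k, min (Dv (g k) a - minDv (fun k => Dv (g k)) a) ((m : ℤ) - 1) ≤ E a) :
    ∃ C : ℝ, ∀ r B : ℝ, 1 ≤ r → 1 ≤ B →
      (∀ k, ∀ z ∈ sphere (0 : ℂ) r, AnalyticAt ℂ (fun z => g k z / g 0 z) z → ∀ i : ℕ,
        ‖iteratedDeriv i (fun z => g k z / g 0 z) z‖ ≤
        Real.exp 1 * i.factorial * B ^ i * ‖g k z / g 0 z‖) →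
      q * TC g r ≤ Function.locallyFinsuppWithin.logCounting E r +
        q * (C + m ^ 2 * Real.log B) := by
  obtain ⟨C, hC⟩ := cartan g hg hne hsum hli
  refine ⟨C, fun r B hr hB hG => ?_⟩
  have h1 := hC r B hr hB hG
  set F := ∑ k, Dv (g k) - Dv (Wr (fun i => g (Fin.succ i))) - minDv (fun k => Dv (g k)) with hF
  have h2 : Function.locallyFinsuppWithin.logCounting (q • F) r ≤
      Function.locallyFinsuppWithin.logCounting E r := by
    apply Function.locallyFinsuppWithin.logCounting_le _ hr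
    intro a
    refine le_trans ?_ (hE a)
    rw [locallyFinsuppWithin.coe_nsmul, Pi.smul_apply, nsmul_eq_mul]
    exact mul_le_mul_of_nonneg_left (divisor_le hm g hg hne hsum hli a) (Nat.cast_nonneg q)
  rw [map_nsmul, Pi.smul_apply, nsmul_eq_mul] at h2
  have hq : (0 : ℝ) ≤ q := Nat.cast_nonneg q
  nlinarith [mul_le_mul_of_nonneg_left h1 hq]

end Pool.Agent.GGL
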