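import Pool.Agent.Lib_MP_b9fedf_ag.Green

/-! Piece C0: Cartan's theorem for a circuit of a finite family. -/

set_option autoImplicit false

namespace Pool.Agent.GGL
open Filter Metric Real Set Function MeromorphicOn ValueDistribution

lemma circ_char_const (a : ℂ) (r : ℝ) : characteristic (fun _ : ℂ => a) ⊤ r ≤ Real.posLog ‖a‖ := by
  rw [characteristic, Pi.add_apply, ValueDistribution.proximity_top,
    ValueDistribution.logCounting_top]
  have h1 : circleAverage (fun _ : ℂ => Real.posLog ‖a‖) 0 r = Real.posLog ‖a‖ :=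
    circleAverage_const _ _ _
  have h2 : MeromorphicOn.divisor (fun _ : ℂ => a) univ = 0 := by
    exact divisor_const a
  rw [h2, h1]
  simp

lemma circ_char_const_mul {f : ℂ → ℂ} (hf : Meromorphic f) (hf0 : ∀ z, meromorphicOrderAt f z ≠ ⊤)
    {a : ℂ} (ha : a ≠ 0) {r : ℝ} (hr : 1 ≤ r) :
    characteristic (fun z => a * f z) ⊤ r ≤ characteristic f ⊤ r + Real.posLog ‖a‖ := by
  have h1 := characteristic_mul_top_le (f₁ := fun _ => a) (f₂ := f) hr
    (fun z => MeromorphicAt.const a z) (fun z => by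
      rw [meromorphicOrderAt_const, if_neg ha]; exact WithTop.zero_ne_top) hf hf0
  have h2 : (fun _ => a) * f = fun z => a * f z := rfl
  rw [h2, Pi.add_apply] at h1
  have h3 := circ_char_const a r
  linarith

/-- PIECE C0 (Circuit.lean, imports Green).  Cartan's theorem for a circuit of a finite family. -/
theorem circuit {ι : Type} [Fintype ι] [DecidableEq ι] (g : ι → ℂ → ℂ)
    (hg : ∀ k, Differentiable ℂ (g k)) (hne : ∀ k, ∃ z, g k z ≠ 0)
    (i : ι) (t : Finset ι) (hit : i ∉ t) (c : ι → ℂ) (hc : ∀ j ∈ t, c j ≠ 0)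
    (hsum : ∀ z, g i z = ∑ j ∈ t, c j * g j z)
    (hli : ∀ a : ι → ℂ, (∀ z, ∑ j ∈ t, a j * g j z = 0) → ∀ j ∈ t, a j = 0)
    (E : locallyFinsupp ℂ ℤ)
    (hE : ∀ a, ∑ k, min (Dv (g k) a) (Fintype.card ι : ℤ) ≤ E a) :
    ∃ C : ℝ, ∀ r B : ℝ, 1 ≤ r → 1 ≤ B →
      (∀ k l, ∀ z ∈ sphere (0 : ℂ) r, AnalyticAt ℂ (fun z => g k z / g l z) z → ∀ n : ℕ,
        ‖iteratedDeriv n (fun z => g k z / g l z) z‖ ≤
          Real.exp 1 * n.factorial * B ^ n * ‖g k z / g l z‖) →
      ∀ j ∈ t, characteristic (fun z => g i z / g j z) ⊤ r ≤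
        Function.locallyFinsuppWithin.logCounting E r + C +
          (Fintype.card ι : ℝ) ^ 2 * Real.log B := by
  have htne : t.Nonempty := by
    rw [Finset.nonempty_iff_ne_empty]
    rintro rfl
    obtain ⟨z, hz⟩ := hne i
    exact hz (by rw [hsum z]; simp)
  set m := t.card with hm
  have hm1 : 1 ≤ m := Finset.card_pos.2 htne
  have hmc : m + 1 ≤ Fintype.card ι := by
    rw [hm, ← Finset.card_insert_of_notMem hit]
    exact Finset.card_le_univ _
  let e : Fin m ≃ {x // x ∈ t} := t.equivFin.symm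
  let G : Fin (m + 1) → ℂ → ℂ := Fin.cons (g i) (fun s z => -(c (e s)) * g (e s) z)
  have hG0 : G 0 = g i := rfl
  have hGs : ∀ s : Fin m, G s.succ = fun z => -(c (e s)) * g (e s) z := fun s => rfl
  have hcs : ∀ s : Fin m, -(c (e s)) ≠ 0 := fun s => neg_ne_zero.2 (hc _ (e s).2)
  have hGd : ∀ k, Differentiable ℂ (G k) := by
    intro k
    refine Fin.cases (hg i) (fun s => ?_) k
    rw [hGs]
    exact (hg _).const_mul _
  have hGne : ∀ k, ∃ z, G k z ≠ 0 := by
    intro k
    refine Fin.cases (hne i) (fun s => ?_) k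
    obtain ⟨z, hz⟩ := hne (e s)
    exact ⟨z, mul_ne_zero (hcs s) hz⟩
  have hsumt : ∀ F : ι → ℂ, ∑ s : Fin m, F (e s) = ∑ j ∈ t, F j := by
    intro F
    rw [← Finset.sum_coe_sort t F]
    exact Fintype.sum_equiv e _ _ (fun s => rfl)
  have hGsum : ∀ z, ∑ k, G k z = 0 := by
    intro z
    rw [Fin.sum_univ_succ, hG0, hsum z]
    have h1 : ∑ s : Fin m, G s.succ z = ∑ j ∈ t, -(c j) * g j z :=
      hsumt (fun j => -(c j) * g j z)
    rw [h1, ← Finset.sum_add_distrib]
    apply Finset.sum_eq_zero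
    intro j _
    ring
  have hGli : LinearIndependent ℂ (fun s : Fin m => G s.succ) := by
    rw [Fintype.linearIndependent_iff]
    intro a ha s
    have h1 := hli (fun j => if h : j ∈ t then a (e.symm ⟨j, h⟩) * -(c j) else 0) (by
      intro z
      rw [← hsumt (fun j => (if h : j ∈ t then a (e.symm ⟨j, h⟩) * -(c j) else 0) * g j z)]
      have h2 := congrFun ha z
      rw [Finset.sum_apply] at h2
      rw [Pi.zero_apply] at h2
      refine Eq.trans (Finset.sum_congr rfl fun s _ => ?_) h2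
      rw [dif_pos (e s).2]
      have : e.symm ⟨(e s).1, (e s).2⟩ = s := e.symm_apply_apply s
      rw [this, hGs, Pi.smul_apply, smul_eq_mul]
      ring) (e s) (e s).2
    rw [dif_pos (e s).2] at h1
    have : e.symm ⟨(e s).1, (e s).2⟩ = s := e.symm_apply_apply s
    rw [this] at h1
    exact (mul_eq_zero.1 h1).resolve_right (hcs s)
  have hDnn : ∀ k a, 0 ≤ Dv (g k) a := fun k a => Dv_nonneg (hg k) a
  have hGE : ∀ a, ((1 : ℕ) : ℤ) * ∑ k, min (Dv (G k) a - minDv (fun k => Dv (G k)) a) ((m : ℤ) - 1)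
      ≤ E a := by
    intro a
    refine le_trans ?_ (hE a)
    rw [Nat.cast_one, one_mul]
    have hμ : 0 ≤ minDv (fun k => Dv (G k)) a := by
      obtain ⟨k, hk⟩ := exists_minDv (fun k => Dv (G k)) a
      rw [hk]
      exact Dv_nonneg (hGd k) a
    have hterm : ∀ k, min (Dv (G k) a - minDv (fun k => Dv (G k)) a) ((m : ℤ) - 1) ≤
        min (Dv (G k) a) (Fintype.card ι : ℤ) := by
      intro k
      have : (m : ℤ) + 1 ≤ Fintype.card ι := by exact_mod_cast hmc
      apply min_le_min <;> omega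
    refine (Finset.sum_le_sum fun k _ => hterm k).trans ?_
    rw [Fin.sum_univ_succ, hG0]
    have h1 : ∑ s : Fin m, min (Dv (G s.succ) a) (Fintype.card ι : ℤ) =
        ∑ j ∈ t, min (Dv (g j) a) (Fintype.card ι : ℤ) := by
      rw [← Finset.sum_coe_sort t (fun j => min (Dv (g j) a) (Fintype.card ι : ℤ))]
      refine Fintype.sum_equiv e _ _ (fun s => ?_)
      rw [hGs, Dv_const_mul (hg _) (hcs s)]
    rw [h1, ← Finset.sum_insert hit (f := fun j => min (Dv (g j) a) (Fintype.card ι : ℤ))]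
    refine Finset.sum_le_sum_of_subset_of_nonneg (Finset.subset_univ _) fun k _ _ => ?_
    exact le_min (hDnn k a) (by positivity)
  obtain ⟨C, hC⟩ := cartan' hm1 G hGd hGne hGsum hGli 1 E hGE
  refine ⟨|C| + ∑ s : Fin m, (|Real.log ‖meromorphicTrailingCoeffAt (G s.succ) 0‖| +
    Real.posLog ‖-(c (e s))‖), ?_⟩
  intro r B hr hB hder j hj
  have hTC := hC r B hr hB (by
    intro k
    refine Fin.cases ?_ (fun s => ?_) k
    · intro z hz han n
      exact hder i i z hz han n
    · intro z hz han n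
      have h1 : (fun z => G s.succ z / G 0 z) = fun z => -(c (e s)) * (g (e s) z / g i z) := by
        ext z
        rw [hGs, hG0, mul_div_assoc]
      rw [h1] at han
      have h2 : AnalyticAt ℂ (fun z => g (e s) z / g i z) z := by
        have h3 : AnalyticAt ℂ
            (fun z => (-(c (e s)))⁻¹ * (-(c (e s)) * (g (e s) z / g i z))) z :=
          analyticAt_const.mul han
        refine h3.congr (Eventually.of_forall fun w => ?_)
        beta_reduce
        rw [← mul_assoc, inv_mul_cancel₀ (hcs s), one_mul]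
      have h4 := hder (e s) i z hz h2 n
      have h5 : G s.succ z / G 0 z = -(c (e s)) * (g (e s) z / g i z) := congrFun h1 z
      rw [h5, h1, iteratedDeriv_const_mul_field, norm_mul, norm_mul]
      calc ‖-(c (e s))‖ * ‖iteratedDeriv n (fun z => g (e s) z / g i z) z‖
          ≤ ‖-(c (e s))‖ * (Real.exp 1 * n.factorial * B ^ n * ‖g (e s) z / g i z‖) :=
            mul_le_mul_of_nonneg_left h4 (norm_nonneg _)
        _ = _ := by ring)
  rw [Nat.cast_one, one_mul, one_mul] at hTC
  obtain ⟨s, hs⟩ := e.surjective ⟨j, hj⟩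
  have hsj : ((e s : {x // x ∈ t}) : ι) = j := by rw [hs]
  have hch := characteristic_div_le_TC hGd hGne hr 0 s.succ
  have hquot : (fun z => g i z / g j z) = fun z => -(c (e s)) * (G 0 z / G s.succ z) := by
    ext z
    rw [hGs, hG0, hsj]
    have : -(c j) ≠ 0 := hsj ▸ hcs s
    rw [← mul_div_assoc, mul_div_mul_left _ _ this]
  have hmero : Meromorphic (fun z => G 0 z / G s.succ z) := div_mero (hGd _) (hGd _)
  have hcm := circ_char_const_mul hmero
    (div_order_ne_top (hGd _) (hGd _) (hGne _) (hGne _)) (hcs s) hr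
  rw [← hquot] at hcm
  have hlogB : 0 ≤ Real.log B := Real.log_nonneg hB
  have hsq : (m : ℝ) ^ 2 * Real.log B ≤ (Fintype.card ι : ℝ) ^ 2 * Real.log B := by
    apply mul_le_mul_of_nonneg_right _ hlogB
    have h8 : (m : ℝ) ≤ Fintype.card ι := Nat.cast_le.2 (by omega)
    exact pow_le_pow_left₀ (Nat.cast_nonneg m) h8 2
  have hsingle := Finset.single_le_sum
    (f := fun s : Fin m => |Real.log ‖meromorphicTrailingCoeffAt (G s.succ) 0‖| +
      Real.posLog ‖-(c (e s))‖)
    (fun s _ => add_nonneg (abs_nonneg _) Real.posLog_nonneg) (Finset.mem_univ s)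
  have h6 := neg_abs_le (Real.log ‖meromorphicTrailingCoeffAt (G s.succ) 0‖)
  have h7 := le_abs_self C
  beta_reduce at hsingle
  linarith

end Pool.Agent.GGL
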