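import Mathlib

/-! Piece B of the Green-Griffiths-Lang blueprint: a Bertini type generic choice of coefficients,
by the Sard lemma `addHaar_image_eq_zero_of_det_fderivWithin_eq_zero`. -/

set_option autoImplicit false

namespace Pool.Agent.GGL

open MeasureTheory

section Coef

variable {ι κ : Type} [Fintype ι] [DecidableEq ι] [Fintype κ] [DecidableEq κ]

/-- the coordinates of `x` on the range of `e` -/
def coefZ (e : ι ↪ κ) (x : κ → ℂ) : ι → ℂ := fun i => x (e i)

/-- the known part of the linear combination -/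
noncomputable def coefR (G0 : (ι → ℂ) → (ι → ℂ)) (V : κ → (ι → ℂ) → (ι → ℂ)) (e : ι ↪ κ)
    (x : κ → ℂ) : ι → ℂ :=
  G0 (coefZ e x) + ∑ m ∈ (Finset.univ.map e)ᶜ, x m • V m (coefZ e x)

/-- the matrix with columns `V (e j) z` -/
noncomputable def coefA (V : κ → (ι → ℂ) → (ι → ℂ)) (e : ι ↪ κ) (z : ι → ℂ) : Matrix ι ι ℂ :=
  Matrix.of fun i j => V (e j) z i

/-- Cramer's solution -/
noncomputable def coefF (G0 : (ι → ℂ) → (ι → ℂ)) (V : κ → (ι → ℂ) → (ι → ℂ)) (e : ι ↪ κ)
    (x : κ → ℂ) : κ → ℂ :=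
  Function.extend e (fun i => -(((coefA V e (coefZ e x)).det)⁻¹ *
    ((coefA V e (coefZ e x)).updateCol i (coefR G0 V e x)).det)) x

theorem coef_differentiableAt_prod {E α : Type*} [NormedAddCommGroup E] [NormedSpace ℝ E]
    [DecidableEq α] (s : Finset α)
    (f : α → E → ℂ) (x : E) (h : ∀ i ∈ s, DifferentiableAt ℝ (f i) x) :
    DifferentiableAt ℝ (fun y => ∏ i ∈ s, f i y) x :=
  (HasFDerivAt.finsetProd fun i hi => (h i hi).hasFDerivAt).differentiableAt

theorem coef_differentiableAt_det {E : Type*} [NormedAddCommGroup E] [NormedSpace ℝ E]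
    (M : E → Matrix ι ι ℂ) (x : E) (h : ∀ i j, DifferentiableAt ℝ (fun y => M y i j) x) :
    DifferentiableAt ℝ (fun y => (M y).det) x := by
  simp only [Matrix.det_apply']
  refine DifferentiableAt.fun_sum fun σ _ => ?_
  refine (differentiableAt_const _).mul ?_
  exact coef_differentiableAt_prod _ _ _ (fun i _ => h _ _)

theorem coefZ_differentiable (e : ι ↪ κ) : Differentiable ℝ (coefZ e) := by
  unfold coefZ
  fun_prop

theorem coefV_differentiable (V : κ → (ι → ℂ) → (ι → ℂ)) (hV : ∀ m, ContDiff ℂ 1 (V m))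
    (e : ι ↪ κ) (m : κ) : Differentiable ℝ (fun x => V m (coefZ e x)) := by
  have h1 : Differentiable ℝ (V m) :=
    ((hV m).differentiable one_ne_zero).restrictScalars ℝ
  exact h1.comp (coefZ_differentiable e)

theorem coefF_differentiableAt (G0 : (ι → ℂ) → (ι → ℂ)) (V : κ → (ι → ℂ) → (ι → ℂ))
    (h0 : ContDiff ℂ 1 G0) (hV : ∀ m, ContDiff ℂ 1 (V m)) (e : ι ↪ κ) (x : κ → ℂ)
    (hx : (coefA V e (coefZ e x)).det ≠ 0) : DifferentiableAt ℝ (coefF G0 V e) x := by
  have hA : ∀ i j, DifferentiableAt ℝ (fun y => coefA V e (coefZ e y) i j) x := by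
    intro i j
    have := (differentiable_pi.1 (coefV_differentiable V hV e (e j)) i) x
    exact this
  have hR : ∀ i, DifferentiableAt ℝ (fun y => coefR G0 V e y i) x := by
    intro i
    have hG : Differentiable ℝ (fun x => G0 (coefZ e x)) :=
      ((h0.differentiable one_ne_zero).restrictScalars ℝ).comp (coefZ_differentiable e)
    have hG' := (differentiable_pi.1 hG i) x
    have : (fun y => coefR G0 V e y i) = fun y => G0 (coefZ e y) i +
        ∑ m ∈ (Finset.univ.map e)ᶜ, y m * V m (coefZ e y) i := by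
      funext y
      simp [coefR, Finset.sum_apply]
    rw [this]
    refine hG'.add (DifferentiableAt.fun_sum fun m _ => ?_)
    refine DifferentiableAt.mul ?_ ((differentiable_pi.1 (coefV_differentiable V hV e m) i) x)
    fun_prop
  rw [differentiableAt_pi]
  intro m
  by_cases hm : ∃ i, e i = m
  · obtain ⟨i, rfl⟩ := hm
    have : (fun y => coefF G0 V e y (e i)) = fun y => -(((coefA V e (coefZ e y)).det)⁻¹ *
        ((coefA V e (coefZ e y)).updateCol i (coefR G0 V e y)).det) := by
      funext y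
      simp only [coefF]
      rw [e.injective.extend_apply]
    rw [this]
    refine (DifferentiableAt.mul ?_ ?_).neg
    · exact (coef_differentiableAt_det _ _ hA).inv hx
    · refine coef_differentiableAt_det _ _ fun k j => ?_
      by_cases hj : j = i
      · subst hj
        simpa [Matrix.updateCol_apply] using hR k
      · simpa [Matrix.updateCol_apply, hj] using hA k j
  · have : (fun y => coefF G0 V e y m) = fun y => y m := by
      funext y
      simp only [coefF]
      rw [Function.extend_apply' _ _ _ hm]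
    rw [this]
    fun_prop

theorem coefF_invariant (G0 : (ι → ℂ) → (ι → ℂ)) (V : κ → (ι → ℂ) → (ι → ℂ)) (D : ℕ)
    (hom0 : ∀ (c : ℂ) (z : ι → ℂ), G0 (c • z) = c ^ D • G0 z)
    (homV : ∀ (m : κ) (c : ℂ) (z : ι → ℂ), V m (c • z) = c ^ D • V m z)
    (e : ι ↪ κ) (x x' : κ → ℂ) (c : ℂ) (hc : c ≠ 0) (h1 : coefZ e x' = c • coefZ e x)
    (h2 : ∀ m, (¬ ∃ i, e i = m) → x' m = x m) : coefF G0 V e x' = coefF G0 V e x := by
  have hA : coefA V e (coefZ e x') = c ^ D • coefA V e (coefZ e x) := by
    ext i j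
    simp [coefA, h1, homV]
  have hR : coefR G0 V e x' = c ^ D • coefR G0 V e x := by
    simp only [coefR, h1, hom0, smul_add, Finset.smul_sum]
    congr 1
    refine Finset.sum_congr rfl fun m hm => ?_
    rw [homV, h2 m, smul_comm]
    rintro ⟨i, rfl⟩
    simp at hm
  funext m
  by_cases hm : ∃ i, e i = m
  · obtain ⟨i, rfl⟩ := hm
    simp only [coefF]
    rw [e.injective.extend_apply, e.injective.extend_apply, hA, hR]
    have hu : (c ^ D • coefA V e (coefZ e x)).updateCol i (c ^ D • coefR G0 V e x) =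
        c ^ D • ((coefA V e (coefZ e x)).updateCol i (coefR G0 V e x)) := by
      ext k j
      by_cases hj : j = i
      · subst hj
        simp [Matrix.updateCol_apply]
      · simp [Matrix.updateCol_apply, hj]
    rw [hu, Matrix.det_smul, Matrix.det_smul]
    have hcD : (c ^ D) ^ Fintype.card ι ≠ 0 := pow_ne_zero _ (pow_ne_zero _ hc)
    field_simp
  · simp only [coefF]
    rw [Function.extend_apply' _ _ _ hm, Function.extend_apply' _ _ _ hm, h2 m hm]

theorem coefF_fderiv_det (G0 : (ι → ℂ) → (ι → ℂ)) (V : κ → (ι → ℂ) → (ι → ℂ))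
    (h0 : ContDiff ℂ 1 G0) (hV : ∀ m, ContDiff ℂ 1 (V m)) (D : ℕ)
    (hom0 : ∀ (c : ℂ) (z : ι → ℂ), G0 (c • z) = c ^ D • G0 z)
    (homV : ∀ (m : κ) (c : ℂ) (z : ι → ℂ), V m (c • z) = c ^ D • V m z)
    (e : ι ↪ κ) (x : κ → ℂ)
    (hx : (coefA V e (coefZ e x)).det ≠ 0) (hz : coefZ e x ≠ 0) :
    (fderiv ℝ (coefF G0 V e) x).det = 0 := by
  set v : κ → ℂ := Function.extend e (coefZ e x) 0 with hv
  have hv0 : v ≠ 0 := by
    intro h
    apply hz
    funext i
    have := congrFun h (e i)
    rw [hv, e.injective.extend_apply] at this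
    simpa using this
  have hd := (coefF_differentiableAt G0 V h0 hV e x hx).hasFDerivAt
  have hline : HasDerivAt (fun t : ℝ => x + t • v) v 0 := by
    simpa using ((hasDerivAt_id (0 : ℝ)).smul_const v).const_add x
  have hcomp : HasDerivAt (fun t : ℝ => coefF G0 V e (x + t • v))
      (fderiv ℝ (coefF G0 V e) x v) 0 := by
    have hd' : HasFDerivAt (coefF G0 V e) (fderiv ℝ (coefF G0 V e) x) (x + (0 : ℝ) • v) := by
      simpa using hd
    exact hd'.comp_hasDerivAt (0 : ℝ) hline
  have hconst : (fun t : ℝ => coefF G0 V e (x + t • v)) =ᶠ[nhds 0] fun _ => coefF G0 V e x := by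
    have : ∀ᶠ t : ℝ in nhds 0, t ≠ -1 := by
      exact isOpen_ne.mem_nhds (by norm_num)
    filter_upwards [this] with t ht
    have hc : (1 + (t : ℂ)) ≠ 0 := by
      intro h
      apply ht
      have : (t : ℂ) = ((-1 : ℝ) : ℂ) := by
        push_cast
        linear_combination h
      exact_mod_cast this
    refine coefF_invariant G0 V D hom0 homV e x _ (1 + (t : ℂ)) hc ?_ ?_
    · funext i
      simp only [coefZ, Pi.add_apply, Pi.smul_apply, hv]
      rw [e.injective.extend_apply]
      simp only [coefZ, Complex.real_smul, smul_eq_mul]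
      ring
    · intro m hm
      simp only [Pi.add_apply, Pi.smul_apply, hv]
      rw [Function.extend_apply' _ _ _ hm]
      simp
  have hzero : fderiv ℝ (coefF G0 V e) x v = 0 := by
    have h2 : HasDerivAt (fun t : ℝ => coefF G0 V e (x + t • v)) 0 0 :=
      (hasDerivAt_const (0 : ℝ) (coefF G0 V e x)).congr_of_eventuallyEq hconst
    exact hcomp.unique h2
  change LinearMap.det _ = 0
  rw [LinearMap.det_eq_zero_iff_ker_ne_bot]
  intro hbot
  apply hv0
  have : v ∈ LinearMap.ker (fderiv ℝ (coefF G0 V e) x : (κ → ℂ) →ₗ[ℝ] (κ → ℂ)) := by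
    simpa using hzero
  rw [hbot] at this
  simpa using this

theorem exists_embedding_det (V : κ → (ι → ℂ) → (ι → ℂ)) (z : ι → ℂ)
    (hspan : Submodule.span ℂ (Set.range fun m => V m z) = ⊤) :
    ∃ e : ι ↪ κ, (coefA V e z).det ≠ 0 := by
  obtain ⟨κ', a, ha, hsp, hli⟩ := exists_linearIndependent' ℂ (fun m => V m z)
  rw [hspan] at hsp
  let b : Module.Basis κ' ℂ (ι → ℂ) := Module.Basis.mk hli (by rw [hsp])
  let eq : ι ≃ κ' := (Pi.basisFun ℂ ι).indexEquiv b
  refine ⟨⟨fun i => a (eq i), fun i j h => eq.injective (ha h)⟩, ?_⟩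
  have hli' : LinearIndependent ℂ (fun i => V (a (eq i)) z) := hli.comp eq eq.injective
  have hcol : (coefA V ⟨fun i => a (eq i), fun i j h => eq.injective (ha h)⟩ z).col =
      fun i => V (a (eq i)) z := by
    ext i j
    rfl
  rw [← hcol] at hli'
  have := Matrix.linearIndependent_cols_iff_isUnit.1 hli'
  exact ((Matrix.isUnit_iff_isUnit_det _).1 this).ne_zero

theorem exists_generic_coeff 
    (G0 : (ι → ℂ) → (ι → ℂ)) (V : κ → (ι → ℂ) → (ι → ℂ))
    (h0 : ContDiff ℂ 1 G0) (hV : ∀ m, ContDiff ℂ 1 (V m)) (D : ℕ)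
    (hom0 : ∀ (c : ℂ) (z : ι → ℂ), G0 (c • z) = c ^ D • G0 z)
    (homV : ∀ (m : κ) (c : ℂ) (z : ι → ℂ), V m (c • z) = c ^ D • V m z)
    (U : Set (ι → ℂ)) (hU : ∀ c : ℂ, c ≠ 0 → ∀ z ∈ U, c • z ∈ U)
    (hspan : ∀ z ∈ U, z ≠ 0 → Submodule.span ℂ (Set.range fun m => V m z) = ⊤) :
    ∃ b : κ → ℂ, (∀ m, b m ≠ 0) ∧ ∀ z ∈ U, z ≠ 0 → G0 z + ∑ m, b m • V m z ≠ 0 := by
  classical
  letI : MeasurableSpace (κ → ℂ) := borel _
  haveI : BorelSpace (κ → ℂ) := ⟨rfl⟩
  let μ : Measure (κ → ℂ) := Measure.addHaar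
  let s : (ι ↪ κ) → Set (κ → ℂ) := fun e =>
    {x | (coefA V e (coefZ e x)).det ≠ 0 ∧ coefZ e x ≠ 0}
  have hs : ∀ e, μ (coefF G0 V e '' s e) = 0 := by
    intro e
    refine addHaar_image_eq_zero_of_det_fderivWithin_eq_zero μ
      (f' := fun x => fderiv ℝ (coefF G0 V e) x) ?_ ?_
    · intro x hx
      exact (coefF_differentiableAt G0 V h0 hV e x hx.1).hasFDerivAt.hasFDerivWithinAt
    · intro x hx
      exact coefF_fderiv_det G0 V h0 hV D hom0 homV e x hx.1 hx.2
  have hunion : μ (⋃ e, coefF G0 V e '' s e) = 0 := by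
    haveI : Countable (ι ↪ κ) := Finite.to_countable
    exact measure_iUnion_null hs
  let O : Set (κ → ℂ) := {b | ∀ m, b m ≠ 0}
  have hO : IsOpen O := by
    have : O = ⋂ m, {b | b m ≠ 0} := by
      ext b
      simp [O]
    rw [this]
    exact isOpen_iInter_of_finite fun m => isOpen_ne.preimage (continuous_apply m)
  have hOne : O.Nonempty := ⟨fun _ => 1, fun m => one_ne_zero⟩
  have hOpos : 0 < μ O := hO.measure_pos μ hOne
  have hdiff : (O \ ⋃ e, coefF G0 V e '' s e).Nonempty := by
    by_contra hne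
    rw [Set.not_nonempty_iff_eq_empty, Set.diff_eq_empty] at hne
    exact absurd (measure_mono_null hne hunion) hOpos.ne'
  obtain ⟨b, hbO, hb⟩ := hdiff
  refine ⟨b, hbO, ?_⟩
  intro z hzU hz0 hsum
  apply hb
  obtain ⟨e, he⟩ := exists_embedding_det V z (hspan z hzU hz0)
  rw [Set.mem_iUnion]
  refine ⟨e, Function.extend e z b, ?_, ?_⟩
  · have hZ : coefZ e (Function.extend e z b) = z := by
      funext i
      simp only [coefZ]
      rw [e.injective.extend_apply]
    simp only [s, Set.mem_setOf_eq, hZ]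
    exact ⟨he, hz0⟩
  · have hZ : coefZ e (Function.extend e z b) = z := by
      funext i
      simp only [coefZ]
      rw [e.injective.extend_apply]
    have hR : coefR G0 V e (Function.extend e z b) =
        -((coefA V e z).mulVec (fun i => b (e i))) := by
      simp only [coefR, hZ]
      have h1 : ∑ m ∈ (Finset.univ.map e)ᶜ, Function.extend e z b m • V m z =
          ∑ m ∈ (Finset.univ.map e)ᶜ, b m • V m z := by
        refine Finset.sum_congr rfl fun m hm => ?_
        rw [Function.extend_apply']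
        rintro ⟨i, rfl⟩
        simp at hm
      have h2 : ∑ m, b m • V m z = ∑ m ∈ (Finset.univ.map e)ᶜ, b m • V m z +
          ∑ i, b (e i) • V (e i) z := by
        rw [← Finset.sum_compl_add_sum (Finset.univ.map e), Finset.sum_map]
      have h3 : (coefA V e z).mulVec (fun i => b (e i)) = ∑ i, b (e i) • V (e i) z := by
        ext j
        simp [Matrix.mulVec, dotProduct, coefA, Finset.sum_apply, mul_comm]
      rw [h1, h3]
      rw [h2] at hsum
      rw [eq_neg_iff_add_eq_zero, ← hsum, add_assoc]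
    funext m
    by_cases hm : ∃ i, e i = m
    · obtain ⟨i, rfl⟩ := hm
      simp only [coefF]
      rw [e.injective.extend_apply, hZ, hR]
      have hcr : ((coefA V e z).updateCol i (-((coefA V e z).mulVec (fun i => b (e i))))).det =
          -((coefA V e z).det * b (e i)) := by
        have h4 : (coefA V e z).cramer ((coefA V e z).mulVec (fun i => b (e i))) =
            (coefA V e z).det • (fun i => b (e i)) := by
          rw [Matrix.cramer_eq_adjugate_mulVec, Matrix.mulVec_mulVec, Matrix.adjugate_mul,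
            Matrix.smul_mulVec, Matrix.one_mulVec]
        have h5 := congrFun h4 i
        rw [Matrix.cramer_apply] at h5
        have h6 : (coefA V e z).cramer (-((coefA V e z).mulVec (fun i => b (e i)))) i =
            -((coefA V e z).cramer ((coefA V e z).mulVec (fun i => b (e i))) i) := by
          rw [map_neg]
          rfl
        rw [Matrix.cramer_apply, Matrix.cramer_apply] at h6
        rw [h6, h5]
        simp
      rw [hcr]
      field_simp
    · simp only [coefF]
      rw [Function.extend_apply' _ _ _ hm, Function.extend_apply' _ _ _ hm]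

end Coef

end Pool.Agent.GGL
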