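import Mathlib

/-! Growth lemma (Borel) without exceptional sets. -/

set_option autoImplicit false

namespace Pool.Agent.GGL

theorem exists_good_radius (T : ℝ → ℝ) (hmono : MonotoneOn T (Set.Ici 1)) (h1 : ∀ r, 1 ≤ r → 1 ≤ T r)
    (R₀ : ℝ) : ∃ r, R₀ ≤ r ∧ 1 ≤ r ∧ T (r + 2 / T r) ≤ 2 * T r := by
  by_contra hcon
  push Not at hcon
  set r0 : ℝ := max R₀ 1 with hr0
  let s : ℕ → ℝ := fun k => Nat.rec r0 (fun _ x => x + 2 / T x) k
  have hs0 : s 0 = r0 := rfl
  have hs : ∀ k, s (k + 1) = s k + 2 / T (s k) := fun k => rfl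
  have hinv : ∀ k, r0 ≤ s k ∧ (2 : ℝ) ^ k ≤ T (s k) ∧ s k ≤ r0 + 4 - 4 / 2 ^ k := by
    intro k
    induction k with
    | zero =>
      refine ⟨le_refl _, ?_, ?_⟩
      · rw [hs0, pow_zero]; exact h1 _ (le_max_right _ _)
      · rw [hs0]; norm_num
    | succ k ih =>
      obtain ⟨h2, h3, h4⟩ := ih
      have h5 : (1 : ℝ) ≤ s k := (le_max_right _ _).trans h2
      have h6 : 0 < T (s k) := lt_of_lt_of_le one_pos (h1 _ h5)
      have h7 := hcon (s k) ((le_max_left _ _).trans h2) h5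
      have h8 : 0 < (2 : ℝ) ^ k := by positivity
      refine ⟨?_, ?_, ?_⟩
      · rw [hs]; have : 0 < 2 / T (s k) := by positivity
        linarith
      · rw [hs, pow_succ]; linarith
      · rw [hs]
        have h9 : 2 / T (s k) ≤ 2 / 2 ^ k := div_le_div_of_nonneg_left (by norm_num) h8 h3
        have h10 : (4 : ℝ) / 2 ^ (k + 1) = 2 / 2 ^ k := by
          rw [pow_succ]; field_simp; norm_num
        have h11 : (4 : ℝ) / 2 ^ k = 2 * (2 / 2 ^ k) := by ring
        rw [h10]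
        rw [h11] at h4
        linarith
  obtain ⟨k, hk⟩ := pow_unbounded_of_one_lt (T (r0 + 4)) (by norm_num : (1 : ℝ) < 2)
  obtain ⟨h2, h3, h4⟩ := hinv k
  have h5 : (1 : ℝ) ≤ s k := (le_max_right _ _).trans h2
  have h6 : s k ≤ r0 + 4 := by
    have : (0 : ℝ) < 4 / 2 ^ k := by positivity
    linarith
  have h7 := hmono (show s k ∈ Set.Ici (1 : ℝ) from h5)
    (show r0 + 4 ∈ Set.Ici (1 : ℝ) from h5.trans h6) h6
  linarith

end Pool.Agent.GGL
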