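import Pool.Agent.Lib_MP_b9fedf_ag.Poisson

/-! The lemma on the logarithmic derivative for meromorphic functions, on well chosen circles. -/

set_option autoImplicit false

namespace Pool.Agent.GGL
open Filter Metric Real Set Function MeromorphicOn ValueDistribution


lemma sum_single_apply (s : Finset ℂ) (d : ℂ → ℤ) (z : ℂ) :
    (∑ u ∈ s, (locallyFinsuppWithin.single u (d u) : locallyFinsupp ℂ ℤ)) z =
      if z ∈ s then d z else 0 := by
  classical
  rw [locallyFinsuppWithin.coe_sum, Finset.sum_apply]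
  simp only [locallyFinsuppWithin.single_apply]
  rw [Finset.sum_ite_eq s z d]

lemma sum_log_le_logCounting {D : locallyFinsupp ℂ ℤ} (hD : 0 ≤ D) {ρ R : ℝ} (hρ : 1 ≤ ρ)
    (hR : ρ ≤ R) (s : Finset ℂ) (hs : ∀ u ∈ s, ‖u‖ ≤ ρ) :
    (∑ u ∈ s, (D u : ℝ)) * (Real.log R - Real.log ρ) ≤
      Function.locallyFinsuppWithin.logCounting D R := by
  classical
  set D' : locallyFinsupp ℂ ℤ := ∑ u ∈ s, (locallyFinsuppWithin.single u (D u)) with hD'
  have h1 : D' ≤ D := by
    intro z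
    rw [hD', sum_single_apply]
    split_ifs
    · exact le_refl _
    · exact hD z
  refine le_trans ?_ (Function.locallyFinsuppWithin.logCounting_le h1 (hρ.trans hR))
  rw [hD', map_sum, Finset.sum_apply, Finset.sum_mul]
  apply Finset.sum_le_sum
  intro u hu
  rw [Function.locallyFinsuppWithin.logCounting_single_eq_log_sub_const ((hs u hu).trans hR)]
  apply mul_le_mul_of_nonneg_left _ (by exact_mod_cast hD u)
  have h2 : Real.log ‖u‖ ≤ Real.log ρ := by
    rcases eq_or_ne u 0 with h | h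
    · rw [h, norm_zero, Real.log_zero]; exact Real.log_nonneg hρ
    · exact Real.log_le_log (norm_pos_iff.mpr h) (hs u hu)
  linarith

/-- a radius avoiding finitely many radii -/
lemma exists_avoid (A : Finset ℝ) {r δ : ℝ} (hδ : 0 < δ) :
    ∃ r' ∈ Set.Icc r (r + δ), ∀ a ∈ A, δ / (2 * (A.card + 1)) ≤ |a - r'| := by
  classical
  by_contra hcon
  push Not at hcon
  set N : ℕ := A.card + 1 with hN
  have hN0 : (0 : ℝ) < N := by rw [hN]; push_cast; positivity
  set h : ℝ := δ / N with hh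
  have hh0 : 0 < h := by positivity
  -- midpoints
  let p : Fin N → ℝ := fun i => r + ((i : ℕ) + 1 / 2) * h
  have hp : ∀ i, p i ∈ Set.Icc r (r + δ) := by
    intro i
    have h1 : ((i : ℕ) : ℝ) + 1 ≤ N := by exact_mod_cast i.2
    have h2 : N * h = δ := by rw [hh]; field_simp
    constructor
    · simp only [p]; nlinarith [Nat.cast_nonneg (α := ℝ) (i : ℕ)]
    · simp only [p]; nlinarith [Nat.cast_nonneg (α := ℝ) (i : ℕ)]
  have hc : (2 * ((A.card : ℝ) + 1)) = 2 * N := by rw [hN]; push_cast; ring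
  choose a ha hlt using fun i => hcon (p i) (hp i)
  obtain ⟨i, _, j, _, hij, hija⟩ := Finset.exists_ne_map_eq_of_card_lt_of_maps_to
    (s := (Finset.univ : Finset (Fin N))) (t := A) (by simp [hN]) (f := a)
    (fun i _ => ha i)
  have h3 := hlt i
  have h4 := hlt j
  rw [hija] at h3
  rw [hc] at h3 h4
  have h5 : |p i - p j| < h := by
    have : p i - p j = (a j - p j) - (a j - p i) := by ring
    rw [this]
    refine lt_of_le_of_lt (abs_sub _ _) ?_
    have : δ / (2 * N) = h / 2 := by rw [hh]; field_simp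
    rw [this] at h3 h4
    linarith
  have h6 : p i - p j = (((i : ℕ) : ℝ) - (j : ℕ)) * h := by simp only [p]; ring
  rw [h6, abs_mul, abs_of_pos hh0] at h5
  have h7 : |(((i : ℕ) : ℝ) - (j : ℕ))| < 1 := by
    by_contra h8
    push Not at h8
    nlinarith
  apply hij
  apply Fin.ext
  have h8 : |(((i : ℕ) : ℤ) - (j : ℕ))| < 1 := by exact_mod_cast h7
  have h9 := Int.abs_lt_one_iff.mp h8
  omega


lemma exists_fact {f : ℂ → ℂ} (hf : Meromorphic f) (hne : ∀ z, meromorphicOrderAt f z ≠ ⊤)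
    (ρ : ℝ) : ∃ (s : Finset ℂ) (g : ℂ → ℂ),
      (∀ u ∈ s, ‖u‖ ≤ ρ) ∧ (∀ u ∈ s, divisor f univ u ≠ 0) ∧ AnalyticOnNhd ℂ g (closedBall 0 ρ) ∧ (∀ z ∈ closedBall 0 ρ, g z ≠ 0) ∧
      f =ᶠ[codiscreteWithin (closedBall 0 ρ)]
        (fun z => (∏ u ∈ s, (z - u) ^ (divisor f univ u)) * g z) := by
  classical
  have hfU : MeromorphicOn f (closedBall 0 ρ) := fun z _ => hf z
  have hfin := (divisor f (closedBall 0 ρ)).finiteSupport (isCompact_closedBall 0 ρ)
  obtain ⟨g, hg, hg0, hfg⟩ := hfU.extract_zeros_poles (fun u => hne u) hfin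
  refine ⟨hfin.toFinset, g, ?_, ?_, hg, fun z hz => hg0 ⟨z, hz⟩, ?_⟩
  · intro u hu
    have h1 : u ∈ (divisor f (closedBall 0 ρ)).support := by simpa using hu
    have h2 := (divisor f (closedBall 0 ρ)).supportWithinDomain h1
    simpa using h2
  · intro u hu
    have h1 : u ∈ (divisor f (closedBall 0 ρ)).support := by simpa using hu
    have h2 := (divisor f (closedBall 0 ρ)).supportWithinDomain h1
    rw [Function.mem_support, MeromorphicOn.divisor_apply hfU h2] at h1
    rwa [MeromorphicOn.divisor_apply hf.meromorphicOn (mem_univ u)]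
  · refine hfg.trans (Eq.eventuallyEq ?_)
    have h3 := FactorizedRational.finprod_eq_fun (d := divisor f (closedBall 0 ρ)) hfin
    rw [h3]
    ext z
    simp only [Pi.smul_apply', smul_eq_mul]
    congr 1
    rw [finprod_eq_prod_of_mulSupport_subset (s := hfin.toFinset)]
    · apply Finset.prod_congr rfl
      intro u hu
      have h1 : u ∈ (divisor f (closedBall 0 ρ)).support := by simpa using hu
      have h2 := (divisor f (closedBall 0 ρ)).supportWithinDomain h1
      rw [MeromorphicOn.divisor_apply hfU h2, MeromorphicOn.divisor_apply hf.meromorphicOn (mem_univ u)]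
    · intro u hu
      rw [Function.mem_mulSupport] at hu
      rw [Set.Finite.coe_toFinset, Function.mem_support]
      intro h
      apply hu
      rw [h, zpow_zero]


lemma circleAverage_abs_log_sub {ρ : ℝ} (hρ : 1 ≤ ρ) {u : ℂ} (hu : ‖u‖ ≤ ρ) :
    circleAverage (fun z => |Real.log ‖z - u‖|) 0 ρ ≤ Real.log ρ + 2 * Real.log 2 := by
  have hρ0 : 0 < ρ := by linarith
  have hint : CircleIntegrable (fun z => Real.log ‖z - u‖) 0 ρ :=
    circleIntegrable_log_norm_sub_const ρ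
  have h1 : circleAverage (fun z => Real.log ‖z - u‖) 0 ρ = Real.log ρ := by
    apply circleAverage_log_norm_sub_const_of_mem_closedBall
    rw [mem_closedBall_zero_iff, abs_of_pos hρ0]
    exact hu
  have h2 : circleAverage (fun z => |Real.log ‖z - u‖|) 0 ρ ≤
      circleAverage (fun z => 2 * Real.log (2 * ρ) - Real.log ‖z - u‖) 0 ρ := by
    apply circleAverage_mono
    · exact hint.abs
    · exact (circleIntegrable_const _ _ _).sub hint
    · intro z hz
      rw [mem_sphere_zero_iff_norm, abs_of_pos hρ0] at hz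
      have h3 : ‖z - u‖ ≤ 2 * ρ := by
        calc ‖z - u‖ ≤ ‖z‖ + ‖u‖ := norm_sub_le _ _
          _ ≤ 2 * ρ := by linarith
      have h4 : 0 ≤ Real.log (2 * ρ) := Real.log_nonneg (by linarith)
      have h5 : Real.log ‖z - u‖ ≤ Real.log (2 * ρ) := by
        rcases (norm_nonneg (z - u)).eq_or_lt with h | h
        · rw [← h, Real.log_zero]; exact h4
        · exact Real.log_le_log h h3
      rw [abs_le]
      constructor <;> linarith
  refine h2.trans ?_
  rw [circleAverage_fun_sub (circleIntegrable_const _ _ _) hint, circleAverage_const, h1,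
    Real.log_mul (by norm_num) hρ0.ne']
  linarith

lemma circleAverage_abs_log_eq {f : ℂ → ℂ} (hf : Meromorphic f) {ρ : ℝ} :
    circleAverage (fun z => |Real.log ‖f z‖|) 0 ρ = proximity f ⊤ ρ + proximity f⁻¹ ⊤ ρ := by
  rw [proximity_top, proximity_top, ← circleAverage_fun_add]
  · congr 1
    ext z
    rw [Pi.inv_apply, norm_inv]
    rw [Real.posLog_apply, Real.posLog_apply, Real.log_inv]
    rcases le_total 0 (Real.log ‖f z‖) with h | h
    · rw [max_eq_right h, max_eq_left (by linarith)]; simp [abs_of_nonneg h]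
    · rw [max_eq_left h, max_eq_right (by linarith)]; simp [abs_of_nonpos h]
  · exact hf.meromorphicOn.circleIntegrable_posLog_norm
  · exact hf.inv.meromorphicOn.circleIntegrable_posLog_norm

lemma circleAverage_abs_log_le {f : ℂ → ℂ} (hf : Meromorphic f) :
    ∃ C : ℝ, 0 ≤ C ∧ ∀ ρ, 1 ≤ ρ → circleAverage (fun z => |Real.log ‖f z‖|) 0 ρ ≤
      2 * characteristic f ⊤ ρ + C := by
  refine ⟨max |Real.log ‖f 0‖| |Real.log ‖meromorphicTrailingCoeffAt f 0‖|, by positivity, ?_⟩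
  intro ρ hρ
  rw [circleAverage_abs_log_eq hf]
  have h1 := abs_le.mp (characteristic_sub_characteristic_inv_le hf (R := ρ))
  have h2 : proximity f ⊤ ρ ≤ characteristic f ⊤ ρ := by
    rw [characteristic, Pi.add_apply]
    have := logCounting_nonneg (f := f) (e := ⊤) hρ
    linarith
  have h3 : proximity f⁻¹ ⊤ ρ ≤ characteristic f⁻¹ ⊤ ρ := by
    rw [characteristic, Pi.add_apply]
    have := logCounting_nonneg (f := f⁻¹) (e := ⊤) hρ
    linarith
  linarith [h1.1]

lemma count_le {f : ℂ → ℂ} (hf : Meromorphic f) :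
    ∃ C : ℝ, 0 ≤ C ∧ ∀ ρ R, 1 ≤ ρ → ρ ≤ R → ∀ s : Finset ℂ, (∀ u ∈ s, ‖u‖ ≤ ρ) →
      (∑ u ∈ s, |((divisor f univ u : ℤ) : ℝ)|) * (Real.log R - Real.log ρ) ≤
        2 * characteristic f ⊤ R + C := by
  refine ⟨max |Real.log ‖f 0‖| |Real.log ‖meromorphicTrailingCoeffAt f 0‖|, by positivity, ?_⟩
  intro ρ R hρ hR s hs
  have h1 := abs_le.mp (characteristic_sub_characteristic_inv_le hf (R := R))
  have h2 : logCounting f ⊤ R ≤ characteristic f ⊤ R := by
    rw [characteristic, Pi.add_apply]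
    have := proximity_nonneg (f := f) (a := ⊤) R
    simp only [Pi.zero_apply] at this
    linarith
  have h3 : logCounting f⁻¹ ⊤ R ≤ characteristic f⁻¹ ⊤ R := by
    rw [characteristic, Pi.add_apply]
    have := proximity_nonneg (f := f⁻¹) (a := ⊤) R
    simp only [Pi.zero_apply] at this
    linarith
  rw [ValueDistribution.logCounting_inv, ValueDistribution.logCounting_zero] at h3
  rw [ValueDistribution.logCounting_top] at h2
  have h4 := sum_log_le_logCounting (D := (divisor f univ)⁺) (posPart_nonneg _) hρ hR s hs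
  have h5 := sum_log_le_logCounting (D := (divisor f univ)⁻) (negPart_nonneg _) hρ hR s hs
  have h6 : ∑ u ∈ s, |((divisor f univ u : ℤ) : ℝ)| =
      ∑ u ∈ s, (((divisor f univ)⁺ u : ℤ) : ℝ) + ∑ u ∈ s, (((divisor f univ)⁻ u : ℤ) : ℝ) := by
    rw [← Finset.sum_add_distrib]
    apply Finset.sum_congr rfl
    intro u _
    rw [locallyFinsuppWithin.posPart_apply, locallyFinsuppWithin.negPart_apply]
    rw [← Int.cast_abs, ← Int.cast_add]
    congr 1
    exact (posPart_add_negPart _).symm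
  rw [h6, add_mul]
  linarith [h1.1]


lemma circleAverage_abs_log_g {f g : ℂ → ℂ} (hf : Meromorphic f) {ρ : ℝ} (hρ : 1 ≤ ρ)
    {s : Finset ℂ} (hs : ∀ u ∈ s, ‖u‖ ≤ ρ) {D : ℂ → ℤ}
    (hg0 : ∀ z ∈ closedBall 0 ρ, g z ≠ 0)
    (hfg : f =ᶠ[codiscreteWithin (closedBall 0 ρ)]
        (fun z => (∏ u ∈ s, (z - u) ^ (D u)) * g z)) :
    circleAverage (fun z => |Real.log ‖g z‖|) 0 ρ ≤
      circleAverage (fun z => |Real.log ‖f z‖|) 0 ρ +
        (∑ u ∈ s, |((D u : ℤ) : ℝ)|) * (Real.log ρ + 2 * Real.log 2) := by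
  classical
  have hρ0 : 0 < ρ := by linarith
  have habs : |ρ| = ρ := abs_of_pos hρ0
  -- replace `log ‖g‖`
  have h1 : (fun z => |Real.log ‖g z‖|) =ᶠ[codiscreteWithin (sphere (0 : ℂ) |ρ|)]
      (fun z => |Real.log ‖f z‖ - ∑ u ∈ s, ((D u : ℤ) : ℝ) * Real.log ‖z - u‖|) := by
    rw [habs]
    have h2 := hfg.filter_mono (codiscreteWithin_mono (sphere_subset_closedBall (x := (0 : ℂ))
      (ε := ρ)))
    have h3 : ((s : Set ℂ))ᶜ ∈ codiscreteWithin (sphere (0 : ℂ) ρ) :=
      compl_finite_mem_codiscreteWithin s.finite_toSet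
    filter_upwards [h2, h3, self_mem_codiscreteWithin (sphere (0 : ℂ) ρ)] with z hz hzs hzm
    rw [hz]
    have hgz : g z ≠ 0 := hg0 z (sphere_subset_closedBall hzm)
    have hprod : ∀ u ∈ s, ‖(z - u) ^ (D u)‖ ≠ 0 := by
      intro u hu
      rw [norm_ne_zero_iff]
      apply zpow_ne_zero
      intro h
      apply hzs
      rw [sub_eq_zero.mp h]
      exact_mod_cast hu
    rw [norm_mul, Real.log_mul (by rw [norm_prod]; exact Finset.prod_ne_zero_iff.mpr hprod)
      (norm_ne_zero_iff.mpr hgz), norm_prod, Real.log_prod hprod]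
    congr 1
    have : ∑ u ∈ s, Real.log ‖(z - u) ^ (D u)‖ = ∑ u ∈ s, ((D u : ℤ) : ℝ) * Real.log ‖z - u‖ := by
      apply Finset.sum_congr rfl
      intro u _
      rw [norm_zpow, Real.log_zpow]
    rw [this]
    ring
  rw [circleAverage_congr_codiscreteWithin h1 hρ0.ne']
  have hfI : CircleIntegrable (fun z => Real.log ‖f z‖) 0 ρ :=
    hf.meromorphicOn.circleIntegrable_log_norm
  have huI : ∀ u, CircleIntegrable (fun z => Real.log ‖z - u‖) 0 ρ := fun u =>
    circleIntegrable_log_norm_sub_const ρ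
  have hsI : CircleIntegrable (fun z => ∑ u ∈ s, ((D u : ℤ) : ℝ) * Real.log ‖z - u‖) 0 ρ := by
    have := CircleIntegrable.sum s (f := fun u z => ((D u : ℤ) : ℝ) * Real.log ‖z - u‖)
      (c := 0) (R := ρ) (fun u _ => (huI u).const_smul (a := ((D u : ℤ) : ℝ)))
    convert! this using 1
    ext z
    simp
  have haI : CircleIntegrable (fun z => ∑ u ∈ s, |((D u : ℤ) : ℝ)| * |Real.log ‖z - u‖|) 0 ρ := by
    have := CircleIntegrable.sum s (f := fun u z => |((D u : ℤ) : ℝ)| * |Real.log ‖z - u‖|)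
      (c := 0) (R := ρ) (fun u _ => ((huI u).abs).const_smul (a := |((D u : ℤ) : ℝ)|))
    convert! this using 1
    ext z
    simp
  have h4 : circleAverage (fun z => |Real.log ‖f z‖ - ∑ u ∈ s, ((D u : ℤ) : ℝ) *
      Real.log ‖z - u‖|) 0 ρ ≤
      circleAverage (fun z => |Real.log ‖f z‖| + ∑ u ∈ s, |((D u : ℤ) : ℝ)| *
        |Real.log ‖z - u‖|) 0 ρ := by
    apply circleAverage_mono
    · exact (hfI.sub hsI).abs
    · exact hfI.abs.add haI
    · intro z _
      refine (abs_sub _ _).trans ?_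
      apply add_le_add le_rfl
      refine (Finset.abs_sum_le_sum_abs _ _).trans (Finset.sum_le_sum fun u _ => ?_)
      rw [abs_mul]
  refine h4.trans ?_
  have hfA : CircleIntegrable (fun z => |Real.log ‖f z‖|) 0 ρ := hfI.abs
  have huA : ∀ u ∈ s, CircleIntegrable (fun z => |((D u : ℤ) : ℝ)| * |Real.log ‖z - u‖|) 0 ρ :=
    fun u _ => ((huI u).abs).const_smul (a := |((D u : ℤ) : ℝ)|)
  rw [circleAverage_fun_add hfA haI]
  apply add_le_add le_rfl
  rw [circleAverage_fun_sum huA, Finset.sum_mul]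
  apply Finset.sum_le_sum
  intro u hu
  have h5 : circleAverage (fun z => |((D u : ℤ) : ℝ)| * |Real.log ‖z - u‖|) 0 ρ =
      |((D u : ℤ) : ℝ)| * circleAverage (fun z => |Real.log ‖z - u‖|) 0 ρ :=
    circleAverage_fun_smul (a := |((D u : ℤ) : ℝ)|) (f := fun z => |Real.log ‖z - u‖|)
  rw [h5]
  exact mul_le_mul_of_nonneg_left (circleAverage_abs_log_sub hρ (hs u hu)) (abs_nonneg _)

lemma analyticAt_H {g : ℂ → ℂ} {s : Finset ℂ} {D : ℂ → ℤ} {w : ℂ} (hw : w ∉ s)
    (hg : AnalyticAt ℂ g w) : AnalyticAt ℂ (fun z => (∏ u ∈ s, (z - u) ^ (D u)) * g z) w := by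
  apply AnalyticAt.fun_mul _ hg
  apply Finset.analyticAt_fun_prod
  intro u hu
  apply AnalyticAt.fun_zpow (by fun_prop)
  intro h
  exact hw (by rw [sub_eq_zero.mp h]; exact hu)

lemma H_ne_zero {g : ℂ → ℂ} {s : Finset ℂ} {D : ℂ → ℤ} {w : ℂ} (hw : w ∉ s)
    (hg : g w ≠ 0) : (∏ u ∈ s, (w - u) ^ (D u)) * g w ≠ 0 := by
  apply mul_ne_zero _ hg
  rw [Finset.prod_ne_zero_iff]
  intro u hu
  apply zpow_ne_zero
  intro h
  exact hw (by rw [sub_eq_zero.mp h]; exact hu)

lemma norm_logDeriv_H {g : ℂ → ℂ} {s : Finset ℂ} {D : ℂ → ℤ} {w : ℂ} {η : ℝ} (hη : 0 < η)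
    (hw : ∀ u ∈ s, η ≤ ‖w - u‖) (hg : AnalyticAt ℂ g w) (hg0 : g w ≠ 0) :
    ‖logDeriv (fun z => (∏ u ∈ s, (z - u) ^ (D u)) * g z) w‖ ≤
      (∑ u ∈ s, |((D u : ℤ) : ℝ)|) / η + ‖logDeriv g w‖ := by
  have hws : ∀ u ∈ s, w - u ≠ 0 := by
    intro u hu h
    have := hw u hu
    rw [h, norm_zero] at this
    linarith
  have hz : ∀ u ∈ s, (w - u) ^ (D u) ≠ 0 := fun u hu => zpow_ne_zero _ (hws u hu)
  have hd : ∀ u ∈ s, DifferentiableAt ℂ (fun z => (z - u) ^ (D u)) w := fun u hu =>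
    (AnalyticAt.fun_zpow (f := fun z => z - u) (by fun_prop) (hws u hu)).differentiableAt
  rw [logDeriv_mul w (Finset.prod_ne_zero_iff.mpr hz) hg0
    (DifferentiableAt.fun_finsetProd hd) hg.differentiableAt,
    logDeriv_prod (f := fun u z => (z - u) ^ (D u)) hz hd]
  refine (norm_add_le _ _).trans (add_le_add ?_ le_rfl)
  refine (norm_sum_le _ _).trans ?_
  rw [Finset.sum_div]
  apply Finset.sum_le_sum
  intro u hu
  rw [logDeriv_fun_zpow (f := fun z => z - u) (by fun_prop)]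
  have h1 : logDeriv (fun z : ℂ => z - u) w = 1 / (w - u) := by
    rw [logDeriv_apply]
    simp
  rw [h1, norm_mul, norm_div, norm_one, mul_one_div, Complex.norm_intCast]
  exact div_le_div_of_nonneg_left (abs_nonneg _) hη (hw u hu)


lemma eventuallyEq_of_codiscrete {f H : ℂ → ℂ} {ρ : ℝ} {z : ℂ} (hz : ‖z‖ < ρ)
    (h : f =ᶠ[codiscreteWithin (closedBall 0 ρ)] H) (hf : AnalyticAt ℂ f z)
    (hH : AnalyticAt ℂ H z) : f =ᶠ[nhds z] H := by
  rw [← hf.continuousAt.eventuallyEq_nhds_iff_eventuallyEq_nhdsNE hH.continuousAt]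
  have h1 := mem_codiscreteWithin_iff_forall_mem_nhdsNE.mp h z
    (mem_closedBall_zero_iff.mpr hz.le)
  have h2 : closedBall (0 : ℂ) ρ ∈ nhdsWithin z {z}ᶜ := by
    apply mem_nhdsWithin_of_mem_nhds
    exact closedBall_mem_nhds_of_mem (mem_ball_zero_iff.mpr hz)
  filter_upwards [h1, h2] with w hw1 hw2
  rcases hw1 with h3 | h3
  · exact h3
  · exact absurd hw2 h3

/-- **Lemma on the logarithmic derivative**, on well chosen circles. -/
theorem ldl {ι : Type} [Fintype ι] (G : ι → ℂ → ℂ) (hG : ∀ k, Meromorphic (G k))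
    (hne : ∀ k z, meromorphicOrderAt (G k) z ≠ ⊤) :
    ∃ C : ℝ, 1 ≤ C ∧ ∀ r δ : ℝ, 1 ≤ r → 0 < δ → δ ≤ 1 → ∃ r' ∈ Set.Icc r (r + δ), ∃ B : ℝ, 1 ≤ B ∧
      B ≤ C * ((1 + ∑ k, characteristic (G k) ⊤ (r + 2 * δ)) * (r + 2) / δ) ^ 4 ∧
      ∀ k, ∀ z ∈ sphere (0 : ℂ) r', AnalyticAt ℂ (G k) z →
        ∀ i : ℕ, ‖iteratedDeriv i (G k) z‖ ≤ Real.exp 1 * i.factorial * B ^ i * ‖G k z‖ := by
  classical
  choose Ca hCa0 hCa using fun k => circleAverage_abs_log_le (hG k)
  choose Cc hCc0 hCc using fun k => count_le (hG k)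
  set K1 : ℝ := ∑ k, 2 * (2 + Cc k) with hK1
  set K2 : ℝ := 2 + ∑ k, Ca k + 2 * K1 with hK2
  have hK10 : 0 ≤ K1 := Finset.sum_nonneg fun k _ => by have := hCc0 k; linarith
  have hsa0 : 0 ≤ ∑ k, Ca k := Finset.sum_nonneg fun k _ => hCa0 k
  have hK20 : 0 ≤ K2 := by rw [hK2]; linarith
  set C : ℝ := 8 * (K1 + 1) + 2 * (4 * K1 * (K1 + 1) + 32 * K2) with hC
  have hC1 : 1 ≤ C := by rw [hC]; linarith [mul_nonneg hK10 hK10]
  refine ⟨C, hC1, ?_⟩
  clear_value C K2 K1
  intro r δ hr hδ0 hδ1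
  set R : ℝ := r + 2 * δ with hR
  set ρ : ℝ := r + 3 / 2 * δ with hρ
  have hρ1 : 1 ≤ ρ := by rw [hρ]; linarith
  have hρR : ρ ≤ R := by rw [hρ, hR]; linarith
  have hR1 : 1 ≤ R := hρ1.trans hρR
  set τ : ℝ := ∑ k, characteristic (G k) ⊤ R with hτ
  have hT0 : ∀ k, 0 ≤ characteristic (G k) ⊤ R := fun k => characteristic_nonneg hR1
  have hTτ : ∀ k, characteristic (G k) ⊤ R ≤ τ := fun k =>
    Finset.single_le_sum (f := fun k => characteristic (G k) ⊤ R) (fun j _ => hT0 j)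
      (Finset.mem_univ k)
  have hτ0 : 0 ≤ τ := Finset.sum_nonneg fun k _ => hT0 k
  set X : ℝ := (1 + τ) * (r + 2) / δ with hX
  have hdiv : 1 ≤ 1 / δ := by rw [le_div_iff₀ hδ0]; linarith
  have hX1 : (1 + τ) * (r + 2) ≤ X := by
    rw [hX, le_div_iff₀ hδ0]
    have : 0 ≤ (1 + τ) * (r + 2) := mul_nonneg (by linarith) (by linarith)
    exact mul_le_of_le_one_right this hδ1
  have hX2 : 1 + τ ≤ X := by
    refine le_trans ?_ hX1
    exact le_mul_of_one_le_right (by linarith) (by linarith)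
  have hX3 : r + 2 ≤ X := by
    refine le_trans ?_ hX1
    exact le_mul_of_one_le_left (by linarith) (by linarith)
  have hX4 : 1 / δ ≤ X := by
    rw [hX, div_le_div_iff_of_pos_right hδ0]
    exact one_le_mul_of_one_le_of_one_le (by linarith) (by linarith)
  have hX5 : (r + 2) / δ ≤ X := by
    rw [hX, div_le_div_iff_of_pos_right hδ0]
    exact le_mul_of_one_le_left (by linarith) (by linarith)
  have hX0 : 1 ≤ X := by linarith
  have hXτ : (1 + τ) * (r + 2) / δ = X := rfl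
  clear_value X τ R ρ
  -- factorisations
  choose s g hs hsne hg hg0 hfg using fun k => exists_fact (hG k) (hne k) ρ
  set n : ι → ℝ := fun k => ∑ u ∈ s k, |((divisor (G k) univ u : ℤ) : ℝ)| with hn
  have hn0 : ∀ k, 0 ≤ n k := fun k => Finset.sum_nonneg fun u _ => abs_nonneg _
  have hnX : ∀ k, n k ≤ 2 * (2 + Cc k) * X := by
    intro k
    have h1 := hCc k ρ R hρ1 hρR (s k) (hs k)
    have h2 : δ / (2 * (r + 2)) ≤ Real.log R - Real.log ρ := by
      have h3 : Real.log ρ - Real.log R ≤ ρ / R - 1 := by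
        rw [← Real.log_div (by positivity) (by positivity)]
        exact Real.log_le_sub_one_of_pos (by positivity)
      have h4 : ρ / R - 1 = - ((δ / 2) / R) := by
        rw [hρ, hR]; field_simp; ring
      have h5 : δ / (2 * (r + 2)) ≤ (δ / 2) / R := by
        rw [div_div, div_le_div_iff_of_pos_left hδ0 (by positivity) (by positivity)]
        rw [hR]; linarith
      linarith
    have h6 : n k * (δ / (2 * (r + 2))) ≤ (2 + Cc k) * (1 + τ) := by
      calc n k * (δ / (2 * (r + 2))) ≤ n k * (Real.log R - Real.log ρ) :=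
            mul_le_mul_of_nonneg_left h2 (hn0 k)
        _ ≤ 2 * characteristic (G k) ⊤ R + Cc k := h1
        _ ≤ 2 * τ + Cc k := by linarith [hTτ k]
        _ ≤ (2 + Cc k) * (1 + τ) := by linarith [mul_nonneg (hCc0 k) hτ0]
    have h7 : n k = n k * (δ / (2 * (r + 2))) * (2 * (r + 2) / δ) := by
      field_simp
    rw [h7]
    calc n k * (δ / (2 * (r + 2))) * (2 * (r + 2) / δ) ≤
          (2 + Cc k) * (1 + τ) * (2 * (r + 2) / δ) :=
          mul_le_mul_of_nonneg_right h6 (by positivity)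
      _ = 2 * (2 + Cc k) * X := by rw [hX]; ring
  have hnK : ∑ k, n k ≤ K1 * X := by
    rw [hK1, Finset.sum_mul]
    exact Finset.sum_le_sum fun k _ => hnX k
  have hnk : ∀ k, n k ≤ K1 * X := fun k =>
    (Finset.single_le_sum (f := n) (fun j _ => hn0 j) (Finset.mem_univ k)).trans hnK
  -- choice of the radius
  set A : Finset ℝ := Finset.univ.biUnion (fun k => (s k).image (fun u => ‖u‖)) with hA
  have hAcard : (A.card : ℝ) ≤ K1 * X := by
    refine le_trans ?_ hnK
    have h1 : A.card ≤ ∑ k, (s k).card := by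
      refine Finset.card_biUnion_le.trans (Finset.sum_le_sum fun k _ => Finset.card_image_le)
    have h2 : (A.card : ℝ) ≤ ∑ k, ((s k).card : ℝ) := by exact_mod_cast h1
    refine h2.trans (Finset.sum_le_sum fun k _ => ?_)
    have h3 : ((s k).card : ℝ) = ∑ u ∈ s k, (1 : ℝ) := by simp
    rw [h3]
    apply Finset.sum_le_sum
    intro u hu
    have h4 := Int.one_le_abs (hsne k u hu)
    rw [← Int.cast_abs]
    exact_mod_cast h4
  obtain ⟨r', hr', havoid⟩ := exists_avoid A (r := r) hδ0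
  set η : ℝ := δ / (2 * (A.card + 1)) / 2 with hη
  have hη0 : 0 < η := by positivity
  have hηδ : η ≤ δ / 4 := by
    rw [hη, div_div]
    apply div_le_div_of_nonneg_left hδ0.le (by norm_num)
    have : (0 : ℝ) ≤ A.card := Nat.cast_nonneg _
    linarith
  have hηinv : 1 / η ≤ 4 * (K1 + 1) * X ^ 2 := by
    have h1 : 1 / η = 4 * (A.card + 1) * (1 / δ) := by rw [hη]; field_simp; norm_num
    rw [h1]
    calc 4 * ((A.card : ℝ) + 1) * (1 / δ) ≤ 4 * (K1 * X + X) * X := by
          apply mul_le_mul _ hX4 (by positivity) (by positivity)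
          linarith
      _ = 4 * (K1 + 1) * X ^ 2 := by ring
  set B0 : ℝ := (4 * K1 * (K1 + 1) + 32 * K2) * X ^ 4 with hB0
  have hB00 : 0 ≤ B0 := by positivity
  refine ⟨r', hr', C * X ^ 4, ?_, le_refl _, ?_⟩
  · exact one_le_mul_of_one_le_of_one_le hC1 (one_le_pow₀ hX0)
  intro k z hz hGz i
  rw [mem_sphere_zero_iff_norm] at hz
  have hzρ : ‖z‖ < ρ := by rw [hz, hρ]; linarith [hr'.2]
  have hdist : ∀ w ∈ ball z η, ∀ u ∈ s k, η ≤ ‖w - u‖ := by
    intro w hw u hu
    have h1 := havoid ‖u‖ (by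
      rw [hA, Finset.mem_biUnion]
      exact ⟨k, Finset.mem_univ k, Finset.mem_image_of_mem _ hu⟩)
    have h2 : δ / (2 * ((A.card : ℝ) + 1)) = 2 * η := by rw [hη]; ring
    rw [h2] at h1
    rw [mem_ball, dist_eq_norm] at hw
    have h3 : |‖w‖ - r'| ≤ ‖w - z‖ := by rw [← hz]; exact abs_norm_sub_norm_le w z
    have h4 : |‖w‖ - ‖u‖| ≤ ‖w - u‖ := abs_norm_sub_norm_le w u
    have h5 : |‖u‖ - r'| ≤ |‖w‖ - ‖u‖| + |‖w‖ - r'| := by
      have : ‖u‖ - r' = -(‖w‖ - ‖u‖) + (‖w‖ - r') := by ring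
      rw [this]
      refine (abs_add_le _ _).trans ?_
      rw [abs_neg]
    linarith
  have hwρ : ∀ w ∈ ball z η, δ / 4 ≤ ρ - ‖w‖ := by
    intro w hw
    rw [mem_ball, dist_eq_norm] at hw
    have h3 : |‖w‖ - r'| ≤ ‖w - z‖ := by rw [← hz]; exact abs_norm_sub_norm_le w z
    have h4 := (abs_le.mp h3).2
    have := hr'.2
    rw [hρ]; linarith
  have hwn : ∀ w ∈ ball z η, w ∉ s k := by
    intro w hw hwu
    have := hdist w hw w hwu
    rw [sub_self, norm_zero] at this
    linarith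
  have hwc : ∀ w ∈ ball z η, w ∈ closedBall (0 : ℂ) ρ := by
    intro w hw
    rw [mem_closedBall_zero_iff]
    linarith [hwρ w hw]
  set H : ℂ → ℂ := fun z => (∏ u ∈ s k, (z - u) ^ (divisor (G k) univ u)) * g k z with hH
  have hHan : ∀ w ∈ ball z η, AnalyticAt ℂ H w := fun w hw =>
    analyticAt_H (hwn w hw) (hg k w (hwc w hw))
  have hH0 : ∀ w ∈ ball z η, H w ≠ 0 := fun w hw =>
    H_ne_zero (hwn w hw) (hg0 k w (hwc w hw))
  have havg : circleAverage (fun z => |Real.log ‖g k z‖|) 0 ρ ≤ K2 * X ^ 2 := by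
    have h1 := circleAverage_abs_log_g (hG k) hρ1 (hs k) (hg0 k) (hfg k)
    have h2 := hCa k ρ hρ1
    have h3 : characteristic (G k) ⊤ ρ ≤ characteristic (G k) ⊤ R :=
      characteristic_monotoneOn (hG k) (show (0 : ℝ) < ρ by linarith)
        (show (0 : ℝ) < R by linarith) hρR
    have h4 : Real.log ρ + 2 * Real.log 2 ≤ 2 * X := by
      have h5 : Real.log ρ ≤ ρ - 1 := Real.log_le_sub_one_of_pos (by linarith)
      have h6 := Real.log_two_lt_d9
      rw [hρ] at h5
      have h7 : r + 3 / 2 * δ - 1 + 2 * 0.6931471808 ≤ 2 * (r + 2) := by linarith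
      rw [hρ]; linarith
    have h8 : Ca k ≤ ∑ k, Ca k :=
      Finset.single_le_sum (f := Ca) (fun j _ => hCa0 j) (Finset.mem_univ k)
    have h9 : n k * (Real.log ρ + 2 * Real.log 2) ≤ K1 * X * (2 * X) :=
      mul_le_mul (hnk k) h4 (by
        have := Real.log_nonneg hρ1
        have := Real.log_two_gt_d9
        linarith) (by positivity)
    calc circleAverage (fun z => |Real.log ‖g k z‖|) 0 ρ
        ≤ 2 * characteristic (G k) ⊤ ρ + Ca k + n k * (Real.log ρ + 2 * Real.log 2) := by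
          linarith
      _ ≤ 2 * τ + ∑ k, Ca k + K1 * X * (2 * X) := by linarith [hTτ k]
      _ ≤ K2 * X ^ 2 := by
          have h10 : X ≤ X ^ 2 := le_self_pow₀ hX0 (by norm_num)
          have h11 : 1 ≤ X ^ 2 := one_le_pow₀ hX0
          have h12 : 2 * τ ≤ 2 * X ^ 2 := by linarith
          have h13 : ∑ k, Ca k ≤ (∑ k, Ca k) * X ^ 2 := le_mul_of_one_le_right hsa0 h11
          rw [hK2]
          linarith
  have hlogD : ∀ w ∈ ball z η, ‖logDeriv H w‖ ≤ B0 := by
    intro w hw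
    have h1 := norm_logDeriv_H hη0 (hdist w hw) (hg k w (hwc w hw)) (hg0 k w (hwc w hw))
      (D := divisor (G k) univ)
    have h2 := norm_logDeriv_le_circleAverage (by linarith : (0 : ℝ) < ρ) (hg k) (hg0 k)
      (w := w) (by linarith [hwρ w hw])
    have h3 : n k / η ≤ K1 * X * (4 * (K1 + 1) * X ^ 2) := by
      rw [div_eq_mul_one_div]
      exact mul_le_mul (hnk k) hηinv (by positivity) (by positivity)
    have h4 : 2 * ρ / (ρ - ‖w‖) ^ 2 ≤ 32 * X ^ 2 := by
      have h5 : (δ / 4) ^ 2 ≤ (ρ - ‖w‖) ^ 2 :=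
        pow_le_pow_left₀ (by positivity) (hwρ w hw) 2
      calc 2 * ρ / (ρ - ‖w‖) ^ 2 ≤ 2 * (r + 2) / (δ / 4) ^ 2 := by
            apply div_le_div₀ (by positivity) _ (by positivity) h5
            rw [hρ]; linarith
        _ = 32 * ((r + 2) / δ * (1 / δ)) := by field_simp; norm_num
        _ ≤ 32 * (X * X) := by
            apply mul_le_mul_of_nonneg_left _ (by norm_num)
            exact mul_le_mul hX5 hX4 (by positivity) (by positivity)
        _ = 32 * X ^ 2 := by ring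
    have h6 : 0 ≤ circleAverage (fun z => |Real.log ‖g k z‖|) 0 ρ :=
      circleAverage_nonneg_of_nonneg (fun z _ => abs_nonneg _)
    have h7 : 2 * ρ / (ρ - ‖w‖) ^ 2 * circleAverage (fun z => |Real.log ‖g k z‖|) 0 ρ ≤
        32 * X ^ 2 * (K2 * X ^ 2) := mul_le_mul h4 havg h6 (by positivity)
    have h8 : X ^ 3 ≤ X ^ 4 := pow_le_pow_right₀ hX0 (by norm_num)
    calc ‖logDeriv H w‖ ≤ n k / η + ‖logDeriv (g k) w‖ := h1
      _ ≤ K1 * X * (4 * (K1 + 1) * X ^ 2) + 32 * X ^ 2 * (K2 * X ^ 2) := by linarith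
      _ = 4 * K1 * (K1 + 1) * X ^ 3 + 32 * K2 * X ^ 4 := by ring
      _ ≤ 4 * K1 * (K1 + 1) * X ^ 4 + 32 * K2 * X ^ 4 := by
          have h10 : 0 ≤ 4 * K1 * (K1 + 1) := mul_nonneg (by linarith) (by linarith)
          have h11 := mul_le_mul_of_nonneg_left h8 h10
          linarith
      _ = B0 := by rw [hB0]; ring
  have hmain := norm_iteratedDeriv_le hη0 hB00 hHan hH0 hlogD i
  have hzball : z ∈ ball z η := mem_ball_self hη0
  have heq := eventuallyEq_of_codiscrete hzρ (hfg k) hGz (hHan z hzball)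
  have heqi : iteratedDeriv i (G k) z = iteratedDeriv i H z := heq.iteratedDeriv_eq i
  rw [heqi, heq.eq_of_nhds]
  refine hmain.trans ?_
  apply mul_le_mul_of_nonneg_right _ (norm_nonneg _)
  apply mul_le_mul_of_nonneg_left _ (by positivity)
  apply pow_le_pow_left₀ (by positivity)
  have h9 : X ^ 2 ≤ X ^ 4 := pow_le_pow_right₀ hX0 (by norm_num)
  calc 2 / η + 2 * B0 = 2 * (1 / η) + 2 * B0 := by ring
    _ ≤ 2 * (4 * (K1 + 1) * X ^ 2) + 2 * B0 := by linarith
    _ ≤ 2 * (4 * (K1 + 1) * X ^ 4) + 2 * B0 := by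
        have h10 := mul_le_mul_of_nonneg_left h9 (by linarith : 0 ≤ 4 * (K1 + 1))
        linarith
    _ = C * X ^ 4 := by rw [hC, hB0]; ring

end Pool.Agent.GGL
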