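import Pool.Agent.Lib_MP_b9fedf_ag.Cartan
import Pool.Agent.Lib_MP_b9fedf_ag.LDL
import Pool.Agent.Lib_MP_b9fedf_ag.Grow

/-! Growth contradiction and lower bounds for the characteristic. -/

set_option autoImplicit false

namespace Pool.Agent.GGL
open Filter Metric Real Set Function MeromorphicOn ValueDistribution

theorem growth_contradiction (τ : ℝ → ℝ) (hmono : MonotoneOn τ (Set.Ici 1))
    (h0 : ∀ r, 1 ≤ r → 0 ≤ τ r) (K : ℝ)
    (hK : ∀ r δ : ℝ, 1 ≤ r → 0 < δ → δ ≤ 1 → ∃ r' ∈ Set.Icc r (r + δ),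
      τ r' ≤ K * (1 + Real.log ((1 + τ (r + 2 * δ)) * (r + 2) / δ)))
    (hlog : ∀ A : ℝ, ∃ r₀ : ℝ, ∀ r, r₀ ≤ r → A * Real.log r ≤ τ r) : False := by
  -- enlarge `K`
  set K' : ℝ := max K 1 with hK'
  have hK'1 : 1 ≤ K' := le_max_right _ _
  obtain ⟨r1, hr1⟩ := hlog (4 * K')
  -- `log x ≤ x / (8 K') + C1`
  obtain ⟨C1, hC1⟩ : ∃ C1 : ℝ, ∀ x : ℝ, 1 ≤ x → 2 * K' * Real.log x ≤ x / 4 + C1 := by
    refine ⟨2 * K' * Real.log (8 * K'), fun x hx => ?_⟩
    have h1 : Real.log (x / (8 * K')) ≤ x / (8 * K') - 1 :=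
      Real.log_le_sub_one_of_pos (by positivity)
    rw [Real.log_div (by positivity) (by positivity)] at h1
    have h2 : 2 * K' * (x / (8 * K')) = x / 4 := by field_simp; norm_num
    nlinarith
  set M : ℝ := 4 * (K' * (1 + Real.log 2 + Real.log 3) + 1 / 4 + C1) with hM
  obtain ⟨r2, hr2⟩ := hlog (M + 1)
  obtain ⟨r, hr0, hr11, hT⟩ := exists_good_radius (fun r => 1 + τ r)
    (fun a ha b hb hab => by simpa using hmono ha hb hab)
    (fun r hr => by linarith [h0 r hr]) (max (max r1 r2) (Real.exp 1))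
  have hrr1 : r1 ≤ r := ((le_max_left _ _).trans (le_max_left _ _)).trans hr0
  have hrr2 : r2 ≤ r := ((le_max_right _ _).trans (le_max_left _ _)).trans hr0
  have hre : Real.exp 1 ≤ r := (le_max_right _ _).trans hr0
  have hlogr : 1 ≤ Real.log r := by
    have := Real.log_le_log (Real.exp_pos 1) hre
    rwa [Real.log_exp] at this
  have hTr : 1 ≤ 1 + τ r := by linarith [h0 r hr11]
  set δ : ℝ := 1 / (1 + τ r) with hδ
  have hδ0 : 0 < δ := by positivity
  have hδ1 : δ ≤ 1 := by rw [hδ, div_le_one (by linarith)]; exact hTr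
  have h2δ : 2 / (1 + τ r) = 2 * δ := by rw [hδ]; ring
  rw [h2δ] at hT
  obtain ⟨r', hr', hle⟩ := hK r δ hr11 hδ0 hδ1
  have hτr : τ r ≤ τ r' := hmono hr11 (hr11.trans hr'.1) hr'.1
  have hr3 : 1 ≤ r + 2 * δ := by linarith
  have hτR := h0 _ hr3
  have h5 : (1 + τ (r + 2 * δ)) * (r + 2) / δ ≤ 2 * (1 + τ r) * (3 * r) * (1 + τ r) := by
    have h6 : (1 + τ (r + 2 * δ)) * (r + 2) / δ = (1 + τ (r + 2 * δ)) * (r + 2) * (1 + τ r) := by
      rw [hδ]; field_simp
    rw [h6]
    apply mul_le_mul_of_nonneg_right _ (by linarith)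
    exact mul_le_mul hT (by linarith) (by linarith) (by linarith)
  have h7 : 0 ≤ Real.log ((1 + τ (r + 2 * δ)) * (r + 2) / δ) := by
    apply Real.log_nonneg
    rw [le_div_iff₀ hδ0]
    nlinarith
  have h8 : τ r' ≤ K' * (1 + Real.log ((1 + τ (r + 2 * δ)) * (r + 2) / δ)) := by
    refine hle.trans (mul_le_mul_of_nonneg_right (le_max_left _ _) (by linarith))
  have h9 : Real.log ((1 + τ (r + 2 * δ)) * (r + 2) / δ) ≤
      Real.log 2 + Real.log 3 + Real.log r + 2 * Real.log (1 + τ r) := by
    have h10 : 0 < (1 + τ (r + 2 * δ)) * (r + 2) / δ := by positivity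
    refine (Real.log_le_log h10 h5).trans (le_of_eq ?_)
    rw [Real.log_mul (by positivity) (by positivity), Real.log_mul (by positivity) (by positivity),
      Real.log_mul (by positivity) (by positivity), Real.log_mul (by positivity) (by positivity)]
    ring
  have h10 := hr1 r hrr1
  have h11 := hC1 (1 + τ r) hTr
  have h12 := hr2 r hrr2
  have h13 : K' * (1 + Real.log ((1 + τ (r + 2 * δ)) * (r + 2) / δ)) ≤
      K' * (1 + (Real.log 2 + Real.log 3 + Real.log r + 2 * Real.log (1 + τ r))) :=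
    mul_le_mul_of_nonneg_left (by linarith) (by linarith)
  have hC10 : 0 ≤ C1 + 1 / 4 := by
    have := hC1 1 le_rfl
    rw [Real.log_one] at this
    linarith
  have hlog2 : 0 ≤ Real.log 2 := Real.log_nonneg (by norm_num)
  have hlog3 : 0 ≤ Real.log 3 := Real.log_nonneg (by norm_num)
  have hM0 : 0 ≤ M := by
    rw [hM]; nlinarith
  -- conclusion
  have h14 : τ r ≤ M / 4 + τ r / 4 + τ r / 4 := by
    rw [hM]; nlinarith
  have h15 : M + 1 ≤ τ r := by
    calc M + 1 ≤ (M + 1) * Real.log r := by nlinarith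
      _ ≤ τ r := h12
  linarith

/-- A function with infinitely many zeros has a characteristic growing faster than `log`. -/
theorem characteristic_ge_log {f : ℂ → ℂ} (hf : Meromorphic f) (p : ℕ → ℂ)
    (hp : Function.Injective p) (hz : ∀ k, 1 ≤ divisor f univ (p k)) (A : ℝ) :
    ∃ r₀ : ℝ, ∀ r, r₀ ≤ r → A * Real.log r ≤ characteristic f ⊤ r := by
  classical
  obtain ⟨K, hK⟩ := exists_nat_gt A
  set s : Finset ℂ := (Finset.range (K + 1)).image p with hs
  have hscard : s.card = K + 1 := by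
    rw [hs, Finset.card_image_of_injective _ hp, Finset.card_range]
  set C0 : ℝ := max |Real.log ‖f 0‖| |Real.log ‖meromorphicTrailingCoeffAt f 0‖| with hC0
  set L : ℝ := ∑ u ∈ s, Real.log ‖u‖ with hL
  refine ⟨max (max (∑ u ∈ s, ‖u‖) 1) (Real.exp ((|L| + C0) / (K + 1 - A))), ?_⟩
  intro r hr
  have hr1 : 1 ≤ r := ((le_max_right _ _).trans (le_max_left _ _)).trans hr
  have hrs : ∑ u ∈ s, ‖u‖ ≤ r := ((le_max_left _ _).trans (le_max_left _ _)).trans hr
  have hre : Real.exp ((|L| + C0) / (K + 1 - A)) ≤ r := (le_max_right _ _).trans hr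
  have hus : ∀ u ∈ s, ‖u‖ ≤ r := fun u hu =>
    (Finset.single_le_sum (f := fun u : ℂ => ‖u‖) (fun _ _ => norm_nonneg _) hu).trans hrs
  have h1 := abs_le.mp (characteristic_sub_characteristic_inv_le hf (R := r))
  have h3 : logCounting f⁻¹ ⊤ r ≤ characteristic f⁻¹ ⊤ r := by
    rw [characteristic, Pi.add_apply]
    have := proximity_nonneg (f := f⁻¹) (a := ⊤) r
    simp only [Pi.zero_apply] at this
    linarith
  rw [ValueDistribution.logCounting_inv, ValueDistribution.logCounting_zero] at h3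
  set D' : locallyFinsupp ℂ ℤ := ∑ u ∈ s, (locallyFinsuppWithin.single u 1) with hD'
  have h4 : D' ≤ (divisor f univ)⁺ := by
    intro z
    rw [hD', sum_single_apply s (fun _ => 1), locallyFinsuppWithin.posPart_apply]
    split_ifs with h
    · rw [hs, Finset.mem_image] at h
      obtain ⟨k, -, rfl⟩ := h
      exact (hz k).trans (le_posPart _)
    · exact posPart_nonneg _
  have h5 := Function.locallyFinsuppWithin.logCounting_le h4 hr1
  have h6 : Function.locallyFinsuppWithin.logCounting D' r = (K + 1) * Real.log r - L := by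
    rw [hD', map_sum, Finset.sum_apply, hL]
    have : ∀ u ∈ s, Function.locallyFinsuppWithin.logCounting
        (locallyFinsuppWithin.single u 1 : locallyFinsupp ℂ ℤ) r = Real.log r - Real.log ‖u‖ := by
      intro u hu
      rw [Function.locallyFinsuppWithin.logCounting_single_eq_log_sub_const (hus u hu)]
      simp
    rw [Finset.sum_congr rfl this, Finset.sum_sub_distrib, Finset.sum_const, hscard, nsmul_eq_mul]
    push_cast
    ring
  have hKA : 0 < (K : ℝ) + 1 - A := by linarith
  have h7 : |L| + C0 ≤ (K + 1 - A) * Real.log r := by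
    have h8 := Real.log_le_log (Real.exp_pos _) hre
    rw [Real.log_exp, div_le_iff₀ hKA] at h8
    linarith
  have h9 := le_abs_self L
  have h10 := h1.1
  nlinarith

/-- Non-proportional periodic entire functions have a quotient of large characteristic. -/
theorem characteristic_div_ge_log {g h : ℂ → ℂ} (hg : Differentiable ℂ g) (hh : Differentiable ℂ h)
    (hh0 : ∃ z, h z ≠ 0) (hper : ∀ z, g (z + 2 * Real.pi * Complex.I) = g z)
    (hperh : ∀ z, h (z + 2 * Real.pi * Complex.I) = h z)
    (hnp : ∀ c : ℂ, ∃ z, g z ≠ c * h z) (A : ℝ) :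
    ∃ r₀ : ℝ, ∀ r, r₀ ≤ r → A * Real.log r ≤ characteristic (fun z => g z / h z) ⊤ r := by
  obtain ⟨z1, hz1⟩ := hh0
  set a : ℂ := g z1 / h z1 with ha
  set F : ℂ → ℂ := fun z => g z / h z with hF
  have hFm : Meromorphic F := fun z =>
    (mero_of_diff hg z).fun_div (mero_of_diff hh z)
  have hFa : Meromorphic (fun z => F z - a) := fun z => (hFm z).fun_sub (MeromorphicAt.const a z)
  have hdiff : Differentiable ℂ (fun z => g z - a * h z) := hg.sub (hh.const_mul a)
  have hdne : ∃ z, g z - a * h z ≠ 0 := by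
    obtain ⟨z, hz⟩ := hnp a
    exact ⟨z, sub_ne_zero.mpr hz⟩
  let p : ℕ → ℂ := fun k => z1 + k * (2 * Real.pi * Complex.I)
  have hperk : ∀ k : ℕ, g (p k) = g z1 ∧ h (p k) = h z1 := by
    intro k
    induction k with
    | zero => simp [p]
    | succ k ih =>
      have h1 : p (k + 1) = p k + 2 * Real.pi * Complex.I := by
        simp only [p]; push_cast; ring
      rw [h1, hper, hperh]; exact ih
  have hpinj : Function.Injective p := by
    intro k l hkl
    simp only [p, add_right_inj] at hkl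
    have h1 : (2 * Real.pi * Complex.I : ℂ) ≠ 0 := by
      simp [Real.pi_ne_zero]
    exact_mod_cast mul_right_cancel₀ h1 hkl
  have hdiv : ∀ k, 1 ≤ divisor (fun z => F z - a) univ (p k) := by
    intro k
    have hhk : h (p k) ≠ 0 := by rw [(hperk k).2]; exact hz1
    have hev : (fun z => F z - a) =ᶠ[nhds (p k)] (fun z => (h z)⁻¹ * (g z - a * h z)) := by
      have h2 : ∀ᶠ w in nhds (p k), h w ≠ 0 :=
        (hh.continuous.continuousAt).eventually_ne hhk
      filter_upwards [h2] with w hw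
      simp only [hF]
      field_simp
    have hzero : g (p k) - a * h (p k) = 0 := by
      rw [(hperk k).1, (hperk k).2, ha]; field_simp; ring
    have hinv : AnalyticAt ℂ (fun z => (h z)⁻¹) (p k) := (hh.analyticAt _).fun_inv hhk
    rw [MeromorphicOn.divisor_apply hFa.meromorphicOn (Set.mem_univ _),
      meromorphicOrderAt_congr (hev.filter_mono nhdsWithin_le_nhds),
      fun_meromorphicOrderAt_mul hinv.meromorphicAt (hdiff.analyticAt _).meromorphicAt]
    have h3 : meromorphicOrderAt (fun z => (h z)⁻¹) (p k) = 0 := by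
      rw [hinv.meromorphicOrderAt_eq]
      have : analyticOrderAt (fun z => (h z)⁻¹) (p k) = 0 :=
        hinv.analyticOrderAt_eq_zero.mpr (inv_ne_zero hhk)
      rw [this]; rfl
    rw [h3, zero_add, (hdiff.analyticAt _).meromorphicOrderAt_eq]
    have h4 := order_ne_top hdiff hdne (p k)
    have h5 : analyticOrderAt (fun z => g z - a * h z) (p k) ≠ 0 := by
      intro h6
      exact ((hdiff.analyticAt _).analyticOrderAt_eq_zero.mp h6) hzero
    cases h7 : analyticOrderAt (fun z => g z - a * h z) (p k) with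
    | top => exact absurd h7 h4
    | coe n =>
      rw [h7] at h5
      have h8 : n ≠ 0 := by
        intro h9; apply h5; rw [h9]; rfl
      have h9 : 1 ≤ n := Nat.one_le_iff_ne_zero.mpr h8
      simp only [ENat.map_natCast, WithTop.untop₀_coe]
      exact_mod_cast h9
  -- shift of the constant
  obtain ⟨r₀, hr₀⟩ := characteristic_ge_log hFa p hpinj hdiv (A + 1)
  refine ⟨max (max r₀ 1) (Real.exp (Real.posLog ‖a‖ + Real.log 2)), ?_⟩
  intro r hr
  have hr1 : r₀ ≤ r := ((le_max_left _ _).trans (le_max_left _ _)).trans hr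
  have hr2 : 1 ≤ r := ((le_max_right _ _).trans (le_max_left _ _)).trans hr
  have hr3 : Real.exp (Real.posLog ‖a‖ + Real.log 2) ≤ r := (le_max_right _ _).trans hr
  have h1 := abs_le.mp (abs_characteristic_sub_characteristic_shift_le (a₀ := a) (r := r) hFm)
  have h2 := hr₀ r hr1
  have h3 := Real.log_le_log (Real.exp_pos _) hr3
  rw [Real.log_exp] at h3
  linarith [h1.1]

end Pool.Agent.GGL
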