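import Pool.Agent.Lib_MP_b9fedf_ag.Cartan

/-! Definitions for the theorem on smooth hypersurfaces. -/

set_option autoImplicit false

namespace Pool.Agent.GGL
open Filter Metric Real Set Function MeromorphicOn ValueDistribution

/-- The statement of Green-Griffiths-Lang for one variety (exactly the frozen statement). -/
def GGL (n : ℕ) (S : Set (MvPolynomial (Fin (n + 1)) ℂ)) : Prop :=
  (∀ (g : ℕ) (L : AddSubgroup (Fin g → ℂ)),
          DiscreteTopology L →
          Submodule.span ℝ (L : Set (Fin g → ℂ)) = ⊤ →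
          ∀ F : (Fin g → ℂ) → (Fin (n + 1) → ℂ),
            Differentiable ℂ F →
            (∀ z, F z ≠ 0) →
            (∀ z, ∀ p ∈ S, MvPolynomial.eval (F z) p = 0) →
            (∀ z, ∀ l ∈ L, ∃ c : ℂ, F (z + l) = c • F z) →
            ∀ z w, ∃ c : ℂ, F w = c • F z) →
      ∀ f : ℂ → (Fin (n + 1) → ℂ),
        Differentiable ℂ f →
        (∀ z, f z ≠ 0) →
        (∀ z, ∀ p ∈ S, MvPolynomial.eval (f z) p = 0) →
        ∀ z w, ∃ c : ℂ, f w = c • f z

/-- the linear embedding of `ℙⁿ` into `ℙ²ⁿ⁺¹` as the first `n + 1` coordinates -/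
def emb {n : ℕ} (x : Fin (n + 1) → ℂ) : Fin (2 * n + 1 + 1) → ℂ := fun i =>
  if h : i.1 < n + 1 then x ⟨i.1, h⟩ else 0

/-- `F` defines a smooth hypersurface -/
def SmoothForm {N : ℕ} (F : MvPolynomial (Fin (N + 1)) ℂ) : Prop :=
  ∀ z : Fin (N + 1) → ℂ, z ≠ 0 → MvPolynomial.eval z F = 0 →
    ∃ i, MvPolynomial.eval z (MvPolynomial.pderiv i F) ≠ 0

/-- All non-constant entire curves of the hypersurface `F = 0` of `ℙ²ⁿ⁺¹` are contained in the
image of `X = V(S)`, which is contained in `F = 0`. -/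
def Exceptional {n : ℕ} (S : Set (MvPolynomial (Fin (n + 1)) ℂ))
    (F : MvPolynomial (Fin (2 * n + 1 + 1)) ℂ) : Prop :=
  (∀ x : Fin (n + 1) → ℂ, x ≠ 0 → (∀ p ∈ S, MvPolynomial.eval x p = 0) →
    MvPolynomial.eval (emb x) F = 0) ∧
  ∀ f : ℂ → (Fin (2 * n + 1 + 1) → ℂ), Differentiable ℂ f → (∀ z, f z ≠ 0) →
    (∀ z, MvPolynomial.eval (f z) F = 0) →
    (∀ z w, ∃ c : ℂ, f w = c • f z) ∨
      ∀ z, ∃ x : Fin (n + 1) → ℂ, f z = emb x ∧ ∀ p ∈ S, MvPolynomial.eval x p = 0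

/-- the Nevanlinna characteristic of an entire curve without common zeros -/
noncomputable def TF {σ : Type} [Fintype σ] (f : σ → ℂ → ℂ) (r : ℝ) : ℝ :=
  circleAverage (fun z => Real.log ‖fun k => f k z‖) 0 r

end Pool.Agent.GGL
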