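import Pool.Agent.Lib_MP_b9fedf_ag.Defs

/-! Piece G: generic vectors and a combinatorial pairing lemma. -/

set_option autoImplicit false

namespace Pool.Agent.GGL

open MvPolynomial

theorem exists_eval_ne_zero_of_forall {I σ : Type} [Fintype I] (P : I → MvPolynomial σ ℂ)
    (h : ∀ i, P i ≠ 0) : ∃ x : σ → ℂ, ∀ i, eval x (P i) ≠ 0 := by
  classical
  have hp : (∏ i, P i) ≠ 0 := Finset.prod_ne_zero_iff.2 fun i _ => h i
  by_contra hcon
  push Not at hcon
  apply hp
  apply MvPolynomial.funext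
  intro x
  obtain ⟨i, hi⟩ := hcon x
  rw [map_prod, map_zero]
  exact Finset.prod_eq_zero (Finset.mem_univ i) hi

theorem poly_one {r M : ℕ} (ι : (Fin r × Fin r) × Fin 2 ↪ Fin M) :
    ∃ P : MvPolynomial (Fin M × Fin r) ℂ, P ≠ 0 ∧ ∀ q : Fin M → Fin r → ℂ,
      eval (fun p => q p.1 p.2) P =
        (Matrix.of fun k ab : Fin r × Fin r => q (ι (k, 0)) ab.1 * q (ι (k, 1)) ab.2).det := by
  classical
  have hev : ∀ q : Fin M → Fin r → ℂ, eval (fun p => q p.1 p.2)
      (Matrix.of fun k ab : Fin r × Fin r =>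
        (X (ι (k, 0), ab.1) : MvPolynomial (Fin M × Fin r) ℂ) * X (ι (k, 1), ab.2)).det =
        (Matrix.of fun k ab : Fin r × Fin r => q (ι (k, 0)) ab.1 * q (ι (k, 1)) ab.2).det := by
    intro q
    rw [RingHom.map_det]
    congr 1
    ext k ab
    simp only [RingHom.mapMatrix_apply, Matrix.map_apply, Matrix.of_apply, map_mul, eval_X]
  refine ⟨_, ?_, hev⟩
  intro h0
  let q : Fin M → Fin r → ℂ := fun m a =>
    if (∃ k : Fin r × Fin r, ι (k, 0) = m ∧ k.1 = a) ∨
      (∃ k : Fin r × Fin r, ι (k, 1) = m ∧ k.2 = a) then 1 else 0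
  have hx0 : ∀ (k : Fin r × Fin r) (a : Fin r), q (ι (k, 0)) a = if k.1 = a then 1 else 0 := by
    intro k a
    by_cases hka : k.1 = a
    · rw [if_pos hka]
      exact if_pos (Or.inl ⟨k, rfl, hka⟩)
    · rw [if_neg hka]
      refine if_neg ?_
      rintro (⟨k', hk', h2⟩ | ⟨k', hk', h2⟩)
      · have h3 := congrArg Prod.fst (ι.injective hk')
        have h4 : k' = k := h3
        rw [h4] at h2
        exact hka h2
      · have h3 := congrArg Prod.snd (ι.injective hk')
        exact one_ne_zero h3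
  have hx1 : ∀ (k : Fin r × Fin r) (a : Fin r), q (ι (k, 1)) a = if k.2 = a then 1 else 0 := by
    intro k a
    by_cases hka : k.2 = a
    · rw [if_pos hka]
      exact if_pos (Or.inr ⟨k, rfl, hka⟩)
    · rw [if_neg hka]
      refine if_neg ?_
      rintro (⟨k', hk', h2⟩ | ⟨k', hk', h2⟩)
      · have h3 := congrArg Prod.snd (ι.injective hk')
        exact zero_ne_one h3
      · have h3 := congrArg Prod.fst (ι.injective hk')
        have h4 : k' = k := h3
        rw [h4] at h2
        exact hka h2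
  have h1 := hev q
  rw [h0, map_zero] at h1
  have h2 : (Matrix.of fun k ab : Fin r × Fin r =>
    q (ι (k, 0)) ab.1 * q (ι (k, 1)) ab.2) = 1 := by
    ext k ab
    rw [Matrix.of_apply, hx0, hx1, Matrix.one_apply]
    rcases k with ⟨k1, k2⟩
    rcases ab with ⟨a, b⟩
    by_cases h3 : k1 = a
    · by_cases h4 : k2 = b
      · simp [h3, h4]
      · simp [h3, h4]
    · simp [h3]
  rw [h2, Matrix.det_one] at h1
  exact zero_ne_one h1

theorem poly_two {r M : ℕ} (ι : Fin r ↪ Fin M) :
    ∃ P : MvPolynomial (Fin M × Fin r) ℂ, P ≠ 0 ∧ ∀ q : Fin M → Fin r → ℂ,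
      eval (fun p => q p.1 p.2) P = (Matrix.of fun i a : Fin r => q (ι i) a).det := by
  classical
  have hev : ∀ q : Fin M → Fin r → ℂ, eval (fun p => q p.1 p.2)
      (Matrix.of fun i a : Fin r => (X (ι i, a) : MvPolynomial (Fin M × Fin r) ℂ)).det =
        (Matrix.of fun i a : Fin r => q (ι i) a).det := by
    intro q
    rw [RingHom.map_det]
    congr 1
    ext k ab
    simp only [RingHom.mapMatrix_apply, Matrix.map_apply, Matrix.of_apply, eval_X]
  refine ⟨_, ?_, hev⟩
  intro h0
  have h1 := hev (fun m a => if ι a = m then 1 else 0)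
  rw [h0, map_zero] at h1
  have h2 : (Matrix.of fun i a : Fin r => if ι a = ι i then (1 : ℂ) else 0) = 1 := by
    ext i a
    rw [Matrix.of_apply, Matrix.one_apply]
    by_cases h3 : i = a
    · simp [h3]
    · rw [if_neg h3, if_neg]
      intro h4
      exact h3 (ι.injective h4).symm
  rw [h2, Matrix.det_one] at h1
  exact zero_ne_one h1

/-- PIECE G1 (Gen.lean) -/
theorem exists_generic (r M : ℕ) : ∃ q : Fin M → Fin r → ℂ,
    (∀ ι : (Fin r × Fin r) × Fin 2 ↪ Fin M,
      (Matrix.of fun k ab : Fin r × Fin r => q (ι (k, 0)) ab.1 * q (ι (k, 1)) ab.2).det ≠ 0) ∧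
    (∀ ι : Fin r ↪ Fin M, (Matrix.of fun i a : Fin r => q (ι i) a).det ≠ 0) := by
  choose P1 hP1 hev1 using fun ι : (Fin r × Fin r) × Fin 2 ↪ Fin M => poly_one ι
  choose P2 hP2 hev2 using fun ι : Fin r ↪ Fin M => poly_two ι
  obtain ⟨x, hx⟩ := exists_eval_ne_zero_of_forall (Sum.elim P1 P2) (by
    rintro (i | i)
    · exact hP1 i
    · exact hP2 i)
  have hxq : (fun p : Fin M × Fin r => (fun (m : Fin M) (a : Fin r) => x (m, a)) p.1 p.2) = x := by
    ext p
    rfl
  refine ⟨fun m a => x (m, a), fun ι => ?_, fun ι => ?_⟩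
  · have h := hx (Sum.inl ι)
    have h2 := hev1 ι (fun m a => x (m, a))
    rw [hxq] at h2
    rw [← h2]
    exact h
  · have h := hx (Sum.inr ι)
    have h2 := hev2 ι (fun m a => x (m, a))
    rw [hxq] at h2
    rw [← h2]
    exact h

theorem exists_one_pair {α : Type} [DecidableEq α] (J A : Finset α) (hAJ : A ⊆ J)
    (σ : α → α) (hσ : ∀ x ∈ A, σ x ∈ J ∧ σ x ≠ x) (hcard : J.card < 2 * A.card) :
    ∃ x ∈ A, ∃ y ∈ A, x ≠ y ∧ (y = σ x ∨ σ x = σ y) := by
  by_contra hcon
  push Not at hcon
  have hmaps : ∀ x ∈ A, σ x ∈ J \ A := by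
    intro x hx
    rw [Finset.mem_sdiff]
    refine ⟨(hσ x hx).1, fun hmem => ?_⟩
    exact (hcon x hx (σ x) hmem (hσ x hx).2.symm).1 rfl
  have hinj : Set.InjOn σ A := by
    intro x hx y hy hxy
    by_contra hne
    exact (hcon x hx y hy hne).2 hxy
  have h1 : A.card ≤ (J \ A).card := Finset.card_le_card_of_injOn σ hmaps hinj
  rw [Finset.card_sdiff_of_subset hAJ] at h1
  have h2 := Finset.card_le_card hAJ
  omega

theorem exists_pairs_fin {α : Type} [DecidableEq α] (J : Finset α) (σ : α → α) (n : ℕ) :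
    ∀ A : Finset α, A ⊆ J → (∀ x ∈ A, σ x ∈ J ∧ σ x ≠ x) → J.card + 4 * n ≤ 2 * A.card + 3 →
    ∃ f : Fin n × Fin 2 → α, Function.Injective f ∧ ∀ k, f (k, 0) ∈ A ∧ f (k, 1) ∈ A ∧
      (f (k, 1) = σ (f (k, 0)) ∨ σ (f (k, 0)) = σ (f (k, 1))) := by
  induction n with
  | zero =>
    intro A _ _ _
    exact ⟨fun p => p.1.elim0, fun p => p.1.elim0, fun k => k.elim0⟩
  | succ n ih =>
    intro A hAJ hσ hcard
    obtain ⟨x, hx, y, hy, hxy, hrel⟩ := exists_one_pair J A hAJ σ hσ (by omega)
    have hA' : ((A.erase x).erase y).card = A.card - 2 := by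
      rw [Finset.card_erase_of_mem, Finset.card_erase_of_mem hx]
      · omega
      · exact Finset.mem_erase.2 ⟨hxy.symm, hy⟩
    have hAc : 2 ≤ A.card := by
      have : ({x, y} : Finset α).card ≤ A.card := by
        apply Finset.card_le_card
        intro z hz
        simp only [Finset.mem_insert, Finset.mem_singleton] at hz
        rcases hz with rfl | rfl
        · exact hx
        · exact hy
      rwa [Finset.card_pair hxy] at this
    have hsub : (A.erase x).erase y ⊆ A :=
      (Finset.erase_subset _ _).trans (Finset.erase_subset _ _)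
    obtain ⟨f, hf, hf'⟩ := ih ((A.erase x).erase y) (hsub.trans hAJ)
      (fun z hz => hσ z (hsub hz)) (by rw [hA']; omega)
    have hmem : ∀ p, f p ∈ (A.erase x).erase y := by
      rintro ⟨k, t⟩
      fin_cases t
      · exact (hf' k).1
      · exact (hf' k).2.1
    have hne : ∀ p, f p ≠ x ∧ f p ≠ y := by
      intro p
      have := hmem p
      simp only [Finset.mem_erase] at this
      exact ⟨this.2.1, this.1⟩
    refine ⟨fun p => Fin.cases (if p.2 = 0 then x else y) (fun j => f (j, p.2)) p.1, ?_, ?_⟩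
    · rintro ⟨i, s⟩ ⟨j, t⟩ h
      refine Fin.cases (fun h => ?_) (fun i h => ?_) i h <;>
        refine Fin.cases (fun h => ?_) (fun j h => ?_) j h
      · simp only [Fin.cases_zero] at h
        by_cases hs : s = 0
        · by_cases ht : t = 0
          · rw [hs, ht]
          · rw [if_pos hs, if_neg ht] at h
            exact absurd h hxy
        · by_cases ht : t = 0
          · rw [if_neg hs, if_pos ht] at h
            exact absurd h.symm hxy
          · have h3 : s = t := by omega
            rw [h3]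
      · simp only [Fin.cases_zero, Fin.cases_succ] at h
        exfalso
        by_cases hs : s = 0
        · rw [if_pos hs] at h
          exact (hne _).1 h.symm
        · rw [if_neg hs] at h
          exact (hne _).2 h.symm
      · simp only [Fin.cases_zero, Fin.cases_succ] at h
        exfalso
        by_cases hs : t = 0
        · rw [if_pos hs] at h
          exact (hne _).1 h
        · rw [if_neg hs] at h
          exact (hne _).2 h
      · simp only [Fin.cases_succ] at h
        have := hf h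
        simp only [Prod.mk.injEq] at this
        rw [this.1, this.2]
    · intro k
      refine Fin.cases ?_ (fun k => ?_) k
      · simp only [Fin.cases_zero]
        refine ⟨?_, ?_, ?_⟩
        · simpa using hx
        · simpa using hy
        · simpa using hrel
      · simp only [Fin.cases_succ]
        exact ⟨hsub (hf' k).1, hsub (hf' k).2.1, (hf' k).2.2⟩

/-- PIECE G2 (Gen.lean), a purely combinatorial pairing lemma -/
theorem exists_pairs {α κ : Type} [DecidableEq α] [Fintype κ] (J U : Finset α) (hUJ : U ⊆ J)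
    (σ : α → α) (hσ : ∀ x ∈ U, σ x ∈ J ∧ σ x ≠ x)
    (hcard : J.card + 4 * Fintype.card κ ≤ 2 * U.card + 3) :
    ∃ ι : κ × Fin 2 ↪ α, ∀ k, ι (k, 0) ∈ U ∧ ι (k, 1) ∈ U ∧
      (ι (k, 1) = σ (ι (k, 0)) ∨ σ (ι (k, 0)) = σ (ι (k, 1))) := by
  obtain ⟨f, hf, hf'⟩ := exists_pairs_fin J σ (Fintype.card κ) U hUJ hσ hcard
  let e := Fintype.equivFin κ
  refine ⟨⟨fun p => f (e p.1, p.2), ?_⟩, fun k => hf' (e k)⟩
  rintro ⟨i, s⟩ ⟨j, t⟩ h
  have := hf h
  simp only [Prod.mk.injEq, e.injective.eq_iff] at this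
  rw [this.1, this.2]

end Pool.Agent.GGL
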