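import Mathlib

set_option autoImplicit false

namespace Pool.Agent.GGL

theorem exists_rows {r : ℕ} {K : Type} [Fintype K] (A : K → Fin r → ℂ) (c : Fin r)
    (hA : ∀ v : Fin r → ℂ, v c = 0 → (∀ k, ∑ a, A k a * v a = 0) → v = 0) :
    ∃ e : {a : Fin r // a ≠ c} → K,
      (Matrix.of fun i j : {a : Fin r // a ≠ c} => A (e i) j).det ≠ 0 := by
  classical
  set m := {a : Fin r // a ≠ c} with hm
  set s : Set (m → ℂ) := Set.range (fun k : K => fun j : m => A k j) with hs
  have hspan : Submodule.span ℂ s = ⊤ := by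
    by_contra hne
    obtain ⟨f, hf0, hf⟩ := Submodule.exists_le_ker_of_lt_top _ (lt_top_iff_ne_top.mpr hne)
    apply hf0
    set v : Fin r → ℂ := fun a => if h : a ≠ c then f (Pi.single ⟨a, h⟩ 1) else 0 with hv
    have hexp : ∀ x : m → ℂ, f x = ∑ a : Fin r, (if h : a ≠ c then x ⟨a, h⟩ else 0) * v a := by
      intro x
      have h1 : x = ∑ j : m, x j • (Pi.single j (1 : ℂ) : m → ℂ) := by
        ext i
        rw [Finset.sum_apply, Finset.sum_eq_single i]
        · simp
        · intro b _ hb
          simp [hb.symm]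
        · intro h; exact absurd (Finset.mem_univ _) h
      conv_lhs => rw [h1]
      rw [map_sum]
      have h2 : ∑ a : Fin r, (if h : a ≠ c then x ⟨a, h⟩ else 0) * v a =
          ∑ a ∈ Finset.univ.filter (fun a => a ≠ c), (if h : a ≠ c then x ⟨a, h⟩ else 0) * v a := by
        symm
        apply Finset.sum_subset (Finset.filter_subset _ _)
        intro a _ ha
        simp only [Finset.mem_filter, Finset.mem_univ, true_and, not_not] at ha
        simp [ha]
      rw [h2]
      rw [Finset.sum_subtype (Finset.univ.filter (fun a => a ≠ c)) (p := fun a => a ≠ c)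
        (by intro a; simp) (fun a => (if h : a ≠ c then x ⟨a, h⟩ else 0) * v a)]
      apply Finset.sum_congr rfl
      intro j _
      have hj := j.2
      simp only [hv, dif_pos hj, map_smul, smul_eq_mul]
      rfl
    have hv0 : v = 0 := by
      apply hA v (by simp [hv])
      intro k
      have h1 : f (fun j : m => A k j) = 0 := by
        have := hf (Submodule.subset_span (Set.mem_range_self k) : (fun j : m => A k j) ∈ _)
        exact this
      rw [hexp] at h1
      rw [← h1]
      apply Finset.sum_congr rfl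
      intro a _
      by_cases h : a ≠ c
      · simp [h]
      · simp only [hv, dif_neg h, mul_zero]
    apply LinearMap.ext
    intro x
    rw [LinearMap.zero_apply, hexp, hv0]
    simp
  obtain ⟨g, hg1, hg2, hg3⟩ := Submodule.exists_fun_fin_finrank_span_eq ℂ s
  have hfr : Module.finrank ℂ (Submodule.span ℂ s) = Fintype.card m := by
    rw [hspan, finrank_top, Module.finrank_fintype_fun_eq_card]
  have eqv : m ≃ Fin (Module.finrank ℂ (Submodule.span ℂ s)) :=
    (Fintype.equivFin m).trans (finCongr hfr.symm)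
  choose k hk using hg1
  refine ⟨fun i => k (eqv i), ?_⟩
  have hM : (Matrix.of fun i j : m => A (k (eqv i)) j) = fun i => g (eqv i) := by
    ext i j
    exact congrFun (hk (eqv i)) j
  rw [← isUnit_iff_ne_zero, ← Matrix.isUnit_iff_isUnit_det, ← Matrix.linearIndependent_rows_iff_isUnit]
  have : (Matrix.of fun i j : m => A (k (eqv i)) j).row = g ∘ eqv := hM
  rw [this]
  exact hg3.comp _ eqv.injective

theorem cramer_row {r : ℕ} {K : Type} (A : K → Fin r → ℂ) (c : Fin r)
    (e : {a : Fin r // a ≠ c} → K) (x : Fin r → ℂ) (hx : ∀ k, ∑ a, A k a * x a = 0)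
    (j : {a : Fin r // a ≠ c}) :
    (Matrix.of fun i j : {a : Fin r // a ≠ c} => A (e i) j).det * x j =
      x c * (Matrix.of fun i l : {a : Fin r // a ≠ c} =>
        if l = j then - A (e i) c else A (e i) l).det := by
  classical
  set N : Matrix {a : Fin r // a ≠ c} {a : Fin r // a ≠ c} ℂ := Matrix.of fun i j => A (e i) j with hN
  set x' : {a : Fin r // a ≠ c} → ℂ := fun l => x l with hx'
  have h1 : N.mulVec x' = x c • (fun i => - A (e i) c) := by
    ext i
    have h2 := hx (e i)
    rw [← Finset.add_sum_erase Finset.univ _ (Finset.mem_univ c)] at h2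
    have h3 : ∑ a ∈ Finset.univ.erase c, A (e i) a * x a = ∑ l : {a : Fin r // a ≠ c}, A (e i) l * x l := by
      apply Finset.sum_subtype
      intro a; simp
    rw [h3] at h2
    show ∑ l, N i l * x' l = x c * (- A (e i) c)
    have h4 : ∑ l, N i l * x' l = ∑ l : {a : Fin r // a ≠ c}, A (e i) l * x l := rfl
    rw [h4]
    linear_combination h2
  have h5 : N.cramer (N.mulVec x') = N.det • x' := by
    rw [Matrix.cramer_eq_adjugate_mulVec, Matrix.mulVec_mulVec, Matrix.adjugate_mul,
      Matrix.smul_mulVec, Matrix.one_mulVec]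
  have h6 := congrFun h5 j
  rw [h1, map_smul] at h6
  have h7 : (x c • N.cramer (fun i => - A (e i) c)) j = x c * (N.updateCol j (fun i => - A (e i) c)).det := by
    rw [Pi.smul_apply, Matrix.cramer_apply]; rfl
  rw [h7] at h6
  have h8 : (Matrix.of fun i l : {a : Fin r // a ≠ c} =>
        if l = j then - A (e i) c else A (e i) l) = N.updateCol j (fun i => - A (e i) c) := by
    ext i l
    rw [Matrix.updateCol_apply]
    rfl
  rw [h8, h6]
  rfl

theorem parallel_of_generic {r M : ℕ} (q : Fin M → Fin r → ℂ) (ι : (Fin r × Fin r) × Fin 2 ↪ Fin M)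
    (hq : (Matrix.of fun k ab : Fin r × Fin r =>
      q (ι (k, 0)) ab.1 * q (ι (k, 1)) ab.2).det ≠ 0)
    (s : Fin r × Fin r → ℂ) (v w : Fin r → ℂ)
    (hv : ∀ k, ∑ a, q (ι (k, 0)) a * v a = s k * ∑ a, q (ι (k, 1)) a * v a)
    (hw : ∀ k, ∑ a, q (ι (k, 0)) a * w a = s k * ∑ a, q (ι (k, 1)) a * w a) (a b : Fin r) :
    v a * w b = w a * v b := by
  classical
  set t : Fin r × Fin r → ℂ := fun ab => v ab.1 * w ab.2 - w ab.1 * v ab.2 with ht
  have h0 : t = 0 := by
    apply Matrix.eq_zero_of_mulVec_eq_zero hq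
    ext k
    show ∑ ab : Fin r × Fin r, (q (ι (k, 0)) ab.1 * q (ι (k, 1)) ab.2) * t ab = 0
    have e1 : ∀ v w : Fin r → ℂ, ∑ ab : Fin r × Fin r, (q (ι (k, 0)) ab.1 * q (ι (k, 1)) ab.2) * (v ab.1 * w ab.2)
        = (∑ a, q (ι (k, 0)) a * v a) * (∑ a, q (ι (k, 1)) a * w a) := by
      intro v w
      rw [Fintype.sum_prod_type, Finset.sum_mul_sum]
      apply Finset.sum_congr rfl; intro a _
      apply Finset.sum_congr rfl; intro b _
      ring
    have e2 : ∑ ab : Fin r × Fin r, (q (ι (k, 0)) ab.1 * q (ι (k, 1)) ab.2) * t ab =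
        ∑ ab : Fin r × Fin r, (q (ι (k, 0)) ab.1 * q (ι (k, 1)) ab.2) * (v ab.1 * w ab.2) -
        ∑ ab : Fin r × Fin r, (q (ι (k, 0)) ab.1 * q (ι (k, 1)) ab.2) * (w ab.1 * v ab.2) := by
      rw [← Finset.sum_sub_distrib]
      apply Finset.sum_congr rfl; intro ab _
      rw [ht]; ring
    rw [e2, e1, e1, hv k, hw k]
    ring
  have h1 := congrFun h0 (a, b)
  have h2 : v a * w b - w a * v b = 0 := h1
  exact sub_eq_zero.mp h2

end Pool.Agent.GGL
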