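import Pool.Agent.Lib_MP_b9fedf_ag.Defs2
import Pool.Agent.Lib_MP_b9fedf_ag.Lin
import Pool.Agent.Lib_MP_b9fedf_ag.Char

/-! PIECE M2: the characteristic of a projective curve is bounded by the characteristics of
generic quotients. -/

set_option autoImplicit false

namespace Pool.Agent.GGL
open Filter Metric Real Set Function MeromorphicOn ValueDistribution Topology

/-- a nonzero entire function is nonzero on a codiscrete set -/
lemma codiscrete_ne_zero {g : ℂ → ℂ} (hg : Differentiable ℂ g) (hne : ∃ z, g z ≠ 0) :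
    ∀ᶠ z in codiscrete ℂ, g z ≠ 0 := by
  obtain ⟨x, hx⟩ := hne
  exact AnalyticOnNhd.preimage_zero_mem_codiscrete (f := g) (x := x)
    (fun z _ => hg.analyticAt z) hx

lemma codiscrete_neBot : (codiscrete ℂ).NeBot := by
  have h : 𝓝[≠] (0 : ℂ) ≤ codiscrete ℂ := by
    intro s hs
    have h1 := (mem_codiscrete.mp hs) 0
    exact disjoint_principal_right.mp h1 |> fun h => by simpa using h
  exact neBot_of_le h

/-- meromorphy of determinants -/
lemma mero_det {n : Type} [Fintype n] [DecidableEq n] (B : n → n → ℂ → ℂ)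
    (hB : ∀ i j, Meromorphic (B i j)) :
    Meromorphic (fun z => (Matrix.of fun i j => B i j z).det) := by
  intro z
  have h : (fun z => (Matrix.of fun i j => B i j z).det) = fun z =>
      ∑ σ : Equiv.Perm n, ((Equiv.Perm.sign σ : ℤ) : ℂ) * ∏ i, B (σ i) i z := by
    funext z
    rw [Matrix.det_apply']
    rfl
  rw [h]
  apply MeromorphicAt.fun_sum
  intro σ _
  apply MeromorphicAt.fun_mul (MeromorphicAt.const _ _)
  apply MeromorphicAt.fun_prod
  intro i _
  exact hB _ _ z

theorem linear_bound {r M : ℕ} (φ : Fin r → ℂ → ℂ) (hφ : ∀ a, Differentiable ℂ (φ a))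
    (c : Fin r) (hc : ∃ z, φ c z ≠ 0) (q : Fin M → Fin r → ℂ)
    (ι : (Fin r × Fin r) × Fin 2 ↪ Fin M)
    (hq : (Matrix.of fun k ab : Fin r × Fin r =>
      q (ι (k, 0)) ab.1 * q (ι (k, 1)) ab.2).det ≠ 0)
    (hQ : ∀ p, ∃ z, ∑ a, q (ι p) a * φ a z ≠ 0) :
    ∃ C : ℝ, ∀ ρ, 1 ≤ ρ → ∀ a, characteristic (fun z => φ a z / φ c z) ⊤ ρ ≤
      2 * r.factorial * ∑ k : Fin r × Fin r,
        characteristic (fun z => (∑ a, q (ι (k, 0)) a * φ a z) /
          (∑ a, q (ι (k, 1)) a * φ a z)) ⊤ ρ + C := by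
  classical
  set Q : (Fin r × Fin r) × Fin 2 → ℂ → ℂ := fun p z => ∑ a, q (ι p) a * φ a z with hQdef
  have hQd : ∀ p, Differentiable ℂ (Q p) := fun p =>
    Differentiable.fun_sum (fun a _ => (hφ a).const_mul _)
  set s : Fin r × Fin r → ℂ → ℂ := fun k z => Q (k, 0) z / Q (k, 1) z with hsdef
  have hs : ∀ k, Meromorphic (s k) := fun k z =>
    (mero_of_diff (hQd (k, 0)) z).fun_div (mero_of_diff (hQd (k, 1)) z)
  set A : ℂ → Fin r × Fin r → Fin r → ℂ := fun z k a =>
    q (ι (k, 0)) a - s k z * q (ι (k, 1)) a with hAdef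
  have hAm : ∀ k a, Meromorphic (fun z => A z k a) := fun k a z =>
    (MeromorphicAt.const _ _).fun_sub ((hs k z).fun_mul (MeromorphicAt.const _ _))
  -- the linear system
  have hsys : ∀ z, (∀ p, Q p z ≠ 0) → ∀ k, ∑ a, A z k a * φ a z = 0 := by
    intro z hz k
    have h1 : ∑ a, A z k a * φ a z = Q (k, 0) z - s k z * Q (k, 1) z := by
      simp only [hAdef, hQdef, sub_mul, Finset.sum_sub_distrib, Finset.mul_sum]
      congr 1
      apply Finset.sum_congr rfl
      intro a _
      ring
    rw [h1, hsdef]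
    have h2 := hz (k, 1)
    field_simp
    ring
  -- generic points
  have hQev : ∀ᶠ z in codiscrete ℂ, ∀ p, Q p z ≠ 0 :=
    eventually_all.mpr (fun p => codiscrete_ne_zero (hQd p) (hQ p))
  have hcev : ∀ᶠ z in codiscrete ℂ, φ c z ≠ 0 := codiscrete_ne_zero (hφ c) hc
  have hNB := codiscrete_neBot
  obtain ⟨z0, hz0Q, hz0c⟩ := (hQev.and hcev).exists
  -- the rows
  obtain ⟨e, he⟩ := exists_rows (A z0) c (by
    intro v hvc hv
    have hpar := parallel_of_generic q ι hq (fun k => s k z0) v (fun a => φ a z0) (by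
      intro k
      have h1 := hv k
      simp only [hAdef, sub_mul, Finset.sum_sub_distrib] at h1
      rw [sub_eq_zero] at h1
      rw [h1, Finset.mul_sum]
      apply Finset.sum_congr rfl
      intro a _
      ring) (by
      intro k
      have h2 := hz0Q (k, 1)
      have h3 : (∑ a, q (ι (k, 1)) a * φ a z0) ≠ 0 := h2
      show (∑ a, q (ι (k, 0)) a * φ a z0) =
        (∑ a, q (ι (k, 0)) a * φ a z0) / (∑ a, q (ι (k, 1)) a * φ a z0) *
          ∑ a, q (ι (k, 1)) a * φ a z0
      field_simp)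
    funext a
    have h1 := hpar a c
    rw [hvc, mul_zero] at h1
    rcases mul_eq_zero.mp h1 with h2 | h2
    · exact h2
    · exact absurd h2 hz0c)
  have hinj : Function.Injective e := by
    intro i i' hii
    by_contra hne
    exact he (Matrix.det_zero_of_row_eq hne (by
      funext j
      simp only [Matrix.of_apply, hii]))
  -- the denominator
  set Δ : ℂ → ℂ := fun z => (Matrix.of fun i j : {a : Fin r // a ≠ c} => A z (e i) j).det with hΔ
  have hΔm : Meromorphic Δ := mero_det (fun i j : {a : Fin r // a ≠ c} => fun z => A z (e i) j)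
    (fun i j => hAm _ _)
  have hΔan : AnalyticAt ℂ Δ z0 := by
    have hA1 : ∀ k a, AnalyticAt ℂ (fun z => A z k a) z0 := by
      intro k a
      have h1 : AnalyticAt ℂ (s k) z0 :=
        ((hQd (k, 0)).analyticAt z0).fun_div ((hQd (k, 1)).analyticAt z0) (hz0Q (k, 1))
      exact (analyticAt_const).fun_sub (h1.fun_mul analyticAt_const)
    have h : Δ = fun z =>
        ∑ σ : Equiv.Perm {a : Fin r // a ≠ c}, ((Equiv.Perm.sign σ : ℤ) : ℂ) *
          ∏ i, A z (e (σ i)) i := by
      funext z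
      simp only [hΔ]
      rw [Matrix.det_apply']
      rfl
    rw [h]
    apply Finset.analyticAt_fun_sum
    intro σ _
    apply AnalyticAt.fun_mul analyticAt_const
    apply Finset.analyticAt_fun_prod
    intro i _
    exact hA1 _ _
  have hΔ0 : meromorphicOrderAt Δ z0 ≠ ⊤ := by
    rw [meromorphicOrderAt_ne_top_iff_eventually_ne_zero (hΔm z0)]
    exact (hΔan.continuousAt.eventually_ne he).filter_mono nhdsWithin_le_nhds
  have hΔtop : ∀ z, meromorphicOrderAt Δ z ≠ ⊤ := by
    intro z
    exact (hΔm.meromorphicOn (s := Set.univ)).meromorphicOrderAt_ne_top_of_isPreconnected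
      isPreconnected_univ (Set.mem_univ z0) (Set.mem_univ z) hΔ0
  have hΔev : ∀ᶠ z in codiscrete ℂ, Δ z ≠ 0 :=
    (hΔm.meromorphicOn (s := Set.univ)).eventually_codiscreteWithin_apply_ne_zero
      (fun z _ => hΔtop z)
  -- the numerators
  set Nm : {a : Fin r // a ≠ c} → ℂ → ℂ := fun j z =>
    (Matrix.of fun i l : {a : Fin r // a ≠ c} => if l = j then - A z (e i) c else A z (e i) l).det
    with hNm
  have hNmero : ∀ j, Meromorphic (Nm j) := by
    intro j
    apply mero_det (fun i l : {a : Fin r // a ≠ c} => fun z =>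
      if l = j then - A z (e i) c else A z (e i) l)
    intro i l
    by_cases h : l = j
    · simp only [h, if_true]
      exact fun z => (hAm (e i) c z).fun_neg
    · simp only [h, if_false]
      exact hAm _ _
  have hquot : ∀ j : {a : Fin r // a ≠ c},
      (fun z => φ j z / φ c z) =ᶠ[codiscrete ℂ] (fun z => Nm j z * (Δ z)⁻¹) := by
    intro j
    filter_upwards [hQev, hcev, hΔev] with z hz1 hz2 hz3
    have h1 := cramer_row (A z) c e (fun a => φ a z) (hsys z hz1) j
    have h2 : Δ z * φ j z = φ c z * Nm j z := h1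
    have h3 : φ (j : Fin r) z / φ c z = Nm j z * (Δ z)⁻¹ := by
      field_simp
      linear_combination h2
    exact h3
  -- bounds of the entries
  have hentry : ∀ k a, ∃ C : ℝ, ∀ ρ, 1 ≤ ρ →
      characteristic (fun z => A z k a) ⊤ ρ ≤ characteristic (s k) ⊤ ρ + C := by
    intro k a
    obtain ⟨C1, hC1⟩ := char_const_mul_le (hs k) (- q (ι (k, 1)) a)
    refine ⟨C1 + Real.posLog ‖q (ι (k, 0)) a‖ + Real.log 2, ?_⟩
    intro ρ hρ
    have h1 : (fun z => A z k a) = (fun _ : ℂ => q (ι (k, 0)) a) +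
        (fun z => (- q (ι (k, 1)) a) * s k z) := by
      funext z
      simp only [hAdef, Pi.add_apply]
      ring
    rw [h1]
    have h2 := characteristic_add_top_le (f₁ := fun _ : ℂ => q (ι (k, 0)) a)
      (f₂ := fun z => (- q (ι (k, 1)) a) * s k z) (fun z => MeromorphicAt.const _ _)
      (fun z => (MeromorphicAt.const _ _).fun_mul (hs k z)) hρ
    have h3 : characteristic (fun _ : ℂ => q (ι (k, 0)) a) ⊤ ρ = Real.posLog ‖q (ι (k, 0)) a‖ := by
      simp [characteristic]
    have h4 := hC1 ρ hρ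
    linarith
  have hentry' : ∃ K : ℝ, ∀ k a ρ, 1 ≤ ρ →
      characteristic (fun z => A z k a) ⊤ ρ ≤ characteristic (s k) ⊤ ρ + K := by
    choose C hC using hentry
    refine ⟨∑ k, ∑ a, |C k a|, ?_⟩
    intro k a ρ hρ
    have h1 := hC k a ρ hρ
    have h2 : |C k a| ≤ ∑ k, ∑ a, |C k a| :=
      (Finset.single_le_sum (f := fun a => |C k a|) (fun a _ => abs_nonneg _)
        (Finset.mem_univ a)).trans
      (Finset.single_le_sum (f := fun k => ∑ a, |C k a|)
        (fun k _ => Finset.sum_nonneg (fun a _ => abs_nonneg _)) (Finset.mem_univ k))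
    have h3 := le_abs_self (C k a)
    linarith
  obtain ⟨K, hK⟩ := hentry'
  obtain ⟨C1, hC1⟩ := char_det_le (fun i j : {a : Fin r // a ≠ c} => fun z => A z (e i) j)
    (fun i j => hAm _ _) (fun i ρ => characteristic (s (e i)) ⊤ ρ) K
    (fun i j ρ hρ => hK (e i) j ρ hρ)
  have hneg : ∀ k a, ∃ C : ℝ, ∀ ρ, 1 ≤ ρ →
      characteristic (fun z => - A z k a) ⊤ ρ ≤ characteristic (s k) ⊤ ρ + C := by
    intro k a
    obtain ⟨C2, hC2⟩ := char_const_mul_le (hAm k a) (-1)
    refine ⟨K + C2, ?_⟩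
    intro ρ hρ
    have h1 := hC2 ρ hρ
    have h2 := hK k a ρ hρ
    have h3 : (fun z => - A z k a) = (fun z => (-1) * A z k a) := by
      funext z; ring
    rw [h3]
    linarith
  have hneg' : ∃ K' : ℝ, 0 ≤ K' ∧ ∀ k a ρ, 1 ≤ ρ →
      characteristic (fun z => - A z k a) ⊤ ρ ≤ characteristic (s k) ⊤ ρ + K' := by
    choose C hC using hneg
    refine ⟨∑ k, ∑ a, |C k a|, Finset.sum_nonneg (fun k _ => Finset.sum_nonneg
      (fun a _ => abs_nonneg _)), ?_⟩
    intro k a ρ hρ
    have h1 := hC k a ρ hρ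
    have h2 : |C k a| ≤ ∑ k, ∑ a, |C k a| :=
      (Finset.single_le_sum (f := fun a => |C k a|) (fun a _ => abs_nonneg _)
        (Finset.mem_univ a)).trans
      (Finset.single_le_sum (f := fun k => ∑ a, |C k a|)
        (fun k _ => Finset.sum_nonneg (fun a _ => abs_nonneg _)) (Finset.mem_univ k))
    have h3 := le_abs_self (C k a)
    linarith
  obtain ⟨K', hK'0, hK'⟩ := hneg'
  have hNmb : ∀ j : {a : Fin r // a ≠ c}, ∃ C : ℝ, ∀ ρ, 1 ≤ ρ →
      characteristic (Nm j) ⊤ ρ ≤ (Fintype.card {a : Fin r // a ≠ c}).factorial *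
        ∑ i, characteristic (s (e i)) ⊤ ρ + C := by
    intro j
    apply char_det_le (fun i l : {a : Fin r // a ≠ c} => fun z =>
      if l = j then - A z (e i) c else A z (e i) l) _ (fun i ρ => characteristic (s (e i)) ⊤ ρ)
      (|K| + K')
    · intro i l ρ hρ
      by_cases h : l = j
      · simp only [h, if_true]
        have := hK' (e i) c ρ hρ
        have := abs_nonneg K
        linarith
      · simp only [h, if_false]
        have := hK (e i) l ρ hρ
        have := le_abs_self K
        linarith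
    · intro i l
      by_cases h : l = j
      · simp only [h, if_true]
        exact fun z => (hAm (e i) c z).fun_neg
      · simp only [h, if_false]
        exact hAm _ _
  choose C2 hC2 using hNmb
  obtain ⟨C3, hC3⟩ := char_inv_le hΔm
  -- the sum over rows
  have hsum : ∀ ρ, 1 ≤ ρ → (Fintype.card {a : Fin r // a ≠ c}).factorial *
      ∑ i, characteristic (s (e i)) ⊤ ρ ≤ r.factorial * ∑ k, characteristic (s k) ⊤ ρ := by
    intro ρ hρ
    have h1 : (Fintype.card {a : Fin r // a ≠ c}).factorial ≤ r.factorial := by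
      apply Nat.factorial_le
      calc Fintype.card {a : Fin r // a ≠ c} ≤ Fintype.card (Fin r) :=
            Fintype.card_subtype_le _
        _ = r := Fintype.card_fin r
    have h2 : ∑ i, characteristic (s (e i)) ⊤ ρ ≤ ∑ k, characteristic (s k) ⊤ ρ := by
      rw [← Finset.sum_image (s := Finset.univ) (g := e) (f := fun k => characteristic (s k) ⊤ ρ)
        (fun x _ y _ h => hinj h)]
      exact Finset.sum_le_sum_of_subset_of_nonneg (Finset.subset_univ _)
        (fun k _ _ => characteristic_nonneg hρ)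
    have h3 : 0 ≤ ∑ i, characteristic (s (e i)) ⊤ ρ :=
      Finset.sum_nonneg (fun i _ => characteristic_nonneg hρ)
    apply mul_le_mul (by exact_mod_cast h1) h2 h3 (by positivity)
  refine ⟨|C1| + |C3| + ∑ j, |C2 j|, ?_⟩
  intro ρ hρ a
  have hρ0 : ρ ≠ 0 := by linarith
  have hS0 : 0 ≤ ∑ k, characteristic (s k) ⊤ ρ :=
    Finset.sum_nonneg (fun k _ => characteristic_nonneg hρ)
  have hgoal : ∀ T : ℝ, T ≤ 2 * r.factorial * (∑ k, characteristic (s k) ⊤ ρ) +
      (|C1| + |C3| + ∑ j, |C2 j|) → T ≤ 2 * r.factorial * ∑ k : Fin r × Fin r,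
        characteristic (fun z => (∑ a, q (ι (k, 0)) a * φ a z) /
          (∑ a, q (ι (k, 1)) a * φ a z)) ⊤ ρ + (|C1| + |C3| + ∑ j, |C2 j|) := fun T h => h
  apply hgoal
  by_cases hac : a = c
  · subst hac
    have h1 : (fun z => φ a z / φ a z) =ᶠ[codiscrete ℂ] (fun _ => (1 : ℂ)) := by
      filter_upwards [hcev] with z hz
      exact div_self hz
    rw [characteristic_congr_codiscrete h1 hρ0]
    have h2 : characteristic (fun _ : ℂ => (1 : ℂ)) ⊤ ρ = 0 := by
      simp [characteristic]
    rw [h2]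
    have h3 : 0 ≤ ∑ j, |C2 j| := Finset.sum_nonneg (fun j _ => abs_nonneg _)
    positivity
  · set j : {a : Fin r // a ≠ c} := ⟨a, hac⟩ with hj
    have h1 : characteristic (fun z => φ a z / φ c z) ⊤ ρ =
        characteristic (fun z => Nm j z * (Δ z)⁻¹) ⊤ ρ :=
      characteristic_congr_codiscrete (hquot j) hρ0
    rw [h1]
    have h2 := char_mul_le (hNmero j) (fun z => (hΔm z).fun_inv) hρ
    have h3 := hC3 ρ hρ
    have h4 := hC1 ρ hρ
    have h5 := hC2 j ρ hρ
    have h6 := hsum ρ hρ
    have h7 : |C2 j| ≤ ∑ j, |C2 j| :=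
      Finset.single_le_sum (f := fun j => |C2 j|) (fun j _ => abs_nonneg _) (Finset.mem_univ j)
    have h8 := le_abs_self (C2 j)
    have h9 := le_abs_self C1
    have h10 := le_abs_self C3
    have h11 : characteristic Δ ⊤ ρ ≤ (Fintype.card {a : Fin r // a ≠ c}).factorial *
        ∑ i, characteristic (s (e i)) ⊤ ρ + C1 := h4
    linarith

end Pool.Agent.GGL
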