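import Pool.Agent.Lib_MP_b9fedf_ag.Partner
import Pool.Agent.Lib_MP_b9fedf_ag.Gen
import Pool.Agent.Lib_MP_b9fedf_ag.Char
import Pool.Agent.Lib_MP_b9fedf_ag.CharTF
import Pool.Agent.Lib_MP_b9fedf_ag.Circuit

/-! The main estimate. -/

set_option autoImplicit false

namespace Pool.Agent.GGL
open Filter Metric Real Set Function MeromorphicOn ValueDistribution


/-- at most `r - 1` generic combinations vanish identically -/
theorem card_nonvanishing {r M : ℕ} (φ : Fin r → ℂ → ℂ) (hφ0 : ∃ a z, φ a z ≠ 0)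
    (q : Fin M → Fin r → ℂ)
    (hq : ∀ ι : Fin r ↪ Fin M, (Matrix.of fun i a : Fin r => q (ι i) a).det ≠ 0)
    (J : Finset (Fin M)) (hJ : ∀ m, m ∉ J → ∀ z, ∑ a, q m a * φ a z = 0) :
    M + 1 ≤ J.card + r := by
  classical
  by_contra hcon
  push Not at hcon
  have h1 : r ≤ (Finset.univ \ J : Finset (Fin M)).card := by
    have := Finset.card_sdiff_add_card_eq_card (Finset.subset_univ J)
    rw [Finset.card_univ, Fintype.card_fin] at this
    omega
  obtain ⟨W, hW, hWr⟩ := Finset.exists_subset_card_eq h1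
  let ι : Fin r ↪ Fin M := (W.orderEmbOfFin hWr).toEmbedding
  have hι : ∀ i, ∀ z, ∑ a, q (ι i) a * φ a z = 0 := by
    intro i
    apply hJ
    have := hW (Finset.orderEmbOfFin_mem W hWr i)
    exact (Finset.mem_sdiff.mp this).2
  obtain ⟨a, z, haz⟩ := hφ0
  have h2 := Matrix.eq_zero_of_mulVec_eq_zero (hq ι) (v := fun a => φ a z) (by
    ext i
    exact hι i z)
  exact haz (congrFun h2 a)

/-- `N_le_TF` without the non-vanishing assumption -/
theorem N_le_TF' {σ : Type} [Fintype σ] {f : σ → ℂ → ℂ} (hf : ∀ k, Differentiable ℂ (f k))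
    (h0 : ∀ z, ∃ k, f k z ≠ 0) {u : ℂ → ℂ} (hu : Differentiable ℂ u)
    (D : ℕ) (K : ℝ) (hK : ∀ z, ‖u z‖ ≤ K * ‖fun k => f k z‖ ^ D) :
    ∃ C : ℝ, 0 ≤ C ∧ ∀ r, 1 ≤ r →
      Function.locallyFinsuppWithin.logCounting (Dv u) r ≤ D * TF f r + C := by
  by_cases hu0 : ∃ z, u z ≠ 0
  · obtain ⟨C, hC⟩ := N_le_TF hf h0 hu hu0 D K hK
    exact ⟨|C|, abs_nonneg _, fun r hr => (hC r hr).trans (by linarith [le_abs_self C])⟩
  · push Not at hu0
    have hu1 : u = fun _ => 0 := funext hu0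
    obtain ⟨k, hk⟩ := h0 0
    obtain ⟨C, hC⟩ := N_le_TF hf h0 (hf k) ⟨0, hk⟩ 1 1 (fun z => by
      rw [one_mul, pow_one]; exact norm_le_pi_norm (fun k => f k z) k)
    refine ⟨D * |C|, by positivity, fun r hr => ?_⟩
    have h1 : Dv u = 0 := by
      rw [hu1]
      ext z
      rw [MeromorphicOn.divisor_apply (fun z _ => MeromorphicAt.const 0 z) (Set.mem_univ z),
        meromorphicOrderAt_const]
      simp
    have h2 : Function.locallyFinsuppWithin.logCounting (Dv u) r = 0 := by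
      rw [h1, map_zero]; rfl
    have h3 : 0 ≤ Function.locallyFinsuppWithin.logCounting (Dv (f k)) r :=
      Function.locallyFinsuppWithin.logCounting_nonneg (Dv_nonneg (hf k)) hr
    have h4 := hC r hr
    rw [Nat.cast_one, one_mul] at h4
    rw [h2]
    have h5 : 0 ≤ TF f r + |C| := by linarith [le_abs_self C]
    have h6 : (0 : ℝ) ≤ D * (TF f r + |C|) := mul_nonneg (Nat.cast_nonneg D) h5
    linarith

/-- `TF` is bounded below -/
theorem TF_ge {σ : Type} [Fintype σ] {f : σ → ℂ → ℂ} (hf : ∀ k, Differentiable ℂ (f k))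
    (h0 : ∀ z, ∃ k, f k z ≠ 0) : ∃ C : ℝ, 0 ≤ C ∧ ∀ r, 1 ≤ r → 0 ≤ TF f r + C := by
  obtain ⟨k, hk⟩ := h0 0
  obtain ⟨C, hC0, hC⟩ := N_le_TF' hf h0 (hf k) 1 1 (fun z => by
    rw [one_mul, pow_one]; exact norm_le_pi_norm (fun k => f k z) k)
  refine ⟨C, hC0, fun r hr => ?_⟩
  have h3 : 0 ≤ Function.locallyFinsuppWithin.logCounting (Dv (f k)) r :=
    Function.locallyFinsuppWithin.logCounting_nonneg (Dv_nonneg (hf k)) hr
  have h4 := hC r hr
  rw [Nat.cast_one, one_mul] at h4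
  linarith

theorem char_div_le_TF' {σ : Type} [Fintype σ] {f : σ → ℂ → ℂ} (hf : ∀ k, Differentiable ℂ (f k))
    (h0 : ∀ z, ∃ k, f k z ≠ 0) {u v : ℂ → ℂ} (hu : Differentiable ℂ u) (hv : Differentiable ℂ v)
    (hv0 : ∃ z, v z ≠ 0) (D : ℕ) (K K' : ℝ) (hKu : ∀ z, ‖u z‖ ≤ K * ‖fun k => f k z‖ ^ D)
    (hKv : ∀ z, ‖v z‖ ≤ K' * ‖fun k => f k z‖ ^ D) :
    ∃ C : ℝ, 0 ≤ C ∧ ∀ r, 1 ≤ r →
      characteristic (fun z => u z / v z) ⊤ r ≤ D * TF f r + C := by
  obtain ⟨C, hC⟩ := char_div_le_TF hf h0 hu hv hv0 D (max K K')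
    (fun z => (hKu z).trans (mul_le_mul_of_nonneg_right (le_max_left _ _) (by positivity)))
    (fun z => (hKv z).trans (mul_le_mul_of_nonneg_right (le_max_right _ _) (by positivity)))
  exact ⟨|C|, abs_nonneg _, fun r hr => (hC r hr).trans (by linarith [le_abs_self C])⟩

/-- products and powers of differentiable functions: orders -/
lemma Dv_mul_pow {a b : ℂ → ℂ} (ha : Differentiable ℂ a) (hb : Differentiable ℂ b) (E : ℕ)
    (ha0 : ∃ z, a z ≠ 0) (hb0 : ∃ z, b z ≠ 0) (w : ℂ) :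
    Dv (fun z => a z * b z ^ E) w = Dv a w + E * Dv b w := by
  have h1 : Dv (fun z => a z * b z ^ E) = Dv a + divisor (fun z => b z ^ E) univ := by
    apply divisor_fun_mul (mero_of_diff ha).meromorphicOn (mero_of_diff (hb.pow E)).meromorphicOn
    · intro z _; exact mOrder_ne_top ha ha0 z
    · intro z _
      obtain ⟨z', hz'⟩ := hb0
      exact mOrder_ne_top (hb.pow E) ⟨z', pow_ne_zero _ hz'⟩ z
  rw [h1, locallyFinsuppWithin.coe_add, Pi.add_apply,
    divisor_fun_pow (mero_of_diff hb).meromorphicOn, locallyFinsuppWithin.coe_nsmul,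
    Pi.smul_apply, nsmul_eq_mul]


lemma codiscrete_ne {g : ℂ → ℂ} (hg : Differentiable ℂ g) (hne : ∃ z, g z ≠ 0) :
    ∀ᶠ z in codiscrete ℂ, g z ≠ 0 := by
  obtain ⟨x, hx⟩ := hne
  exact AnalyticOnNhd.preimage_zero_mem_codiscrete (f := g) (x := x)
    (fun z _ => hg.analyticAt z) hx

lemma Dv_pow {g : ℂ → ℂ} (hg : Differentiable ℂ g) (e : ℕ) (w : ℂ) :
    Dv (fun z => g z ^ e) w = e * Dv g w := by
  change (divisor (fun z => g z ^ e) univ) w = _
  rw [divisor_fun_pow (mero_of_diff hg).meromorphicOn, locallyFinsuppWithin.coe_nsmul,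
    Pi.smul_apply, nsmul_eq_mul]

/-- triangle inequality for characteristics of quotients -/
lemma char_div_tri {u v w : ℂ → ℂ} (hu : Differentiable ℂ u) (hv : Differentiable ℂ v)
    (hw : Differentiable ℂ w) (hw0 : ∃ z, w z ≠ 0) :
    ∃ C : ℝ, 0 ≤ C ∧ ∀ r, 1 ≤ r → characteristic (fun z => u z / v z) ⊤ r ≤
      characteristic (fun z => u z / w z) ⊤ r + characteristic (fun z => v z / w z) ⊤ r + C := by
  obtain ⟨C, hC⟩ := char_inv_le (div_mero hv hw)
  refine ⟨|C|, abs_nonneg _, fun r hr => ?_⟩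
  have h1 : (fun z => u z / v z) =ᶠ[codiscrete ℂ] (fun z => (u z / w z) * (v z / w z)⁻¹) := by
    filter_upwards [codiscrete_ne hw hw0] with z hz
    by_cases hvz : v z = 0
    · rw [hvz]; simp
    · field_simp
  rw [characteristic_congr_codiscrete h1 (by linarith)]
  have h2 := char_mul_le (div_mero hu hw) (div_mero hv hw).fun_inv hr
  have h3 := hC r hr
  have h4 := le_abs_self C
  linarith

/-- **Main estimate.** -/
theorem pairs_bound {σ κ : Type} [Fintype σ] [Fintype κ] {r M : ℕ}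
    (f : σ → ℂ → ℂ) (hf : ∀ k, Differentiable ℂ (f k)) (h0 : ∀ z, ∃ k, f k z ≠ 0)
    (δ : ℕ) (K : ℝ) (φ : Fin r → ℂ → ℂ) (hφ : ∀ a, Differentiable ℂ (φ a))
    (hφK : ∀ a z, ‖φ a z‖ ≤ K * ‖fun k => f k z‖ ^ δ) (hφ0 : ∃ a z, φ a z ≠ 0)
    (a b : κ → ℂ → ℂ) (ha : ∀ i, Differentiable ℂ (a i)) (hb : ∀ i, Differentiable ℂ (b i))
    (haK : ∀ i z, ‖a i z‖ ≤ ‖fun k => f k z‖) (hbK : ∀ i z, ‖b i z‖ ≤ ‖fun k => f k z‖)
    (E e : ℕ) (hE : 1 ≤ E) (he : 1 ≤ e) (hEe : E + 1 = δ * e) (β : Fin M → ℂ)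
    (hβ : ∀ m, β m ≠ 0) (q : Fin M → Fin r → ℂ)
    (hq : ∀ ι : Fin r ↪ Fin M, (Matrix.of fun i a : Fin r => q (ι i) a).det ≠ 0)
    (hM : 4 * r ^ 2 + r + 2 * Fintype.card κ ≤ M)
    (hrel : ∀ z, ∑ i, a i z * b i z ^ E + ∑ m, β m * (∑ c, q m c * φ c z) ^ e = 0) :
    ∃ ι : (Fin r × Fin r) × Fin 2 ↪ Fin M, (∀ p, ∃ z, ∑ a, q (ι p) a * φ a z ≠ 0) ∧
      ∃ C : ℝ, 0 ≤ C ∧ ∀ ρ δ' : ℝ, 1 ≤ ρ → 0 < δ' → δ' ≤ 1 → ∃ ρ' ∈ Set.Icc ρ (ρ + δ'), ∀ k,
        e * characteristic (fun z => (∑ a, q (ι (k, 0)) a * φ a z) /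
          (∑ a, q (ι (k, 1)) a * φ a z)) ⊤ ρ' ≤
          2 * (((Fintype.card κ : ℝ) * (1 + (Fintype.card κ + M)) +
            M * ((Fintype.card κ + M) * δ)) * TF f ρ') +
           C * (1 + Real.log ((1 + |TF f (ρ + 2 * δ')|) * (ρ + 2) / δ')) := by
  classical
  have hK0 : ∀ z, 0 ≤ ‖fun k => f k z‖ := fun z => norm_nonneg _
  -- the functions `Q m`
  set Q : Fin M → ℂ → ℂ := fun m z => ∑ c, q m c * φ c z with hQdef
  have hQd : ∀ m, Differentiable ℂ (Q m) := fun m =>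
    Differentiable.fun_sum fun c _ => (hφ c).const_mul _
  have hQK : ∀ m z, ‖Q m z‖ ≤ ((∑ c, ‖q m c‖) * K) * ‖fun k => f k z‖ ^ δ := by
    intro m z
    calc ‖Q m z‖ ≤ ∑ c, ‖q m c * φ c z‖ := norm_sum_le _ _
      _ ≤ ∑ c, ‖q m c‖ * (K * ‖fun k => f k z‖ ^ δ) := by
          apply Finset.sum_le_sum
          intro c _
          rw [norm_mul]
          exact mul_le_mul_of_nonneg_left (hφK c z) (norm_nonneg _)
      _ = _ := by rw [← Finset.sum_mul]; ring
  -- the terms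
  set h : κ ⊕ Fin M → ℂ → ℂ := Sum.elim (fun i z => a i z * b i z ^ E)
    (fun m z => β m * Q m z ^ e) with hh
  have hhd : ∀ j, Differentiable ℂ (h j) := by
    rintro (i | m)
    · exact (ha i).mul ((hb i).pow E)
    · exact ((hQd m).pow e).const_mul _
  have hsum : ∀ z, ∑ j, h j z = 0 := by
    intro z
    rw [Fintype.sum_sum_type]
    exact hrel z
  have hQne : ∀ m, (∃ z, h (Sum.inr m) z ≠ 0) → ∃ z, Q m z ≠ 0 := by
    rintro m ⟨z, hz⟩
    refine ⟨z, fun hz0 => hz ?_⟩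
    simp only [hh, Sum.elim_inr, hz0]
    rw [zero_pow (by omega), mul_zero]
  have hQne' : ∀ m, (∃ z, Q m z ≠ 0) → ∃ z, h (Sum.inr m) z ≠ 0 := by
    rintro m ⟨z, hz⟩
    refine ⟨z, ?_⟩
    simp only [hh, Sum.elim_inr]
    exact mul_ne_zero (hβ m) (pow_ne_zero _ hz)
  obtain ⟨U, hU0, hUJ, hUrep⟩ := exists_partner h hsum
  -- counting
  set J : Finset (Fin M) := Finset.univ.filter (fun m => ∃ z, Q m z ≠ 0) with hJ
  have hJmem : ∀ m, m ∈ J ↔ ∃ z, Q m z ≠ 0 := fun m => by rw [hJ, Finset.mem_filter]; simp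
  have hUJs : U ⊆ J := fun m hm => (hJmem m).mpr (hQne m (hU0 m hm))
  have hcJ : M + 1 ≤ J.card + r := card_nonvanishing φ hφ0 q hq J (fun m hm z => by
    rw [hJmem] at hm
    push Not at hm
    exact hm z)
  have hcU : J.card ≤ U.card + Fintype.card κ := hUJ J (fun m hm => hQne' m ((hJmem m).mp hm))
  -- the partner map
  have hUrep' : ∀ m ∈ U, ∃ m' : Fin M, m' ≠ m ∧ ∃ (i : {j // ∃ z, h j z ≠ 0})
      (t : Finset {j // ∃ z, h j z ≠ 0})
        (c : {j // ∃ z, h j z ≠ 0} → ℂ), i.1 = Sum.inr m ∧ i ∉ t ∧ (∀ j ∈ t, c j ≠ 0) ∧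
        (∀ z, h i.1 z = ∑ j ∈ t, c j * h j.1 z) ∧
        (∀ a : {j // ∃ z, h j z ≠ 0} → ℂ, (∀ z, ∑ j ∈ t, a j * h j.1 z = 0) →
          ∀ j ∈ t, a j = 0) ∧ ∃ j ∈ t, j.1 = Sum.inr m' := by
    intro m hm
    obtain ⟨i, t, c, h1, h2, h3, h4, h5, j, hj, m', hm', hjm'⟩ := hUrep m hm
    exact ⟨m', hm', i, t, c, h1, h2, h3, h4, h5, j, hj, hjm'⟩
  choose! mr hmne hrest using hUrep'
  have hmr : ∀ m ∈ U, mr m ∈ J ∧ mr m ≠ m := by
    intro m hm
    refine ⟨(hJmem _).mpr (hQne _ ?_), hmne m hm⟩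
    obtain ⟨i, t, c, h1, h2, h3, h4, h5, j, hj, hjm'⟩ := hrest m hm
    rw [← hjm']
    exact j.2
  obtain ⟨ι, hι⟩ := exists_pairs (κ := Fin r × Fin r) J U hUJs mr hmr (by
    rw [Fintype.card_prod, Fintype.card_fin]
    have : r ^ 2 = r * r := sq r
    omega)
  refine ⟨ι, ?_, ?_⟩
  · rintro ⟨k, s⟩
    have hk := hι k
    fin_cases s
    · exact (hJmem _).mp (hUJs hk.1)
    · exact (hJmem _).mp (hUJs hk.2.1)
  -- the divisor
  set L : ℕ := Fintype.card κ + M with hL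
  set Dj : κ ⊕ Fin M → locallyFinsupp ℂ ℤ := Sum.elim (fun i => Dv (a i) + L • Dv (b i))
    (fun m => L • Dv (Q m)) with hDj
  have hDj0 : ∀ j, 0 ≤ Dj j := by
    rintro (i | m)
    · exact add_nonneg (Dv_nonneg (ha i)) (nsmul_nonneg (Dv_nonneg (hb i)) L)
    · exact nsmul_nonneg (Dv_nonneg (hQd m)) L
  let I : Type := {j // ∃ z, h j z ≠ 0}
  have hcardI : Fintype.card I ≤ L := by
    have := Fintype.card_subtype_le (fun j : κ ⊕ Fin M => ∃ z, h j z ≠ 0)
    rw [Fintype.card_sum, Fintype.card_fin] at this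
    exact this
  have hterm : ∀ j : I, ∀ w, min (Dv (h j.1) w) (Fintype.card I : ℤ) ≤ Dj j.1 w := by
    rintro ⟨j, hj⟩ w
    have hcI : (Fintype.card I : ℤ) ≤ L := by exact_mod_cast hcardI
    have hL0 : (0 : ℤ) ≤ L := by positivity
    rcases j with i | m
    · obtain ⟨z, hz⟩ := hj
      simp only [hh, Sum.elim_inl] at hz
      have ha0 : ∃ z, a i z ≠ 0 := ⟨z, left_ne_zero_of_mul hz⟩
      have hb0 : ∃ z, b i z ≠ 0 := ⟨z, fun h => hz (by rw [h, zero_pow (by omega), mul_zero])⟩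
      have h1 : Dv (h (Sum.inl i)) w = Dv (a i) w + E * Dv (b i) w :=
        Dv_mul_pow (ha i) (hb i) E ha0 hb0 w
      have h2 : Dj (Sum.inl i) w = Dv (a i) w + L * Dv (b i) w := by
        simp only [hDj, Sum.elim_inl]
        rw [locallyFinsuppWithin.coe_add, Pi.add_apply, locallyFinsuppWithin.coe_nsmul,
          Pi.smul_apply, nsmul_eq_mul]
      have ha1 : 0 ≤ Dv (a i) w := Dv_nonneg (ha i) w
      have hb1 : 0 ≤ Dv (b i) w := Dv_nonneg (hb i) w
      change min (Dv (h (Sum.inl i)) w) _ ≤ Dj (Sum.inl i) w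
      rw [h1, h2]
      rcases eq_or_lt_of_le hb1 with hb2 | hb2
      · rw [← hb2]; simp
      · refine (min_le_right _ _).trans ?_
        nlinarith
    · have hq0 := hQne m hj
      have h1 : Dv (h (Sum.inr m)) w = e * Dv (Q m) w := by
        have e1 : Dv (h (Sum.inr m)) w = Dv (fun z => Q m z ^ e) w :=
          Dv_const_mul ((hQd m).pow e) (hβ m) w
        rw [e1, Dv_pow (hQd m)]
      have h2 : Dj (Sum.inr m) w = L * Dv (Q m) w := by
        simp only [hDj, Sum.elim_inr]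
        rw [locallyFinsuppWithin.coe_nsmul, Pi.smul_apply, nsmul_eq_mul]
      have hb1 : 0 ≤ Dv (Q m) w := Dv_nonneg (hQd m) w
      change min (Dv (h (Sum.inr m)) w) _ ≤ Dj (Sum.inr m) w
      rw [h1, h2]
      rcases eq_or_lt_of_le hb1 with hb2 | hb2
      · rw [← hb2]; simp
      · refine (min_le_right _ _).trans ?_
        nlinarith
  set E₀ : locallyFinsupp ℂ ℤ := ∑ j, Dj j with hE₀
  have hE₀le : ∀ w, ∑ j : I, min (Dv (h j.1) w) (Fintype.card I : ℤ) ≤ E₀ w := by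
    intro w
    rw [hE₀, locallyFinsuppWithin.coe_sum, Finset.sum_apply]
    calc ∑ j : I, min (Dv (h j.1) w) (Fintype.card I : ℤ) ≤ ∑ j : I, Dj j.1 w :=
          Finset.sum_le_sum fun j _ => hterm j w
      _ = ∑ j ∈ Finset.univ.filter (fun j => ∃ z, h j z ≠ 0), Dj j w := by
          rw [Finset.sum_subtype (p := fun j => ∃ z, h j z ≠ 0) (F := inferInstance)
            (Finset.univ.filter (fun j => ∃ z, h j z ≠ 0)) (fun j => by simp)
            (fun j => Dj j w)]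
      _ ≤ ∑ j, Dj j w := by
          apply Finset.sum_le_sum_of_subset_of_nonneg (Finset.filter_subset _ _)
          intro j _ _
          exact hDj0 j w
  -- its counting function
  choose Ca hCa0 hCa using fun i => N_le_TF' hf h0 (ha i) 1 1 (fun z => by
    rw [one_mul, pow_one]; exact haK i z)
  choose Cb hCb0 hCb using fun i => N_le_TF' hf h0 (hb i) 1 1 (fun z => by
    rw [one_mul, pow_one]; exact hbK i z)
  choose Cq hCq0 hCq using fun m => N_le_TF' hf h0 (hQd m) δ _ (hQK m)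
  set A : ℝ := (Fintype.card κ : ℝ) * (1 + (Fintype.card κ + M)) +
            M * ((Fintype.card κ + M) * δ) with hA
  set CE : ℝ := ∑ i, (Ca i + L * Cb i) + ∑ m, L * Cq m with hCE
  have hCE0 : 0 ≤ CE := by
    apply add_nonneg
    · exact Finset.sum_nonneg fun i _ => add_nonneg (hCa0 i) (mul_nonneg (Nat.cast_nonneg _) (hCb0 i))
    · exact Finset.sum_nonneg fun m _ => mul_nonneg (Nat.cast_nonneg _) (hCq0 m)
  have hNE : ∀ ρ, 1 ≤ ρ → Function.locallyFinsuppWithin.logCounting E₀ ρ ≤ A * TF f ρ + CE := by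
    intro ρ hρ
    rw [hE₀, map_sum, Finset.sum_apply, Fintype.sum_sum_type]
    have h1 : ∀ i, Function.locallyFinsuppWithin.logCounting (Dj (Sum.inl i)) ρ ≤
        (1 + L) * TF f ρ + (Ca i + L * Cb i) := by
      intro i
      simp only [hDj, Sum.elim_inl]
      rw [map_add, map_nsmul, Pi.add_apply, Pi.smul_apply, nsmul_eq_mul]
      have e1 := hCa i ρ hρ
      have e2 := hCb i ρ hρ
      rw [Nat.cast_one, one_mul] at e1 e2
      have e3 := mul_le_mul_of_nonneg_left e2 (Nat.cast_nonneg (α := ℝ) L)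
      linarith
    have h2 : ∀ m, Function.locallyFinsuppWithin.logCounting (Dj (Sum.inr m)) ρ ≤
        (L * δ) * TF f ρ + L * Cq m := by
      intro m
      simp only [hDj, Sum.elim_inr]
      rw [map_nsmul, Pi.smul_apply, nsmul_eq_mul]
      have e1 := hCq m ρ hρ
      have e3 := mul_le_mul_of_nonneg_left e1 (Nat.cast_nonneg (α := ℝ) L)
      linarith
    have h3 := Finset.sum_le_sum fun i (_ : i ∈ (Finset.univ : Finset κ)) => h1 i
    have h4 := Finset.sum_le_sum fun m (_ : m ∈ (Finset.univ : Finset (Fin M))) => h2 m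
    rw [Finset.sum_add_distrib, Finset.sum_const, Finset.card_univ, nsmul_eq_mul] at h3
    rw [Finset.sum_add_distrib, Finset.sum_const, Finset.card_univ, Fintype.card_fin,
      nsmul_eq_mul] at h4
    have h5 : (L : ℝ) = Fintype.card κ + M := by rw [hL]; push_cast; rfl
    rw [hCE, hA]
    rw [h5] at h3 h4 ⊢
    linarith
  -- Cartan's theorem for the circuits
  have hcirc : ∀ m, m ∈ U → ∃ C : ℝ, ∀ ρ B : ℝ, 1 ≤ ρ → 1 ≤ B →
      (∀ k l : I, ∀ z ∈ sphere (0 : ℂ) ρ, AnalyticAt ℂ (fun z => h k.1 z / h l.1 z) z → ∀ n : ℕ,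
        ‖iteratedDeriv n (fun z => h k.1 z / h l.1 z) z‖ ≤
          Real.exp 1 * n.factorial * B ^ n * ‖h k.1 z / h l.1 z‖) →
      characteristic (fun z => h (Sum.inr m) z / h (Sum.inr (mr m)) z) ⊤ ρ ≤
        Function.locallyFinsuppWithin.logCounting E₀ ρ + C +
          (Fintype.card I : ℝ) ^ 2 * Real.log B := by
    intro m hm
    obtain ⟨i, t, c, h1, h2, h3, h4, h5, j, hj, hjm'⟩ := hrest m hm
    obtain ⟨C, hC⟩ := circuit (fun j : I => h j.1) (fun j => hhd j.1) (fun j => j.2) i t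
      h2 c h3 h4 h5 E₀ hE₀le
    refine ⟨C, fun ρ B hρ hB hder => ?_⟩
    have := hC ρ B hρ hB hder j hj
    rw [h1, hjm'] at this
    exact this
  choose! Cc hCc using hcirc
  -- the logarithmic derivative lemma
  obtain ⟨C1, hC11, hC1⟩ := ldl (fun (p : I × I) z => h p.1.1 z / h p.2.1 z)
    (fun p => div_mero (hhd _) (hhd _))
    (fun p z => div_order_ne_top (hhd _) (hhd _) p.1.2 p.2.2 z)
  have hhK : ∀ j, ∃ K' : ℝ, ∀ z, ‖h j z‖ ≤ K' * ‖fun k => f k z‖ ^ (E + 1) := by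
    rintro (i | m)
    · refine ⟨1, fun z => ?_⟩
      simp only [hh, Sum.elim_inl]
      rw [norm_mul, norm_pow, one_mul, pow_succ']
      exact mul_le_mul (haK i z) (pow_le_pow_left₀ (norm_nonneg _) (hbK i z) E) (by positivity)
        (hK0 z)
    · refine ⟨‖β m‖ * (((∑ c, ‖q m c‖) * K) ^ e), fun z => ?_⟩
      simp only [hh, Sum.elim_inr]
      rw [norm_mul, norm_pow, hEe, pow_mul, mul_assoc, ← mul_pow]
      exact mul_le_mul_of_nonneg_left (pow_le_pow_left₀ (norm_nonneg _) (hQK m z) e)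
        (norm_nonneg _)
  choose Kh hKh using hhK
  choose C2 hC20 hC2 using fun p : I × I => char_div_le_TF' hf h0 (hhd p.1.1) (hhd p.2.1) p.2.2
    (E + 1) (Kh p.1.1) (Kh p.2.1) (hKh _) (hKh _)
  set C3 : ℝ := ∑ p : I × I, (((E + 1 : ℕ) : ℝ) + C2 p) with hC3
  have hC30 : 0 ≤ C3 := Finset.sum_nonneg fun p _ => add_nonneg (Nat.cast_nonneg _) (hC20 p)
  have hsumG : ∀ ρ, 1 ≤ ρ → ∑ p : I × I, characteristic (fun z => h p.1.1 z / h p.2.1 z) ⊤ ρ ≤
      C3 * (1 + |TF f ρ|) := by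
    intro ρ hρ
    rw [hC3, Finset.sum_mul]
    apply Finset.sum_le_sum
    intro p _
    have e1 := hC2 p ρ hρ
    have e2 := le_abs_self (TF f ρ)
    have e3 := abs_nonneg (TF f ρ)
    have e4 : (0 : ℝ) ≤ ((E + 1 : ℕ) : ℝ) := Nat.cast_nonneg _
    nlinarith [mul_le_mul_of_nonneg_left e2 e4, mul_nonneg (hC20 p) e3]
  -- powers
  have hpow : ∀ m, m ∈ U → ∃ C : ℝ, 0 ≤ C ∧ ∀ ρ, 1 ≤ ρ →
      e * characteristic (fun z => Q m z / Q (mr m) z) ⊤ ρ ≤
        characteristic (fun z => h (Sum.inr m) z / h (Sum.inr (mr m)) z) ⊤ ρ + C := by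
    intro m _
    obtain ⟨C, hC⟩ := char_const_mul_le (div_mero (hhd (Sum.inr m)) (hhd (Sum.inr (mr m))))
      (β (mr m) / β m)
    refine ⟨|C|, abs_nonneg _, fun ρ hρ => ?_⟩
    have e1 := hC ρ hρ
    have e2 : (fun z => β (mr m) / β m * (h (Sum.inr m) z / h (Sum.inr (mr m)) z)) =
        (fun z => Q m z / Q (mr m) z) ^ e := by
      ext z
      simp only [hh, Sum.elim_inr, Pi.pow_apply]
      rw [div_pow]
      have b1 := hβ m
      have b2 := hβ (mr m)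
      by_cases hz : Q (mr m) z = 0
      · rw [hz, zero_pow (by omega)]; simp
      · field_simp
    rw [e2, characteristic_pow_top (div_mero (hQd m) (hQd (mr m))), Pi.smul_apply,
      nsmul_eq_mul] at e1
    have e3 := le_abs_self C
    linarith
  choose! Cp hCp0 hCp using hpow
  -- triangle inequality constants
  choose C6 hC60 hC6 using fun k : Fin r × Fin r => char_div_tri (hQd (ι (k, 0)))
    (hQd (ι (k, 1))) (hQd (mr (ι (k, 0)))) ((hJmem _).mp (hmr _ (hι k).1).1)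
  set C4 : ℝ := Real.log C1 + 4 * Real.log (1 + C3) + 4 with hC4
  have hlogC1 : 0 ≤ Real.log C1 := Real.log_nonneg hC11
  have hlogC3 : 0 ≤ Real.log (1 + C3) := Real.log_nonneg (by linarith)
  have hC40 : 0 ≤ C4 := by rw [hC4]; positivity
  set C5 : ℝ := CE + ∑ m ∈ U, (|Cc m| + Cp m) with hC5
  have hC50 : 0 ≤ C5 := add_nonneg hCE0 (Finset.sum_nonneg fun m hm =>
    add_nonneg (abs_nonneg _) (hCp0 m hm))
  have hsC6 : 0 ≤ ∑ k, C6 k := Finset.sum_nonneg fun k _ => hC60 k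
  refine ⟨2 * C5 + 2 * ((Fintype.card I : ℝ) ^ 2 * C4) + e * ∑ k, C6 k, by positivity, ?_⟩
  intro ρ δ' hρ hδ0 hδ1
  obtain ⟨ρ', hρ', B, hB1, hBle, hder⟩ := hC1 ρ δ' hρ hδ0 hδ1
  refine ⟨ρ', hρ', ?_⟩
  have hρ'1 : 1 ≤ ρ' := hρ.trans hρ'.1
  set R : ℝ := ρ + 2 * δ' with hR
  have hR1 : 1 ≤ R := by rw [hR]; linarith
  set X : ℝ := (1 + |TF f R|) * (ρ + 2) / δ' with hX
  have hX1 : 1 ≤ X := by
    rw [hX, le_div_iff₀ hδ0]
    have := abs_nonneg (TF f R)
    nlinarith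
  have hlogX : 0 ≤ Real.log X := Real.log_nonneg hX1
  have hlogB : Real.log B ≤ C4 * (1 + Real.log X) := by
    have e1 := hsumG R hR1
    have e2 : (0 : ℝ) ≤ ∑ p : I × I, characteristic (fun z => h p.1.1 z / h p.2.1 z) ⊤ R :=
      Finset.sum_nonneg fun p _ => characteristic_nonneg hR1
    have e3 := abs_nonneg (TF f R)
    have e4 : (1 + ∑ p : I × I, characteristic (fun z => h p.1.1 z / h p.2.1 z) ⊤ R) * (ρ + 2) / δ' ≤
        (1 + C3) * X := by
      rw [hX, mul_div_assoc, mul_div_assoc, ← mul_assoc]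
      apply mul_le_mul_of_nonneg_right _ (by positivity)
      nlinarith [mul_nonneg hC30 e3]
    have e5 : 0 < (1 + ∑ p : I × I, characteristic (fun z => h p.1.1 z / h p.2.1 z) ⊤ R) *
        (ρ + 2) / δ' := by positivity
    have e6 : B ≤ C1 * ((1 + C3) * X) ^ 4 := hBle.trans (by
      apply mul_le_mul_of_nonneg_left _ (by linarith)
      exact pow_le_pow_left₀ e5.le e4 4)
    have e7 := Real.log_le_log (by linarith) e6
    rw [Real.log_mul (by linarith) (by positivity), Real.log_pow,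
      Real.log_mul (by linarith) (by linarith)] at e7
    push_cast at e7
    rw [hC4]
    nlinarith [mul_nonneg hlogC1 hlogX, mul_nonneg hlogC3 hlogX]
  have hone : ∀ m ∈ U, e * characteristic (fun z => Q m z / Q (mr m) z) ⊤ ρ' ≤
      A * TF f ρ' + C5 + (Fintype.card I : ℝ) ^ 2 * (C4 * (1 + Real.log X)) := by
    intro m hm
    have e1 := hCp m hm ρ' hρ'1
    have e2 := hCc m hm ρ' B hρ'1 hB1 (fun k l z hz han n => hder (k, l) z hz han n)
    have e3 := hNE ρ' hρ'1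
    have e4 : |Cc m| + Cp m ≤ ∑ m ∈ U, (|Cc m| + Cp m) :=
      Finset.single_le_sum (f := fun m => |Cc m| + Cp m) (fun m hm =>
        add_nonneg (abs_nonneg _) (hCp0 m hm)) hm
    have e5 := le_abs_self (Cc m)
    have e6 := mul_le_mul_of_nonneg_left hlogB (sq_nonneg (Fintype.card I : ℝ))
    rw [hC5]
    linarith
  intro k
  obtain ⟨hk0, hk1, hk2⟩ := hι k
  have e1 := hone _ hk0
  have e2 := hone _ hk1
  have e3 : C6 k ≤ ∑ k, C6 k := Finset.single_le_sum (f := C6) (fun k _ => hC60 k)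
    (Finset.mem_univ k)
  have e0 : (0 : ℝ) ≤ e := Nat.cast_nonneg e
  have e4 : (e : ℝ) * C6 k ≤ e * ∑ k, C6 k := mul_le_mul_of_nonneg_left e3 e0
  have e5 : (0 : ℝ) ≤ (e * ∑ k, C6 k) * Real.log X := by positivity
  have e6 : (0 : ℝ) ≤ 2 * C5 * Real.log X := by positivity
  have e9 : (0 : ℝ) ≤ e * ∑ k, C6 k := by positivity
  rcases hk2 with hk2 | hk2
  · rw [← hk2] at e1
    have e7 : 0 ≤ e * characteristic (fun z => Q (ι (k, 0)) z / Q (ι (k, 1)) z) ⊤ ρ' :=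
      mul_nonneg e0 (characteristic_nonneg hρ'1)
    have e8 : e * characteristic (fun z => Q (ι (k, 0)) z / Q (ι (k, 1)) z) ⊤ ρ' ≤
        2 * (A * TF f ρ' + C5 + (Fintype.card I : ℝ) ^ 2 * (C4 * (1 + Real.log X))) := by
      linarith
    refine e8.trans ?_
    nlinarith
  · have e7 := hC6 k ρ' hρ'1
    rw [← hk2] at e2
    have e8 := mul_le_mul_of_nonneg_left e7 e0
    nlinarith

end Pool.Agent.GGL
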