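import Pool.Agent.Lib_MP_b9fedf_ag.Defs2
import Pool.Agent.Lib_MP_b9fedf_ag.Green

/-! Combinatorics of the terms of the relation. -/

set_option autoImplicit false

namespace Pool.Agent.GGL
open Filter Metric Real Set Function MeromorphicOn ValueDistribution

/-- All but few of the terms of the second kind have a minimal representation by the other terms in
which another term of the second kind occurs. -/
theorem exists_partner {κ : Type} [Fintype κ] {M : ℕ} (h : κ ⊕ Fin M → ℂ → ℂ)
    (hsum : ∀ z, ∑ j, h j z = 0) :
    ∃ U : Finset (Fin M), (∀ m ∈ U, ∃ z, h (Sum.inr m) z ≠ 0) ∧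
      (∀ J : Finset (Fin M), (∀ m ∈ J, ∃ z, h (Sum.inr m) z ≠ 0) →
        J.card ≤ U.card + Fintype.card κ) ∧
      ∀ m ∈ U, ∃ (i : {j // ∃ z, h j z ≠ 0}) (t : Finset {j // ∃ z, h j z ≠ 0})
        (c : {j // ∃ z, h j z ≠ 0} → ℂ), i.1 = Sum.inr m ∧ i ∉ t ∧ (∀ j ∈ t, c j ≠ 0) ∧
        (∀ z, h i.1 z = ∑ j ∈ t, c j * h j.1 z) ∧
        (∀ a : {j // ∃ z, h j z ≠ 0} → ℂ, (∀ z, ∑ j ∈ t, a j * h j.1 z = 0) →
          ∀ j ∈ t, a j = 0) ∧
        ∃ j ∈ t, ∃ m' : Fin M, m' ≠ m ∧ j.1 = Sum.inr m' := by
  classical
  -- abbreviate the index type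
  let I : Type := {j // ∃ z, h j z ≠ 0}
  let g : I → (ℂ → ℂ) := fun j => h j.1
  let P : Fin M → Prop := fun m => ∃ (i : I) (t : Finset I)
        (c : I → ℂ), i.1 = Sum.inr m ∧ i ∉ t ∧ (∀ j ∈ t, c j ≠ 0) ∧
        (∀ z, h i.1 z = ∑ j ∈ t, c j * h j.1 z) ∧
        (∀ a : I → ℂ, (∀ z, ∑ j ∈ t, a j * h j.1 z = 0) →
          ∀ j ∈ t, a j = 0) ∧
        ∃ j ∈ t, ∃ m' : Fin M, m' ≠ m ∧ j.1 = Sum.inr m'
  -- minimal representations out of span membership
  have hmin : ∀ (m : Fin M) (i : I), i.1 = Sum.inr m → ∀ s : Finset I, i ∉ s →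
      g i ∈ Submodule.span ℂ (g '' (s : Set I)) →
      ∃ t ⊆ s, ∃ c : I → ℂ, (∀ j ∈ t, c j ≠ 0) ∧ (∀ z, h i.1 z = ∑ j ∈ t, c j * h j.1 z) ∧
        (∀ a : I → ℂ, (∀ z, ∑ j ∈ t, a j * h j.1 z = 0) → ∀ j ∈ t, a j = 0) := by
    intro m i _ s _ hs
    obtain ⟨t, hts, c, hc, hx, hind⟩ := exists_min_span g (g i) s hs
    refine ⟨t, hts, c, hc, fun z => ?_, fun a ha => hind a ?_⟩
    · have := congrFun hx z
      simp only [Finset.sum_apply, Pi.smul_apply, smul_eq_mul] at this
      exact this
    · ext z
      have := ha z
      simp only [Finset.sum_apply, Pi.smul_apply, smul_eq_mul, Pi.zero_apply]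
      exact this
  refine ⟨Finset.univ.filter P, ?_, ?_, ?_⟩
  · intro m hm
    obtain ⟨i, t, c, hi, _⟩ := (Finset.mem_filter.mp hm).2
    have := i.2
    rw [hi] at this
    exact this
  · intro J hJ
    -- the exceptional elements
    have h1 : (J \ Finset.univ.filter P).card ≤ Fintype.card κ := by
      by_contra hcon
      push Not at hcon
      set W : Finset (Fin M) := J \ Finset.univ.filter P with hW
      have hWJ : ∀ m : W, ∃ z, h (Sum.inr m.1) z ≠ 0 := fun m =>
        hJ m.1 (Finset.mem_sdiff.mp m.2).1
      have hWP : ∀ m : W, ¬ P m.1 := fun m hP =>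
        (Finset.mem_sdiff.mp m.2).2 (Finset.mem_filter.mpr ⟨Finset.mem_univ _, hP⟩)
      let jm : W → I := fun m => ⟨Sum.inr m.1, hWJ m⟩
      -- the terms of `W` lie in the span of the terms of the first kind
      have hspan : ∀ m : W, g (jm m) ∈ Submodule.span ℂ
          (Set.range fun i : κ => h (Sum.inl i)) := by
        intro m
        have h2 : g (jm m) ∈ Submodule.span ℂ (g '' ((Finset.univ.erase (jm m) : Finset I) : Set I)) := by
          have h3 : g (jm m) = - ∑ j ∈ Finset.univ.erase (jm m), g j := by
            ext z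
            have h4 : ∑ j : I, h j.1 z = 0 := by
              refine Eq.trans ?_ (hsum z)
              have h5 : ∑ j : I, h j.1 z = ∑ j ∈ Finset.univ.filter (fun j => ∃ z, h j z ≠ 0), h j z := by
                rw [Finset.sum_subtype (p := fun j => ∃ z, h j z ≠ 0) (F := inferInstance)
                  (Finset.univ.filter (fun j => ∃ z, h j z ≠ 0)) (fun j => by simp)
                  (fun j => h j z)]
              rw [h5]
              apply Finset.sum_subset (Finset.filter_subset _ _)
              intro j _ hj
              rw [Finset.mem_filter] at hj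
              by_contra h6
              exact hj ⟨Finset.mem_univ _, z, h6⟩
            rw [← Finset.add_sum_erase _ _ (Finset.mem_univ (jm m))] at h4
            simp only [Pi.neg_apply, Finset.sum_apply]
            exact eq_neg_of_add_eq_zero_left h4
          rw [h3]
          apply Submodule.neg_mem
          apply Submodule.sum_mem
          intro j hj
          exact Submodule.subset_span ⟨j, hj, rfl⟩
        obtain ⟨t, hts, c, hc, hx, hind⟩ := hmin m.1 (jm m) rfl _ (Finset.notMem_erase _ _) h2
        have hit : jm m ∉ t := fun h => Finset.notMem_erase _ _ (hts h)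
        have h7 : ∀ j ∈ t, ∃ i : κ, j.1 = Sum.inl i := by
          intro j hj
          rcases hj' : j.1 with i | m'
          · exact ⟨i, rfl⟩
          · exfalso
            by_cases hm : m' = m.1
            · apply hit
              have : j = jm m := Subtype.ext (by rw [hj', hm])
              rwa [← this]
            · exact hWP m ⟨jm m, t, c, rfl, hit, hc, hx, hind, j, hj, m', hm, hj'⟩
        have h8 : g (jm m) = ∑ j ∈ t, c j • g j := by
          ext z
          simp only [Finset.sum_apply, Pi.smul_apply, smul_eq_mul]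
          exact hx z
        rw [h8]
        apply Submodule.sum_mem
        intro j hj
        apply Submodule.smul_mem
        obtain ⟨i, hi⟩ := h7 j hj
        apply Submodule.subset_span
        exact ⟨i, by simp only [g, hi]⟩
      -- hence they are linearly dependent
      have hdep : ¬ LinearIndependent ℂ (fun m : W => g (jm m)) := by
        intro hli
        have h2 := linearIndependent_le_span' (fun m : W => g (jm m)) hli
          (Set.range fun i : κ => h (Sum.inl i)) (by rintro _ ⟨m, rfl⟩; exact hspan m)
        rw [Cardinal.mk_fintype] at h2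
        have h3 : Fintype.card W ≤ Fintype.card (Set.range fun i : κ => h (Sum.inl i)) := by
          exact_mod_cast h2
        have h4 : Fintype.card (Set.range fun i : κ => h (Sum.inl i)) ≤ Fintype.card κ :=
          Fintype.card_range_le _
        rw [Fintype.card_coe] at h3
        omega
      rw [Fintype.not_linearIndependent_iff] at hdep
      obtain ⟨lam, hlam, m₁, hm₁⟩ := hdep
      have hjinj : Function.Injective jm := by
        intro m m' hmm
        have : (Sum.inr m.1 : κ ⊕ Fin M) = Sum.inr m'.1 := congrArg Subtype.val hmm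
        exact Subtype.ext (Sum.inr_injective this)
      set s : Finset I := (Finset.univ.erase m₁).image jm with hs
      have hms : jm m₁ ∉ s := by
        rw [hs, Finset.mem_image]
        rintro ⟨m, hm, hmm⟩
        rw [hjinj hmm] at hm
        exact Finset.notMem_erase _ _ hm
      have hgs : g (jm m₁) ∈ Submodule.span ℂ (g '' (s : Set I)) := by
        have h3 : g (jm m₁) = ∑ m ∈ Finset.univ.erase m₁, (-(lam m₁)⁻¹ * lam m) • g (jm m) := by
          rw [← Finset.add_sum_erase _ _ (Finset.mem_univ m₁)] at hlam
          have h4 := eq_neg_of_add_eq_zero_left hlam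
          have h5 : g (jm m₁) = (lam m₁)⁻¹ • (lam m₁ • g (jm m₁)) := by
            rw [smul_smul, inv_mul_cancel₀ hm₁, one_smul]
          rw [h5, h4, smul_neg, Finset.smul_sum, ← Finset.sum_neg_distrib]
          apply Finset.sum_congr rfl
          intro m _
          rw [smul_smul, neg_mul, neg_smul]
        rw [h3]
        apply Submodule.sum_mem
        intro m hm
        apply Submodule.smul_mem
        apply Submodule.subset_span
        exact ⟨jm m, by rw [hs]; exact Finset.mem_coe.mpr (Finset.mem_image_of_mem _ hm), rfl⟩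
      obtain ⟨t, hts, c, hc, hx, hind⟩ := hmin m₁.1 (jm m₁) rfl s hms hgs
      have hit : jm m₁ ∉ t := fun h => hms (hts h)
      have htne : t.Nonempty := by
        by_contra hte
        rw [Finset.not_nonempty_iff_eq_empty] at hte
        obtain ⟨z, hz⟩ := (jm m₁).2
        apply hz
        rw [hx z, hte, Finset.sum_empty]
      obtain ⟨j, hj⟩ := htne
      obtain ⟨m', hm', hjm'⟩ := Finset.mem_image.mp (hts hj)
      refine hWP m₁ ⟨jm m₁, t, c, rfl, hit, hc, hx, hind, j, hj, m'.1, ?_, ?_⟩
      · intro h9
        apply (Finset.ne_of_mem_erase hm')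
        exact Subtype.ext h9
      · rw [← hjm']
    have h2 : J.card ≤ (J \ Finset.univ.filter P).card + (Finset.univ.filter P).card := by
      have := Finset.card_le_card_sdiff_add_card (s := J) (t := Finset.univ.filter P)
      exact this
    omega
  · intro m hm
    exact (Finset.mem_filter.mp hm).2

end Pool.Agent.GGL
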