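import Pool.Agent.Lib_MP_b9fedf_ag.Pairs
import Pool.Agent.Lib_MP_b9fedf_ag.LinBound
import Pool.Agent.Lib_MP_b9fedf_ag.Contr

/-! Periodic entire curves in the hypersurface are constant or lie in the base locus. -/

set_option autoImplicit false

namespace Pool.Agent.GGL
open Filter Metric Real Set Function MeromorphicOn ValueDistribution

/-- the periodic case -/
theorem main_periodic {σ κ : Type} [Fintype σ] [Fintype κ] {r M : ℕ}
    (f : σ → ℂ → ℂ) (hf : ∀ k, Differentiable ℂ (f k)) (h0 : ∀ z, ∃ k, f k z ≠ 0)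
    (hper : ∀ k z, f k (z + 2 * Real.pi * Complex.I) = f k z)
    (δ : ℕ) (K : ℝ) (φ : Fin r → ℂ → ℂ) (hφ : ∀ a, Differentiable ℂ (φ a))
    (hφK : ∀ a z, ‖φ a z‖ ≤ K * ‖fun k => f k z‖ ^ δ) (hφ0 : ∃ a z, φ a z ≠ 0)
    (hrec : ∀ a k l, (∃ z, φ a z ≠ 0) → (∃ z, f k z ≠ 0) →
      ∃ c c', (∃ z, φ c z ≠ 0) ∧ ∀ z, f k z * φ c' z = f l z * φ c z)
    (a b : κ → ℂ → ℂ) (ha : ∀ i, Differentiable ℂ (a i)) (hb : ∀ i, Differentiable ℂ (b i))
    (haK : ∀ i z, ‖a i z‖ ≤ ‖fun k => f k z‖) (hbK : ∀ i z, ‖b i z‖ ≤ ‖fun k => f k z‖)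
    (E e : ℕ) (hE : 1 ≤ E) (he : 1 ≤ e) (hEe : E + 1 = δ * e) (β : Fin M → ℂ)
    (hβ : ∀ m, β m ≠ 0) (q : Fin M → Fin r → ℂ)
    (hq1 : ∀ ι : (Fin r × Fin r) × Fin 2 ↪ Fin M,
      (Matrix.of fun k ab : Fin r × Fin r => q (ι (k, 0)) ab.1 * q (ι (k, 1)) ab.2).det ≠ 0)
    (hq : ∀ ι : Fin r ↪ Fin M, (Matrix.of fun i a : Fin r => q (ι i) a).det ≠ 0)
    (hM : 4 * r ^ 2 + r + 2 * Fintype.card κ ≤ M)
    (hbig : 8 * Fintype.card σ * r.factorial * r ^ 2 *
      (Fintype.card κ * (1 + (Fintype.card κ + M)) + M * ((Fintype.card κ + M) * δ)) ≤ e)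
    (hrel : ∀ z, ∑ i, a i z * b i z ^ E + ∑ m, β m * (∑ c, q m c * φ c z) ^ e = 0)
    (k l : σ) (hk : ∃ z, f k z ≠ 0) : ∃ c : ℂ, ∀ z, f l z = c * f k z := by
  classical
  by_contra hcon
  push Not at hcon
  obtain ⟨ι, hQ, C, hC0, hC⟩ := pairs_bound f hf h0 δ K φ hφ hφK hφ0 a b ha hb haK hbK E e hE he
    hEe β hβ q hq hM hrel
  obtain ⟨a0, ha0⟩ := hφ0
  choose cc cc' hcc hcr using fun l => hrec a0 k l ha0 hk
  choose Cl hCl using fun l => linear_bound φ hφ (cc l) (hcc l) q ι (hq1 ι) hQ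
  -- the functions
  set G : σ → ℂ → ℂ := fun l z => f l z / f k z with hG
  have hGm : ∀ l, Meromorphic (G l) := fun l => div_mero (hf l) (hf k)
  have hGeq : ∀ l ρ, 1 ≤ ρ → characteristic (G l) ⊤ ρ =
      characteristic (fun z => φ (cc' l) z / φ (cc l) z) ⊤ ρ := by
    intro l ρ hρ
    apply characteristic_congr_codiscrete _ (by linarith)
    filter_upwards [codiscrete_ne (hf k) hk, codiscrete_ne (hφ (cc l)) (hcc l)] with z hz1 hz2
    have := hcr l z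
    simp only [hG]
    rw [div_eq_div_iff hz1 hz2]
    linear_combination -this
  set S : ℝ → ℝ := fun ρ => ∑ p : Fin r × Fin r,
    characteristic (fun z => (∑ a, q (ι (p, 0)) a * φ a z) /
      (∑ a, q (ι (p, 1)) a * φ a z)) ⊤ ρ with hS
  set τ : ℝ → ℝ := fun ρ => ∑ l, characteristic (G l) ⊤ ρ with hτ
  have hτS : ∀ ρ, 1 ≤ ρ → τ ρ ≤ Fintype.card σ * (2 * r.factorial * S ρ) + ∑ l, |Cl l| := by
    intro ρ hρ
    have h1 : ∀ l, characteristic (G l) ⊤ ρ ≤ 2 * r.factorial * S ρ + |Cl l| := by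
      intro l
      rw [hGeq l ρ hρ]
      exact (hCl l ρ hρ (cc' l)).trans (by linarith [le_abs_self (Cl l)])
    have h2 := Finset.sum_le_sum fun l (_ : l ∈ (Finset.univ : Finset σ)) => h1 l
    rw [Finset.sum_add_distrib, Finset.sum_const, Finset.card_univ, nsmul_eq_mul] at h2
    exact h2
  have hτmono : MonotoneOn τ (Set.Ici 1) := by
    intro x hx y hy hxy
    apply Finset.sum_le_sum
    intro l _
    exact characteristic_monotoneOn (hGm l) (show (0 : ℝ) < x from lt_of_lt_of_le one_pos hx)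
      (show (0 : ℝ) < y from lt_of_lt_of_le one_pos hy) hxy
  have hτ0 : ∀ ρ, 1 ≤ ρ → 0 ≤ τ ρ := fun ρ hρ =>
    Finset.sum_nonneg fun l _ => characteristic_nonneg hρ
  obtain ⟨C1, hC1⟩ := TF_le_sum hf h0 k hk
  have hTτ : ∀ ρ, 1 ≤ ρ → TF f ρ ≤ τ ρ + |C1| := fun ρ hρ =>
    (hC1 ρ hρ).trans (by linarith [le_abs_self C1])
  obtain ⟨C2, hC20, hC2⟩ := TF_ge hf h0
  have habs : ∀ ρ, 1 ≤ ρ → |TF f ρ| ≤ τ ρ + (|C1| + C2) := by
    intro ρ hρ
    have h1 := hC2 ρ hρ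
    have h2 := hTτ ρ hρ
    have h3 := hτ0 ρ hρ
    have h4 := abs_nonneg C1
    rw [abs_le]
    constructor <;> linarith
  set A : ℝ := (Fintype.card κ : ℝ) * (1 + (Fintype.card κ + M)) +
            M * ((Fintype.card κ + M) * δ) with hA
  have hA0 : 0 ≤ A := by rw [hA]; positivity
  set W : ℝ := Fintype.card σ * (2 * r.factorial) * r ^ 2 with hW
  have hW0 : 0 ≤ W := by rw [hW]; positivity
  have hbig' : 4 * (W * A) ≤ e := by
    have : ((8 * Fintype.card σ * r.factorial * r ^ 2 *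
      (Fintype.card κ * (1 + (Fintype.card κ + M)) + M * ((Fintype.card κ + M) * δ)) : ℕ) : ℝ) ≤
        e := by exact_mod_cast hbig
    push_cast at this
    rw [hW, hA]
    linarith
  have he1 : (1 : ℝ) ≤ e := by exact_mod_cast he
  set Cs : ℝ := ∑ l, |Cl l| with hCs
  have hCs0 : 0 ≤ Cs := Finset.sum_nonneg fun l _ => abs_nonneg _
  set Z : ℝ := W * (2 * (A * |C1|)) + W * C + e * Cs with hZ
  have hZ0 : 0 ≤ Z := by positivity
  -- the estimate
  have hest : ∀ ρ δ' : ℝ, 1 ≤ ρ → 0 < δ' → δ' ≤ 1 → ∃ ρ' ∈ Set.Icc ρ (ρ + δ'),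
      τ ρ' ≤ 2 * Z * (1 + Real.log ((1 + |TF f (ρ + 2 * δ')|) * (ρ + 2) / δ')) := by
    intro ρ δ' hρ hδ0 hδ1
    obtain ⟨ρ', hρ', hk'⟩ := hC ρ δ' hρ hδ0 hδ1
    refine ⟨ρ', hρ', ?_⟩
    have hρ'1 : 1 ≤ ρ' := hρ.trans hρ'.1
    set X : ℝ := (1 + |TF f (ρ + 2 * δ')|) * (ρ + 2) / δ' with hX
    have hX1 : 1 ≤ X := by
      rw [hX, le_div_iff₀ hδ0]
      have := abs_nonneg (TF f (ρ + 2 * δ'))
      nlinarith
    have hlogX : 0 ≤ Real.log X := Real.log_nonneg hX1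
    have h1 : e * S ρ' ≤ r ^ 2 * (2 * (A * TF f ρ') + C * (1 + Real.log X)) := by
      simp only [hS]
      rw [Finset.mul_sum]
      refine (Finset.sum_le_sum fun p _ => hk' p).trans (le_of_eq ?_)
      rw [Finset.sum_const, Finset.card_univ, Fintype.card_prod, Fintype.card_fin, nsmul_eq_mul]
      push_cast
      ring
    have h2 := hτS ρ' hρ'1
    have h3 := hTτ ρ' hρ'1
    have h4 := hτ0 ρ' hρ'1
    have h5 : e * τ ρ' ≤ W * (2 * (A * TF f ρ') + C * (1 + Real.log X)) + e * Cs := by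
      have h6 := mul_le_mul_of_nonneg_left h2 (by linarith : (0 : ℝ) ≤ e)
      have h7 : (e : ℝ) * (Fintype.card σ * (2 * r.factorial * S ρ') + Cs) =
          Fintype.card σ * (2 * r.factorial) * (e * S ρ') + e * Cs := by ring
      rw [h7] at h6
      have h8 := mul_le_mul_of_nonneg_left h1
        (by positivity : (0 : ℝ) ≤ Fintype.card σ * (2 * r.factorial))
      rw [hW]
      linarith
    have h9 : W * (2 * (A * TF f ρ')) ≤ W * (2 * (A * (τ ρ' + |C1|))) := by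
      apply mul_le_mul_of_nonneg_left _ hW0
      have := mul_le_mul_of_nonneg_left h3 hA0
      linarith
    have h10 : 4 * (W * A) * τ ρ' ≤ e * τ ρ' := mul_le_mul_of_nonneg_right hbig' h4
    have h11 : e * τ ρ' ≤ 2 * (Z * (1 + Real.log X)) := by
      have e1 : 0 ≤ W * (2 * (A * |C1|)) * Real.log X := by positivity
      have e2 : 0 ≤ e * Cs * Real.log X := by positivity
      rw [hZ]
      nlinarith
    nlinarith
  set C3 : ℝ := |C1| + C2 with hC3
  have hC30 : 0 ≤ C3 := by positivity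
  refine growth_contradiction τ hτmono hτ0 (2 * Z * (1 + Real.log (1 + C3))) ?_ ?_
  · intro ρ δ' hρ hδ0 hδ1
    obtain ⟨ρ', hρ', h1⟩ := hest ρ δ' hρ hδ0 hδ1
    refine ⟨ρ', hρ', h1.trans ?_⟩
    have hR1 : 1 ≤ ρ + 2 * δ' := by linarith
    have h2 := habs _ hR1
    have h3 := hτ0 _ hR1
    set Y : ℝ := (1 + τ (ρ + 2 * δ')) * (ρ + 2) / δ' with hY
    have hY1 : 1 ≤ Y := by
      rw [hY, le_div_iff₀ hδ0]
      nlinarith
    have hlogY : 0 ≤ Real.log Y := Real.log_nonneg hY1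
    have h4 : (1 + |TF f (ρ + 2 * δ')|) * (ρ + 2) / δ' ≤ (1 + C3) * Y := by
      rw [hY, mul_div_assoc, mul_div_assoc, ← mul_assoc]
      apply mul_le_mul_of_nonneg_right _ (by positivity)
      nlinarith [mul_nonneg hC30 h3]
    have h5 : 0 < (1 + |TF f (ρ + 2 * δ')|) * (ρ + 2) / δ' := by positivity
    have h6 := Real.log_le_log h5 h4
    rw [Real.log_mul (by linarith) (by linarith)] at h6
    have h7 : 0 ≤ Real.log (1 + C3) := Real.log_nonneg (by linarith)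
    have h8 : 1 + Real.log ((1 + |TF f (ρ + 2 * δ')|) * (ρ + 2) / δ') ≤
        (1 + Real.log (1 + C3)) * (1 + Real.log Y) := by nlinarith [mul_nonneg h7 hlogY]
    have h9 := mul_le_mul_of_nonneg_left h8 (by positivity : (0 : ℝ) ≤ 2 * Z)
    linarith
  · intro B
    obtain ⟨r₀, hr₀⟩ := characteristic_div_ge_log (hf l) (hf k) hk (hper l) (hper k) hcon B
    refine ⟨max r₀ 1, fun ρ hρ => ?_⟩
    have h1 := hr₀ ρ ((le_max_left _ _).trans hρ)
    refine h1.trans ?_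
    exact Finset.single_le_sum (f := fun l => characteristic (G l) ⊤ ρ)
      (fun l _ => characteristic_nonneg ((le_max_right _ _).trans hρ)) (Finset.mem_univ l)

end Pool.Agent.GGL
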