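import Mathlib

/-!
# Logarithmic derivative of a zero free function, and Cauchy estimates
-/

set_option autoImplicit false

open Complex Metric Set Filter MeasureTheory Real InnerProductSpace

namespace Pool.Agent.GGL

/-- The real part of the Herglotz integral of `log ‖g‖` is `log ‖g‖`. -/
theorem re_herglotz_log {g : ℂ → ℂ} {ρ : ℝ}
    (hg : AnalyticOnNhd ℂ g (closedBall 0 ρ)) (h0 : ∀ z ∈ closedBall 0 ρ, g z ≠ 0)
    {w : ℂ} (hw : w ∈ ball (0 : ℂ) ρ) :
    (Real.circleAverage (fun ζ ↦ herglotzRieszKernel 0 w ζ • ((Real.log ‖g ζ‖ : ℝ) : ℂ)) 0 ρ).re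
      = Real.log ‖g w‖ := by
  have hρ : 0 < ρ := pos_of_mem_ball hw
  have hharm : HarmonicOnNhd (fun z => Real.log ‖g z‖) (closedBall 0 ρ) :=
    fun z hz => (hg z hz).harmonicAt_log_norm (h0 z hz)
  have hcont : ContinuousOn (fun z => Real.log ‖g z‖) (sphere 0 ρ) := by
    intro z hz
    have hz' : z ∈ closedBall (0 : ℂ) ρ := sphere_subset_closedBall hz
    exact ((hg z hz').continuousAt.norm.log (norm_ne_zero_iff.mpr (h0 z hz'))).continuousWithinAt
  have hint : CircleIntegrable (fun z => Real.log ‖g z‖) 0 ρ := hcont.circleIntegrable hρ.le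
  rw [re_circleAverage_herglotzRieszKernel_smul hint hw]
  exact hharm.circleAverage_re_herglotzRieszKernel_smul hw

/-- The logarithmic derivative of a zero free function as a circle average. -/
theorem logDeriv_eq_circleAverage {g : ℂ → ℂ} {ρ : ℝ}
    (hg : AnalyticOnNhd ℂ g (closedBall 0 ρ)) (h0 : ∀ z ∈ closedBall 0 ρ, g z ≠ 0)
    {w : ℂ} (hw : w ∈ ball (0 : ℂ) ρ) :
    logDeriv g w = Real.circleAverage
      (fun ζ ↦ (2 * ζ / (ζ - w) ^ 2) • ((Real.log ‖g ζ‖ : ℝ) : ℂ)) 0 ρ := by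
  have hρ : 0 < ρ := pos_of_mem_ball hw
  have hcont : ContinuousOn (fun z => ((Real.log ‖g z‖ : ℝ) : ℂ)) (sphere 0 ρ) := by
    intro z hz
    have hz' : z ∈ closedBall (0 : ℂ) ρ := sphere_subset_closedBall hz
    exact (continuous_ofReal.continuousAt.comp
      ((hg z hz').continuousAt.norm.log (norm_ne_zero_iff.mpr (h0 z hz')))).continuousWithinAt
  have hint : CircleIntegrable (fun z => ((Real.log ‖g z‖ : ℝ) : ℂ)) 0 ρ :=
    hcont.circleIntegrable hρ.le
  set P : ℂ → ℂ := fun w ↦ Real.circleAverage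
    (fun ζ ↦ herglotzRieszKernel 0 w ζ • ((Real.log ‖g ζ‖ : ℝ) : ℂ)) 0 ρ with hP
  have hPd : ∀ x ∈ ball (0 : ℂ) ρ, HasDerivAt P (Real.circleAverage
      (fun ζ ↦ (2 * ζ / (ζ - x) ^ 2) • ((Real.log ‖g ζ‖ : ℝ) : ℂ)) 0 ρ) x :=
    fun x hx => hasDerivAt_circleAverage_herglotzRieszKernel_smul hint hx
  have hgd : ∀ x ∈ ball (0 : ℂ) ρ, DifferentiableAt ℂ g x :=
    fun x hx => (hg x (ball_subset_closedBall hx)).differentiableAt
  set k : ℂ → ℂ := fun x => g x * Complex.exp (-P x) with hk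
  have hkd : DifferentiableOn ℂ k (ball 0 ρ) := fun x hx =>
    ((hgd x hx).mul (hPd x hx).differentiableAt.neg.cexp).differentiableWithinAt
  have hkn : ∀ x ∈ ball (0 : ℂ) ρ, ‖k x‖ = 1 := by
    intro x hx
    have h1 : (P x).re = Real.log ‖g x‖ := re_herglotz_log hg h0 hx
    have h2 : 0 < ‖g x‖ := norm_pos_iff.mpr (h0 x (ball_subset_closedBall hx))
    rw [hk]
    simp only [norm_mul, Complex.norm_exp, Complex.neg_re]
    rw [h1, Real.exp_neg, Real.exp_log h2]
    exact mul_inv_cancel₀ h2.ne'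
  have hconst : EqOn k (Function.const ℂ (k w)) (ball 0 ρ) := by
    refine Complex.eqOn_of_isPreconnected_of_isMaxOn_norm (convex_ball _ _).isPreconnected
      isOpen_ball hkd hw ?_
    intro x hx
    simp only [Function.comp_apply, mem_ofPred_eq]
    rw [hkn x hx, hkn w hw]
  have hk0 : deriv k w = 0 := by
    have : k =ᶠ[nhds w] Function.const ℂ (k w) :=
      hconst.eventuallyEq_of_mem (isOpen_ball.mem_nhds hw)
    rw [this.deriv_eq]
    exact deriv_const _ _
  have hk1 : HasDerivAt k (deriv g w * Complex.exp (-P w) + g w * (Complex.exp (-P w) *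
      (-(Real.circleAverage (fun ζ ↦ (2 * ζ / (ζ - w) ^ 2) • ((Real.log ‖g ζ‖ : ℝ) : ℂ)) 0 ρ)))) w :=
    (hgd w hw).hasDerivAt.mul (hPd w hw).neg.cexp
  rw [hk1.deriv] at hk0
  have h3 : Complex.exp (-P w) ≠ 0 := Complex.exp_ne_zero _
  have h4 : g w ≠ 0 := h0 w (ball_subset_closedBall hw)
  have h5 : deriv g w = g w *
      Real.circleAverage (fun ζ ↦ (2 * ζ / (ζ - w) ^ 2) • ((Real.log ‖g ζ‖ : ℝ) : ℂ)) 0 ρ := by
    have h6 : Complex.exp (-P w) * (deriv g w - g w * Real.circleAverage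
        (fun ζ ↦ (2 * ζ / (ζ - w) ^ 2) • ((Real.log ‖g ζ‖ : ℝ) : ℂ)) 0 ρ) = 0 := by
      linear_combination hk0
    rcases mul_eq_zero.mp h6 with h | h
    · exact absurd h h3
    · exact sub_eq_zero.mp h
  rw [logDeriv_apply, h5, mul_div_cancel_left₀ _ h4]

/-- PIECE P (Poisson.lean): logarithmic derivative of a zero free function -/
theorem norm_logDeriv_le_circleAverage {g : ℂ → ℂ} {ρ : ℝ} (hρ : 0 < ρ)
    (hg : AnalyticOnNhd ℂ g (Metric.closedBall 0 ρ)) (h0 : ∀ z ∈ Metric.closedBall 0 ρ, g z ≠ 0)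
    {w : ℂ} (hw : ‖w‖ < ρ) :
    ‖logDeriv g w‖ ≤ 2 * ρ / (ρ - ‖w‖) ^ 2 *
      Real.circleAverage (fun z => |Real.log ‖g z‖|) 0 ρ := by
  have hw' : w ∈ ball (0 : ℂ) ρ := by simpa using hw
  rw [logDeriv_eq_circleAverage hg h0 hw']
  have hcontR : ContinuousOn (fun z => Real.log ‖g z‖) (sphere 0 ρ) := by
    intro z hz
    have hz' : z ∈ closedBall (0 : ℂ) ρ := sphere_subset_closedBall hz
    exact ((hg z hz').continuousAt.norm.log (norm_ne_zero_iff.mpr (h0 z hz'))).continuousWithinAt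
  have hd : 0 < ρ - ‖w‖ := by linarith
  have hne : ∀ ζ ∈ sphere (0 : ℂ) ρ, ρ - ‖w‖ ≤ ‖ζ - w‖ := by
    intro ζ hζ
    have h1 : ‖ζ‖ = ρ := by simpa using hζ
    have h2 := norm_sub_norm_le ζ w
    rw [h1] at h2; exact h2
  have habs : |ρ| = ρ := abs_of_pos hρ
  have hcontK : ContinuousOn (fun ζ : ℂ => 2 * ζ / (ζ - w) ^ 2) (sphere 0 ρ) := by
    refine ContinuousOn.div (by fun_prop) (by fun_prop) fun ζ hζ => ?_
    have := hne ζ hζ
    have h3 : 0 < ‖ζ - w‖ := by linarith
    exact pow_ne_zero 2 (norm_pos_iff.mp h3)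
  have hnorm : ‖Real.circleAverage
      (fun ζ ↦ (2 * ζ / (ζ - w) ^ 2) • ((Real.log ‖g ζ‖ : ℝ) : ℂ)) 0 ρ‖ ≤
      Real.circleAverage (fun ζ ↦ ‖(2 * ζ / (ζ - w) ^ 2) • ((Real.log ‖g ζ‖ : ℝ) : ℂ)‖) 0 ρ := by
    unfold Real.circleAverage
    rw [norm_smul, smul_eq_mul, Real.norm_eq_abs, abs_of_pos (by positivity)]
    refine mul_le_mul_of_nonneg_left ?_ (by positivity)
    exact intervalIntegral.norm_integral_le_integral_norm (by positivity)
  refine hnorm.trans ?_
  have hmono : Real.circleAverage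
      (fun ζ ↦ ‖(2 * ζ / (ζ - w) ^ 2) • ((Real.log ‖g ζ‖ : ℝ) : ℂ)‖) 0 ρ ≤
      Real.circleAverage (fun ζ ↦ 2 * ρ / (ρ - ‖w‖) ^ 2 * |Real.log ‖g ζ‖|) 0 ρ := by
    refine Real.circleAverage_mono ?_ ?_ ?_
    · refine ContinuousOn.circleIntegrable hρ.le ?_
      exact (hcontK.smul (continuous_ofReal.comp_continuousOn hcontR)).norm
    · refine ContinuousOn.circleIntegrable hρ.le ?_
      exact hcontR.abs.const_mul _
    · intro ζ hζ
      rw [habs] at hζ
      have h1 : ‖ζ‖ = ρ := by simpa using hζ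
      have h2 := hne ζ hζ
      rw [norm_smul, Complex.norm_real, Real.norm_eq_abs, norm_div, norm_mul, norm_pow, h1]
      refine mul_le_mul_of_nonneg_right ?_ (abs_nonneg _)
      have h3 : ‖(2 : ℂ)‖ = 2 := by norm_num
      rw [h3]
      gcongr
  refine hmono.trans (le_of_eq ?_)
  have := Real.circleAverage_fun_smul (a := 2 * ρ / (ρ - ‖w‖) ^ 2)
    (f := fun ζ : ℂ => |Real.log ‖g ζ‖|) (c := 0) (R := ρ)
  simpa [smul_eq_mul] using this

/-- PIECE P (Poisson.lean): all derivatives from a bound on the logarithmic derivative -/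
theorem norm_iteratedDeriv_le {G : ℂ → ℂ} {z : ℂ} {η B : ℝ} (hη : 0 < η) (hB : 0 ≤ B)
    (hG : AnalyticOnNhd ℂ G (Metric.ball z η)) (h0 : ∀ w ∈ Metric.ball z η, G w ≠ 0)
    (hlog : ∀ w ∈ Metric.ball z η, ‖logDeriv G w‖ ≤ B) (i : ℕ) :
    ‖iteratedDeriv i G z‖ ≤ Real.exp 1 * (i.factorial) * (2 / η + 2 * B) ^ i * ‖G z‖ := by
  set η' : ℝ := 1 / (2 / η + 2 * B) with hη'
  have hs : 0 < 2 / η + 2 * B := by positivity
  have hη'0 : 0 < η' := by positivity
  have hη'1 : η' < η := by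
    rw [hη', div_lt_iff₀ hs]
    have : η * (2 / η + 2 * B) = 2 + 2 * B * η := by field_simp
    rw [this]; nlinarith [mul_nonneg hB hη.le]
  have hBη' : B * η' ≤ 1 := by
    rw [hη', mul_one_div, div_le_one hs]
    have : 0 < 2 / η := by positivity
    linarith
  have hz : z ∈ ball z η := mem_ball_self hη
  have hGd : DifferentiableOn ℂ G (ball z η) := hG.differentiableOn
  have hd : DifferentiableOn ℂ (logDeriv G) (ball z η) := (hGd.deriv isOpen_ball).div hGd h0
  obtain ⟨h, hh⟩ := hd.isExactOn_ball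
  -- G = G z * exp (h - h z)
  have key : ∀ w ∈ ball z η, G w = G z * Complex.exp (h w - h z) := by
    intro w hw
    have hkd : ∀ x ∈ ball z η, HasDerivAt (fun x => G x * Complex.exp (-(h x))) 0 x := by
      intro x hx
      have h1 : HasDerivAt G (deriv G x) x := (hG x hx).differentiableAt.hasDerivAt
      have h2 : HasDerivAt (fun x => Complex.exp (-h x)) (Complex.exp (-h x) * (-logDeriv G x)) x :=
        ((hh x hx).neg).cexp
      have h3 := h1.mul h2
      have h4 : deriv G x * Complex.exp (-h x) + G x * (Complex.exp (-h x) * (-logDeriv G x)) = 0 := by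
        rw [logDeriv_apply]
        field_simp [h0 x hx]
        ring
      rw [h4] at h3
      exact h3
    have hkc : (fun x => G x * Complex.exp (-(h x))) w = (fun x => G x * Complex.exp (-(h x))) z :=
      isOpen_ball.is_const_of_deriv_eq_zero (convex_ball z η).isPreconnected
        (fun x hx => (hkd x hx).differentiableAt.differentiableWithinAt)
        (fun x hx => (hkd x hx).deriv) hw hz
    have h3 : G w * Complex.exp (-(h w)) = G z * Complex.exp (-(h z)) := hkc
    have h4 : G w = G w * Complex.exp (-(h w)) * Complex.exp (h w) := by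
      rw [mul_assoc, ← Complex.exp_add]; simp
    rw [h4, h3, mul_assoc, ← Complex.exp_add]
    congr 2; ring
  have hbound : ∀ w ∈ sphere z η', ‖G w‖ ≤ Real.exp 1 * ‖G z‖ := by
    intro w hw
    have hwn : ‖w - z‖ = η' := by simpa [dist_eq_norm] using hw
    have hwb : w ∈ ball z η := by
      rw [mem_ball, dist_eq_norm, hwn]; exact hη'1
    have h1 : ‖h w - h z‖ ≤ B * ‖w - z‖ :=
      (convex_ball z η).norm_image_sub_le_of_norm_hasDerivWithin_le
        (fun x hx => (hh x hx).hasDerivWithinAt) hlog hz hwb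
    rw [key w hwb, norm_mul, mul_comm, Complex.norm_exp]
    refine mul_le_mul_of_nonneg_right (Real.exp_le_exp.mpr ?_) (norm_nonneg _)
    refine ((Complex.re_le_norm _).trans h1).trans ?_
    rw [hwn]; exact hBη'
  have hdc : DiffContOnCl ℂ G (ball z η') := by
    refine (hGd.mono ?_).diffContOnCl
    refine closure_ball_subset_closedBall.trans (closedBall_subset_ball hη'1)
  have := norm_iteratedDeriv_le_of_forall_mem_sphere_norm_le i hη'0 hdc hbound
  refine this.trans (le_of_eq ?_)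
  rw [hη', one_div, inv_pow, div_inv_eq_mul]
  ring

end Pool.Agent.GGL
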