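import Mathlib
import Pool.Agent.Lib_MP_b9fedf_ag.TanDefs

/-! Algebra for the theorem on tangential entire curves (piece TALG). -/

set_option autoImplicit false

namespace Pool.Agent.GGL

open MvPolynomial Finset

private noncomputable def talgForms (m d : ℕ) : Submodule ℂ (MvPolynomial (Fin (m + 1)) ℂ) :=
  homogeneousSubmodule (Fin (m + 1)) ℂ d

private lemma talg_mem_Mon {m d : ℕ} (α : Fin (m + 1) →₀ ℕ) (h : α.degree = d) :
    α ∈ Finset.finsuppAntidiag (Finset.univ : Finset (Fin (m + 1))) d := by
  rw [Finset.mem_finsuppAntidiag]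
  refine ⟨?_, Finset.subset_univ _⟩
  rw [← h, Finsupp.degree_eq_sum]

private lemma talg_degree {m d : ℕ} (α : Mon m d) : (α : Fin (m + 1) →₀ ℕ).degree = d := by
  have h := α.2
  rw [Finset.mem_finsuppAntidiag] at h
  rw [Finsupp.degree_eq_sum]
  exact h.1

/-- forms of degree `d` are functions on `Mon m d` -/
private noncomputable def talgEquiv (m d : ℕ) : talgForms m d ≃ₗ[ℂ] (Mon m d → ℂ) where
  toFun P := fun β => coeff (β : Fin (m + 1) →₀ ℕ) P.1
  map_add' P Q := by ext β; simp
  map_smul' c P := by ext β; simp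
  invFun f := ⟨∑ β : Mon m d, monomial (β : Fin (m + 1) →₀ ℕ) (f β), by
    apply Submodule.sum_mem
    intro β _
    exact isHomogeneous_monomial _ (talg_degree β)⟩
  left_inv P := by
    apply Subtype.ext
    ext α
    simp only [coeff_sum, coeff_monomial]
    by_cases hα : α.degree = d
    · rw [Finset.sum_eq_single (⟨α, talg_mem_Mon α hα⟩ : Mon m d)]
      · simp
      · intro β _ hβ
        rw [if_neg]
        intro h
        exact hβ (Subtype.ext h)
      · intro h
        exact absurd (Finset.mem_univ _) h
    · have h1 : coeff α P.1 = 0 := by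
        have h2 : P.1.IsHomogeneous d := P.2
        exact h2.coeff_eq_zero hα
      rw [h1]
      apply Finset.sum_eq_zero
      intro β _
      rw [if_neg]
      intro h
      apply hα
      rw [← h]
      exact talg_degree β
  right_inv f := by
    ext β
    simp only [coeff_sum, coeff_monomial]
    rw [Finset.sum_eq_single β]
    · simp
    · intro γ _ hγ
      rw [if_neg]
      intro h
      exact hγ (Subtype.ext h)
    · intro h
      exact absurd (Finset.mem_univ _) h

private instance talg_finite (m d : ℕ) : Module.Finite ℂ (talgForms m d) :=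
  Module.Finite.equiv (talgEquiv m d).symm

private lemma talg_finrank (m d : ℕ) :
    Module.finrank ℂ (talgForms m d) = Fintype.card (Mon m d) := by
  rw [LinearEquiv.finrank_eq (talgEquiv m d)]
  exact Module.finrank_fintype_fun_eq_card ℂ

private lemma talg_card (m d : ℕ) : Fintype.card (Mon m d) = (m + d).choose d := by
  have h : Fintype.card (Mon m d)
      = (Finset.finsuppAntidiag (Finset.univ : Finset (Fin (m + 1))) d).card :=
    Fintype.card_coe _
  rw [h, Finset.card_finsuppAntidiag_nat_eq_choose]
  congr 1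
  simp

/-- evaluation of forms of degree `e` at the points `q i` -/
private noncomputable def talgEv {m d : ℕ} (e : ℕ) (q : Mon m d → Fin (m + 1) → ℂ) :
    talgForms m e →ₗ[ℂ] (Mon m d → ℂ) where
  toFun P := fun i => eval (q i) P.1
  map_add' P Q := by ext i; simp
  map_smul' c P := by ext i; simp

private lemma talg_surj {m d : ℕ} (q : Mon m d → Fin (m + 1) → ℂ) (hq : Uni q)
    (γ : Mon m d → ℂ) : ∃ P : MvPolynomial (Fin (m + 1)) ℂ, P.IsHomogeneous d ∧
      ∀ i, eval (q i) P = γ i := by
  have hinj : Function.Injective (talgEv d q) := by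
    rw [← LinearMap.ker_eq_bot, LinearMap.ker_eq_bot']
    intro P hP
    apply Subtype.ext
    apply hq P.1 P.2
    intro i
    exact congrFun hP i
  have hsurj : Function.Surjective (talgEv d q) := by
    rw [← LinearMap.injective_iff_surjective_of_finrank_eq_finrank]
    · exact hinj
    · rw [talg_finrank]
      exact (Module.finrank_fintype_fun_eq_card ℂ).symm
  obtain ⟨P, hP⟩ := hsurj γ
  exact ⟨P.1, P.2, fun i => congrFun hP i⟩

/-- the linear form with coefficients `h` -/
private noncomputable def talgLin {m : ℕ} (h : Fin (m + 1) → ℂ) :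
    MvPolynomial (Fin (m + 1)) ℂ := ∑ a, C (h a) * X a

private lemma talg_eval_lin {m : ℕ} (h p : Fin (m + 1) → ℂ) :
    eval p (talgLin h) = ∑ a, p a * h a := by
  unfold talgLin
  rw [map_sum]
  apply Finset.sum_congr rfl
  intro a _
  simp [mul_comm]

private lemma talg_lin_hom {m : ℕ} (h : Fin (m + 1) → ℂ) : (talgLin h).IsHomogeneous 1 := by
  unfold talgLin
  apply IsHomogeneous.sum
  intro a _
  have := (isHomogeneous_C (Fin (m + 1)) (h a)).mul (isHomogeneous_X ℂ a)
  simpa using this

private lemma talg_coeff_lin {m : ℕ} (h : Fin (m + 1) → ℂ) (a : Fin (m + 1)) :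
    coeff (Finsupp.single a 1) (talgLin h) = h a := by
  unfold talgLin
  rw [coeff_sum, Finset.sum_eq_single a]
  · simp [coeff_C_mul]
  · intro b _ hb
    rw [coeff_C_mul, coeff_X', if_neg]
    · simp
    · intro h1
      exact hb (Finsupp.single_left_injective (one_ne_zero) h1)
  · intro h1
    exact absurd (Finset.mem_univ _) h1

private lemma talg_lin_ne {m : ℕ} (h : Fin (m + 1) → ℂ) (hh : h ≠ 0) : talgLin h ≠ 0 := by
  intro h0
  apply hh
  ext a
  rw [← talg_coeff_lin h a, h0]
  simp

private lemma talg_lin_prime {m : ℕ} (h : Fin (m + 1) → ℂ) (hh : h ≠ 0) :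
    Prime (talgLin h) := by
  apply Irreducible.prime
  apply irreducible_of_totalDegree_eq_one
  · exact (talg_lin_hom h).totalDegree (talg_lin_ne h hh)
  · intro x hx
    rw [isUnit_iff_ne_zero]
    intro hx0
    apply talg_lin_ne h hh
    ext α
    have := hx α
    rw [hx0, zero_dvd_iff] at this
    rw [this]
    simp

/-- division of a form of degree `e + 1` by a linear form gives a form of degree `e` -/
private lemma talg_div {m : ℕ} (h : Fin (m + 1) → ℂ) (e : ℕ)
    (b k : MvPolynomial (Fin (m + 1)) ℂ) (hb : b.IsHomogeneous (e + 1))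
    (hk : b = talgLin h * k) :
    ∃ c : MvPolynomial (Fin (m + 1)) ℂ, c.IsHomogeneous e ∧ b = talgLin h * c := by
  refine ⟨homogeneousComponent e k, homogeneousComponent_isHomogeneous e k, ?_⟩
  have h1 : b = homogeneousComponent (e + 1) b := (homogeneousComponent_eq_self hb).symm
  rw [h1, hk]
  conv_lhs => rw [← sum_homogeneousComponent k]
  rw [Finset.mul_sum, map_sum]
  have h2 : ∀ i ∈ Finset.range (k.totalDegree + 1),
      homogeneousComponent (e + 1) (talgLin h * homogeneousComponent i k)
        = if i = e then talgLin h * homogeneousComponent e k else 0 := by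
    intro i _
    have h3 : (talgLin h * homogeneousComponent i k).IsHomogeneous (1 + i) :=
      (talg_lin_hom h).mul (homogeneousComponent_isHomogeneous i k)
    rw [homogeneousComponent_of_mem h3]
    by_cases hi : i = e
    · rw [if_pos hi, if_pos (by omega), hi]
    · rw [if_neg hi, if_neg (by omega)]
  rw [Finset.sum_congr rfl h2, Finset.sum_ite_eq']
  by_cases he : e ∈ Finset.range (k.totalDegree + 1)
  · rw [if_pos he]
  · rw [if_neg he]
    rw [Finset.mem_range, not_lt] at he
    rw [homogeneousComponent_eq_zero e k (by omega)]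
    simp

theorem alg_package {m d : ℕ} (hm : 1 ≤ m) (hd : 1 ≤ d) (q : Mon m d → Fin (m + 1) → ℂ)
    (hq : Uni q) :
    ∃ (L : Mon m d → (Fin (m + 1) → ℂ) → ℂ) (K : Submodule ℂ (Mon m d → ℂ)),
      Module.finrank ℂ ((Mon m d → ℂ) ⧸ K) = (m + d - 1).choose d ∧
      (∀ γ ∈ K, ∀ h h' y : Fin (m + 1) → ℂ, ∑ i, γ i * (L i y * wd h h' y (q i)) = 0) ∧
      (∀ h : Fin (m + 1) → ℂ, h ≠ 0 → ∀ γ ∈ K, (∀ i, ∑ a, q i a * h a ≠ 0 → γ i = 0) → γ = 0) ∧
      (∀ h h' : Fin (m + 1) → ℂ, (∀ c : ℂ, h' ≠ c • h) → (∀ i, ∑ a, q i a * h a ≠ 0) →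
        ∀ γ : Mon m d → ℂ, (∀ y, ∑ i, γ i * (L i y * wd h h' y (q i)) = 0) → γ ∈ K) := by
  classical
  -- Lagrange forms
  have hP : ∀ i : Mon m d, ∃ P : MvPolynomial (Fin (m + 1)) ℂ, P.IsHomogeneous d ∧
      ∀ k, eval (q k) P = if k = i then 1 else 0 := by
    intro i
    exact talg_surj q hq (fun k => if k = i then 1 else 0)
  choose P hPh hPe using hP
  have hint : ∀ F : MvPolynomial (Fin (m + 1)) ℂ, F.IsHomogeneous d →
      F = ∑ i, C (eval (q i) F) * P i := by
    intro F hF
    rw [← sub_eq_zero]
    apply hq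
    · apply IsHomogeneous.sub hF
      apply IsHomogeneous.sum
      intro i _
      have := (isHomogeneous_C (Fin (m + 1)) (eval (q i) F)).mul (hPh i)
      simpa using this
    · intro k
      rw [map_sub, map_sum, sub_eq_zero, Finset.sum_eq_single k]
      · simp [hPe]
      · intro i _ hi
        simp [hPe, hi.symm]
      · intro h1
        exact absurd (Finset.mem_univ _) h1
  have hinj : Function.Injective (talgEv (d := d) (d - 1) q) := by
    rw [← LinearMap.ker_eq_bot, LinearMap.ker_eq_bot']
    intro c hc
    apply Subtype.ext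
    have h1 : (X 0 : MvPolynomial (Fin (m + 1)) ℂ) * c.1 = 0 := by
      apply hq
      · have h2 : c.1.IsHomogeneous (d - 1) := c.2
        have := (isHomogeneous_X ℂ (0 : Fin (m + 1))).mul h2
        rwa [show 1 + (d - 1) = d by omega] at this
      · intro i
        have h3 : eval (q i) c.1 = 0 := congrFun hc i
        rw [map_mul, h3, mul_zero]
    rcases mul_eq_zero.mp h1 with h2 | h2
    · exact absurd h2 (X_ne_zero 0)
    · exact h2
  refine ⟨fun i y => eval y (P i), LinearMap.range (talgEv (d := d) (d - 1) q), ?_, ?_, ?_, ?_⟩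
  · have h1 := (LinearMap.range (talgEv (d := d) (d - 1) q)).finrank_quotient_add_finrank
    rw [LinearMap.finrank_range_of_inj hinj, talg_finrank, talg_card,
      Module.finrank_fintype_fun_eq_card, talg_card] at h1
    obtain ⟨e, rfl⟩ : ∃ e, d = e + 1 := ⟨d - 1, by omega⟩
    have h2 : (m + (e + 1)).choose (e + 1) = (m + e).choose e + (m + e).choose (e + 1) := by
      rw [← add_assoc]
      exact Nat.choose_succ_succ _ _
    have h3 : m + (e + 1) - 1 = m + e := by omega
    have h5 : (m + (e + 1 - 1)).choose (e + 1 - 1) = (m + e).choose e := by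
      rw [show e + 1 - 1 = e by omega]
    rw [h5, h2] at h1
    rw [h3]
    omega
  · rintro γ ⟨c, rfl⟩ h h' y
    set W : MvPolynomial (Fin (m + 1)) ℂ :=
      C (∑ a, y a * h a) * talgLin h' - C (∑ a, y a * h' a) * talgLin h with hW
    have hWh : W.IsHomogeneous 1 := by
      apply IsHomogeneous.sub
      · have := (isHomogeneous_C (Fin (m + 1)) (∑ a, y a * h a)).mul (talg_lin_hom h')
        simpa using this
      · have := (isHomogeneous_C (Fin (m + 1)) (∑ a, y a * h' a)).mul (talg_lin_hom h)
        simpa using this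
    have hWe : ∀ p, eval p W = wd h h' y p := by
      intro p
      rw [hW, map_sub, map_mul, map_mul, eval_C, eval_C, talg_eval_lin, talg_eval_lin]
      unfold wd
      ring
    have hF : (c.1 * W).IsHomogeneous d := by
      have h2 : c.1.IsHomogeneous (d - 1) := c.2
      have := h2.mul hWh
      rwa [show d - 1 + 1 = d by omega] at this
    have h3 := congrArg (eval y) (hint _ hF)
    rw [map_mul, hWe, map_sum] at h3
    have h4 : wd h h' y y = 0 := by unfold wd; ring
    rw [h4, mul_zero] at h3
    rw [h3]
    apply Finset.sum_congr rfl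
    intro i _
    rw [map_mul, eval_C, map_mul, hWe]
    change eval (q i) c.1 * _ = _
    ring
  · rintro h hh γ ⟨c, rfl⟩ hz
    have h1 : talgLin h * c.1 = 0 := by
      apply hq
      · have h2 : c.1.IsHomogeneous (d - 1) := c.2
        have := (talg_lin_hom h).mul h2
        rwa [show 1 + (d - 1) = d by omega] at this
      · intro i
        rw [map_mul, talg_eval_lin]
        by_cases h3 : ∑ a, q i a * h a = 0
        · rw [h3, zero_mul]
        · have h4 : eval (q i) c.1 = 0 := hz i h3
          rw [h4, mul_zero]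
    rcases mul_eq_zero.mp h1 with h2 | h2
    · exact absurd h2 (talg_lin_ne h hh)
    · have h3 : c = 0 := Subtype.ext h2
      rw [h3, map_zero]
  · intro h h' hne hnz γ hγ
    have hMon : Nonempty (Mon m d) :=
      ⟨⟨Finsupp.single 0 d, talg_mem_Mon _ (by simp)⟩⟩
    have hh : h ≠ 0 := by
      rintro rfl
      obtain ⟨i⟩ := hMon
      apply hnz i
      simp
    set A : MvPolynomial (Fin (m + 1)) ℂ := ∑ i, C (γ i * ∑ a, q i a * h' a) * P i with hA
    set B : MvPolynomial (Fin (m + 1)) ℂ := ∑ i, C (γ i * ∑ a, q i a * h a) * P i with hB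
    have hAB : talgLin h' * B = talgLin h * A := by
      apply MvPolynomial.funext
      intro y
      have h1 := hγ y
      rw [map_mul, map_mul, talg_eval_lin, talg_eval_lin, hA, hB, map_sum, map_sum, eq_comm,
        ← sub_eq_zero, ← h1, Finset.mul_sum, Finset.mul_sum, ← Finset.sum_sub_distrib]
      apply Finset.sum_congr rfl
      intro i _
      simp only [map_mul, eval_C]
      unfold wd
      ring
    have hBh : B.IsHomogeneous d := by
      apply IsHomogeneous.sum
      intro i _
      have := (isHomogeneous_C (Fin (m + 1)) (γ i * ∑ a, q i a * h a)).mul (hPh i)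
      simpa using this
    have hdvd : talgLin h ∣ talgLin h' * B := ⟨A, hAB⟩
    rcases (talg_lin_prime h hh).dvd_or_dvd hdvd with h1 | h1
    · exfalso
      obtain ⟨k, hk⟩ := h1
      obtain ⟨c, hc, hc2⟩ := talg_div h 0 _ k (talg_lin_hom h') hk
      have hc3 : c = C (coeff 0 c) := by
        rw [← totalDegree_eq_zero_iff_eq_C]
        exact Nat.le_zero.mp hc.totalDegree_le
      apply hne (coeff 0 c)
      ext a
      rw [← talg_coeff_lin h' a, hc2, hc3, mul_comm, coeff_C_mul, talg_coeff_lin]
      simp
    · obtain ⟨k, hk⟩ := h1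
      obtain ⟨c, hc, hc2⟩ := talg_div h (d - 1) B k
        (by rwa [show d - 1 + 1 = d by omega]) hk
      refine ⟨⟨c, hc⟩, ?_⟩
      ext i
      change eval (q i) c = γ i
      have h2 : eval (q i) B = γ i * ∑ a, q i a * h a := by
        rw [hB, map_sum, Finset.sum_eq_single i]
        · simp [hPe]
        · intro j _ hj
          simp [hPe, hj.symm]
        · intro h1
          exact absurd (Finset.mem_univ _) h1
      rw [hc2, map_mul, talg_eval_lin] at h2
      have h3 := hnz i
      have h4 : (∑ a, q i a * h a) * (eval (q i) c - γ i) = 0 := by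
        linear_combination h2
      rcases mul_eq_zero.mp h4 with h5 | h5
      · exact absurd h5 h3
      · exact sub_eq_zero.mp h5

end Pool.Agent.GGL
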