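import Mathlib
import Pool.Agent.Lib_MP_b9fedf_ag.TanDefs

set_option autoImplicit false

namespace Pool.Agent.GGL

/-- PIECE TCNT -/
theorem card_Mon (m d : ℕ) : Fintype.card (Mon m d) = (m + d).choose d := by
  rw [Fintype.card_coe, Finset.card_finsuppAntidiag_nat_eq_choose]
  have h : (Finset.univ : Finset (Fin (m + 1))).card + d - 1 = m + d := by
    rw [Finset.card_univ, Fintype.card_fin]
    omega
  rw [h]

/-- PIECE TCNT -/
theorem card_mul (m d : ℕ) (hm : 1 ≤ m) :
    m * Fintype.card (Mon m d) = (d + m) * ((m + d - 1).choose d) := by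
  rw [card_Mon]
  obtain ⟨n, rfl⟩ : ∃ n, m = n + 1 := ⟨m - 1, by omega⟩
  have h := Nat.choose_mul_succ_eq (n + d) d
  have e1 : n + 1 + d - 1 = n + d := by omega
  have e2 : n + d + 1 - d = n + 1 := by omega
  have e3 : n + 1 + d = n + d + 1 := by omega
  rw [e2] at h
  rw [e1, e3, mul_comm (n + 1), ← h]
  ring

end Pool.Agent.GGL
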