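import Mathlib
import Pool.Agent.Lib_MP_b9fedf_ag.TanDefs

/-! Piece TGRD: the greedy estimate for unisolvent points. -/

set_option autoImplicit false

namespace Pool.Agent.GGL

open MvPolynomial in
private theorem grd_form {m d : ℕ} (hd : 1 ≤ d) (q : Mon m d → Fin (m + 1) → ℂ) (hq : Uni q)
    (h : Fin (m + 1) → ℂ) (hh : ∀ i, ∑ a, q i a * h a = 0) : h = 0 := by
  have hP : (∑ a, C (h a) * X a : MvPolynomial (Fin (m + 1)) ℂ) ^ d = 0 := by
    apply hq
    · have : (∑ a, C (h a) * X a : MvPolynomial (Fin (m + 1)) ℂ).IsHomogeneous 1 := by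
        apply IsHomogeneous.sum
        intro a _
        simpa using (isHomogeneous_C _ (h a)).mul (isHomogeneous_X ℂ a)
      simpa using this.pow d
    · intro i
      have h1 := hh i
      rw [map_pow, map_sum]
      simp only [map_mul, eval_C, eval_X]
      rw [show (∑ x, h x * q i x) = 0 by rw [← h1]; exact Finset.sum_congr rfl fun a _ => mul_comm _ _]
      exact zero_pow (by omega)
  have h2 : (∑ a, C (h a) * X a : MvPolynomial (Fin (m + 1)) ℂ) = 0 := by
    exact pow_eq_zero_iff (by omega) |>.mp hP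
  funext a
  have h3 := congrArg (eval (Pi.single a (1 : ℂ))) h2
  simpa [map_sum, Pi.single_apply] using h3

private theorem grd_span {m d : ℕ} (hd : 1 ≤ d) (q : Mon m d → Fin (m + 1) → ℂ) (hq : Uni q) :
    Submodule.span ℂ (Set.range q) = ⊤ := by
  by_contra hne
  obtain ⟨f, hf, hle⟩ := Submodule.exists_le_ker_of_lt_top _ (lt_top_iff_ne_top.mpr hne)
  apply hf
  have h0 : (fun a => f (Pi.single a 1)) = 0 := by
    apply grd_form hd q hq
    intro i
    have h1 : f (q i) = 0 := hle (Submodule.subset_span ⟨i, rfl⟩)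
    rw [← h1, LinearMap.pi_apply_eq_sum_univ f (q i)]
    refine Finset.sum_congr rfl fun a _ => ?_
    rw [smul_eq_mul]
    congr 2
    ext b
    simp [Pi.single_apply, eq_comm]
  ext x
  have := congrFun h0 x
  simpa using this

private theorem grd_exists {m d : ℕ} (hd : 1 ≤ d) (q : Mon m d → Fin (m + 1) → ℂ) (hq : Uni q) :
    ∃ κ : Fin (m + 1) → Mon m d, LinearIndependent ℂ (fun k => q (κ k)) := by
  obtain ⟨f, hf, -, hli⟩ := Submodule.exists_fun_fin_finrank_span_eq ℂ (Set.range q)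
  have hr : Module.finrank ℂ (Submodule.span ℂ (Set.range q)) = m + 1 := by
    rw [grd_span hd q hq]; simp
  choose κ hκ using hf
  refine ⟨fun k => κ (Fin.cast hr.symm k), ?_⟩
  have : (fun k : Fin (m + 1) => q (κ (Fin.cast hr.symm k))) = f ∘ (Fin.cast hr.symm) := by
    funext k
    exact hκ _
  rw [this]
  exact hli.comp _ (Fin.cast_injective _)

private theorem grd_basis {m : ℕ} (v : Fin (m + 1) → Fin (m + 1) → ℂ) (hv : LinearIndependent ℂ v) :
    ∃ b : Module.Basis (Fin (m + 1)) ℂ (Fin (m + 1) → ℂ), ∀ k, b k = v k := by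
  refine ⟨basisOfLinearIndependentOfCardEqFinrank hv (by simp), fun k => ?_⟩
  simp

private theorem grd_update {m : ℕ} (b : Module.Basis (Fin (m + 1)) ℂ (Fin (m + 1) → ℂ))
    (y : Fin (m + 1) → ℂ) (k : Fin (m + 1)) (hk : b.repr y k ≠ 0) (v : Fin (m + 1) → Fin (m + 1) → ℂ)
    (hv : ∀ l, v l = if l = k then y else b l) : LinearIndependent ℂ v := by
  rw [Fintype.linearIndependent_iff]
  intro g hg
  have hc : ∀ j, ∑ l, g l * b.repr (v l) j = 0 := by
    intro j
    have := congrArg (fun z => b.repr z j) hg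
    simpa [map_sum, Finsupp.finsetSum_apply] using this
  have hk0 : g k = 0 := by
    have h1 := hc k
    rw [Finset.sum_eq_single k] at h1
    · rw [hv k, if_pos rfl] at h1
      exact (mul_eq_zero.mp h1).resolve_right hk
    · intro l _ hl
      rw [hv l, if_neg hl]
      simp [hl]
    · simp
  intro i
  by_cases hi : i = k
  · rw [hi, hk0]
  · have h1 := hc i
    rw [Finset.sum_eq_single i] at h1
    · rw [hv i, if_neg hi] at h1
      simpa using h1
    · intro l _ hl
      by_cases hlk : l = k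
      · rw [hlk, hk0, zero_mul]
      · rw [hv l, if_neg hlk]
        simp [hl]
    · simp

/-- lower bound: some coordinate of an independent family is large -/
private theorem grd_low1 {m : ℕ} (v : Fin (m + 1) → Fin (m + 1) → ℂ) (hv : LinearIndependent ℂ v) :
    ∃ C : ℝ, 0 < C ∧ ∀ x : Fin (m + 1) → ℂ, ∃ k, ‖x‖ ≤ C * ‖∑ a, v k a * x a‖ := by
  obtain ⟨b, hb⟩ := grd_basis v hv
  refine ⟨(∑ a : Fin (m + 1), ∑ k, ‖b.repr (Pi.single a 1) k‖) + 1, by positivity, fun x => ?_⟩
  obtain ⟨k, -, hk⟩ := Finset.exists_max_image (Finset.univ : Finset (Fin (m + 1)))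
    (fun k => ‖∑ a, v k a * x a‖) Finset.univ_nonempty
  refine ⟨k, ?_⟩
  have hM : ∀ j, ‖∑ a, v j a * x a‖ ≤ ‖∑ a, v k a * x a‖ := fun j => hk j (Finset.mem_univ _)
  rw [pi_norm_le_iff_of_nonneg (by positivity)]
  intro a
  have h1 : x a = ∑ j, b.repr (Pi.single a 1) j * ∑ e, v j e * x e := by
    have h2 := b.sum_repr (Pi.single a (1 : ℂ))
    have h3 : ∀ e, (Pi.single a (1 : ℂ) : Fin (m + 1) → ℂ) e
        = ∑ j, b.repr (Pi.single a 1) j * v j e := by
      intro e
      conv_lhs => rw [← h2]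
      simp [Finset.sum_apply, hb]
    calc x a = ∑ e, (Pi.single a (1 : ℂ) : Fin (m + 1) → ℂ) e * x e := by
          simp [Pi.single_apply]
      _ = ∑ e, (∑ j, b.repr (Pi.single a 1) j * v j e) * x e := by
          refine Finset.sum_congr rfl fun e _ => by rw [h3 e]
      _ = _ := by
          simp_rw [Finset.sum_mul, Finset.mul_sum]
          rw [Finset.sum_comm]
          refine Finset.sum_congr rfl fun j _ => Finset.sum_congr rfl fun e _ => by ring
  rw [h1]
  calc ‖∑ j, b.repr (Pi.single a 1) j * ∑ e, v j e * x e‖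
      ≤ ∑ j, ‖b.repr (Pi.single a 1) j * ∑ e, v j e * x e‖ := norm_sum_le _ _
    _ ≤ ∑ j, ‖b.repr (Pi.single a 1) j‖ * ‖∑ a, v k a * x a‖ := by
        refine Finset.sum_le_sum fun j _ => ?_
        rw [norm_mul]
        exact mul_le_mul_of_nonneg_left (hM j) (norm_nonneg _)
    _ = (∑ j, ‖b.repr (Pi.single a 1) j‖) * ‖∑ a, v k a * x a‖ := by rw [Finset.sum_mul]
    _ ≤ _ := by
        refine mul_le_mul_of_nonneg_right ?_ (norm_nonneg _)
        have := Finset.single_le_sum (f := fun a : Fin (m + 1) => ∑ k, ‖b.repr (Pi.single a 1) k‖)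
          (fun i _ => by positivity) (Finset.mem_univ a)
        linarith

private theorem grd_low {m d : ℕ} (q : Mon m d → Fin (m + 1) → ℂ) :
    ∃ C : ℝ, ∀ κ : Fin (m + 1) → Mon m d, LinearIndependent ℂ (fun k => q (κ k)) →
      ∀ x : Fin (m + 1) → ℂ, x ≠ 0 → (∀ i, ∑ a, q i a * x a ≠ 0) →
        ∃ k, Real.log ‖x‖ - Real.log ‖∑ a, q (κ k) a * x a‖ ≤ C := by
  have h1 : ∀ κ : Fin (m + 1) → Mon m d, ∃ C : ℝ, LinearIndependent ℂ (fun k => q (κ k)) →
      ∀ x : Fin (m + 1) → ℂ, x ≠ 0 → (∀ i, ∑ a, q i a * x a ≠ 0) →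
        ∃ k, Real.log ‖x‖ - Real.log ‖∑ a, q (κ k) a * x a‖ ≤ C := by
    intro κ
    by_cases hκ : LinearIndependent ℂ (fun k => q (κ k))
    · obtain ⟨C, hC, h⟩ := grd_low1 _ hκ
      refine ⟨Real.log C, fun _ x hx hqx => ?_⟩
      obtain ⟨k, hk⟩ := h x
      refine ⟨k, ?_⟩
      have h2 : Real.log ‖x‖ ≤ Real.log (C * ‖∑ a, q (κ k) a * x a‖) :=
        Real.log_le_log (norm_pos_iff.mpr hx) hk
      rw [Real.log_mul hC.ne' (norm_ne_zero_iff.mpr (hqx _))] at h2
      linarith
    · exact ⟨0, fun h => absurd h hκ⟩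
  choose C hC using h1
  obtain ⟨M, hM⟩ := Finite.exists_le C
  refine ⟨M, fun κ hκ x hx hqx => ?_⟩
  obtain ⟨k, hk⟩ := hC κ hκ x hx hqx
  exact ⟨k, hk.trans (hM κ)⟩

private theorem grd_up {m d : ℕ} (q : Mon m d → Fin (m + 1) → ℂ) :
    ∃ C : ℝ, 0 ≤ C ∧ ∀ x : Fin (m + 1) → ℂ, x ≠ 0 → (∀ i, ∑ a, q i a * x a ≠ 0) →
        ∀ i, 0 ≤ Real.log ‖x‖ - Real.log ‖∑ a, q i a * x a‖ + C := by
  obtain ⟨M, hM⟩ := Finite.exists_le (fun i => ∑ a, ‖q i a‖)
  refine ⟨Real.log (max M 1), Real.log_nonneg (le_max_right _ _), fun x hx hqx i => ?_⟩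
  have h1 : ‖∑ a, q i a * x a‖ ≤ max M 1 * ‖x‖ := by
    calc ‖∑ a, q i a * x a‖ ≤ ∑ a, ‖q i a * x a‖ := norm_sum_le _ _
      _ ≤ ∑ a, ‖q i a‖ * ‖x‖ := by
          refine Finset.sum_le_sum fun a _ => ?_
          rw [norm_mul]
          exact mul_le_mul_of_nonneg_left (norm_le_pi_norm x a) (norm_nonneg _)
      _ = (∑ a, ‖q i a‖) * ‖x‖ := by rw [Finset.sum_mul]
      _ ≤ _ := mul_le_mul_of_nonneg_right ((hM i).trans (le_max_left _ _)) (norm_nonneg _)
  have h2 := Real.log_le_log (norm_pos_iff.mpr (hqx i)) h1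
  rw [Real.log_mul (by positivity) (norm_ne_zero_iff.mpr hx)] at h2
  linarith

open MvPolynomial in
/-- the matrix of all monomials of the coordinates of unisolvent points is regular -/
private theorem grd_det {m d : ℕ} (q : Mon m d → Fin (m + 1) → ℂ) (hq : Uni q)
    (b : Module.Basis (Fin (m + 1)) ℂ (Fin (m + 1) → ℂ)) :
    (Matrix.of fun i β : Mon m d => ∏ k, (b.repr (q i) k) ^ (β.1 k)).det ≠ 0 := by
  intro hdet
  obtain ⟨v, hv, hv0⟩ := Matrix.exists_mulVec_eq_zero_iff.mpr hdet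
  set P : MvPolynomial (Fin (m + 1)) ℂ := ∑ β : Mon m d, monomial β.1 (v β) with hP
  have hPh : P.IsHomogeneous d := by
    apply IsHomogeneous.sum
    intro β _
    apply isHomogeneous_monomial
    have := (Finset.mem_finsuppAntidiag.mp β.2).1
    rw [Finsupp.degree_eq_sum]
    exact this
  have hPe : ∀ y : Fin (m + 1) → ℂ, eval y P = ∑ β : Mon m d, v β * ∏ k, y k ^ (β.1 k) := by
    intro y
    rw [hP, map_sum]
    refine Finset.sum_congr rfl fun β _ => ?_
    rw [eval_monomial, Finsupp.prod_fintype _ _ (by simp)]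
  -- linear forms
  set Lf : Fin (m + 1) → MvPolynomial (Fin (m + 1)) ℂ :=
    fun k => ∑ a, C (b.repr (Pi.single a 1) k) * X a with hLf
  have hLh : ∀ k, (Lf k).IsHomogeneous 1 := by
    intro k
    apply IsHomogeneous.sum
    intro a _
    simpa using (isHomogeneous_C _ (b.repr (Pi.single a 1) k)).mul (isHomogeneous_X ℂ a)
  have hLe : ∀ k y, eval y (Lf k) = b.repr y k := by
    intro k y
    rw [hLf]
    simp only [map_sum, map_mul, eval_C, eval_X]
    have h1 : y = ∑ a, y a • (Pi.single a (1 : ℂ) : Fin (m + 1) → ℂ) := by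
      ext e
      simp [Finset.sum_apply, Pi.single_apply]
    conv_rhs => rw [h1]
    rw [map_sum, Finsupp.finsetSum_apply]
    refine Finset.sum_congr rfl fun a _ => ?_
    rw [map_smul, Finsupp.smul_apply, smul_eq_mul, mul_comm]
  set P' : MvPolynomial (Fin (m + 1)) ℂ := aeval Lf P with hP'
  have hPe' : ∀ y, eval y P' = eval (fun k => b.repr y k) P := by
    intro y
    rw [hP', aeval_def, hom_eval₂]
    have h1 : (eval y).comp (algebraMap ℂ (MvPolynomial (Fin (m + 1)) ℂ)) = RingHom.id ℂ := by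
      ext r
      simp [algebraMap_eq]
    rw [h1]
    have h2 : (fun i => (eval y) (Lf i)) = fun k => b.repr y k := by
      funext k
      exact hLe k y
    rw [h2]
    rfl
  have h0 : P' = 0 := by
    apply hq
    · have := hPh.aeval Lf hLh
      rwa [one_mul] at this
    · intro i
      rw [hPe', hPe]
      have := congrFun hv0 i
      simpa [Matrix.mulVec, dotProduct, mul_comm] using this
  have hP0 : P = 0 := by
    apply MvPolynomial.funext
    intro y
    have h1 := hPe' (∑ k, y k • b k)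
    rw [h0] at h1
    have h2 : (fun k => b.repr (∑ k, y k • b k) k) = y := by
      funext k
      rw [b.repr_sum_self]
    rw [h2] at h1
    simpa using h1.symm
  apply hv
  funext β
  have h1 := congrArg (coeff β.1) hP0
  rw [hP, coeff_sum] at h1
  rw [Finset.sum_eq_single β] at h1
  · simpa using h1
  · intro γ _ hγ
    rw [coeff_monomial, if_neg]
    intro h
    exact hγ (Subtype.ext h)
  · simp

private theorem grd_perm {ι : Type*} [Fintype ι] [DecidableEq ι] (M : Matrix ι ι ℂ) (h : M.det ≠ 0) :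
    ∃ τ : Equiv.Perm ι, ∀ i, M i (τ i) ≠ 0 := by
  by_contra hcon
  push Not at hcon
  apply h
  rw [← Matrix.det_transpose, Matrix.det_apply]
  apply Finset.sum_eq_zero
  intro σ _
  obtain ⟨i, hi⟩ := hcon σ
  rw [Finset.prod_eq_zero (Finset.mem_univ i)]
  · simp
  · simpa using hi

private theorem grd_count (m d : ℕ) (k₀ k : Fin (m + 1)) (hk : k ≠ k₀) :
    m * ∑ β ∈ (Finset.univ : Finset (Mon m d)).filter (fun β => β.1 k₀ = 0), β.1 k
      = d * (m + d - 1).choose d := by
  classical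
  set S := (Finset.univ : Finset (Mon m d)).filter (fun β => β.1 k₀ = 0) with hS
  have hcard : S.card = (m + d - 1).choose d := by
    have h1 := Finset.card_finsuppAntidiag_nat_eq_choose (s := (Finset.univ : Finset (Fin (m + 1))).erase k₀) d
    rw [Finset.card_erase_of_mem (Finset.mem_univ _), Finset.card_univ, Fintype.card_fin,
      Nat.add_sub_cancel] at h1
    rw [← h1]
    refine Finset.card_bij (fun β _ => β.1) ?_ ?_ ?_
    · intro β hβ
      rw [hS, Finset.mem_filter] at hβ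
      have h2 := Finset.mem_finsuppAntidiag.mp β.2
      rw [Finset.mem_finsuppAntidiag]
      constructor
      · refine Eq.trans ?_ h2.1
        rw [← Finset.sum_erase_add _ _ (Finset.mem_univ k₀), hβ.2, add_zero]
      · intro a ha
        rw [Finset.mem_erase]
        refine ⟨?_, Finset.mem_univ _⟩
        rintro rfl
        exact (Finsupp.mem_support_iff.mp ha) hβ.2
    · intro β _ γ _ h
      exact Subtype.ext h
    · intro β hβ
      have h2 := Finset.mem_finsuppAntidiag.mp hβ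
      have hk0 : β k₀ = 0 := by
        by_contra hne
        have := h2.2 (Finsupp.mem_support_iff.mpr hne)
        simp at this
      refine ⟨⟨β, ?_⟩, ?_, rfl⟩
      · rw [Finset.mem_finsuppAntidiag]
        refine ⟨?_, Finset.subset_univ _⟩
        rw [← Finset.sum_erase_add _ _ (Finset.mem_univ k₀), hk0, add_zero]
        exact h2.1
      · rw [hS, Finset.mem_filter]
        exact ⟨Finset.mem_univ _, hk0⟩
  have hsym : ∀ l, l ≠ k₀ → ∑ β ∈ S, β.1 l = ∑ β ∈ S, β.1 k := by
    intro l hl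
    have hmem : ∀ β : Mon m d, (β.1.equivMapDomain (Equiv.swap k l)) ∈
        Finset.finsuppAntidiag (Finset.univ : Finset (Fin (m + 1))) d := by
      intro β
      have h2 := (Finset.mem_finsuppAntidiag.mp β.2).1
      rw [Finset.mem_finsuppAntidiag]
      refine ⟨?_, Finset.subset_univ _⟩
      refine Eq.trans ?_ h2
      exact Equiv.sum_comp (Equiv.swap k l).symm (fun a => β.1 a)
    have hz : ∀ β ∈ S, (⟨_, hmem β⟩ : Mon m d) ∈ S := by
      intro β hβ
      rw [hS, Finset.mem_filter] at hβ ⊢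
      refine ⟨Finset.mem_univ _, ?_⟩
      show β.1 ((Equiv.swap k l).symm k₀) = 0
      rw [Equiv.symm_swap, Equiv.swap_apply_of_ne_of_ne hk.symm hl.symm]
      exact hβ.2
    have hinv : ∀ β : Mon m d, (⟨_, hmem ⟨_, hmem β⟩⟩ : Mon m d) = β := by
      intro β
      apply Subtype.ext
      ext a
      simp
    refine Finset.sum_nbij' (fun β => ⟨_, hmem β⟩) (fun β => ⟨_, hmem β⟩) hz hz
      (fun β _ => hinv β) (fun β _ => hinv β) ?_
    intro β _
    simp
  have h1 : ∑ l ∈ (Finset.univ : Finset (Fin (m + 1))).erase k₀, ∑ β ∈ S, β.1 l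
      = m * ∑ β ∈ S, β.1 k := by
    rw [Finset.sum_congr rfl (fun l hl => hsym l (Finset.ne_of_mem_erase hl)), Finset.sum_const,
      Finset.card_erase_of_mem (Finset.mem_univ _), Finset.card_univ, Fintype.card_fin,
      Nat.add_sub_cancel, smul_eq_mul]
  rw [← h1, Finset.sum_comm, ← hcard, mul_comm d, ← smul_eq_mul, ← Finset.sum_const]
  refine Finset.sum_congr rfl fun β hβ => ?_
  rw [hS, Finset.mem_filter] at hβ
  have h2 := (Finset.mem_finsuppAntidiag.mp β.2).1
  rw [← Finset.sum_erase_add _ _ (Finset.mem_univ k₀), hβ.2, add_zero] at h2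
  exact h2

/-- PIECE TGRD -/
theorem greedy {m d : ℕ} (hm : 1 ≤ m) (hd : 1 ≤ d) (q : Mon m d → Fin (m + 1) → ℂ)
    (hq : Uni q) :
    ∃ C : ℝ, ∀ x : Fin (m + 1) → ℂ, (∀ i, ∑ a, q i a * x a ≠ 0) →
      ∃ κ : Fin (m + 1) → Mon m d, LinearIndependent ℂ (fun k => q (κ k)) ∧
        (m : ℝ) * ∑ i, (Real.log ‖x‖ - Real.log ‖∑ a, q i a * x a‖) ≤
          ((m + d - 1).choose d : ℝ) *
            ∑ k, (Real.log ‖x‖ - Real.log ‖∑ a, q (κ k) a * x a‖) + C := by
  classical
  obtain ⟨C0, hC0, hup⟩ := grd_up q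
  obtain ⟨C1, hlow⟩ := grd_low q
  obtain ⟨κ₁, hκ₁⟩ := grd_exists hd q hq
  set N : ℕ := Fintype.card (Mon m d) with hN
  set s : ℕ := (m + d - 1).choose d with hs
  set D : ℝ := max (C1 + C0) 0 with hD
  refine ⟨m * (N * D) + s * ((m + 1) * C0), fun x hqx => ?_⟩
  have hx : x ≠ 0 := by
    rintro rfl
    exact hqx (κ₁ 0) (by simp)
  set lam : Mon m d → ℝ := fun i => Real.log ‖x‖ - Real.log ‖∑ a, q i a * x a‖ with hlam
  -- the best independent family
  obtain ⟨κ, hκS, hκmax⟩ := Finset.exists_max_image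
    ((Finset.univ : Finset (Fin (m + 1) → Mon m d)).filter
      (fun κ => LinearIndependent ℂ (fun k => q (κ k))))
    (fun κ => ∑ k, lam (κ k)) ⟨κ₁, by simpa using hκ₁⟩
  have hκ : LinearIndependent ℂ (fun k => q (κ k)) := by simpa using hκS
  refine ⟨κ, hκ, ?_⟩
  obtain ⟨b, hb⟩ := grd_basis _ hκ
  have hmono : ∀ i k, b.repr (q i) k ≠ 0 → lam i ≤ lam (κ k) := by
    intro i k hik
    have hli : LinearIndependent ℂ (fun l => q (Function.update κ k i l)) := by
      apply grd_update b (q i) k hik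
      intro l
      by_cases hl : l = k
      · subst hl; simp
      · rw [if_neg hl, Function.update_of_ne hl, hb]
    have h1 := hκmax (Function.update κ k i) (by simpa using hli)
    have h2 : ∑ l, lam (Function.update κ k i l) = lam i + ∑ l ∈ Finset.univ.erase k, lam (κ l) := by
      rw [← Finset.add_sum_erase _ _ (Finset.mem_univ k), Function.update_self]
      congr 1
      refine Finset.sum_congr rfl fun l hl => ?_
      rw [Function.update_of_ne (Finset.ne_of_mem_erase hl)]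
    rw [h2, ← Finset.add_sum_erase _ _ (Finset.mem_univ k)] at h1
    linarith
  obtain ⟨τ, hτ⟩ := grd_perm _ (grd_det q hq b)
  have hτ' : ∀ i k, (τ i).1 k ≠ 0 → lam i ≤ lam (κ k) := by
    intro i k hik
    apply hmono
    intro h0
    apply hτ i
    rw [Matrix.of_apply]
    apply Finset.prod_eq_zero (Finset.mem_univ k)
    rw [h0]
    exact zero_pow hik
  have hdeg : ∀ i, ∑ k, (((τ i).1 k : ℕ) : ℝ) = d := by
    intro i
    have := (Finset.mem_finsuppAntidiag.mp (τ i).2).1
    exact_mod_cast this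
  -- the smallest
  obtain ⟨k₁, hk₁⟩ := hlow κ hκ x hx hqx
  set k₀ := k₁ with hk₀
  set mu : Fin (m + 1) → ℝ := fun k => lam (κ k) + C0 with hmu
  have hmu0 : ∀ k, 0 ≤ mu k := fun k => hup x hx hqx (κ k)
  have hlam0 : ∀ i, 0 ≤ lam i + C0 := fun i => hup x hx hqx i
  have hk0 : mu k₀ ≤ D := le_max_of_le_left (by simp only [hmu]; linarith)
  have hD0 : 0 ≤ D := le_max_right _ _
  have hone : ∀ i, (d : ℝ) * (lam i + C0) ≤ d * D + (if (τ i).1 k₀ = 0 then
      ∑ k ∈ Finset.univ.erase k₀, (((τ i).1 k : ℕ) : ℝ) * mu k else 0) := by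
    intro i
    by_cases h0 : (τ i).1 k₀ = 0
    · rw [if_pos h0]
      have h1 : (d : ℝ) * (lam i + C0) = ∑ k ∈ Finset.univ.erase k₀,
          (((τ i).1 k : ℕ) : ℝ) * (lam i + C0) := by
        rw [← hdeg i, Finset.sum_mul, ← Finset.sum_erase_add _ _ (Finset.mem_univ k₀), h0]
        simp
      rw [h1]
      have h2 : ∑ k ∈ Finset.univ.erase k₀, (((τ i).1 k : ℕ) : ℝ) * (lam i + C0) ≤
          ∑ k ∈ Finset.univ.erase k₀, (((τ i).1 k : ℕ) : ℝ) * mu k := by
        refine Finset.sum_le_sum fun k _ => ?_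
        by_cases hk : (τ i).1 k = 0
        · simp [hk]
        · exact mul_le_mul_of_nonneg_left (by have := hτ' i k hk; simp only [hmu]; linarith)
            (Nat.cast_nonneg _)
      have h3 : 0 ≤ (d : ℝ) * D := by positivity
      linarith
    · rw [if_neg h0, add_zero]
      have h1 := hτ' i k₀ h0
      have h2 : lam i + C0 ≤ D := by
        refine le_trans ?_ hk0
        simp only [hmu]; linarith
      exact mul_le_mul_of_nonneg_left h2 (Nat.cast_nonneg _)
  have hsum : (d : ℝ) * ∑ i, (lam i + C0) ≤ N * (d * D) +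
      ∑ k ∈ Finset.univ.erase k₀, (∑ β ∈ (Finset.univ : Finset (Mon m d)).filter
        (fun β => β.1 k₀ = 0), ((β.1 k : ℕ) : ℝ)) * mu k := by
    have h1 : (d : ℝ) * ∑ i, (lam i + C0) ≤ ∑ i, (d * D + (if (τ i).1 k₀ = 0 then
        ∑ k ∈ Finset.univ.erase k₀, (((τ i).1 k : ℕ) : ℝ) * mu k else 0)) := by
      rw [Finset.mul_sum]
      exact Finset.sum_le_sum fun i _ => hone i
    refine h1.trans (le_of_eq ?_)
    rw [Finset.sum_add_distrib, Finset.sum_const, Finset.card_univ, nsmul_eq_mul, ← hN]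
    congr 1
    rw [Equiv.sum_comp τ (fun β : Mon m d => if β.1 k₀ = 0 then
        ∑ k ∈ Finset.univ.erase k₀, ((β.1 k : ℕ) : ℝ) * mu k else 0), ← Finset.sum_filter,
      Finset.sum_comm]
    refine Finset.sum_congr rfl fun k _ => ?_
    rw [Finset.sum_mul]
  have hcount : ∀ k ∈ (Finset.univ : Finset (Fin (m + 1))).erase k₀,
      (m : ℝ) * ∑ β ∈ (Finset.univ : Finset (Mon m d)).filter
        (fun β => β.1 k₀ = 0), ((β.1 k : ℕ) : ℝ) = d * s := by
    intro k hk
    have := grd_count m d k₀ k (Finset.ne_of_mem_erase hk)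
    exact_mod_cast this
  have hfin : (d : ℝ) * (m * ∑ i, (lam i + C0)) ≤ d * (m * (N * D) + s * ∑ k, mu k) := by
    have h1 := mul_le_mul_of_nonneg_left hsum (Nat.cast_nonneg (α := ℝ) m)
    have h2 : (m : ℝ) * ∑ k ∈ Finset.univ.erase k₀, (∑ β ∈ (Finset.univ : Finset (Mon m d)).filter
        (fun β => β.1 k₀ = 0), ((β.1 k : ℕ) : ℝ)) * mu k =
        ∑ k ∈ Finset.univ.erase k₀, (d * s : ℝ) * mu k := by
      rw [Finset.mul_sum]
      refine Finset.sum_congr rfl fun k hk => ?_
      rw [← mul_assoc, hcount k hk]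
    have h3 : ∑ k ∈ Finset.univ.erase k₀, (d * s : ℝ) * mu k ≤ (d * s : ℝ) * ∑ k, mu k := by
      rw [← Finset.mul_sum]
      refine mul_le_mul_of_nonneg_left ?_ (by positivity)
      exact Finset.sum_le_sum_of_subset_of_nonneg (Finset.erase_subset _ _) fun k _ _ => hmu0 k
    nlinarith
  have hd0 : (0 : ℝ) < d := by exact_mod_cast hd
  have hfin' := le_of_mul_le_mul_left hfin hd0
  have h4 : ∑ i, (lam i + C0) = ∑ i, lam i + N * C0 := by
    rw [Finset.sum_add_distrib, Finset.sum_const, Finset.card_univ, nsmul_eq_mul, ← hN]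
  have h5 : ∑ k, mu k = ∑ k, lam (κ k) + (m + 1) * C0 := by
    simp only [hmu]
    rw [Finset.sum_add_distrib, Finset.sum_const, Finset.card_univ, Fintype.card_fin, nsmul_eq_mul]
    push_cast
    ring
  rw [h4, h5] at hfin'
  have h6 : 0 ≤ (m : ℝ) * (N * C0) := by positivity
  show (m : ℝ) * ∑ i, lam i ≤ s * ∑ k, lam (κ k) + (m * (N * D) + s * ((m + 1) * C0))
  nlinarith

end Pool.Agent.GGL
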