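import Mathlib
import Pool.Agent.Lib_MP_b9fedf_ag.TanDefs

set_option autoImplicit false

namespace Pool.Agent.GGL
open Filter Topology

/-- Two-function version: the Wronskian of `P` and `Y`. -/
private theorem order_wr_loc (P Y : ℂ → ℂ) (z : ℂ) (hP : AnalyticAt ℂ P z) (hY : AnalyticAt ℂ Y z)
    (c j : ℕ) (hcP : ((c + j : ℕ) : ℕ∞) ≤ analyticOrderAt P z)
    (hcY : (c : ℕ∞) ≤ analyticOrderAt Y z) :
    ((2 * c + (j - 1) : ℕ) : ℕ∞) ≤ analyticOrderAt (fun ζ => deriv P ζ * Y ζ - P ζ * deriv Y ζ) z := by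
  obtain ⟨h1, h1a, h1e⟩ := (natCast_le_analyticOrderAt hP).1 hcP
  obtain ⟨h2, h2a, h2e⟩ := (natCast_le_analyticOrderAt hY).1 hcY
  have hWa : AnalyticAt ℂ (fun ζ => deriv P ζ * Y ζ - P ζ * deriv Y ζ) z :=
    (hP.deriv.mul hY).sub (hP.mul hY.deriv)
  have e1 : ∀ᶠ w in 𝓝 z, deriv P w =
      (((c + j : ℕ) : ℂ) * (w - z) ^ (c + j - 1)) * h1 w + (w - z) ^ (c + j) * deriv h1 w := by
    have h1d := h1a.eventually_analyticAt
    filter_upwards [h1e.eventually_nhds, h1d] with w hw hd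
    have : P =ᶠ[𝓝 w] fun ζ => (ζ - z) ^ (c + j) * h1 ζ := by
      filter_upwards [hw] with ζ hζ
      simpa [smul_eq_mul] using hζ
    rw [this.deriv_eq]
    have d1 : HasDerivAt (fun ζ : ℂ => (ζ - z) ^ (c + j))
        (((c + j : ℕ) : ℂ) * (w - z) ^ (c + j - 1)) w := by
      have := ((hasDerivAt_id w).sub_const z).fun_pow (c + j)
      simpa using this
    exact (d1.mul hd.differentiableAt.hasDerivAt).deriv
  have e2 : ∀ᶠ w in 𝓝 z, deriv Y w =
      ((c : ℂ) * (w - z) ^ (c - 1)) * h2 w + (w - z) ^ c * deriv h2 w := by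
    have h2d := h2a.eventually_analyticAt
    filter_upwards [h2e.eventually_nhds, h2d] with w hw hd
    have : Y =ᶠ[𝓝 w] fun ζ => (ζ - z) ^ c * h2 ζ := by
      filter_upwards [hw] with ζ hζ
      simpa [smul_eq_mul] using hζ
    rw [this.deriv_eq]
    have d1 : HasDerivAt (fun ζ : ℂ => (ζ - z) ^ c) ((c : ℂ) * (w - z) ^ (c - 1)) w := by
      have := ((hasDerivAt_id w).sub_const z).fun_pow c
      simpa using this
    exact (d1.mul hd.differentiableAt.hasDerivAt).deriv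
  rw [natCast_le_analyticOrderAt hWa]
  -- (w - z) ^ (2c) factors out
  have key : ∀ (n : ℕ) (u : ℂ), (n : ℂ) * u ^ (n - 1) * u = (n : ℂ) * u ^ n := by
    intro n u
    rcases n with _ | n
    · simp
    · rw [Nat.add_sub_cancel, mul_assoc, ← pow_succ]
  rcases j with _ | j
  · refine ⟨fun w => deriv h1 w * h2 w - h1 w * deriv h2 w,
      (h1a.deriv.mul h2a).sub (h1a.mul h2a.deriv), ?_⟩
    filter_upwards [e1, e2, h1e, h2e] with w w1 w2 w3 w4
    rw [w1, w2, w3, w4]
    simp only [smul_eq_mul, Nat.add_zero, Nat.zero_sub]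
    rw [two_mul, pow_add]
    ring
  · refine ⟨fun w => ((j + 1 : ℕ) : ℂ) * h1 w * h2 w
        + (w - z) * (deriv h1 w * h2 w - h1 w * deriv h2 w),
      ?_, ?_⟩
    · exact ((analyticAt_const.mul h1a).mul h2a).add
        ((analyticAt_id.sub analyticAt_const).mul
          ((h1a.deriv.mul h2a).sub (h1a.mul h2a.deriv)))
    filter_upwards [e1, e2, h1e, h2e] with w w1 w2 w3 w4
    rw [w1, w2, w3, w4]
    simp only [smul_eq_mul, Nat.add_sub_cancel]
    have k1 : c + (j + 1) - 1 = c + j := by omega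
    rw [k1]
    have k2 := key c (w - z)
    have k3 : (w - z) ^ (c + (j + 1)) * h1 w * ((c : ℂ) * (w - z) ^ (c - 1) * h2 w)
        = (c : ℂ) * (w - z) ^ c * (w - z) ^ (c + j) * h1 w * h2 w := by
      have : (w - z) ^ (c + (j + 1)) = (w - z) ^ (c + j) * (w - z) := by
        rw [← pow_succ]; congr 1
      rw [this]
      calc _ = ((c : ℂ) * (w - z) ^ (c - 1) * (w - z)) * (w - z) ^ (c + j) * h1 w * h2 w := by ring
        _ = _ := by rw [k2]
    have k4 : (w - z) ^ (c + (j + 1)) * h1 w *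
        ((c : ℂ) * (w - z) ^ (c - 1) * h2 w + (w - z) ^ c * deriv h2 w)
        = (c : ℂ) * (w - z) ^ c * (w - z) ^ (c + j) * h1 w * h2 w
          + (w - z) ^ (c + (j + 1)) * h1 w * ((w - z) ^ c * deriv h2 w) := by
      rw [mul_add, k3]
    rw [k4]
    push_cast
    have k5 : (w - z) ^ (2 * c + j) = (w - z) ^ c * (w - z) ^ (c + j) := by
      rw [← pow_add]; congr 1; omega
    have k6 : (w - z) ^ (c + (j + 1)) = (w - z) ^ (c + j) * (w - z) := by
      rw [← pow_succ]; congr 1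
    rw [k5, k6]
    ring

/-- PIECE TLOC -/
theorem order_wd {m : ℕ} (g : Fin (m + 1) → ℂ → ℂ) (z : ℂ) (hg : ∀ a, AnalyticAt ℂ (g a) z)
    (c : ℕ) (hc : ∀ a, (c : ℕ∞) ≤ analyticOrderAt (g a) z) (p y : Fin (m + 1) → ℂ) (o : ℕ)
    (ho : (o : ℕ∞) ≤ analyticOrderAt (fun ζ => ∑ a, p a * g a ζ) z) :
    ((2 * c + (o - c - 1) : ℕ) : ℕ∞) ≤ analyticOrderAt
      (fun ζ => wd (fun a => g a ζ) (fun a => deriv (g a) ζ) y p) z := by
  have hlin : ∀ v : Fin (m + 1) → ℂ, AnalyticAt ℂ (fun ζ => ∑ a, v a * g a ζ) z := by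
    intro v
    have := Finset.analyticAt_fun_sum (N := Finset.univ) (f := fun a ζ => v a * g a ζ) (c := z)
      (fun a _ => (analyticAt_const (v := v a)).mul (hg a))
    exact this
  have hcl : ∀ v : Fin (m + 1) → ℂ, (c : ℕ∞) ≤ analyticOrderAt (fun ζ => ∑ a, v a * g a ζ) z := by
    intro v
    rw [natCast_le_analyticOrderAt (hlin v)]
    choose h hh1 hh2 using fun a => (natCast_le_analyticOrderAt (hg a)).1 (hc a)
    refine ⟨fun ζ => ∑ a, v a * h a ζ, ?_, ?_⟩
    · exact Finset.analyticAt_fun_sum (N := Finset.univ) (f := fun a ζ => v a * h a ζ) (c := z)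
        (fun a _ => (analyticAt_const (v := v a)).mul (hh1 a))
    · filter_upwards [eventually_all.2 hh2] with w hw
      rw [smul_eq_mul, Finset.mul_sum]
      refine Finset.sum_congr rfl fun a _ => ?_
      rw [hw a, smul_eq_mul]
      ring
  have hcP : ((c + (o - c) : ℕ) : ℕ∞) ≤ analyticOrderAt (fun ζ => ∑ a, p a * g a ζ) z := by
    rcases le_total o c with h | h
    · rw [Nat.sub_eq_zero_of_le h]
      exact hcl p
    · rw [Nat.add_sub_cancel' h]
      exact ho
  have main := order_wr_loc (fun ζ => ∑ a, p a * g a ζ) (fun ζ => ∑ a, y a * g a ζ) z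
    (hlin p) (hlin y) c (o - c) hcP (hcl y)
  have hd : ∀ v : Fin (m + 1) → ℂ, ∀ᶠ w in 𝓝 z,
      deriv (fun ζ => ∑ a, v a * g a ζ) w = ∑ a, v a * deriv (g a) w := by
    intro v
    filter_upwards [eventually_all.2 fun a => (hg a).eventually_analyticAt] with w hw
    have : HasDerivAt (fun ζ => ∑ a, v a * g a ζ) (∑ a, v a * deriv (g a) w) w := by
      have := HasDerivAt.fun_sum (u := Finset.univ) (A := fun a ζ => v a * g a ζ)
        (A' := fun a => v a * deriv (g a) w) (x := w)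
        (fun a _ => ((hw a).differentiableAt.hasDerivAt).const_mul (v a))
      exact this
    exact this.deriv
  have hcongr : (fun ζ => wd (fun a => g a ζ) (fun a => deriv (g a) ζ) y p) =ᶠ[𝓝 z]
      (fun ζ => deriv (fun ζ => ∑ a, p a * g a ζ) ζ * (∑ a, y a * g a ζ)
        - (∑ a, p a * g a ζ) * deriv (fun ζ => ∑ a, y a * g a ζ) ζ) := by
    filter_upwards [hd p, hd y] with w h1 h2
    rw [h1, h2]
    rfl
  rw [analyticOrderAt_congr hcongr]
  exact main

end Pool.Agent.GGL
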