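import Mathlib
import Pool.Agent.Lib_MP_b9fedf_ag.TanDefs

set_option autoImplicit false

namespace Pool.Agent.GGL
open Filter Metric Real Set Function

private theorem ord_prod_tord {α : Type} (S : Finset α) (f : α → ℂ → ℂ) (z : ℂ)
    (hf : ∀ i ∈ S, AnalyticAt ℂ (f i) z) (m : α → ℕ)
    (hm : ∀ i ∈ S, (m i : ℕ∞) ≤ analyticOrderAt (f i) z) :
    ((∑ i ∈ S, m i : ℕ) : ℕ∞) ≤ analyticOrderAt (fun ζ => ∏ i ∈ S, f i ζ) z ∧
      AnalyticAt ℂ (fun ζ => ∏ i ∈ S, f i ζ) z := by
  classical
  induction S using Finset.induction_on with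
  | empty =>
    refine ⟨by simp, ?_⟩
    simpa using (analyticAt_const : AnalyticAt ℂ (fun _ : ℂ => (1 : ℂ)) z)
  | insert a S ha ih =>
    obtain ⟨h1, h2⟩ := ih (fun i hi => hf i (Finset.mem_insert_of_mem hi))
      (fun i hi => hm i (Finset.mem_insert_of_mem hi))
    have ha1 := hf a (Finset.mem_insert_self a S)
    have ha2 := hm a (Finset.mem_insert_self a S)
    have heq : (fun ζ => ∏ i ∈ insert a S, f i ζ) = (f a * fun ζ => ∏ i ∈ S, f i ζ) := by
      funext ζ
      simp [Finset.prod_insert ha]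
    rw [heq]
    refine ⟨?_, ha1.mul h2⟩
    rw [analyticOrderAt_mul ha1 h2, Finset.sum_insert ha]
    push_cast
    push_cast at h1
    exact add_le_add ha2 h1

private theorem ord_sum_tord {α : Type} (S : Finset α) (f : α → ℂ → ℂ) (z : ℂ)
    (hf : ∀ i ∈ S, AnalyticAt ℂ (f i) z) (n : ℕ)
    (hn : ∀ i ∈ S, (n : ℕ∞) ≤ analyticOrderAt (f i) z) :
    (n : ℕ∞) ≤ analyticOrderAt (fun ζ => ∑ i ∈ S, f i ζ) z := by
  classical
  induction S using Finset.induction_on with
  | empty =>
    have : analyticOrderAt (fun _ : ℂ => (0 : ℂ)) z = ⊤ := by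
      rw [analyticOrderAt_eq_top]
      exact Filter.Eventually.of_forall fun _ => rfl
    simp [this]
  | insert a S ha ih =>
    have h1 := ih (fun i hi => hf i (Finset.mem_insert_of_mem hi))
      (fun i hi => hn i (Finset.mem_insert_of_mem hi))
    have ha2 := hn a (Finset.mem_insert_self a S)
    have heq : (fun ζ => ∑ i ∈ insert a S, f i ζ) = (f a + fun ζ => ∑ i ∈ S, f i ζ) := by
      funext ζ
      simp [Finset.sum_insert ha]
    rw [heq]
    exact le_trans (le_min ha2 h1) le_analyticOrderAt_add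

/-- PIECE TORD -/
theorem order_det {s : ℕ} {ι : Type} [Fintype ι] (A : Fin s → Fin s → ℂ → ℂ) (z : ℂ)
    (hA : ∀ k l, AnalyticAt ℂ (A k l) z) (e : ℕ)
    (he : ∀ k l, (e : ℕ∞) ≤ analyticOrderAt (A k l) z) (u : ι → Fin s → ℂ)
    (hu : LinearIndependent ℂ u) (κ : ι → ℕ)
    (hκ : ∀ i k, ((e + κ i : ℕ) : ℕ∞) ≤ analyticOrderAt (fun ζ => ∑ l, u i l * A k l ζ) z) :
    ((s * e + ∑ i, κ i : ℕ) : ℕ∞) ≤
      analyticOrderAt (fun ζ => (Matrix.of fun k l => A k l ζ).det) z := by
  classical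
  set b := Module.Basis.sumExtend hu with hb
  have hbl : ∀ i, b (Sum.inl i) = u i := by
    intro i
    rw [hb]
    simp only [Module.Basis.sumExtend, Module.Basis.reindex_apply, Module.Basis.extend_apply_self]
    rfl
  have hfin : Fintype (ι ⊕ Module.Basis.sumExtendIndex hu) :=
    FiniteDimensional.fintypeBasisIndex b
  have hcard : Fintype.card (ι ⊕ Module.Basis.sumExtendIndex hu) = s := by
    rw [← Module.finrank_eq_card_basis b]
    simp
  let σ : (ι ⊕ Module.Basis.sumExtendIndex hu) ≃ Fin s := Fintype.equivFinOfCardEq hcard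
  set c := b.reindex σ with hc
  let φ : ι → Fin s := fun i => σ (Sum.inl i)
  have hφ : Function.Injective φ := fun i j h => Sum.inl_injective (σ.injective h)
  have hcφ : ∀ i, c (φ i) = u i := by
    intro i
    simp only [hc, Module.Basis.reindex_apply, φ, Equiv.symm_apply_apply]
    exact hbl i
  let m : Fin s → ℕ := Function.extend φ κ (fun _ => 0)
  have hmφ : ∀ i, m (φ i) = κ i := fun i => hφ.extend_apply κ _ i
  have hm0 : ∀ j, j ∉ Set.range φ → m j = 0 := by
    intro j hj
    exact Function.extend_apply' κ _ j (fun ⟨a, ha⟩ => hj ⟨a, ha⟩)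
  have hmsum : ∑ i, κ i = ∑ j, m j :=
    Fintype.sum_of_injective φ hφ κ m hm0 (fun i => (hmφ i).symm)
  -- the matrix of the basis
  let U : Matrix (Fin s) (Fin s) ℂ := Matrix.of fun l j => c j l
  have hUunit : IsUnit U := by
    rw [← Matrix.linearIndependent_cols_iff_isUnit]
    exact c.linearIndependent
  have hUdet : U.det ≠ 0 := ((Matrix.isUnit_iff_isUnit_det U).1 hUunit).ne_zero
  -- the columns of the product
  have hent : ∀ k j, ((e + m j : ℕ) : ℕ∞) ≤
      analyticOrderAt (fun ζ => ∑ l, A k l ζ * c j l) z := by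
    intro k j
    by_cases hj : j ∈ Set.range φ
    · obtain ⟨i, rfl⟩ := hj
      rw [hmφ, hcφ]
      have h1 := hκ i k
      simpa only [mul_comm] using h1
    · rw [hm0 j hj, add_zero]
      refine ord_sum_tord Finset.univ (fun l ζ => A k l ζ * c j l) z
        (fun l _ => (hA k l).mul analyticAt_const) e (fun l _ => ?_)
      have h2 : (fun ζ => A k l ζ * c j l) = (A k l * fun _ => c j l) := rfl
      rw [h2, analyticOrderAt_mul (hA k l) analyticAt_const]
      exact le_trans (he k l) le_self_add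
  have hana : ∀ k j, AnalyticAt ℂ (fun ζ => ∑ l, A k l ζ * c j l) z := by
    intro k j
    have := Finset.analyticAt_fun_sum (Finset.univ : Finset (Fin s))
      (f := fun l ζ => A k l ζ * c j l) (c := z)
      (fun l _ => (hA k l).mul analyticAt_const)
    exact this
  have hdet : (fun ζ => (Matrix.of fun k l => A k l ζ).det) =
      fun ζ => ∑ τ : Equiv.Perm (Fin s), ((U.det)⁻¹ * ((Equiv.Perm.sign τ : ℤ) : ℂ)) *
        ∏ j, (∑ l, A (τ j) l ζ * c j l) := by
    funext ζ
    have h3 : ((Matrix.of fun k l => A k l ζ) * U).det =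
        (Matrix.of fun k l => A k l ζ).det * U.det := Matrix.det_mul _ _
    have h4 : (Matrix.of fun k l => A k l ζ).det =
        (U.det)⁻¹ * ((Matrix.of fun k l => A k l ζ) * U).det := by
      rw [h3]; field_simp
    have h8 : ((Matrix.of fun k l => A k l ζ) * U).det =
        ∑ τ : Equiv.Perm (Fin s), ((Equiv.Perm.sign τ : ℤ) : ℂ) *
        ∏ j, (∑ l, A (τ j) l ζ * c j l) := by
      rw [Matrix.det_apply']
      rfl
    rw [h4, h8, Finset.mul_sum]
    refine Finset.sum_congr rfl fun τ _ => ?_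
    rw [mul_assoc]
  rw [hdet]
  refine ord_sum_tord Finset.univ _ z (fun τ _ => ?_) _ (fun τ _ => ?_)
  · obtain ⟨-, h6⟩ := ord_prod_tord Finset.univ
      (fun j ζ => ∑ l, A (τ j) l ζ * c j l) z (fun j _ => hana (τ j) j) (fun j => e + m j)
      (fun j _ => hent (τ j) j)
    exact analyticAt_const.mul h6
  · obtain ⟨h5, h6⟩ := ord_prod_tord Finset.univ
      (fun j ζ => ∑ l, A (τ j) l ζ * c j l) z (fun j _ => hana (τ j) j) (fun j => e + m j)
      (fun j _ => hent (τ j) j)
    have h7 : (fun ζ => ((U.det)⁻¹ * ((Equiv.Perm.sign τ : ℤ) : ℂ)) *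
        ∏ j, (∑ l, A (τ j) l ζ * c j l)) =
        ((fun _ => ((U.det)⁻¹ * ((Equiv.Perm.sign τ : ℤ) : ℂ))) *
          fun ζ => ∏ j, (∑ l, A (τ j) l ζ * c j l)) := rfl
    rw [h7, analyticOrderAt_mul analyticAt_const h6]
    refine le_trans ?_ le_add_self
    refine le_trans (le_of_eq ?_) h5
    rw [Finset.sum_add_distrib, hmsum]
    simp

end Pool.Agent.GGL
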