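import Pool.Agent.Lib_MP_b9fedf_ag.TanDefs
import Pool.Agent.Lib_MP_b9fedf_ag.Cartan

/-! Wronskians of linear combinations and pointwise bounds on good circles. -/

set_option autoImplicit false

namespace Pool.Agent.GGL
open Filter Metric Real Set Function MeromorphicOn ValueDistribution

/-- Unisolvence: the interpolation matrix is invertible. -/
lemma uni_det {m d : ℕ} {q : Mon m d → Fin (m + 1) → ℂ} (hq : Uni q) :
    (Matrix.of fun (i β : Mon m d) => ∏ k, q i k ^ (β : Fin (m + 1) →₀ ℕ) k).det ≠ 0 := by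
  classical
  intro hdet
  obtain ⟨v, hv0, hv⟩ := Matrix.exists_mulVec_eq_zero_iff.mpr hdet
  apply hv0
  set P : MvPolynomial (Fin (m + 1)) ℂ :=
    ∑ β : Mon m d, MvPolynomial.monomial (β : Fin (m + 1) →₀ ℕ) (v β) with hP
  have hhom : P.IsHomogeneous d := by
    rw [hP]
    apply MvPolynomial.IsHomogeneous.sum
    intro β _
    apply MvPolynomial.isHomogeneous_monomial
    have h1 := (Finset.mem_finsuppAntidiag.mp β.2).1
    rw [Finsupp.degree_eq_sum]
    exact h1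
  have h0 : P = 0 := by
    apply hq P hhom
    intro i
    have h1 := congrFun hv i
    rw [Matrix.mulVec, dotProduct] at h1
    rw [hP, map_sum]
    rw [← show (∑ β : Mon m d, (Matrix.of fun (i β : Mon m d) =>
      ∏ k, q i k ^ (β : Fin (m + 1) →₀ ℕ) k) i β * v β) = 0 from h1]
    apply Finset.sum_congr rfl
    intro β _
    rw [MvPolynomial.eval_monomial, Matrix.of_apply, Finsupp.prod_fintype _ _ (by simp)]
    ring
  funext β
  have h1 := congrArg (MvPolynomial.coeff (β : Fin (m + 1) →₀ ℕ)) h0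
  rw [hP, MvPolynomial.coeff_sum, MvPolynomial.coeff_zero] at h1
  rw [Finset.sum_eq_single β] at h1
  · rw [MvPolynomial.coeff_monomial, if_pos rfl] at h1
    exact h1
  · intro b _ hb
    rw [MvPolynomial.coeff_monomial, if_neg]
    intro h
    exact hb (Subtype.ext h)
  · intro h
    exact absurd (Finset.mem_univ β) h

lemma uni_ne_zero {m d : ℕ} (hd : 1 ≤ d) {q : Mon m d → Fin (m + 1) → ℂ} (hq : Uni q)
    (i : Mon m d) : q i ≠ 0 := by
  classical
  intro h
  apply uni_det hq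
  apply Matrix.det_eq_zero_of_row_eq_zero i
  intro β
  rw [Matrix.of_apply]
  have h1 := (Finset.mem_finsuppAntidiag.mp β.2).1
  obtain ⟨k, hk⟩ : ∃ k, (β : Fin (m + 1) →₀ ℕ) k ≠ 0 := by
    by_contra hcon
    push Not at hcon
    rw [Finset.sum_eq_zero (fun k _ => hcon k)] at h1
    omega
  apply Finset.prod_eq_zero (Finset.mem_univ k)
  rw [h]
  exact zero_pow hk

/-- Wronskian of linear combinations. -/
lemma Wr_linear {m : ℕ} (M : Fin m → Fin m → ℂ) (g : Fin m → ℂ → ℂ)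
    (hg : ∀ a, Differentiable ℂ (g a)) (z : ℂ) :
    Wr (fun k ζ => ∑ a, M k a * g a ζ) z = (Matrix.of M).det * Wr g z := by
  classical
  unfold Wr
  have h1 : (Matrix.of fun i j : Fin m => iteratedDeriv (i : ℕ) (fun ζ => ∑ a, M j a * g a ζ) z) =
      (Matrix.of fun i j : Fin m => iteratedDeriv (i : ℕ) (g j) z) * (Matrix.of M).transpose := by
    ext i j
    rw [Matrix.mul_apply]
    simp only [Matrix.of_apply, Matrix.transpose_apply]
    rw [iteratedDeriv_fun_sum]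
    · apply Finset.sum_congr rfl
      intro a _
      rw [iteratedDeriv_const_mul_field]
      ring
    · intro a _
      exact ((hg a).const_mul (M j a)).contDiff.contDiffAt
  rw [h1, Matrix.det_mul, Matrix.det_transpose, mul_comm]

/-- Pointwise bound of the Wronskian by the product, at a point where the logarithmic
derivatives of the `h k / g0` are controlled. -/
lemma Wr_le_prod {m : ℕ} {g0 : ℂ → ℂ} {h : Fin m → ℂ → ℂ} {z : ℂ} {B : ℝ} (hB : 1 ≤ B)
    (hg0 : AnalyticAt ℂ g0 z) (hh : ∀ k, AnalyticAt ℂ (h k) z) (hz0 : g0 z ≠ 0)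
    (hG : ∀ k, AnalyticAt ℂ (fun z => h k z / g0 z) z → ∀ i : ℕ,
      ‖iteratedDeriv i (fun z => h k z / g0 z) z‖ ≤
      Real.exp 1 * i.factorial * B ^ i * ‖h k z / g0 z‖) :
    ‖Wr h z‖ ≤ m.factorial * (Real.exp 1 * m.factorial * B ^ m) ^ m * ∏ k, ‖h k z‖ := by
  have hGan : ∀ k, AnalyticAt ℂ (fun z => h k z / g0 z) z := fun k => (hh k).fun_div hg0 hz0
  have h1 : Wr h z = g0 z ^ m * Wr (fun i z => h i z / g0 z) z := by
    rw [← Wr_mul g0 (fun i z => h i z / g0 z) z hg0 (fun i => hGan _)]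
    apply Wr_congr
    intro i
    have h2 : ∀ᶠ w in nhds z, g0 w ≠ 0 := hg0.continuousAt.eventually_ne hz0
    filter_upwards [h2] with w hw
    field_simp
  have h2 := norm_Wr_le hB (fun k i => hG k (hGan _) i)
  rw [h1, norm_mul, norm_pow]
  have hpos : 0 < ‖g0 z‖ := norm_pos_iff.mpr hz0
  calc ‖g0 z‖ ^ m * ‖Wr (fun i z => h i z / g0 z) z‖
      ≤ ‖g0 z‖ ^ m * (m.factorial * ((Real.exp 1 * m.factorial * B ^ m) ^ m *
          ∏ k, ‖h k z / g0 z‖)) := mul_le_mul_of_nonneg_left h2 (by positivity)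
    _ = m.factorial * (Real.exp 1 * m.factorial * B ^ m) ^ m *
          (‖g0 z‖ ^ m * ∏ k, ‖h k z / g0 z‖) := by ring
    _ = _ := by
        congr 1
        have h5 : ∏ k, ‖h k z / g0 z‖ = (∏ k, ‖h k z‖) / ‖g0 z‖ ^ m := by
          simp_rw [norm_div]
          rw [Finset.prod_div_distrib, Finset.prod_const, Finset.card_univ, Fintype.card_fin]
        rw [h5]
        field_simp

/-- Pointwise bound of `a b' - b a'`. -/
lemma wedge_le {g0 a b : ℂ → ℂ} {z : ℂ} {B X : ℝ} (hB : 1 ≤ B)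
    (hg0 : AnalyticAt ℂ g0 z) (ha : AnalyticAt ℂ a z) (hb : AnalyticAt ℂ b z) (hz0 : g0 z ≠ 0)
    (haX : ‖a z‖ ≤ X) (hbX : ‖b z‖ ≤ X)
    (hGa : AnalyticAt ℂ (fun z => a z / g0 z) z → ∀ i : ℕ,
      ‖iteratedDeriv i (fun z => a z / g0 z) z‖ ≤
      Real.exp 1 * i.factorial * B ^ i * ‖a z / g0 z‖)
    (hGb : AnalyticAt ℂ (fun z => b z / g0 z) z → ∀ i : ℕ,
      ‖iteratedDeriv i (fun z => b z / g0 z) z‖ ≤
      Real.exp 1 * i.factorial * B ^ i * ‖b z / g0 z‖) :
    ‖a z * deriv b z - b z * deriv a z‖ ≤ 2 * Real.exp 1 * B * X ^ 2 := by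
  have hda := hGa (ha.fun_div hg0 hz0) 1
  have hdb := hGb (hb.fun_div hg0 hz0) 1
  rw [iteratedDeriv_one, Nat.factorial_one, pow_one] at hda hdb
  have e1 : deriv (fun z => a z / g0 z) z = (deriv a z * g0 z - a z * deriv g0 z) / g0 z ^ 2 :=
    deriv_fun_div ha.differentiableAt hg0.differentiableAt hz0
  have e2 : deriv (fun z => b z / g0 z) z = (deriv b z * g0 z - b z * deriv g0 z) / g0 z ^ 2 :=
    deriv_fun_div hb.differentiableAt hg0.differentiableAt hz0
  have hpos : 0 < ‖g0 z‖ := norm_pos_iff.mpr hz0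
  have h1 : a z * deriv b z - b z * deriv a z =
      g0 z * (a z * deriv (fun z => b z / g0 z) z - b z * deriv (fun z => a z / g0 z) z) := by
    rw [e1, e2]
    field_simp
    ring
  rw [h1, norm_mul]
  have h2 : ‖g0 z‖ * ‖deriv (fun z => b z / g0 z) z‖ ≤ Real.exp 1 * B * ‖b z‖ := by
    calc ‖g0 z‖ * ‖deriv (fun z => b z / g0 z) z‖
        ≤ ‖g0 z‖ * (Real.exp 1 * ((1 : ℕ) : ℝ) * B * ‖b z / g0 z‖) :=
          mul_le_mul_of_nonneg_left hdb hpos.le
      _ = Real.exp 1 * B * ‖b z‖ := by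
          rw [norm_div]; field_simp; push_cast; ring
  have h3 : ‖g0 z‖ * ‖deriv (fun z => a z / g0 z) z‖ ≤ Real.exp 1 * B * ‖a z‖ := by
    calc ‖g0 z‖ * ‖deriv (fun z => a z / g0 z) z‖
        ≤ ‖g0 z‖ * (Real.exp 1 * ((1 : ℕ) : ℝ) * B * ‖a z / g0 z‖) :=
          mul_le_mul_of_nonneg_left hda hpos.le
      _ = Real.exp 1 * B * ‖a z‖ := by
          rw [norm_div]; field_simp; push_cast; ring
  have hX : 0 ≤ X := (norm_nonneg _).trans haX
  have he : 0 < Real.exp 1 := Real.exp_pos 1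
  calc ‖g0 z‖ * ‖a z * deriv (fun z => b z / g0 z) z - b z * deriv (fun z => a z / g0 z) z‖
      ≤ ‖g0 z‖ * (‖a z‖ * ‖deriv (fun z => b z / g0 z) z‖ +
          ‖b z‖ * ‖deriv (fun z => a z / g0 z) z‖) := by
        apply mul_le_mul_of_nonneg_left _ hpos.le
        refine (norm_sub_le _ _).trans ?_
        rw [norm_mul, norm_mul]
    _ = ‖a z‖ * (‖g0 z‖ * ‖deriv (fun z => b z / g0 z) z‖) +
          ‖b z‖ * (‖g0 z‖ * ‖deriv (fun z => a z / g0 z) z‖) := by ring
    _ ≤ ‖a z‖ * (Real.exp 1 * B * ‖b z‖) + ‖b z‖ * (Real.exp 1 * B * ‖a z‖) :=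
        add_le_add (mul_le_mul_of_nonneg_left h2 (norm_nonneg _))
          (mul_le_mul_of_nonneg_left h3 (norm_nonneg _))
    _ = 2 * Real.exp 1 * B * (‖a z‖ * ‖b z‖) := by ring
    _ ≤ 2 * Real.exp 1 * B * X ^ 2 := by
        apply mul_le_mul_of_nonneg_left _ (by positivity)
        rw [sq]
        exact mul_le_mul haX hbX (norm_nonneg _) hX

end Pool.Agent.GGL
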