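import Pool.Agent.Lib_MP_b9fedf_ag.TanAlg
import Pool.Agent.Lib_MP_b9fedf_ag.TanOrd
import Pool.Agent.Lib_MP_b9fedf_ag.TanLoc
import Pool.Agent.Lib_MP_b9fedf_ag.TanExt
import Pool.Agent.Lib_MP_b9fedf_ag.TanWr
import Pool.Agent.Lib_MP_b9fedf_ag.Fermat

/-! The auxiliary function `Φ`. -/

set_option autoImplicit false

namespace Pool.Agent.GGL
open Filter Metric Real Set Function MeromorphicOn ValueDistribution

private lemma order_lin {ι : Type} [Fintype ι] (q : ι → ℂ) (g : ι → ℂ → ℂ) (a : ℂ)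
    (hg : ∀ k, AnalyticAt ℂ (g k) a) (c : ℕ) (hc : ∀ k, (c : ℕ∞) ≤ analyticOrderAt (g k) a) :
    (c : ℕ∞) ≤ analyticOrderAt (fun z => ∑ k, q k * g k z) a := by
  have h1 : ∀ k, ∃ ψ : ℂ → ℂ, AnalyticAt ℂ ψ a ∧ ∀ᶠ w in nhds a, g k w = (w - a) ^ c • ψ w :=
    fun k => (natCast_le_analyticOrderAt (hg k)).1 (hc k)
  choose ψ hψ hψ' using h1
  have hsum : AnalyticAt ℂ (fun z => ∑ k, q k * g k z) a :=
    Finset.analyticAt_fun_sum _ fun k _ => (analyticAt_const.mul (hg k))
  rw [natCast_le_analyticOrderAt hsum]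
  refine ⟨fun z => ∑ k, q k * ψ k z, Finset.analyticAt_fun_sum _ fun k _ =>
    (analyticAt_const.mul (hψ k)), ?_⟩
  filter_upwards [Filter.eventually_all.2 hψ'] with w hw
  rw [smul_eq_mul, Finset.mul_sum]
  apply Finset.sum_congr rfl
  intro k _
  rw [hw k, smul_eq_mul]
  ring

lemma wd_eq {m : ℕ} (h h' y p : Fin (m + 1) → ℂ) :
    wd h h' y p = ∑ ab : Fin (m + 1) × Fin (m + 1),
      y ab.1 * p ab.2 * (h ab.1 * h' ab.2 - h ab.2 * h' ab.1) := by
  unfold wd
  have e1 : (∑ a, p a * h' a) * (∑ a, y a * h a) =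
      ∑ ab : Fin (m + 1) × Fin (m + 1), y ab.1 * p ab.2 * (h ab.1 * h' ab.2) := by
    rw [mul_comm, Finset.sum_mul_sum, Fintype.sum_prod_type]
    exact Finset.sum_congr rfl fun a _ => Finset.sum_congr rfl fun b _ => by ring
  have e2 : (∑ a, p a * h a) * (∑ a, y a * h' a) =
      ∑ ab : Fin (m + 1) × Fin (m + 1), y ab.1 * p ab.2 * (h ab.2 * h' ab.1) := by
    rw [mul_comm, Finset.sum_mul_sum, Fintype.sum_prod_type]
    exact Finset.sum_congr rfl fun a _ => Finset.sum_congr rfl fun b _ => by ring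
  rw [e1, e2, ← Finset.sum_sub_distrib]
  exact Finset.sum_congr rfl fun ab _ => by ring

lemma entry_bound {m : ℕ} {ι : Type} [Fintype ι] (g : Fin (m + 1) → ℂ → ℂ)
    (y : Fin (m + 1) → ℂ) (q : ι → Fin (m + 1) → ℂ) (c : ι → ℂ) :
    ∃ M : ℝ, 0 ≤ M ∧ ∀ z, ‖∑ i, c i * wd (fun a => g a z) (fun a => deriv (g a) z) y (q i)‖ ≤
      M * ‖fun ab : Fin (m + 1) × Fin (m + 1) =>
        g ab.1 z * deriv (g ab.2) z - g ab.2 z * deriv (g ab.1) z‖ := by
  refine ⟨∑ i, ‖c i‖ * ∑ ab : Fin (m + 1) × Fin (m + 1), ‖y ab.1 * q i ab.2‖, by positivity, ?_⟩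
  intro z
  rw [Finset.sum_mul]
  refine (norm_sum_le _ _).trans (Finset.sum_le_sum fun i _ => ?_)
  rw [norm_mul, mul_assoc]
  apply mul_le_mul_of_nonneg_left _ (norm_nonneg _)
  rw [wd_eq, Finset.sum_mul]
  refine (norm_sum_le _ _).trans (Finset.sum_le_sum fun ab _ => ?_)
  rw [norm_mul]
  exact mul_le_mul_of_nonneg_left (norm_le_pi_norm (fun ab : Fin (m + 1) × Fin (m + 1) =>
        g ab.1 z * deriv (g ab.2) z - g ab.2 z * deriv (g ab.1) z) ab) (norm_nonneg _)

lemma det_bound {s : ℕ} (A : Fin s → Fin s → ℂ → ℂ) (W : ℂ → ℝ) (hW0 : ∀ z, 0 ≤ W z)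
    (hA : ∀ k l, ∃ M : ℝ, 0 ≤ M ∧ ∀ z, ‖A k l z‖ ≤ M * W z) :
    ∃ C : ℝ, 0 < C ∧ ∀ z, ‖(Matrix.of fun k l => A k l z).det‖ ≤ C * W z ^ s := by
  choose M hM0 hM using hA
  set M' : ℝ := (∑ k, ∑ l, M k l) + 1 with hM'
  have hM'0 : 0 < M' := by
    have : 0 ≤ ∑ k, ∑ l, M k l := Finset.sum_nonneg fun k _ => Finset.sum_nonneg fun l _ => hM0 k l
    linarith
  have hle : ∀ k l, M k l ≤ M' := by
    intro k l
    have h1 : M k l ≤ ∑ l, M k l :=
      Finset.single_le_sum (f := fun l => M k l) (fun l _ => hM0 k l) (Finset.mem_univ l)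
    have h2 : ∑ l, M k l ≤ ∑ k, ∑ l, M k l :=
      Finset.single_le_sum (f := fun k => ∑ l, M k l)
        (fun k _ => Finset.sum_nonneg fun l _ => hM0 k l) (Finset.mem_univ k)
    linarith
  refine ⟨s.factorial * M' ^ s, by positivity, ?_⟩
  intro z
  rw [Matrix.det_apply]
  refine (norm_sum_le _ _).trans ?_
  have h1 : ∀ σ ∈ (Finset.univ : Finset (Equiv.Perm (Fin s))),
      ‖Equiv.Perm.sign σ • ∏ i, (Matrix.of fun k l => A k l z) (σ i) i‖ ≤ (M' * W z) ^ s := by
    intro σ _
    have h2 : ‖Equiv.Perm.sign σ • ∏ i, (Matrix.of fun k l => A k l z) (σ i) i‖ =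
        ∏ i, ‖A (σ i) i z‖ := by
      rw [Units.smul_def, zsmul_eq_mul, norm_mul, norm_prod]
      have : ‖((Equiv.Perm.sign σ : ℤ) : ℂ)‖ = 1 := by
        rcases Int.units_eq_one_or (Equiv.Perm.sign σ) with h | h <;> rw [h] <;> simp
      rw [this, one_mul]
      simp only [Matrix.of_apply]
    rw [h2]
    calc ∏ i, ‖A (σ i) i z‖ ≤ ∏ _i : Fin s, (M' * W z) :=
          Finset.prod_le_prod (fun i _ => norm_nonneg _) (fun i _ =>
            (hM _ _ z).trans (mul_le_mul_of_nonneg_right (hle _ _) (hW0 z)))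
      _ = _ := by rw [Finset.prod_const, Finset.card_univ, Fintype.card_fin]
  refine (Finset.sum_le_sum h1).trans (le_of_eq ?_)
  rw [Finset.sum_const, Finset.card_univ, Fintype.card_perm, Fintype.card_fin, nsmul_eq_mul,
    mul_pow]
  ring

/-- a common factor: values of the reduced representation -/
lemma reduced_value {m : ℕ} (g : Fin (m + 1) → ℂ → ℂ) (z : ℂ)
    (hg : ∀ a, AnalyticAt ℂ (g a) z) (c : ℕ) (hc : ∀ a, (c : ℕ∞) ≤ analyticOrderAt (g a) z)
    (hc' : ∃ a, analyticOrderAt (g a) z = c) :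
    ∃ h : Fin (m + 1) → ℂ, h ≠ 0 ∧ ∀ p : Fin (m + 1) → ℂ, ∑ a, p a * h a ≠ 0 →
      analyticOrderAt (fun ζ => ∑ a, p a * g a ζ) z = c := by
  have h1 : ∀ k, ∃ ψ : ℂ → ℂ, AnalyticAt ℂ ψ z ∧ ∀ᶠ w in nhds z, g k w = (w - z) ^ c • ψ w :=
    fun k => (natCast_le_analyticOrderAt (hg k)).1 (hc k)
  choose ψ hψ hψ' using h1
  refine ⟨fun a => ψ a z, ?_, ?_⟩
  · obtain ⟨a, ha⟩ := hc'
    intro h0
    have h2 : ψ a z = 0 := congrFun h0 a
    have h3 : ((1 : ℕ) : ℕ∞) ≤ analyticOrderAt (ψ a) z := by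
      have h4 : analyticOrderAt (ψ a) z ≠ 0 := (hψ a).analyticOrderAt_ne_zero.mpr h2
      exact_mod_cast Order.one_le_iff_ne_zero.mpr h4
    obtain ⟨χ, hχ, hχ'⟩ := (natCast_le_analyticOrderAt (hψ a)).1 h3
    have h4 : ((c + 1 : ℕ) : ℕ∞) ≤ analyticOrderAt (g a) z := by
      rw [natCast_le_analyticOrderAt (hg a)]
      refine ⟨χ, hχ, ?_⟩
      filter_upwards [hψ' a, hχ'] with w hw1 hw2
      rw [hw1, hw2, smul_smul, pow_one, ← pow_succ]
    rw [ha] at h4
    have h5 : c + 1 ≤ c := by exact_mod_cast h4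
    omega
  · intro p hp
    have hsum : AnalyticAt ℂ (fun z => ∑ k, p k * g k z) z :=
      Finset.analyticAt_fun_sum _ fun k _ => (analyticAt_const.mul (hg k))
    rw [hsum.analyticOrderAt_eq_natCast]
    refine ⟨fun w => ∑ k, p k * ψ k w, Finset.analyticAt_fun_sum _ fun k _ =>
      (analyticAt_const.mul (hψ k)), hp, ?_⟩
    filter_upwards [Filter.eventually_all.2 hψ'] with w hw
    rw [smul_eq_mul, Finset.mul_sum]
    apply Finset.sum_congr rfl
    intro k _
    rw [hw k, smul_eq_mul]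
    ring

theorem exists_phi {m d : ℕ} (hm : 1 ≤ m) (hd : 1 ≤ d) (q : Mon m d → Fin (m + 1) → ℂ)
    (hq : Uni q) (g : Fin (m + 1) → ℂ → ℂ) (hg : ∀ k, Differentiable ℂ (g k))
    (hli : LinearIndependent ℂ g) :
    ∃ (Φ : ℂ → ℂ) (C : ℝ), 0 < C ∧ Differentiable ℂ Φ ∧ (∃ z, Φ z ≠ 0) ∧
      (∀ z, ‖Φ z‖ ≤ C * (‖fun ab : Fin (m + 1) × Fin (m + 1) =>
        g ab.1 z * deriv (g ab.2) z - g ab.2 z * deriv (g ab.1) z‖) ^ ((m + d - 1).choose d)) ∧
      ∀ (z : ℂ) (c : ℕ), (∀ a, (c : ℕ∞) ≤ analyticOrderAt (g a) z) →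
        (∃ a, analyticOrderAt (g a) z = c) →
        ∀ o : Mon m d → ℕ, (∀ i, analyticOrderAt (fun ζ => ∑ a, q i a * g a ζ) z = o i) →
          ((2 * ((m + d - 1).choose d) * c + ∑ i, (o i - c - 1) : ℕ) : ℕ∞) ≤
            analyticOrderAt Φ z := by
  classical
  obtain ⟨L, K, hfin, hK1, hK2, hK3⟩ := alg_package hm hd q hq
  set s : ℕ := (m + d - 1).choose d with hs
  let b : Module.Basis (Fin s) ℂ ((Mon m d → ℂ) ⧸ K) := Module.finBasisOfFinrankEq ℂ _ hfin
  choose γ hγ using fun l => Submodule.mkQ_surjective K (b l)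
  have hgd : ∀ a, Differentiable ℂ (deriv (g a)) := fun a => (hg a).deriv
  -- the wedge as a function of `z`
  set w : (Fin (m + 1) → ℂ) → (Fin (m + 1) → ℂ) → ℂ → ℂ := fun y p ζ =>
    wd (fun a => g a ζ) (fun a => deriv (g a) ζ) y p with hw
  have hwd : ∀ y p, Differentiable ℂ (w y p) := by
    intro y p
    simp only [hw, wd]
    exact ((Differentiable.fun_sum fun a _ => (hgd a).const_mul (p a)).mul
      (Differentiable.fun_sum fun a _ => (hg a).const_mul (y a))).sub
      ((Differentiable.fun_sum fun a _ => (hg a).const_mul (p a)).mul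
      (Differentiable.fun_sum fun a _ => (hgd a).const_mul (y a)))
  -- a good point
  have hhd : ∀ i, Differentiable ℂ (fun z => ∑ a, q i a * g a z) := fun i =>
    Differentiable.fun_sum fun a _ => (hg a).const_mul (q i a)
  have hhne : ∀ i, ∃ z, ∑ a, q i a * g a z ≠ 0 := by
    intro i
    by_contra hcon
    push Not at hcon
    apply uni_ne_zero hd hq i
    rw [Fintype.linearIndependent_iff] at hli
    funext k
    apply hli (q i)
    funext z
    rw [Finset.sum_apply, Pi.zero_apply, ← hcon z]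
    rfl
  have hWd : Differentiable ℂ (Wr g) := Wr_differentiable hg
  have hWne := exists_Wr_ne_zero g hg hli
  obtain ⟨z0, hz0⟩ := exists_all_ne (f := fun z (k : Option (Mon m d)) =>
      k.elim (Wr g z) (fun i => ∑ a, q i a * g a z)) (differentiable_pi.mpr (by
        rintro (_ | i)
        · exact hWd
        · exact hhd i)) Finset.univ (by
        rintro (_ | i) _
        · exact hWne
        · exact hhne i)
  have hz0W : Wr g z0 ≠ 0 := hz0 none (Finset.mem_univ _)
  have hz0h : ∀ i, ∑ a, q i a * g a z0 ≠ 0 := fun i => hz0 (some i) (Finset.mem_univ _)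
  have hind : ∀ c : ℂ, (fun a => deriv (g a) z0) ≠ c • (fun a => g a z0) := by
    intro c hc
    apply hz0W
    unfold Wr
    have h01 : (⟨1, by omega⟩ : Fin (m + 1)) ≠ 0 := by
      intro h
      have := congrArg Fin.val h
      simp at this
    rw [← Matrix.det_updateRow_add_smul_self _ h01 (-c)]
    apply Matrix.det_eq_zero_of_row_eq_zero ⟨1, by omega⟩
    intro j
    rw [Matrix.updateRow_self]
    simp only [Pi.add_apply, Pi.smul_apply, Matrix.of_apply, smul_eq_mul, Fin.val_zero,
      iteratedDeriv_zero, iteratedDeriv_one]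
    have h1 := congrFun hc j
    simp only [Pi.smul_apply, smul_eq_mul] at h1
    rw [h1]
    ring
  -- the points `y k`
  obtain ⟨y, hy⟩ := exists_points (fun (y : Fin (m + 1) → ℂ) (l : Fin s) =>
      ∑ i, γ l i * (L i y * w y (q i) z0)) (by
    intro c hc
    have h1 : (∑ l, c l • γ l) ∈ K := by
      apply hK3 (fun a => g a z0) (fun a => deriv (g a) z0) hind hz0h
      intro y
      rw [← hc y]
      simp only [Finset.sum_apply, Pi.smul_apply, smul_eq_mul, Finset.sum_mul, Finset.mul_sum]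
      rw [Finset.sum_comm]
      apply Finset.sum_congr rfl
      intro l _
      apply Finset.sum_congr rfl
      intro i _
      simp only [hw]
      ring
    have h2 : ∑ l, c l • b l = 0 := by
      rw [← (Submodule.Quotient.mk_eq_zero K).mpr h1]
      rw [← Submodule.mkQ_apply, map_sum]
      apply Finset.sum_congr rfl
      intro l _
      rw [map_smul, hγ]
    have h3 := (Fintype.linearIndependent_iff.mp b.linearIndependent) c h2
    exact funext h3)
  set A : Fin s → Fin s → ℂ → ℂ := fun k l ζ =>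
    ∑ i, γ l i * (L i (y k) * w (y k) (q i) ζ) with hA
  have hAd : ∀ k l, Differentiable ℂ (A k l) := fun k l =>
    Differentiable.fun_sum fun i _ => ((hwd (y k) (q i)).const_mul _).const_mul _
  set Φ : ℂ → ℂ := fun ζ => (Matrix.of fun k l => A k l ζ).det with hΦ
  have hΦd : Differentiable ℂ Φ := by
    have h1 : Φ = fun ζ => ∑ σ : Equiv.Perm (Fin s), Equiv.Perm.sign σ •
        ∏ i, A (σ i) i ζ := by
      ext ζ
      simp only [hΦ]
      rw [Matrix.det_apply]
      simp only [Matrix.of_apply]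
    rw [h1]
    apply Differentiable.fun_sum
    intro σ _
    apply Differentiable.const_smul
    exact Differentiable.fun_finsetProd fun i _ => hAd _ _
  -- the bound
  obtain ⟨C, hC0, hC⟩ := det_bound A (fun z => ‖fun ab : Fin (m + 1) × Fin (m + 1) =>
        g ab.1 z * deriv (g ab.2) z - g ab.2 z * deriv (g ab.1) z‖) (fun z => norm_nonneg _) (by
    intro k l
    obtain ⟨M, hM0, hM⟩ := entry_bound g (y k) q (fun i => γ l i * L i (y k))
    refine ⟨M, hM0, fun z => ?_⟩
    refine le_trans (le_of_eq ?_) (hM z)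
    congr 1
    apply Finset.sum_congr rfl
    intro i _
    rw [mul_assoc])
  refine ⟨Φ, C, hC0, hΦd, ⟨z0, hy⟩, hC, ?_⟩
  · intro z c hc hc' o ho
    obtain ⟨h, hh0, hh⟩ := reduced_value g z (fun a => (hg a).analyticAt z) c hc hc'
    set I : Type := {i : Mon m d // c < o i} with hI
    let u : I → Fin s → ℂ := fun i l => b.repr (K.mkQ (Pi.single i.1 1)) l
    have hu : LinearIndependent ℂ u := by
      rw [Fintype.linearIndependent_iff]
      intro lam hlam
      set γ' : Mon m d → ℂ := ∑ i : I, lam i • (Pi.single i.1 (1 : ℂ)) with hγ'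
      have h1 : K.mkQ γ' = 0 := by
        apply b.repr.injective
        rw [map_zero, hγ', map_sum, map_sum]
        ext l
        rw [Finsupp.finsetSum_apply]
        have h2 := congrFun hlam l
        rw [Finset.sum_apply] at h2
        rw [Finsupp.zero_apply, ← show (∑ i : I, (lam i • u i) l) = 0 from h2]
        apply Finset.sum_congr rfl
        intro i _
        rw [map_smul, map_smul]
        rfl
      have h2 : γ' ∈ K := by
        rw [Submodule.mkQ_apply] at h1
        exact (Submodule.Quotient.mk_eq_zero K).mp h1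
      have h3 : γ' = 0 := by
        apply hK2 h hh0 γ' h2
        intro i hi
        have h4 := hh (q i) hi
        rw [ho i] at h4
        have h5 : o i = c := by exact_mod_cast h4
        rw [hγ', Finset.sum_apply]
        apply Finset.sum_eq_zero
        intro j _
        rw [Pi.smul_apply, Pi.single_apply, if_neg, smul_zero]
        intro h6
        have := j.2
        rw [← h6, h5] at this
        omega
      intro i
      have h4 := congrFun h3 i.1
      rw [hγ', Finset.sum_apply, Finset.sum_eq_single i] at h4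
      · simpa using h4
      · intro j _ hj
        rw [Pi.smul_apply, Pi.single_apply, if_neg, smul_zero]
        intro h6
        exact hj (Subtype.ext h6.symm)
      · intro h6
        exact absurd (Finset.mem_univ _) h6
    have hworder : ∀ (y p : Fin (m + 1) → ℂ) (o' : ℕ),
        (o' : ℕ∞) ≤ analyticOrderAt (fun ζ => ∑ a, p a * g a ζ) z →
        ((2 * c + (o' - c - 1) : ℕ) : ℕ∞) ≤ analyticOrderAt (w y p) z := fun y p o' ho' =>
      order_wd g z (fun a => (hg a).analyticAt z) c hc p y o' ho'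
    have h1 := order_det (s := s) (ι := I) A z (fun k l => (hAd k l).analyticAt z) (2 * c) (by
      intro k l
      simp only [hA]
      have h2 := order_lin (fun i => γ l i * L i (y k)) (fun i ζ => w (y k) (q i) ζ) z
        (fun i => (hwd _ _).analyticAt z) (2 * c) (fun i => by
          have h3 := hworder (y k) (q i) 0 (by simp)
          have h4 : 2 * c + (0 - c - 1) = 2 * c := by omega
          rw [h4] at h3
          exact h3)
      refine h2.trans (le_of_eq ?_)
      congr 1
      funext ζ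
      apply Finset.sum_congr rfl
      intro i _
      ring) u hu (fun i => o i.1 - c - 1) (by
      intro i k
      have h2 : (∑ l, u i l • γ l) - Pi.single i.1 (1 : ℂ) ∈ K := by
        rw [← Submodule.Quotient.mk_eq_zero K, ← Submodule.mkQ_apply, map_sub, map_sum, sub_eq_zero]
        have h3 := b.sum_repr (K.mkQ (Pi.single i.1 1))
        rw [← h3]
        apply Finset.sum_congr rfl
        intro l _
        rw [map_smul, hγ]
      have h3 : (fun ζ => ∑ l, u i l * A k l ζ) =
          fun ζ => (L i.1 (y k)) * w (y k) (q i.1) ζ := by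
        funext ζ
        have h4 := hK1 _ h2 (fun a => g a ζ) (fun a => deriv (g a) ζ) (y k)
        simp only [Pi.sub_apply, sub_mul, Finset.sum_sub_distrib] at h4
        rw [sub_eq_zero] at h4
        have h5 : ∑ x, (Pi.single i.1 (1 : ℂ) : Mon m d → ℂ) x *
            (L x (y k) * wd (fun a => g a ζ) (fun a => deriv (g a) ζ) (y k) (q x)) =
            L i.1 (y k) * w (y k) (q i.1) ζ := by
          rw [Finset.sum_eq_single i.1]
          · rw [Pi.single_eq_same, one_mul]
          · intro j _ hj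
            rw [Pi.single_apply, if_neg hj, zero_mul]
          · intro h6
            exact absurd (Finset.mem_univ _) h6
        rw [h5] at h4
        rw [← h4]
        simp only [hA, Finset.sum_apply, Pi.smul_apply, smul_eq_mul, Finset.mul_sum,
          Finset.sum_mul]
        rw [Finset.sum_comm]
        apply Finset.sum_congr rfl
        intro l _
        apply Finset.sum_congr rfl
        intro j _
        simp only [hw]
        ring
      rw [h3]
      have h4 := hworder (y k) (q i.1) (o i.1) (ho i.1).ge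
      have h5 := order_lin (fun _ : Fin 1 => L i.1 (y k)) (fun _ => w (y k) (q i.1)) z
          (fun _ => (hwd _ _).analyticAt z) (2 * c + (o i.1 - c - 1)) (fun _ => h4)
      simpa using h5)
    refine le_trans ?_ h1
    have h2 : ∑ i, (o i - c - 1) = ∑ i : I, (o i.1 - c - 1) := by
      have e1 : ∑ i : I, (o i.1 - c - 1) = ∑ i with c < o i, (o i - c - 1) :=
        (Finset.sum_subtype (Finset.univ.filter fun i => c < o i) (by simp)
          (fun i => o i - c - 1)).symm
      rw [e1, Finset.sum_filter]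
      apply Finset.sum_congr rfl
      intro i _
      split_ifs with h
      · rfl
      · omega
    rw [h2]
    have h3 : 2 * s * c = s * (2 * c) := by ring
    rw [h3]

end Pool.Agent.GGL
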