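import Pool.Agent.Lib_MP_b9fedf_ag.TanCnt
import Pool.Agent.Lib_MP_b9fedf_ag.TanGrd
import Pool.Agent.Lib_MP_b9fedf_ag.TanPhi
import Pool.Agent.Lib_MP_b9fedf_ag.TanWr
import Pool.Agent.Lib_MP_b9fedf_ag.Contr

/-! The key estimate for curves tangent to a unisolvent set of hyperplanes. -/

set_option autoImplicit false

namespace Pool.Agent.GGL
open Filter Metric Real Set Function MeromorphicOn ValueDistribution

/-- the control of all derivatives of a function at a point -/
def Good (u : ℂ → ℂ) (B : ℝ) (z : ℂ) : Prop :=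
  AnalyticAt ℂ u z → ∀ i : ℕ, ‖iteratedDeriv i u z‖ ≤
    Real.exp 1 * i.factorial * B ^ i * ‖u z‖

lemma ci_mul {F : ℂ → ℝ} {r : ℝ} (c : ℝ) (h : CircleIntegrable F 0 r) :
    CircleIntegrable (fun z => c * F z) 0 r := h.const_mul c

lemma ca_mul (c : ℝ) (F : ℂ → ℝ) (r : ℝ) : circleAverage (fun z => c * F z) 0 r =
      c * circleAverage F 0 r := by
  have := circleAverage_fun_smul (a := c) (f := F) (c := (0 : ℂ)) (R := r)
  simpa [smul_eq_mul] using this

lemma pointwise_main {m d : ℕ} (hm : 1 ≤ m) (hd : 1 ≤ d) (q : Mon m d → Fin (m + 1) → ℂ)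
    (hq : Uni q) (g : Fin (m + 1) → ℂ → ℂ) (hg : ∀ k, Differentiable ℂ (g k)) :
    ∃ C : ℝ, ∀ (z : ℂ) (B : ℝ), 1 ≤ B → g 0 z ≠ 0 → (∀ i, ∑ a, q i a * g a z ≠ 0) →
      Wr g z ≠ 0 → (∀ i, Good (fun z => (∑ a, q i a * g a z) / g 0 z) B z) →
      ((m : ℝ) * Fintype.card (Mon m d) - (m + 1) * ((m + d - 1).choose d : ℝ)) *
        Real.log ‖fun a => g a z‖ + ((m + d - 1).choose d : ℝ) * Real.log ‖Wr g z‖ ≤
      (m : ℝ) * ∑ i, Real.log ‖∑ a, q i a * g a z‖ + C +
        ((m + d - 1).choose d : ℝ) * ((m + 1) ^ 2 * Real.log B) := by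
  classical
  obtain ⟨C1, hC1⟩ := greedy hm hd q hq
  set s : ℝ := ((m + d - 1).choose d : ℝ) with hs
  have hs0 : 0 ≤ s := by rw [hs]; positivity
  set C2 : ℝ := ∑ κ : Fin (m + 1) → Mon m d,
    |Real.log ‖(Matrix.of fun k a => q (κ k) a).det‖| with hC2
  set c0 : ℝ := Real.log ((m + 1).factorial : ℝ) +
    (m + 1) * (1 + Real.log ((m + 1).factorial : ℝ)) with hc0
  refine ⟨C1 + s * (C2 + c0), ?_⟩
  intro z B hB hg0 hhz hW hgood
  obtain ⟨κ, hκ, hsum⟩ := hC1 (fun a => g a z) hhz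
  have hdet : (Matrix.of fun k a => q (κ k) a).det ≠ 0 := by
    have h1 : LinearIndependent ℂ (Matrix.of fun k a => q (κ k) a).row := hκ
    rw [Matrix.linearIndependent_rows_iff_isUnit] at h1
    exact ((Matrix.isUnit_iff_isUnit_det _).mp h1).ne_zero
  have hWr := Wr_linear (fun k a => q (κ k) a) g hg z
  have hle := Wr_le_prod (g0 := g 0) (h := fun k ζ => ∑ a, q (κ k) a * g a ζ) (z := z) hB
    ((hg 0).analyticAt z) (fun k => (Differentiable.fun_sum (fun a _ =>
      (hg a).const_mul (q (κ k) a))).analyticAt z) hg0 (fun k => hgood (κ k))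
  rw [hWr, norm_mul] at hle
  have hdpos : 0 < ‖(Matrix.of fun k a => q (κ k) a).det‖ := norm_pos_iff.mpr hdet
  have hWpos : 0 < ‖Wr g z‖ := norm_pos_iff.mpr hW
  have hf : (0 : ℝ) < ((m + 1).factorial : ℝ) := by exact_mod_cast Nat.factorial_pos (m + 1)
  have hBm : 0 < B ^ (m + 1) := by positivity
  have he : 0 < Real.exp 1 := Real.exp_pos 1
  have hprod : 0 < ∏ k, ‖∑ a, q (κ k) a * g a z‖ :=
    Finset.prod_pos fun k _ => norm_pos_iff.mpr (hhz _)
  have h6 := Real.log_le_log (mul_pos hdpos hWpos) hle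
  rw [Real.log_mul hdpos.ne' hWpos.ne', Real.log_mul (by positivity) hprod.ne',
    Real.log_mul hf.ne' (by positivity), Real.log_pow,
    Real.log_mul (by positivity) hBm.ne', Real.log_mul he.ne' hf.ne', Real.log_exp, Real.log_pow,
    Real.log_prod (fun i _ => (norm_pos_iff.mpr (hhz _)).ne')] at h6
  have h7 : -C2 ≤ Real.log ‖(Matrix.of fun k a => q (κ k) a).det‖ := by
    have h8 : |Real.log ‖(Matrix.of fun k a => q (κ k) a).det‖| ≤ C2 :=
      Finset.single_le_sum (f := fun κ : Fin (m + 1) → Mon m d =>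
        |Real.log ‖(Matrix.of fun k a => q (κ k) a).det‖|) (fun _ _ => abs_nonneg _)
        (Finset.mem_univ κ)
    linarith [neg_abs_le (Real.log ‖(Matrix.of fun k a => q (κ k) a).det‖)]
  rw [Finset.sum_sub_distrib, Finset.sum_sub_distrib, Finset.sum_const, Finset.sum_const,
    Finset.card_univ, Finset.card_univ, Fintype.card_fin, nsmul_eq_mul, nsmul_eq_mul] at hsum
  push_cast at hsum h6
  set X := Real.log ‖fun a => g a z‖ with hX
  set Y := ∑ k, Real.log ‖∑ a, q (κ k) a * g a z‖ with hY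
  set Z := ∑ i, Real.log ‖∑ a, q i a * g a z‖ with hZ
  have h9 : -Y ≤ -Real.log ‖Wr g z‖ + (C2 + c0) + (m + 1) ^ 2 * Real.log B := by
    rw [hc0]
    linarith
  have h10 := mul_le_mul_of_nonneg_left h9 hs0
  linarith

lemma order_Wr_common {m : ℕ} (g : Fin m → ℂ → ℂ) (a : ℂ) (hg : ∀ k, AnalyticAt ℂ (g k) a)
    (c : ℕ) (hc : ∀ k, (c : ℕ∞) ≤ analyticOrderAt (g k) a) :
    ((m * c : ℕ) : ℕ∞) ≤ analyticOrderAt (Wr g) a := by
  have h1 : ∀ k, ∃ ψ : ℂ → ℂ, AnalyticAt ℂ ψ a ∧ ∀ᶠ w in nhds a, g k w = (w - a) ^ c • ψ w :=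
    fun k => (natCast_le_analyticOrderAt (hg k)).1 (hc k)
  choose ψ hψ hψ' using h1
  rw [natCast_le_analyticOrderAt (analyticAt_Wr _ a hg)]
  refine ⟨Wr ψ, analyticAt_Wr _ a hψ, ?_⟩
  have e1 : ∀ᶠ w in nhds a, ∀ k, g k =ᶠ[nhds w] fun w => (w - a) ^ c * ψ k w :=
    Filter.eventually_all.2 fun k => (hψ' k).eventually_nhds
  have e2 : ∀ᶠ w in nhds a, ∀ k, AnalyticAt ℂ (ψ k) w :=
    Filter.eventually_all.2 fun k => (hψ k).eventually_analyticAt
  filter_upwards [e1, e2] with w hw1 hw2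
  have s1 : Wr g w = Wr (fun i v => (v - a) ^ c * ψ i v) w := by
    apply Wr_congr
    intro j
    exact hw1 j
  rw [s1, Wr_mul (fun v => (v - a) ^ c) ψ w (by fun_prop) hw2, ← pow_mul, mul_comm c m,
    smul_eq_mul]

lemma order_linear {ι : Type} [Fintype ι] (q : ι → ℂ) (g : ι → ℂ → ℂ) (a : ℂ)
    (hg : ∀ k, AnalyticAt ℂ (g k) a) (c : ℕ) (hc : ∀ k, (c : ℕ∞) ≤ analyticOrderAt (g k) a) :
    (c : ℕ∞) ≤ analyticOrderAt (fun z => ∑ k, q k * g k z) a := by
  have h1 : ∀ k, ∃ ψ : ℂ → ℂ, AnalyticAt ℂ ψ a ∧ ∀ᶠ w in nhds a, g k w = (w - a) ^ c • ψ w :=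
    fun k => (natCast_le_analyticOrderAt (hg k)).1 (hc k)
  choose ψ hψ hψ' using h1
  have hsum : AnalyticAt ℂ (fun z => ∑ k, q k * g k z) a :=
    Finset.analyticAt_fun_sum _ fun k _ => (analyticAt_const.mul (hg k))
  rw [natCast_le_analyticOrderAt hsum]
  refine ⟨fun z => ∑ k, q k * ψ k z, Finset.analyticAt_fun_sum _ fun k _ =>
    (analyticAt_const.mul (hψ k)), ?_⟩
  filter_upwards [Filter.eventually_all.2 hψ'] with w hw
  rw [smul_eq_mul, Finset.mul_sum]
  apply Finset.sum_congr rfl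
  intro k _
  rw [hw k, smul_eq_mul]
  ring

lemma combination_ne_zero {ι : Type} [Fintype ι] (q : ι → ℂ) (hq : q ≠ 0) (g : ι → ℂ → ℂ)
    (hli : LinearIndependent ℂ g) : ∃ z, ∑ k, q k * g k z ≠ 0 := by
  by_contra hcon
  push Not at hcon
  apply hq
  rw [Fintype.linearIndependent_iff] at hli
  funext k
  apply hli q
  funext z
  rw [Finset.sum_apply, Pi.zero_apply, ← hcon z]
  apply Finset.sum_congr rfl
  intro a _
  rw [Pi.smul_apply, smul_eq_mul]

/-- the averaged inequality -/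
lemma average_main {m d : ℕ} (hm : 1 ≤ m) (hd : 1 ≤ d) (q : Mon m d → Fin (m + 1) → ℂ)
    (hq : Uni q) (g : Fin (m + 1) → ℂ → ℂ) (hg : ∀ k, Differentiable ℂ (g k))
    (hli : LinearIndependent ℂ g) :
    ∃ C : ℝ, ∀ (r B : ℝ), 1 ≤ r → 1 ≤ B →
      (∀ i, ∀ z ∈ sphere (0 : ℂ) r, Good (fun z => (∑ a, q i a * g a z) / g 0 z) B z) →
      ((m : ℝ) * Fintype.card (Mon m d) - (m + 1) * ((m + d - 1).choose d : ℝ)) *
        circleAverage (fun z => Real.log ‖fun a => g a z‖) 0 r +
        ((m + d - 1).choose d : ℝ) *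
          Function.locallyFinsuppWithin.logCounting (Dv (Wr g)) r ≤
      (m : ℝ) * ∑ i, Function.locallyFinsuppWithin.logCounting
        (Dv (fun z => ∑ a, q i a * g a z)) r + C +
        ((m + d - 1).choose d : ℝ) * ((m + 1) ^ 2 * Real.log B) := by
  classical
  obtain ⟨C, hC⟩ := pointwise_main hm hd q hq g hg
  have hhd : ∀ i, Differentiable ℂ (fun z => ∑ a, q i a * g a z) := fun i =>
    Differentiable.fun_sum fun a _ => (hg a).const_mul (q i a)
  have hhne : ∀ i, ∃ z, ∑ a, q i a * g a z ≠ 0 := fun i =>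
    combination_ne_zero (q i) (uni_ne_zero hd hq i) g hli
  have hg0ne : ∃ z, g 0 z ≠ 0 := by
    have := hli.ne_zero 0
    by_contra hcon
    push Not at hcon
    exact this (funext hcon)
  have hWd : Differentiable ℂ (Wr g) := Wr_differentiable hg
  have hWne := exists_Wr_ne_zero g hg hli
  refine ⟨C + (m : ℝ) * ∑ i, Real.log ‖meromorphicTrailingCoeffAt
      (fun z => ∑ a, q i a * g a z) 0‖ -
    ((m + d - 1).choose d : ℝ) * Real.log ‖meromorphicTrailingCoeffAt (Wr g) 0‖, ?_⟩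
  intro r B hr hB hgood
  have hr0 : 0 < r := by linarith
  set s : ℝ := ((m + d - 1).choose d : ℝ) with hs
  set κ : ℝ := (m : ℝ) * Fintype.card (Mon m d) - (m + 1) * s with hκ
  have hvI : CircleIntegrable (fun z => Real.log ‖fun a => g a z‖) 0 r := vec_integrable hg r
  have hWI := log_integrable (mero_of_diff hWd) r
  have hhI : ∀ i, CircleIntegrable (fun z => Real.log ‖∑ a, q i a * g a z‖) 0 r := fun i =>
    log_integrable (mero_of_diff (hhd i)) r
  have hsI : CircleIntegrable (fun z => ∑ i, Real.log ‖∑ a, q i a * g a z‖) 0 r := by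
    have := CircleIntegrable.sum Finset.univ (f := fun i z => Real.log ‖∑ a, q i a * g a z‖)
      (c := 0) (R := r) (fun k _ => hhI k)
    convert! this using 1
    ext z
    simp
  have h1 : circleAverage (fun z => κ * Real.log ‖fun a => g a z‖ + s * Real.log ‖Wr g z‖) 0 r ≤
      circleAverage (fun z => (m : ℝ) * (∑ i, Real.log ‖∑ a, q i a * g a z‖) +
        (C + s * ((m + 1) ^ 2 * Real.log B))) 0 r := by
    apply circleAverage_mono_codiscrete hr0
      (CircleIntegrable.add (ci_mul κ hvI) (ci_mul s hWI))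
      (CircleIntegrable.add (ci_mul (m : ℝ) hsI) (circleIntegrable_const _ _ _))
    have h2 : ∀ᶠ z in codiscreteWithin (sphere (0 : ℂ) r), ∀ i, ∑ a, q i a * g a z ≠ 0 :=
      Filter.eventually_all.mpr fun i => nonzero_codiscrete (hhd i) (hhne i) r
    filter_upwards [h2, nonzero_codiscrete hWd hWne r, nonzero_codiscrete (hg 0) hg0ne r,
      self_mem_codiscreteWithin _] with z hz hWz hg0z hzs
    have := hC z B hB hg0z hz hWz (fun i => hgood i z hzs)
    show κ * Real.log ‖fun a => g a z‖ + s * Real.log ‖Wr g z‖ ≤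
      (m : ℝ) * (∑ i, Real.log ‖∑ a, q i a * g a z‖) + (C + s * ((m + 1) ^ 2 * Real.log B))
    linarith
  rw [circleAverage_fun_add (ci_mul κ hvI) (ci_mul s hWI),
    circleAverage_fun_add (ci_mul (m : ℝ) hsI) (circleIntegrable_const _ _ _),
    circleAverage_const] at h1
  rw [ca_mul, ca_mul, ca_mul, circleAverage_fun_sum (fun k _ => hhI k), jensen (mero_of_diff hWd) hr] at h1
  have h4 : ∑ i, circleAverage (fun z => Real.log ‖∑ a, q i a * g a z‖) 0 r =
      ∑ i, Function.locallyFinsuppWithin.logCounting (Dv (fun z => ∑ a, q i a * g a z)) r +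
        ∑ i, Real.log ‖meromorphicTrailingCoeffAt (fun z => ∑ a, q i a * g a z) 0‖ := by
    rw [← Finset.sum_add_distrib]
    exact Finset.sum_congr rfl fun k _ => jensen (mero_of_diff (hhd k)) hr
  rw [h4] at h1
  linarith

/-- the averaged bound of `Φ` -/
lemma average_phi {m s : ℕ} (g : Fin (m + 1) → ℂ → ℂ) (hg : ∀ k, Differentiable ℂ (g k))
    (hg0 : ∃ z, g 0 z ≠ 0) (Φ : ℂ → ℂ) (C : ℝ) (hC : 0 < C) (hΦ : Differentiable ℂ Φ)
    (hΦ0 : ∃ z, Φ z ≠ 0)
    (hle : ∀ z, ‖Φ z‖ ≤ C * (‖fun ab : Fin (m + 1) × Fin (m + 1) =>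
        g ab.1 z * deriv (g ab.2) z - g ab.2 z * deriv (g ab.1) z‖) ^ s) :
    ∃ C' : ℝ, ∀ (r B : ℝ), 1 ≤ r → 1 ≤ B →
      (∀ a, ∀ z ∈ sphere (0 : ℂ) r, Good (fun z => g a z / g 0 z) B z) →
      Function.locallyFinsuppWithin.logCounting (Dv Φ) r ≤
        2 * s * circleAverage (fun z => Real.log ‖fun a => g a z‖) 0 r + C' +
          s * Real.log B := by
  classical
  refine ⟨Real.log C + s * Real.log (2 * Real.exp 1) -
    Real.log ‖meromorphicTrailingCoeffAt Φ 0‖, ?_⟩
  intro r B hr hB hgood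
  have hr0 : 0 < r := by linarith
  have hvI : CircleIntegrable (fun z => Real.log ‖fun a => g a z‖) 0 r := vec_integrable hg r
  have h1 : circleAverage (fun z => Real.log ‖Φ z‖) 0 r ≤
      circleAverage (fun z => (2 * s : ℝ) * Real.log ‖fun a => g a z‖ +
        (Real.log C + s * Real.log (2 * Real.exp 1) + s * Real.log B)) 0 r := by
    apply circleAverage_mono_codiscrete hr0 (log_integrable (mero_of_diff hΦ) r)
      (CircleIntegrable.add (ci_mul (2 * s : ℝ) hvI) (circleIntegrable_const _ _ _))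
    filter_upwards [nonzero_codiscrete hΦ hΦ0 r, nonzero_codiscrete (hg 0) hg0 r,
      self_mem_codiscreteWithin _] with z hΦz hg0z hzs
    have hX : 0 < ‖fun a => g a z‖ :=
      lt_of_lt_of_le (norm_pos_iff.mpr hg0z) (norm_le_pi_norm (fun a => g a z) 0)
    have hB0 : 0 < B := by linarith
    have he : 0 < Real.exp 1 := Real.exp_pos 1
    have h2 : ‖fun ab : Fin (m + 1) × Fin (m + 1) =>
        g ab.1 z * deriv (g ab.2) z - g ab.2 z * deriv (g ab.1) z‖ ≤
        2 * Real.exp 1 * B * ‖fun a => g a z‖ ^ 2 := by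
      rw [pi_norm_le_iff_of_nonneg (by positivity)]
      intro ab
      exact wedge_le hB ((hg 0).analyticAt z) ((hg ab.1).analyticAt z) ((hg ab.2).analyticAt z)
        hg0z (norm_le_pi_norm (fun a => g a z) ab.1) (norm_le_pi_norm (fun a => g a z) ab.2)
        (hgood ab.1 z hzs) (hgood ab.2 z hzs)
    have h3 : ‖Φ z‖ ≤ C * (2 * Real.exp 1 * B * ‖fun a => g a z‖ ^ 2) ^ s :=
      (hle z).trans (mul_le_mul_of_nonneg_left (pow_le_pow_left₀ (norm_nonneg _) h2 s) hC.le)
    have h4 := Real.log_le_log (norm_pos_iff.mpr hΦz) h3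
    rw [Real.log_mul hC.ne' (by positivity), Real.log_pow,
      Real.log_mul (by positivity) (by positivity), Real.log_mul (by positivity) hB0.ne',
      Real.log_pow] at h4
    show Real.log ‖Φ z‖ ≤ (2 * s : ℝ) * Real.log ‖fun a => g a z‖ +
        (Real.log C + s * Real.log (2 * Real.exp 1) + s * Real.log B)
    push_cast at h4
    linarith
  rw [circleAverage_fun_add (ci_mul (2 * s : ℝ) hvI) (circleIntegrable_const _ _ _),
    circleAverage_const, jensen (mero_of_diff hΦ) hr] at h1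
  rw [ca_mul] at h1
  linarith

lemma TC_ge {m : ℕ} {g : Fin (m + 1) → ℂ → ℂ} (hg : ∀ k, Differentiable ℂ (g k))
    (hne : ∀ k, ∃ z, g k z ≠ 0) : ∃ C : ℝ, 0 ≤ C ∧ ∀ r, 1 ≤ r → -C ≤ TC g r := by
  refine ⟨|Real.log ‖meromorphicTrailingCoeffAt (g 0) 0‖|, abs_nonneg _, fun r hr => ?_⟩
  have h1 := characteristic_div_le_TC hg hne hr 0 0
  have h2 : 0 ≤ characteristic (fun z => g 0 z / g 0 z) ⊤ r := characteristic_nonneg hr
  have h3 := neg_abs_le (Real.log ‖meromorphicTrailingCoeffAt (g 0) 0‖)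
  linarith

/-- the key estimate -/
theorem key_estimate {m d : ℕ} (hm : 1 ≤ m) (hd : 4 * m + 2 ≤ d)
    (q : Mon m d → Fin (m + 1) → ℂ) (hq : Uni q) (g : Fin (m + 1) → ℂ → ℂ)
    (hg : ∀ k, Differentiable ℂ (g k)) (hli : LinearIndependent ℂ g)
    (htan : ∀ (i : Mon m d) (z : ℂ) (c : ℕ), (∀ a, (c : ℕ∞) ≤ analyticOrderAt (g a) z) →
      (∃ a, analyticOrderAt (g a) z = c) →
      analyticOrderAt (fun ζ => ∑ a, q i a * g a ζ) z ≠ ((c + 1 : ℕ) : ℕ∞)) :
    ∃ C : ℝ, 0 ≤ C ∧ ∀ (r B : ℝ), 1 ≤ r → 1 ≤ B →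
      (∀ a, ∀ z ∈ sphere (0 : ℂ) r, Good (fun z => g a z / g 0 z) B z) →
      (∀ i, ∀ z ∈ sphere (0 : ℂ) r, Good (fun z => (∑ a, q i a * g a z) / g 0 z) B z) →
      TC g r ≤ C * (1 + Real.log B) := by
  classical
  have hd1 : 1 ≤ d := by omega
  have hhd : ∀ i, Differentiable ℂ (fun z => ∑ a, q i a * g a z) := fun i =>
    Differentiable.fun_sum fun a _ => (hg a).const_mul (q i a)
  have hhne : ∀ i, ∃ z, ∑ a, q i a * g a z ≠ 0 := fun i =>
    combination_ne_zero (q i) (uni_ne_zero hd1 hq i) g hli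
  have hgne : ∀ a, ∃ z, g a z ≠ 0 := by
    intro a
    have := hli.ne_zero a
    by_contra hcon
    push Not at hcon
    exact this (funext hcon)
  have hWd : Differentiable ℂ (Wr g) := Wr_differentiable hg
  have hWne := exists_Wr_ne_zero g hg hli
  obtain ⟨C1, hC1⟩ := average_main hm hd1 q hq g hg hli
  obtain ⟨Φ, CΦ, hCΦ, hΦ, hΦ0, hΦle, hΦord⟩ := exists_phi hm hd1 q hq g hg hli
  obtain ⟨C2, hC2⟩ := average_phi (s := (m + d - 1).choose d) g hg (hgne 0) Φ CΦ hCΦ hΦ hΦ0 hΦle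
  obtain ⟨C3, hC30, hC3⟩ := TC_ge hg hgne
  set sn : ℕ := (m + d - 1).choose d with hsn
  set s : ℝ := (sn : ℝ) with hs
  set D : locallyFinsupp ℂ ℤ := minDv (fun k => Dv (g k)) with hD
  -- pointwise facts about orders
  have hpt : ∀ z : ℂ, ∃ c : ℕ, D z = (c : ℤ) ∧ (∀ a, (c : ℕ∞) ≤ analyticOrderAt (g a) z) ∧
      (∃ a, analyticOrderAt (g a) z = c) := by
    intro z
    obtain ⟨k0, hk0⟩ := exists_minDv (fun k => Dv (g k)) z
    have hord : ∀ a, analyticOrderAt (g a) z = ((analyticOrderAt (g a) z).toNat : ℕ∞) := fun a =>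
      (ENat.natCast_toNat (order_ne_top (hg a) (hgne a) z)).symm
    refine ⟨(analyticOrderAt (g k0) z).toNat, ?_, ?_, k0, hord k0⟩
    · rw [hD, hk0, Dv_apply (hg k0)]
    · intro a
      have h1 := minDv_le (fun k => Dv (g k)) a z
      rw [hk0, Dv_apply (hg k0), Dv_apply (hg a)] at h1
      rw [hord a]
      exact_mod_cast h1
  have hE1 : ∑ i, Function.locallyFinsuppWithin.logCounting
        (Dv (fun z => ∑ a, q i a * g a z)) = ∑ i, Function.locallyFinsuppWithin.logCounting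
        (Dv (fun z => ∑ a, q i a * g a z)) := rfl
  have hdiv1 : ∀ r : ℝ, 1 ≤ r → ∑ i, Function.locallyFinsuppWithin.logCounting
        (Dv (fun z => ∑ a, q i a * g a z)) r +
        4 * s * Function.locallyFinsuppWithin.logCounting D r ≤
      2 * Function.locallyFinsuppWithin.logCounting (Dv Φ) r +
        Fintype.card (Mon m d) * Function.locallyFinsuppWithin.logCounting D r := by
    intro r hr
    have h1 : (∑ i, Dv (fun z => ∑ a, q i a * g a z)) + (4 * sn) • D ≤
        2 • Dv Φ + (Fintype.card (Mon m d)) • D := by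
      intro z
      obtain ⟨c, hc, hc1, hc2⟩ := hpt z
      set o : Mon m d → ℕ := fun i =>
        (analyticOrderAt (fun z => ∑ a, q i a * g a z) z).toNat with ho
      have ho1 : ∀ i, analyticOrderAt (fun ζ => ∑ a, q i a * g a ζ) z = o i := fun i =>
        (ENat.natCast_toNat (order_ne_top (hhd i) (hhne i) z)).symm
      have ho2 : ∀ i, c ≤ o i := by
        intro i
        have := order_linear (q i) g z (fun k => (hg k).analyticAt z) c hc1
        rw [ho1 i] at this
        exact_mod_cast this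
      have ho3 : ∀ i, o i ≠ c + 1 := by
        intro i h
        apply htan i z c hc1 hc2
        rw [ho1 i, h]
      have h2 := hΦord z c hc1 hc2 o ho1
      rw [← ENat.natCast_toNat (order_ne_top hΦ hΦ0 z)] at h2
      have h3 : 2 * sn * c + ∑ i, (o i - c - 1) ≤ (analyticOrderAt Φ z).toNat := by
        exact_mod_cast h2
      have h4 : ∑ i, o i ≤ ∑ i, (2 * (o i - c - 1) + c) := by
        apply Finset.sum_le_sum
        intro i _
        have := ho2 i
        have := ho3 i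
        omega
      rw [Finset.sum_add_distrib, ← Finset.mul_sum, Finset.sum_const, Finset.card_univ,
        smul_eq_mul] at h4
      rw [locallyFinsuppWithin.coe_add, locallyFinsuppWithin.coe_add, Pi.add_apply, Pi.add_apply,
        locallyFinsuppWithin.coe_sum, Finset.sum_apply, locallyFinsuppWithin.coe_nsmul,
        locallyFinsuppWithin.coe_nsmul, locallyFinsuppWithin.coe_nsmul, Pi.smul_apply,
        Pi.smul_apply, Pi.smul_apply, hc, Dv_apply hΦ]
      have h5 : ∀ i, (Dv (fun z => ∑ a, q i a * g a z)) z = (o i : ℤ) := fun i =>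
        Dv_apply (hhd i) z
      simp_rw [h5]
      simp only [nsmul_eq_mul]
      have h6 : ((∑ i, o i + 4 * sn * c : ℕ) : ℤ) ≤
          ((2 * (analyticOrderAt Φ z).toNat + Fintype.card (Mon m d) * c : ℕ) : ℤ) := by
        exact_mod_cast (by linarith : ∑ i, o i + 4 * sn * c ≤
          2 * (analyticOrderAt Φ z).toNat + Fintype.card (Mon m d) * c)
      push_cast at h6 ⊢
      exact h6
    have h2 := Function.locallyFinsuppWithin.logCounting_le h1 hr
    rw [map_add, map_add, map_sum, map_nsmul, map_nsmul, map_nsmul, Pi.add_apply, Pi.add_apply,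
      Finset.sum_apply, Pi.smul_apply, Pi.smul_apply, Pi.smul_apply] at h2
    simp only [nsmul_eq_mul] at h2
    push_cast at h2
    linarith
  have hdiv2 : ∀ r : ℝ, 1 ≤ r → (m + 1) * Function.locallyFinsuppWithin.logCounting D r ≤
      Function.locallyFinsuppWithin.logCounting (Dv (Wr g)) r := by
    intro r hr
    have h1 : (m + 1) • D ≤ Dv (Wr g) := by
      intro z
      obtain ⟨c, hc, hc1, hc2⟩ := hpt z
      have h2 := order_Wr_common g z (fun k => (hg k).analyticAt z) c hc1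
      rw [← ENat.natCast_toNat (order_ne_top hWd hWne z)] at h2
      have h3 : (m + 1) * c ≤ (analyticOrderAt (Wr g) z).toNat := by exact_mod_cast h2
      rw [locallyFinsuppWithin.coe_nsmul, Pi.smul_apply, hc, Dv_apply hWd, nsmul_eq_mul]
      have h4 : (((m + 1) * c : ℕ) : ℤ) ≤ (((analyticOrderAt (Wr g) z).toNat : ℕ) : ℤ) :=
        Int.ofNat_le.mpr h3
      push_cast at h4 ⊢
      exact h4
    have h2 := Function.locallyFinsuppWithin.logCounting_le h1 hr
    rw [map_nsmul, Pi.smul_apply, nsmul_eq_mul] at h2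
    push_cast at h2
    exact h2
  have hcard : (m : ℝ) * Fintype.card (Mon m d) = (d + m) * s := by
    have := card_mul m d hm
    rw [hs, hsn]
    exact_mod_cast this
  have hs1 : 1 ≤ s := by
    have h1 : 0 < (m + d - 1).choose d := Nat.choose_pos (by omega)
    rw [hs, hsn]
    exact_mod_cast h1
  set e : ℝ := (d - 4 * m - 1) * s with he
  have hdr : (4 * m + 2 : ℝ) ≤ d := by exact_mod_cast hd
  have he1 : 1 ≤ e := by
    rw [he]
    nlinarith
  refine ⟨|C1| + 2 * m * |C2| + e * C3 + s * (m + 1) ^ 2 + 2 * m * s, by positivity, ?_⟩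
  intro r B hr hB hgood1 hgood2
  have h1 := hC1 r B hr hB hgood2
  have h2 := hC2 r B hr hB hgood1
  have h3 := hdiv1 r hr
  have h4 := hdiv2 r hr
  have h5 := hC3 r hr
  have hlogB : 0 ≤ Real.log B := Real.log_nonneg hB
  set A := circleAverage (fun z => Real.log ‖fun a => g a z‖) 0 r with hA
  set LD := Function.locallyFinsuppWithin.logCounting D r with hLD
  set LΦ := Function.locallyFinsuppWithin.logCounting (Dv Φ) r with hLΦ
  set LW := Function.locallyFinsuppWithin.logCounting (Dv (Wr g)) r with hLW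
  set LH := ∑ i, Function.locallyFinsuppWithin.logCounting
        (Dv (fun z => ∑ a, q i a * g a z)) r with hLH
  have hTC : TC g r = A - LD := rfl
  have hm0 : (0 : ℝ) ≤ m := Nat.cast_nonneg m
  have h6 := mul_le_mul_of_nonneg_left h3 hm0
  have h7 := mul_le_mul_of_nonneg_left h2 hm0
  have h8 := mul_le_mul_of_nonneg_left h4 (by linarith : (0 : ℝ) ≤ s)
  have h9 : e * TC g r ≤ C1 + 2 * m * C2 + (s * (m + 1) ^ 2 + 2 * m * s) * Real.log B := by
    rw [hTC, he]
    rw [hcard] at h1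
    have h10 : (m : ℝ) * (2 * LΦ + Fintype.card (Mon m d) * LD) =
      2 * (m * LΦ) + (d + m) * s * LD := by rw [← hcard]; ring
    rw [h10] at h6
    nlinarith
  have h10 : C1 ≤ |C1| := le_abs_self _
  have h11 : m * C2 ≤ m * |C2| := mul_le_mul_of_nonneg_left (le_abs_self _) hm0
  have h12 : TC g r + C3 ≤ e * (TC g r + C3) := by
    have : 0 ≤ TC g r + C3 := by linarith
    nlinarith
  have h13 : 0 ≤ (|C1| + 2 * m * |C2| + e * C3) * Real.log B := by positivity
  nlinarith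

end Pool.Agent.GGL
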