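import Pool.Agent.Lib_MP_b9fedf_ag.TanMain
import Pool.Agent.Lib_MP_b9fedf_ag.Green

/-! Entire curves tangent to many hyperplanes are constant. -/

set_option autoImplicit false

namespace Pool.Agent.GGL
open Filter Metric Real Set Function MeromorphicOn ValueDistribution

/-- The nondegenerate case. -/
lemma tangential_aux {n m : ℕ} (hm : 1 ≤ m) (hmn : m ≤ n) (A : Set (Fin (n + 1) → ℂ))
    (hA : ∀ P : MvPolynomial (Fin (n + 1)) ℂ, P.IsHomogeneous (4 * n + 2) →
      (∀ a ∈ A, MvPolynomial.eval a P = 0) → P = 0)
    (f : Fin (n + 1) → ℂ → ℂ) (hf : ∀ k, Differentiable ℂ (f k))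
    (htan : ∀ a ∈ A, ∀ (z : ℂ) (c : ℕ), (∀ k, (c : ℕ∞) ≤ analyticOrderAt (f k) z) →
      (∃ k, analyticOrderAt (f k) z = c) →
      analyticOrderAt (fun ζ => ∑ k, a k * f k ζ) z ≠ ((c + 1 : ℕ) : ℕ∞))
    (κ : Fin (m + 1) → Fin (n + 1)) (hli : LinearIndependent ℂ (fun b => f (κ b)))
    (B : Fin (n + 1) → Fin (m + 1) → ℂ) (hB : ∀ k, f k = ∑ b, B k b • f (κ b)) : False := by
  classical
  -- `B` restricted to the basis indices is the identity
  have hBκ : ∀ b b', B (κ b) b' = if b = b' then 1 else 0 := by
    intro b b'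
    have h1 := hB (κ b)
    have h2 : ∑ b', (B (κ b) b' - if b = b' then 1 else 0) • f (κ b') = 0 := by
      simp only [sub_smul, Finset.sum_sub_distrib, ite_smul, one_smul, zero_smul,
        Finset.sum_ite_eq, Finset.mem_univ, if_true]
      rw [← h1, sub_self]
    have h3 := (Fintype.linearIndependent_iff.mp hli) _ h2 b'
    exact sub_eq_zero.mp h3
  set A' : Set (Fin (m + 1) → ℂ) := {v | ∃ a ∈ A, v = fun b => ∑ k, a k * B k b} with hA'
  have hA'' : ∀ P : MvPolynomial (Fin (m + 1)) ℂ, P.IsHomogeneous (4 * n + 2) →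
      (∀ a ∈ A', MvPolynomial.eval a P = 0) → P = 0 := by
    intro P hP hPA
    set l : Fin (m + 1) → MvPolynomial (Fin (n + 1)) ℂ := fun b =>
      ∑ k, MvPolynomial.C (B k b) * MvPolynomial.X k with hl
    have hlh : ∀ b, (l b).IsHomogeneous 1 := by
      intro b
      apply MvPolynomial.IsHomogeneous.sum
      intro k _
      have := (MvPolynomial.isHomogeneous_C (Fin (n + 1)) (B k b)).mul
        (MvPolynomial.isHomogeneous_X ℂ k)
      rwa [zero_add] at this
    have hev : ∀ a : Fin (n + 1) → ℂ, MvPolynomial.eval a (MvPolynomial.aeval l P) =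
        MvPolynomial.eval (fun b => ∑ k, a k * B k b) P := by
      intro a
      have h1 : (MvPolynomial.eval a).comp (MvPolynomial.aeval l).toRingHom =
          MvPolynomial.eval (fun b => ∑ k, a k * B k b) := by
        apply MvPolynomial.ringHom_ext
        · intro r
          simp
        · intro b
          simp only [AlgHom.toRingHom_eq_coe, RingHom.coe_comp, RingHom.coe_coe,
            Function.comp_apply, MvPolynomial.aeval_X, MvPolynomial.eval_X, hl, map_sum, map_mul,
            MvPolynomial.eval_C]
          exact Finset.sum_congr rfl fun k _ => mul_comm _ _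
      exact congrArg (fun φ => φ P) h1
    have h2 : MvPolynomial.aeval l P = 0 := by
      apply hA
      · have := hP.aeval l hlh
        rwa [one_mul] at this
      · intro a ha
        rw [hev]
        exact hPA _ ⟨a, ha, rfl⟩
    apply MvPolynomial.funext
    intro v
    rw [map_zero]
    have h3 := hev (fun k => ∑ b, if κ b = k then v b else 0)
    rw [h2, map_zero] at h3
    rw [h3]
    suffices h5 : v = fun b' => ∑ k, (∑ b, if κ b = k then v b else 0) * B k b' by
      rw [← h5]
    funext b'
    have h4 : ∑ k, (∑ b, if κ b = k then v b else 0) * B k b' =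
        ∑ b, v b * B (κ b) b' := by
      simp only [Finset.sum_mul]
      rw [Finset.sum_comm]
      apply Finset.sum_congr rfl
      intro b _
      simp [ite_mul]
    rw [h4]
    simp only [hBκ, mul_ite, mul_one, mul_zero, Finset.sum_ite_eq', Finset.mem_univ, if_true]
  obtain ⟨q, hqA, hq⟩ := exists_uni A' hA''
  choose a haA haq using hqA
  -- compose with the exponential
  set g : Fin (m + 1) → ℂ → ℂ := fun b z => f (κ b) (Complex.exp z) with hg
  have hgd : ∀ b, Differentiable ℂ (g b) := fun b => (hf (κ b)).comp Complex.differentiable_exp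
  have hgli : LinearIndependent ℂ g := by
    rw [Fintype.linearIndependent_iff] at hli ⊢
    intro c hc
    apply hli c
    have h1 : Continuous (fun w => ∑ b, c b * f (κ b) w) :=
      continuous_finsetSum _ fun b _ => continuous_const.mul (hf (κ b)).continuous
    have h2 := eq_of_comp_exp (g := fun w => ∑ b, c b * f (κ b) w) (h := fun _ => 0) h1
      continuous_const (fun z => by
        have := congrFun hc z
        simpa [Finset.sum_apply] using this)
    ext w
    have h3 := congrFun h2 w
    simpa [Finset.sum_apply] using h3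
  have hord : ∀ (u : ℂ → ℂ) (z : ℂ), analyticOrderAt (fun ζ => u (Complex.exp ζ)) z =
      analyticOrderAt u (Complex.exp z) := by
    intro u z
    exact analyticOrderAt_comp_of_deriv_ne_zero (f := u) (g := Complex.exp) (z₀ := z)
      (by fun_prop) (by rw [Complex.deriv_exp]; exact Complex.exp_ne_zero z)
  refine no_tangential (d := 4 * n + 2) hm (by omega) q hq g hgd hgli ?_ ?_
  · intro k z
    simp only [hg]
    rw [Complex.exp_add, Complex.exp_two_pi_mul_I, mul_one]
  · intro i z c hc hc' hcon
    refine htan (a i) (haA i) (Complex.exp z) c ?_ ?_ ?_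
    · intro k
      have h1 : ∀ b, (c : ℕ∞) ≤ analyticOrderAt (f (κ b)) (Complex.exp z) := by
        intro b
        have := hc b
        rw [hg] at this
        rwa [hord (f (κ b)) z] at this
      have h2 := order_linear (B k) (fun b => f (κ b)) (Complex.exp z)
        (fun b => (hf _).analyticAt _) c h1
      have h3 : f k = fun ζ => ∑ b, B k b * f (κ b) ζ := by
        funext ζ
        rw [hB k, Finset.sum_apply]
        rfl
      rw [h3]
      exact h2
    · obtain ⟨b, hb⟩ := hc'
      refine ⟨κ b, ?_⟩
      rw [← hord (f (κ b)) z]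
      exact hb
    · rw [← hcon]
      rw [← hord (fun ζ => ∑ k, a i k * f k ζ) z]
      congr 1
      funext ζ
      simp only [hg, haq i]
      have h3 : ∀ k, f k (Complex.exp ζ) = ∑ b, B k b * f (κ b) (Complex.exp ζ) := by
        intro k
        have := congrFun (hB k) (Complex.exp ζ)
        rw [Finset.sum_apply] at this
        exact this
      calc ∑ k, a i k * f k (Complex.exp ζ)
          = ∑ k, ∑ b, a i k * (B k b * f (κ b) (Complex.exp ζ)) := by
            apply Finset.sum_congr rfl
            intro k _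
            rw [h3 k, Finset.mul_sum]
        _ = ∑ b, ∑ k, a i k * (B k b * f (κ b) (Complex.exp ζ)) := Finset.sum_comm
        _ = _ := by
            apply Finset.sum_congr rfl
            intro b _
            rw [Finset.sum_mul]
            exact Finset.sum_congr rfl fun k _ => by ring

theorem tangential {n : ℕ} (A : Set (Fin (n + 1) → ℂ))
    (hA : ∀ P : MvPolynomial (Fin (n + 1)) ℂ, P.IsHomogeneous (4 * n + 2) →
      (∀ a ∈ A, MvPolynomial.eval a P = 0) → P = 0)
    (f : Fin (n + 1) → ℂ → ℂ) (hf : ∀ k, Differentiable ℂ (f k))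
    (htan : ∀ a ∈ A, ∀ (z : ℂ) (c : ℕ), (∀ k, (c : ℕ∞) ≤ analyticOrderAt (f k) z) →
      (∃ k, analyticOrderAt (f k) z = c) →
      analyticOrderAt (fun ζ => ∑ k, a k * f k ζ) z ≠ ((c + 1 : ℕ) : ℕ∞)) :
    ∃ t : Fin (n + 1) → ℂ, t ≠ 0 ∧ ∀ z i j, t i * f j z = t j * f i z := by
  classical
  obtain ⟨κ, a, ha, hsp, hli⟩ := exists_linearIndependent' ℂ f
  have : Fintype κ := Fintype.ofInjective a ha
  obtain ⟨r, ⟨e⟩⟩ : ∃ r, Nonempty (κ ≃ Fin r) := ⟨Fintype.card κ, ⟨Fintype.equivFin κ⟩⟩
  set κ' : Fin r → Fin (n + 1) := fun i => a (e.symm i) with hκ'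
  have hli' : LinearIndependent ℂ (fun i => f (κ' i)) := hli.comp e.symm e.symm.injective
  have hmem : ∀ k, f k ∈ Submodule.span ℂ (Set.range (fun i => f (κ' i))) := by
    intro k
    have h1 : f k ∈ Submodule.span ℂ (Set.range (f ∘ a)) := by
      rw [hsp]
      exact Submodule.subset_span ⟨k, rfl⟩
    have h2 : Set.range (f ∘ a) = Set.range (fun i => f (κ' i)) := by
      ext x
      constructor
      · rintro ⟨y, rfl⟩
        exact ⟨e y, by simp [hκ']⟩
      · rintro ⟨y, rfl⟩
        exact ⟨e.symm y, rfl⟩
    rwa [h2] at h1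
  have hB : ∀ k, ∃ B : Fin r → ℂ, ∑ b, B b • f (κ' b) = f k := fun k =>
    (Submodule.mem_span_range_iff_exists_fun ℂ).mp (hmem k)
  choose B hB using hB
  have hr : r ≤ n + 1 := by
    have h1 : Function.Injective κ' := ha.comp e.symm.injective
    simpa using Fintype.card_le_of_injective κ' h1
  rcases r with _ | _ | m
  · -- all components vanish
    refine ⟨fun _ => 1, ?_, ?_⟩
    · intro h
      have := congrFun h 0
      simp at this
    · intro z i j
      have h1 : ∀ k, f k = 0 := by
        intro k
        rw [← hB k]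
        simp
      rw [h1 i, h1 j]
  · refine ⟨fun k => B k 0, ?_, ?_⟩
    · intro h
      have h1 := hB (κ' 0)
      rw [Fin.sum_univ_one] at h1
      have h2 : B (κ' 0) 0 = 0 := congrFun h (κ' 0)
      rw [h2, zero_smul] at h1
      exact hli'.ne_zero 0 h1.symm
    · intro z i j
      have h1 : ∀ k, f k z = B k 0 * f (κ' 0) z := by
        intro k
        have := congrFun (hB k) z
        rw [Fin.sum_univ_one] at this
        exact this.symm
      rw [h1 i, h1 j]
      ring
  · exfalso
    exact tangential_aux (m := m + 1) (by omega) (by omega) A hA f hf htan κ' hli' B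
      (fun k => (hB k).symm)

end Pool.Agent.GGL
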